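import Pool.Agent.SDN.SplitP

/-!
PS, P6: the number of the vertices close to a word whose short pieces stay in small boxes.
-/

set_option autoImplicit false

namespace HexObs

namespace PS

open Finset TS SDN

open scoped ENNReal

/-- the vertices v with both coordinates at a distance of at most K from c -/
def Bx (K : ℤ) (c : Pt) : Set Pt := {p | ∀ dir, |lvl dir (p - c)| ≤ K}

/-- the vertices close to one of the vertices number 0, ..., n of the word t -/
def Nb (R : ℤ) (t : List Bool) (n : ℕ) : Set Pt := {p | ∃ i, i ≤ n ∧ ∀ dir, |lvl dir (p - vx oo up t i)| ≤ R}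

lemma Nb_mono {R R' : ℤ} (h : R ≤ R') {t : List Bool} {n n' : ℕ} (hn : n ≤ n') : Nb R t n ⊆ Nb R' t n' := by
  rintro p ⟨i, hi, h1⟩
  exact ⟨i, hi.trans hn, fun dir => (h1 dir).trans h⟩

lemma lvl_sub (dir : Bool) (v w : Pt) : lvl dir (v - w) = lvl dir v - lvl dir w := by
  unfold lvl ip
  simp only [Prod.fst_sub, Prod.snd_sub]
  ring

lemma Bx_inj (c : Pt) : Set.InjOn (fun p : Pt => (lvl false (p - c), lvl true (p - c))) Set.univ := by
  rintro p - q - h
  rw [Prod.mk.injEq, lvl_false_eq, lvl_false_eq, lvl_true_eq, lvl_true_eq] at h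
  obtain ⟨h1, h2⟩ := h
  simp only [Prod.fst_sub, Prod.snd_sub] at h1 h2
  refine Prod.ext ?_ ?_ <;> omega

lemma Bx_fin {K : ℤ} (c : Pt) : (Bx K c).Finite ∧ ((Bx K c).ncard : ℝ) ≤ (2 * (max K 0 : ℤ) + 1 : ℝ) ^ 2 := by
  classical
  obtain ⟨f, hf⟩ : ∃ f : Pt → ℤ × ℤ, f = fun p => (lvl false (p - c), lvl true (p - c)) := ⟨_, rfl⟩
  have hinj : Set.InjOn f (Bx K c) := by
    rw [hf]
    exact (Bx_inj c).mono (Set.subset_univ _)
  have hmaps : Set.MapsTo f (Bx K c) ((Finset.Icc (-(max K 0)) (max K 0) ×ˢ Finset.Icc (-(max K 0)) (max K 0) : Finset (ℤ × ℤ)) : Set (ℤ × ℤ)) := by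
    intro p hp
    have h1 := abs_le.1 ((hp false).trans (le_max_left K 0))
    have h2 := abs_le.1 ((hp true).trans (le_max_left K 0))
    rw [hf, Finset.mem_coe, Finset.mem_product, Finset.mem_Icc, Finset.mem_Icc]
    exact ⟨h1, h2⟩
  have hfin : (Bx K c).Finite := Set.Finite.of_injOn hmaps hinj (Finset.finite_toSet _)
  refine ⟨hfin, ?_⟩
  have h3 := Set.ncard_le_ncard_of_injOn f hmaps hinj (Finset.finite_toSet _)
  rw [Set.ncard_coe_finset, Finset.card_product, Int.card_Icc] at h3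
  have h4 : ((max K 0 + 1 - -(max K 0)).toNat : ℝ) = 2 * (max K 0 : ℤ) + 1 := by
    have h5 : ((max K 0 + 1 - -(max K 0)).toNat : ℤ) = 2 * max K 0 + 1 := by
      have := le_max_right K 0
      omega
    exact_mod_cast h5
  calc ((Bx K c).ncard : ℝ) ≤ (((max K 0 + 1 - -(max K 0)).toNat * (max K 0 + 1 - -(max K 0)).toNat : ℕ) : ℝ) := by
        exact_mod_cast h3
    _ = _ := by
        rw [Nat.cast_mul, h4]
        ring

/-- **The number of the vertices close to a word**: short pieces of at most m steps stay in boxes of size D. -/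
theorem Nb_card {R D : ℤ} (hR : 0 ≤ R) (hD : 0 ≤ D) {m : ℕ} (hm : 1 ≤ m) {t : List Bool} {n : ℕ}
    (h : ∀ (dir : Bool) (i j : ℕ), i ≤ j → j ≤ n → j - i ≤ m →
      |lvl dir (vx oo up t j) - lvl dir (vx oo up t i)| ≤ D) :
    (Nb R t n).Finite ∧ ((Nb R t n).ncard : ℝ) ≤ ((n : ℝ) / m + 1) * (2 * (R + D : ℤ) + 1 : ℝ) ^ 2 := by
  classical
  have hsub : Nb R t n ⊆ ⋃ q ∈ Finset.range (n / m + 1), Bx (R + D) (vx oo up t (q * m)) := by
    rintro p ⟨i, hi, hp⟩
    rw [Set.mem_iUnion₂]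
    refine ⟨i / m, Finset.mem_range.2 (Nat.lt_succ_of_le (Nat.div_le_div_right hi)), fun dir => ?_⟩
    have h1 : i / m * m ≤ i := Nat.div_mul_le_self i m
    have h2 : i - i / m * m ≤ m := by
      have := Nat.div_add_mod i m
      have h3 := Nat.mod_lt i (by omega : 0 < m)
      have h4 : m * (i / m) = i / m * m := mul_comm _ _
      omega
    have h3 := h dir _ _ h1 hi h2
    have h4 := hp dir
    rw [lvl_sub] at h4 ⊢
    calc |lvl dir p - lvl dir (vx oo up t (i / m * m))| ≤ |lvl dir p - lvl dir (vx oo up t i)| +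
        |lvl dir (vx oo up t i) - lvl dir (vx oo up t (i / m * m))| := abs_sub_le _ _ _
      _ ≤ R + D := add_le_add h4 h3
  have hfinU : (⋃ q ∈ Finset.range (n / m + 1), Bx (R + D) (vx oo up t (q * m))).Finite :=
    Set.Finite.biUnion (Finset.finite_toSet _) fun q _ => (Bx_fin _).1
  refine ⟨hfinU.subset hsub, ?_⟩
  have h5 : (Nb R t n).ncard ≤ ∑ q ∈ Finset.range (n / m + 1), (Bx (R + D) (vx oo up t (q * m))).ncard :=
    (Set.ncard_le_ncard hsub hfinU).trans (Finset.set_ncard_biUnion_le _ _)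
  have h6 : (max (R + D) 0 : ℤ) = R + D := max_eq_left (by omega)
  have h7 : ((n / m : ℕ) : ℝ) ≤ (n : ℝ) / m := Nat.cast_div_le
  calc ((Nb R t n).ncard : ℝ) ≤ ∑ q ∈ Finset.range (n / m + 1), ((Bx (R + D) (vx oo up t (q * m))).ncard : ℝ) := by
        exact_mod_cast h5
    _ ≤ ∑ _q ∈ Finset.range (n / m + 1), (2 * (R + D : ℤ) + 1 : ℝ) ^ 2 := Finset.sum_le_sum fun q _ => by
        have := (Bx_fin (K := R + D) (vx oo up t (q * m))).2
        rwa [h6] at this
    _ = ((n / m : ℕ) + 1 : ℝ) * (2 * (R + D : ℤ) + 1 : ℝ) ^ 2 := by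
        rw [Finset.sum_const, Finset.card_range, nsmul_eq_mul]
        push_cast
        ring
    _ ≤ _ := mul_le_mul_of_nonneg_right (by linarith) (by positivity)

/-- no displacement x ≥ X in a time of at most x ^ b -/
def Slo (X b : ℝ) (t : List Bool) : Prop := ∀ (dir : Bool) (i j : ℕ), i < j → j ≤ t.length →
  X ≤ |((lvl dir (vx oo up t j) - lvl dir (vx oo up t i) : ℤ) : ℝ)| →
  |((lvl dir (vx oo up t j) - lvl dir (vx oo up t i) : ℤ) : ℝ)| ^ b < (j : ℝ) - i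

/-- **The neighbourhood of a slow word**: at most 50 (n R ^ (2 - b) + R ^ 2) vertices are close to the first n vertices. -/
theorem Nb_slow {X b : ℝ} (hb : 0 ≤ b) {t : List Bool} (ht : Slo X b t) {R : ℕ} (hR : 1 ≤ R) (hX : X ≤ R) {n : ℕ}
    (hn : n ≤ t.length) :
    (Nb R t n).Finite ∧ ((Nb R t n).ncard : ℝ) ≤ 50 * ((n : ℝ) * (R : ℝ) ^ (2 - b) + (R : ℝ) ^ 2) := by
  have hRR : (1 : ℝ) ≤ R := by exact_mod_cast hR
  have hR0 : (0 : ℝ) < R := by linarith
  have hRb : (1 : ℝ) ≤ (R : ℝ) ^ b := Real.one_le_rpow hRR hb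
  obtain ⟨m, hm⟩ : ∃ m : ℕ, m = ⌊(R : ℝ) ^ b⌋₊ := ⟨_, rfl⟩
  have hm1 : 1 ≤ m := by
    rw [hm]
    exact Nat.le_floor (by exact_mod_cast hRb)
  have hm2 : (m : ℝ) ≤ (R : ℝ) ^ b := by
    rw [hm]
    exact Nat.floor_le (by linarith)
  have hm3 : (R : ℝ) ^ b < m + 1 := by
    rw [hm]
    exact Nat.lt_floor_add_one _
  have hmR : (1 : ℝ) ≤ m := by exact_mod_cast hm1
  have hm4 : (R : ℝ) ^ b ≤ 2 * m := by linarith
  have key : ∀ (dir : Bool) (i j : ℕ), i ≤ j → j ≤ n → j - i ≤ m →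
      |lvl dir (vx oo up t j) - lvl dir (vx oo up t i)| ≤ (R : ℤ) := by
    intro dir i j hij hj hjm
    by_contra hcon
    push Not at hcon
    have h1 : (R : ℝ) < |((lvl dir (vx oo up t j) - lvl dir (vx oo up t i) : ℤ) : ℝ)| := by
      have : ((R : ℤ) : ℝ) < ((|lvl dir (vx oo up t j) - lvl dir (vx oo up t i)| : ℤ) : ℝ) := by exact_mod_cast hcon
      rw [Int.cast_abs] at this
      exact_mod_cast this
    have hlt : i < j := by
      rcases hij.lt_or_eq with h | h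
      · exact h
      · subst h
        rw [sub_self, abs_zero] at hcon
        omega
    have h2 := ht dir i j hlt (hj.trans hn) (hX.trans h1.le)
    have h3 : (R : ℝ) ^ b ≤ |((lvl dir (vx oo up t j) - lvl dir (vx oo up t i) : ℤ) : ℝ)| ^ b :=
      Real.rpow_le_rpow hR0.le h1.le hb
    have h4 : (j : ℝ) - i ≤ m := by
      have : (j : ℤ) - i ≤ m := by omega
      exact_mod_cast this
    linarith
  obtain ⟨h1, h2⟩ := Nb_card (R := (R : ℤ)) (D := (R : ℤ)) (by positivity) (by positivity) hm1 key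
  refine ⟨h1, h2.trans ?_⟩
  have e1 : (2 * (((R : ℤ) + (R : ℤ) : ℤ) : ℝ) + 1) ^ 2 ≤ 25 * (R : ℝ) ^ 2 := by
    push_cast
    nlinarith
  have e2 : (n : ℝ) / m ≤ 2 * n / (R : ℝ) ^ b := by
    rw [div_le_div_iff₀ (by linarith) (by linarith)]
    have : (0 : ℝ) ≤ n := Nat.cast_nonneg _
    nlinarith
  have e3 : (R : ℝ) ^ (2 - b) = (R : ℝ) ^ 2 / (R : ℝ) ^ b := by
    rw [Real.rpow_sub hR0]
    norm_num
  have hn0 : (0 : ℝ) ≤ n := Nat.cast_nonneg _
  calc ((n : ℝ) / m + 1) * (2 * (((R : ℤ) + (R : ℤ) : ℤ) : ℝ) + 1) ^ 2 ≤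
      (2 * n / (R : ℝ) ^ b + 1) * (25 * (R : ℝ) ^ 2) :=
        mul_le_mul (by linarith) e1 (by positivity) (by positivity)
    _ = 50 * (n * ((R : ℝ) ^ 2 / (R : ℝ) ^ b)) + 25 * (R : ℝ) ^ 2 := by ring
    _ ≤ 50 * ((n : ℝ) * (R : ℝ) ^ (2 - b) + (R : ℝ) ^ 2) := by
      rw [e3]
      nlinarith [sq_nonneg (R : ℝ)]

end PS

end HexObs
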