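import Pool.Agent.PS.Spread
import Pool.Agent.PHW.Cuts
import Pool.Agent.SDN.FillA

/-!
PS, P5c: leaves with many cuts whose vertices lie in a finite set of points (spread and Markov).
-/

set_option autoImplicit false

namespace HexObs

namespace PS

open Finset TS SDN

open scoped ENNReal

/-- the bridges with at least K cuts at a distance of at least s from both ends, whose vertices are in A -/
def ClB (s K : ℕ) (A : Set Pt) : Set (List Bool) :=
  {g | ∃ F : Finset ℕ, K ≤ F.card ∧ ∀ j ∈ F, s ≤ j ∧ ∃ V ∈ Brd j, ∃ c, s ≤ c ∧ ∃ W ∈ Brd c, g = V ++ W ∧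
    vx oo up V V.length ∈ A}

lemma shift_fin {A : Set Pt} (hA : A.Finite) (b : Pt) : {p : Pt | b + p ∈ A}.Finite ∧ {p : Pt | b + p ∈ A}.ncard ≤ A.ncard := by
  have hinj : Set.InjOn (fun p : Pt => b + p) {p : Pt | b + p ∈ A} := fun x _ y _ h => add_left_cancel h
  have hmaps : Set.MapsTo (fun p : Pt => b + p) {p : Pt | b + p ∈ A} A := fun p hp => hp
  exact ⟨Set.Finite.of_injOn hmaps hinj hA, Set.ncard_le_ncard_of_injOn _ hmaps hinj hA⟩

/-- the weight of the bridges with at least K marked cuts -/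
lemma mark_sum {T A B : Set (List Bool)} {K : ℕ} (h : ∀ Z ∈ T, ∃ F : Finset ℕ, K ≤ F.card ∧ ∀ j ∈ F,
    ∃ V ∈ A, ∃ W ∈ B, Z = V ++ W ∧ V ∈ Brd j) : (K : ℝ≥0∞) * gf T ≤ gf A * gf B := by
  classical
  have e1 : ∀ S : Set (List Bool), gf S = ∑' t : List Bool, (if t ∈ S then wE t else 0) := by
    intro S
    unfold gf
    rw [tsum_subtype S wE]
    refine tsum_congr fun t => ?_
    rw [Set.indicator_apply]
  have e2 : gf A * gf B = ∑' x : List Bool × List Bool, (if x.1 ∈ A ∧ x.2 ∈ B then wE x.1 * wE x.2 else 0) := by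
    rw [e1 A, e1 B, ENNReal.tsum_prod', ← ENNReal.tsum_mul_right]
    refine tsum_congr fun V => ?_
    rw [← ENNReal.tsum_mul_left]
    refine tsum_congr fun W => ?_
    by_cases hV : V ∈ A <;> by_cases hW : W ∈ B <;> simp [hV, hW]
  have e3 : (K : ℝ≥0∞) * gf T = ∑' Z : List Bool, (if Z ∈ T then (K : ℝ≥0∞) * wE Z else 0) := by
    rw [e1 T, ← ENNReal.tsum_mul_left]
    exact tsum_congr fun Z => by split_ifs <;> simp
  have e4 : ∑' x : List Bool × List Bool, (if x.1 ∈ A ∧ x.2 ∈ B then wE x.1 * wE x.2 else 0) =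
      ∑' Z : List Bool, ∑' x : List Bool × List Bool,
        (if x.1 ++ x.2 = Z ∧ x.1 ∈ A ∧ x.2 ∈ B then wE x.1 * wE x.2 else 0) := by
    rw [ENNReal.tsum_comm]
    refine tsum_congr fun x => ?_
    rw [tsum_eq_single (x.1 ++ x.2)]
    · simp
    · intro Z hZ
      rw [if_neg fun h => hZ h.1.symm]
  rw [e2, e3, e4]
  refine ENNReal.tsum_le_tsum fun Z => ?_
  by_cases hZ : Z ∈ T
  · rw [if_pos hZ]
    obtain ⟨F, hF, hFj⟩ := h Z hZ
    choose! V hV W hW hZVW hVj using hFj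
    obtain ⟨φ, hφ⟩ : ∃ φ : ℕ → List Bool × List Bool, φ = fun j => (V j, W j) := ⟨_, rfl⟩
    have hinj : Set.InjOn φ (F : Set ℕ) := by
      intro i hi j hj hij
      rw [hφ] at hij
      have h1 : V i = V j := congrArg Prod.fst hij
      have h2 := hVj i hi
      rw [h1] at h2
      exact Brd_height h2 (hVj j hj)
    have h5 : ∑ x ∈ F.image φ, (if x.1 ++ x.2 = Z ∧ x.1 ∈ A ∧ x.2 ∈ B then wE x.1 * wE x.2 else 0) ≤
        ∑' x : List Bool × List Bool, (if x.1 ++ x.2 = Z ∧ x.1 ∈ A ∧ x.2 ∈ B then wE x.1 * wE x.2 else 0) :=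
      ENNReal.sum_le_tsum _
    refine le_trans ?_ h5
    rw [Finset.sum_image hinj]
    calc (K : ℝ≥0∞) * wE Z ≤ (F.card : ℝ≥0∞) * wE Z := mul_le_mul_left (by exact_mod_cast hF) _
      _ = ∑ _j ∈ F, wE Z := by rw [Finset.sum_const, nsmul_eq_mul]
      _ ≤ _ := by
        refine Finset.sum_le_sum fun j hj => ?_
        rw [hφ]
        simp only
        rw [if_pos ⟨(hZVW j hj).symm, hV j hj, hW j hj⟩, ← wE_append, ← hZVW j hj]
  · rw [if_neg hZ]
    exact zero_le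

/-- **The free middle part of a leaf with many cuts in a finite set.** -/
theorem clz_gen : ∃ C : ℝ, 0 < C ∧ ∀ (D N e s h0 K a : ℕ) (A : Set Pt), 1 ≤ h0 → 1 ≤ K → 2 ^ e + h0 ≤ s → A.Finite →
    A.ncard ≤ a → EZ D N e (ClB s K A) (C * a * (uu h0 / h0) * UU N / K) := by
  classical
  obtain ⟨C, hC, hsp⟩ := spread
  refine ⟨C, hC, ?_⟩
  intro D N e s h0 K a A hh0 hK hs hA ha
  rintro M ⟨m, hM⟩ P1 hP1 P2 hP2 Q ⟨q, hQ⟩ h1 h2
  obtain ⟨i, hi⟩ := hP1
  obtain ⟨i2, hi2⟩ := hP2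
  rw [hgt_eq hM, hgt_eq hi.1] at h1
  rw [hgt_eq hi2.1, hgt_eq hQ] at h2
  have hX : M ++ P1 ∈ Brd (m + i) := Brd_append hM hi.1
  have hY : P2 ++ Q ∈ Brd (i2 + q) := Brd_append hi2.1 hQ
  obtain ⟨b, hb⟩ : ∃ b, b = vx oo up (M ++ P1) (M ++ P1).length := ⟨_, rfl⟩
  obtain ⟨A', hA'⟩ : ∃ A' : Set (List Bool), A' = {t | t ∈ BU ∧ h0 ≤ hgt t ∧ vx oo up t t.length ∈ {p : Pt | b + p ∈ A}} :=
    ⟨_, rfl⟩
  obtain ⟨B', hB'⟩ : ∃ B' : Set (List Bool), B' = {t | ∃ h, h ≤ N ∧ t ∈ Brd h} := ⟨_, rfl⟩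
  obtain ⟨T, hT⟩ : ∃ T : Set (List Bool), T = {Z | Z ∈ BU ∧ M ++ (P1 ++ (Z ++ (P2 ++ Q))) ∈ ClB s K A ∧
    M ++ (P1 ++ (Z ++ (P2 ++ Q))) ∈ BrR D N} := ⟨_, rfl⟩
  have hmark : ∀ Z ∈ T, ∃ F : Finset ℕ, K ≤ F.card ∧ ∀ j ∈ F, ∃ V ∈ A', ∃ W ∈ B', Z = V ++ W ∧ V ∈ Brd j := by
    rintro Z hZ
    rw [hT] at hZ
    obtain ⟨⟨z, hz⟩, ⟨F, hF, hFj⟩, H, hH1, hH2, hH3⟩ := hZ
    have hH : H = m + (i + (z + (i2 + q))) :=
      Brd_height hH3 (Brd_append hM (Brd_append hi.1 (Brd_append hz hY)))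
    refine ⟨F.image (fun j => j - (m + i)), ?_, ?_⟩
    · rw [Finset.card_image_of_injOn]
      · exact hF
      · intro x hx y hy hxy
        have hx1 := (hFj x hx).1
        have hy1 := (hFj y hy).1
        simp only at hxy
        omega
    · intro j' hj'
      obtain ⟨j, hj, rfl⟩ := Finset.mem_image.1 hj'
      obtain ⟨hsj, V, hV, c, hsc, W, hW, hg, hvA⟩ := hFj j hj
      -- the cut number j is behind P1
      obtain ⟨V', hV', hVe, hre⟩ := cut_nested (s := M ++ P1) (u := Z ++ (P2 ++ Q)) hX hV (Brd_append hz hY) hW (by omega)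
        (by rw [← hg, List.append_assoc])
      -- and in front of P2
      have hjc : H = j + c := Brd_height hH3 (hg ▸ Brd_append hV hW)
      obtain ⟨V'', hV'', hZe, hWe⟩ := cut_nested (s := V') (u := W) (s' := Z) (u' := P2 ++ Q) hV' hz hW hY (by omega)
        hre.symm
      refine ⟨V', ?_, V'', ?_, hZe, hV'⟩
      · rw [hA']
        refine ⟨⟨_, hV'⟩, ?_, ?_⟩
        · rw [hgt_eq hV']
          omega
        · show b + vx oo up V' V'.length ∈ A
          rw [hb, ← vx_cat (mem_Brd.1 hX).2.2.1, ← hVe]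
          rw [hVe, List.length_append] at hvA
          rw [hVe]
          exact hvA
      · rw [hB']
        exact ⟨_, by omega, hV''⟩
  have h3 := mark_sum hmark
  have h4 : gf A' ≤ ENNReal.ofReal (C * (uu h0 / h0) * a) := by
    rw [hA']
    obtain ⟨f1, f2⟩ := shift_fin hA b
    refine (hsp h0 hh0 _ f1).trans (ENNReal.ofReal_le_ofReal ?_)
    refine mul_le_mul_of_nonneg_left ?_ ?_
    · exact_mod_cast f2.trans ha
    · have := (uu_pos h0).le
      positivity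
  have h5 : gf B' ≤ ENNReal.ofReal (UU N) := by
    rw [hB']
    exact gf_BU_le N
  have h6 : ∑' h : ℕ, gf {Z | Z ∈ Brd h ∧ M ++ (P1 ++ (Z ++ (P2 ++ Q))) ∈ ClB s K A ∧
      M ++ (P1 ++ (Z ++ (P2 ++ Q))) ∈ BrR D N} ≤ gf T := by
    have hone : ∀ S : Set (List Bool), gf S = Rec8.sw S (fun _ => 1) := fun S => (Rec8.sw_one S).symm
    simp only [hone, Rec8.sw_ind]
    rw [ENNReal.tsum_comm]
    refine ENNReal.tsum_le_tsum fun Z => ?_
    by_cases hZ : Z ∈ T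
    · have hZ' := hZ
      rw [hT] at hZ'
      obtain ⟨⟨n, hn⟩, hp⟩ := hZ'
      rw [if_pos hZ, tsum_eq_single n]
      · rw [if_pos (show Z ∈ {Z | Z ∈ Brd n ∧ M ++ (P1 ++ (Z ++ (P2 ++ Q))) ∈ ClB s K A ∧
          M ++ (P1 ++ (Z ++ (P2 ++ Q))) ∈ BrR D N} from ⟨hn, hp⟩)]
      · intro n' hn'
        rw [if_neg]
        rintro ⟨g1, -⟩
        exact hn' (Brd_height g1 hn)
    · rw [if_neg hZ]
      refine le_of_eq (ENNReal.tsum_eq_zero.2 fun n => ?_)
      rw [if_neg]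
      rintro ⟨g1, g2⟩
      exact hZ (by rw [hT]; exact ⟨⟨n, g1⟩, g2⟩)
  refine h6.trans ?_
  have hU := Num2Aux.UU_pos N
  have hu := (uu_pos h0).le
  have hKR : (0 : ℝ) < K := by exact_mod_cast hK
  have h7 : (K : ℝ≥0∞) * gf T ≤ ENNReal.ofReal (C * a * (uu h0 / h0) * UU N) := by
    refine h3.trans ((mul_le_mul' h4 h5).trans (le_of_eq ?_))
    rw [← ENNReal.ofReal_mul (by positivity)]
    congr 1
    ring
  rw [ENNReal.ofReal_div_of_pos hKR, ENNReal.ofReal_natCast]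
  rw [ENNReal.le_div_iff_mul_le (Or.inl (by exact_mod_cast hKR.ne')) (Or.inl (ENNReal.natCast_ne_top K)), mul_comm]
  exact h7

end PS

end HexObs
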