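import Pool.Agent.PS.Defs
import Pool.Agent.PS.ClGen
import Pool.Agent.PS.Boxes
import Pool.Agent.PHW.LowA

/-!
PS, P5c: the leaves with many cuts close to the word in front of them.
-/

set_option autoImplicit false

namespace HexObs

namespace PS

open Finset TS SDN NTm

open scoped ENNReal

/-- at least K cuts of the leaf g behind the word p, at a distance of at least s from both ends of g, are r-close to the
vertices of p, and the neighbourhood of p has at most a points -/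
def ClQ (r : ℤ) (s K a : ℕ) (p : List Bool) : Set (List Bool) :=
  {g | (nbh r p p.length).ncard ≤ a ∧ ∃ F : Finset ℕ, K ≤ F.card ∧ ∀ j ∈ F, s ≤ j ∧ ∃ V ∈ Brd j, ∃ c, s ≤ c ∧
    ∃ W ∈ Brd c, g = V ++ W ∧ vx oo up (p ++ V) (p.length + V.length) ∈ nbh r p p.length}

lemma nbh_eq (r : ℤ) (t : List Bool) (n : ℕ) : nbh r t n = Nb (3 * r) t n := rfl

lemma nbh_fin (r : ℤ) (t : List Bool) (n : ℕ) : (nbh r t n).Finite := by
  have hsub : nbh r t n ⊆ ⋃ i ∈ Finset.range (n + 1), Bx (3 * r) (vx oo up t i) := by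
    rintro p ⟨i, hi, h⟩
    rw [Set.mem_iUnion₂]
    exact ⟨i, Finset.mem_range.2 (by omega), h⟩
  exact (Set.Finite.biUnion (Finset.finite_toSet _) fun i _ => (Bx_fin _).1).subset hsub

/-- the vertices behind the word p in the frame of the next step -/
lemma vx_behind (p : List Bool) : ∃ R : Pt, nrm R = 1 ∧ ∀ (V : List Bool) (j : ℕ),
    vx oo up (p ++ V) (p.length + j) = vx oo up p p.length + mulE R (vx oo up V j) := by
  have hd : dx up p p.length ∈ dirs := dx_mem upd _ _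
  have hR := rotTo_apply (dx up p p.length) upd
  refine ⟨rotTo up (dx up p p.length), nrm_rotTo upd hd, fun V j => ?_⟩
  have h1 : (p ++ V).drop p.length = V := List.drop_left
  have h2 := vx_mulE (rotTo up (dx up p p.length)) oo (vx oo up p p.length) up V j
  have h3 : vx oo up V j - oo = vx oo up V j := sub_zero _
  rw [hR, h3] at h2
  have h4 : vx oo up (p ++ V) p.length = vx oo up p p.length := vx_append (by omega)
  have h5 : dx up (p ++ V) p.length = dx up p p.length := dx_append (by omega)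
  rw [lowA_drop oo up (p ++ V) p.length j, h1, h4, h5, h2]

/-- the class of the leaves with many cuts close to the word in front of them, in the frame of the leaf -/
lemma ClQ_sub {r : ℤ} {s K a : ℕ} (p : List Bool) (ha : (nbh r p p.length).ncard ≤ a) :
    ∃ A : Set Pt, A.Finite ∧ A.ncard ≤ a ∧ ClQ r s K a p ⊆ ClB s K A := by
  obtain ⟨R, hR, hv⟩ := vx_behind p
  obtain ⟨A, hA⟩ : ∃ A : Set Pt, A = {v | vx oo up p p.length + mulE R v ∈ nbh r p p.length} := ⟨_, rfl⟩
  have hinj : Set.InjOn (fun v : Pt => vx oo up p p.length + mulE R v) A := by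
    intro x _ y _ h
    exact mulE_inj hR (add_left_cancel h)
  have hmaps : Set.MapsTo (fun v : Pt => vx oo up p p.length + mulE R v) A (nbh r p p.length) := by
    intro v hv
    rw [hA] at hv
    exact hv
  refine ⟨A, Set.Finite.of_injOn hmaps hinj (nbh_fin r p _),
    (Set.ncard_le_ncard_of_injOn _ hmaps hinj (nbh_fin r p _)).trans ha, ?_⟩
  rintro g ⟨-, F, hF, h⟩
  refine ⟨F, hF, fun j hj => ?_⟩
  obtain ⟨h1, V, hV, c, h2, W, hW, h3, h4⟩ := h j hj
  refine ⟨h1, V, hV, c, h2, W, hW, h3, ?_⟩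
  rw [hv] at h4
  rw [hA]
  exact h4

/-- **P5c.** -/
theorem clz : ∃ C : ℝ, 0 < C ∧ ∀ (D N e : ℕ) (r : ℤ) (s h0 K a : ℕ) (p : List Bool), 1 ≤ h0 → 1 ≤ K → 2 ^ e + h0 ≤ s →
    EZ D N e (ClQ r s K a p) (C * a * (uu h0 / h0) * UU N / K) := by
  obtain ⟨C, hC, h⟩ := clz_gen
  refine ⟨C, hC, ?_⟩
  intro D N e r s h0 K a p hh0 hK hs
  by_cases ha : (nbh r p p.length).ncard ≤ a
  · obtain ⟨A, hA, hAa, hsub⟩ := ClQ_sub (s := s) (K := K) p ha
    intro M hM P1 hP1 P2 hP2 Q hQ h1 h2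
    refine le_trans (ENNReal.tsum_le_tsum fun z => gf_mono ?_) (h D N e s h0 K a A hh0 hK hs hA hAa M hM P1 hP1 P2 hP2 Q hQ h1 h2)
    rintro Z ⟨g1, g2, g3⟩
    exact ⟨g1, hsub g2, g3⟩
  · intro M _ P1 _ P2 _ Q _ _ _
    refine le_trans (le_of_eq (ENNReal.tsum_eq_zero.2 fun z => ?_)) zero_le
    have : {Z | Z ∈ Brd z ∧ M ++ (P1 ++ (Z ++ (P2 ++ Q))) ∈ ClQ r s K a p ∧ M ++ (P1 ++ (Z ++ (P2 ++ Q))) ∈ BrR D N} = ∅ := by
      rw [Set.eq_empty_iff_forall_notMem]
      rintro Z ⟨-, g2, -⟩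
      exact ha g2.1
    rw [this]
    unfold gf
    simp

end PS

end HexObs
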