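import Pool.Agent.NTQ.Fun

/-!
PS, P5b: the functionals of the monotone chains, left and right parts alone.
-/

set_option autoImplicit false

namespace HexObs

namespace PS

open Finset TS SDN SDN.CN NTm

open scoped ENNReal

open NTm.FB in
/-- the left chains in front of a functional G of norm g -/
theorem fun_left : ∃ Q : ℝ, 1 ≤ Q ∧ ∀ (kc J n : ℕ) (W : ℕ → Set (List Bool)) (kp : ℕ → ℕ) (G : List Bool → ℝ≥0∞) (g : ℝ),
    Wnd kc J n W kp → 0 ≤ g → Hered G → xT (2 ^ (kc + 4)) kc G ≤ ENNReal.ofReal g → ∀ M : ℕ,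
    ∑ i ∈ range n, Rec8.sw (W i) (FL W kp G M i) ≤ ENNReal.ofReal (Q ^ (n + J + 1) * g * Ub (kc + J)) := by
  obtain ⟨K, hK1, hK⟩ := two_scale
  obtain ⟨C, δ0, hInp⟩ := inp_exists
  obtain ⟨K0, hK0, htot⟩ := totH hInp
  obtain ⟨q, hq⟩ : ∃ q : ℝ, q = 128 * K + 1 := ⟨_, rfl⟩
  have hq1 : 1 ≤ q := by linarith
  have hq2 : 2 ≤ q := by linarith
  have hq0 : 0 ≤ q := by linarith
  refine ⟨32 * K0 * q ^ 3, ?_, ?_⟩
  · have : 1 ≤ q ^ 3 := one_le_pow₀ hq1
    nlinarith
  intro kc J n W kp G g hW hg0 hGh hG M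
  have hU := Ub_pos kc
  have hUL := Ub_pos (kc + J)
  -- the left functional
  have hL := left (Q := q) hK1 (by linarith) hg0 hK hW hGh hG
  have htot2 : ∀ i, i < n → ∀ k1, k1 ≤ kp i → ∀ Φ : List Bool → ℝ≥0∞, Hered Φ →
      Rec8.sw (W i) Φ ≤ ENNReal.ofReal (32 * K0 * Ub (kc + J)) * xT (2 ^ (k1 + 4)) k1 Φ := by
    intro i hi k1 hk1 Φ hΦ
    have h2 : W i ⊆ BrR (2 ^ (k1 + 4)) (2 ^ (kp i + 5)) := by
      intro x hx
      obtain ⟨h, a1, a2, a3⟩ := hW.sub i hi hx
      refine ⟨h, le_trans ?_ a1, a2, a3⟩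
      exact Nat.pow_le_pow_right (by norm_num) (by omega)
    refine (Rec8.sw_mono h2 fun _ _ => le_rfl).trans ((htot _ _ k1 Φ hΦ le_rfl).trans ?_)
    refine mul_le_mul_left (ENNReal.ofReal_le_ofReal ?_) _
    have h3 : UU (2 ^ (kp i + 5)) ≤ 2 ^ 5 * Ub (kp i) := UU_ratio_up (kp i) 5
    have h4 : Ub (kp i) ≤ Ub (kc + J) := Ub_mono (hW.top i hi)
    calc K0 * UU (2 ^ (kp i + 5)) ≤ K0 * (2 ^ 5 * Ub (kc + J)) := by
          apply mul_le_mul_of_nonneg_left _ (by linarith)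
          linarith
      _ = _ := by ring
  have h2 : ∀ i ∈ range n, Rec8.sw (W i) (FL W kp G M i) ≤
      ENNReal.ofReal (32 * K0 * Ub (kc + J) * (g * q ^ (i + 2))) := by
    intro i hi
    rw [Finset.mem_range] at hi
    have h0 : kc ≤ kp i := by
      rw [← hW.zero]
      exact hW.mono 0 i (Nat.zero_le i)
    have ha := (htot2 i hi kc h0 _ hGh).trans (mul_le_mul_right hG _)
    cases M with
    | zero =>
      refine ha.trans ?_
      rw [← ENNReal.ofReal_mul (by positivity)]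
      apply ENNReal.ofReal_le_ofReal
      apply mul_le_mul_of_nonneg_left _ (by positivity)
      have : 1 ≤ q ^ (i + 2) := one_le_pow₀ hq1
      nlinarith
    | succ M =>
      have e : Rec8.sw (W i) (FL W kp G (M + 1) i) =
          Rec8.sw (W i) G +
          ∑ i' ∈ range (i + 1), Rec8.sw (W i) (vA (2 ^ (kp i' + 4)) (W i')
            (FL W kp G M i')) := by
        rw [← Rec8.sw_sum, ← Rec8.sw_add]
        rfl
      rw [e]
      have hL' := left (Q := q) hK1 (by linarith) hg0 hK hW hGh hG M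
      have hb : ∀ i' ∈ range (i + 1), Rec8.sw (W i) (vA (2 ^ (kp i' + 4)) (W i')
            (FL W kp G M i')) ≤
          ENNReal.ofReal (32 * K0 * Ub (kc + J) * (q ^ (i' + 1) * g)) := by
        intro i' hi'
        rw [Finset.mem_range] at hi'
        refine (htot2 i hi (kp i') (hW.mono i' i (by omega)) _ (hered_vA _ _ _)).trans
          ((mul_le_mul_right (hL' i' (by omega)) _).trans ?_)
        rw [← ENNReal.ofReal_mul (by positivity)]
      refine (add_le_add ha (Finset.sum_le_sum hb)).trans ?_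
      rw [← ENNReal.ofReal_mul (by positivity), ← ENNReal.ofReal_sum_of_nonneg (fun i' _ => by positivity),
        ← ENNReal.ofReal_add (by positivity) (by positivity)]
      apply ENNReal.ofReal_le_ofReal
      rw [← Finset.mul_sum, ← mul_add]
      apply mul_le_mul_of_nonneg_left _ (by positivity)
      rw [← Finset.sum_mul]
      have h3 := geoL (Q := q) (i + 1)
      have h4 : ∑ i' ∈ range (i + 1), q ^ (i' + 1) ≤ q ^ (i + 1 + 1) - q := by
        have h5 : 0 ≤ ∑ i' ∈ range (i + 1), q ^ (i' + 1) := Finset.sum_nonneg fun _ _ => by positivity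
        nlinarith
      have h5 : 1 + ∑ i' ∈ range (i + 1), q ^ (i' + 1) ≤ q ^ (i + 2) := by linarith
      calc g + (∑ i' ∈ range (i + 1), q ^ (i' + 1)) * g = g * (1 + ∑ i' ∈ range (i + 1), q ^ (i' + 1)) := by ring
        _ ≤ g * q ^ (i + 2) := mul_le_mul_of_nonneg_left h5 hg0
  refine (Finset.sum_le_sum h2).trans ?_
  rw [← ENNReal.ofReal_sum_of_nonneg (fun i' _ => by positivity)]
  apply ENNReal.ofReal_le_ofReal
  rw [← Finset.mul_sum, ← Finset.mul_sum]
  have h3 : ∑ i ∈ range n, q ^ (i + 2) ≤ q ^ (n + 2) := by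
    have h4 := geoL (Q := q) n
    have h5 : ∑ i ∈ range n, q ^ (i + 2) = q * ∑ i ∈ range n, q ^ (i + 1) := by
      rw [Finset.mul_sum]
      exact Finset.sum_congr rfl fun i _ => by ring
    have h6 : 0 ≤ ∑ i ∈ range n, q ^ (i + 1) := Finset.sum_nonneg fun _ _ => by positivity
    have h7 : ∑ i ∈ range n, q ^ (i + 1) ≤ q ^ (n + 1) := by nlinarith
    rw [h5]
    calc q * ∑ i ∈ range n, q ^ (i + 1) ≤ q * q ^ (n + 1) := mul_le_mul_of_nonneg_left h7 hq0
      _ = q ^ (n + 2) := by ring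
  have h6 : q ^ (n + 2) ≤ (q ^ 3) ^ (n + J + 1) := by
    rw [← pow_mul]
    exact pow_le_pow_right₀ hq1 (by omega)
  have h8 : 32 * K0 ≤ (32 * K0) ^ (n + J + 1) := by
    calc 32 * K0 = (32 * K0) ^ 1 := (pow_one _).symm
      _ ≤ _ := pow_le_pow_right₀ (by linarith) (by omega)
  have hgU : 0 ≤ g * Ub (kc + J) := by positivity
  calc 32 * K0 * Ub (kc + J) * (g * ∑ i ∈ range n, q ^ (i + 2)) =
        32 * K0 * (∑ i ∈ range n, q ^ (i + 2)) * (g * Ub (kc + J)) := by ring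
    _ ≤ (32 * K0) ^ (n + J + 1) * (q ^ 3) ^ (n + J + 1) * (g * Ub (kc + J)) := by
        apply mul_le_mul_of_nonneg_right _ hgU
        exact mul_le_mul h8 (h3.trans h6) (Finset.sum_nonneg fun _ _ => by positivity) (by positivity)
    _ = (32 * K0 * q ^ 3) ^ (n + J + 1) * g * Ub (kc + J) := by
        rw [← mul_pow]
        ring

open NTm.FB in
/-- the norm of the right chains -/
theorem fun_right : ∃ Q : ℝ, 1 ≤ Q ∧ ∀ (kc J n : ℕ) (W : ℕ → Set (List Bool)) (kp : ℕ → ℕ),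
    Wnd kc J n W kp → ∀ M : ℕ, HerD (2 ^ (kc + 4)) (FR W kp n M 0) ∧
      xT (2 ^ (kc + 4)) kc (FR W kp n M 0) ≤ ENNReal.ofReal (Q ^ (n + J + 1)) := by
  obtain ⟨K, hK1, hK⟩ := two_scale
  obtain ⟨q, hq⟩ : ∃ q : ℝ, q = 128 * K + 1 := ⟨_, rfl⟩
  have hq1 : 1 ≤ q := by linarith
  have hq2 : 2 ≤ q := by linarith
  have hq0 : 0 ≤ q := by linarith
  refine ⟨4 * q ^ 2, ?_, ?_⟩
  · have : 1 ≤ q ^ 2 := one_le_pow₀ hq1
    linarith
  intro kc J n W kp hW M
  have hU := Ub_pos kc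
  have hUJ : Ub (kc + J) ≤ 2 ^ J * Ub kc := UU_ratio_up kc J
  constructor
  · have := herD_FR (W := W) (kp := kp) (n := n) M 0
    rwa [hW.zero] at this
  · have h1 := right (Q := q) hK1 (by linarith) hK hW M 0 (by rw [hW.zero]; omega)
    rw [hW.zero, Nat.sub_zero] at h1
    refine h1.trans (ENNReal.ofReal_le_ofReal ?_)
    have hrJ : Ub (kc + J) / Ub kc ≤ 2 ^ J := by
      rw [div_le_iff₀ hU]
      exact hUJ
    have a1 : (2 : ℝ) ^ J ≤ q ^ J := pow_le_pow_left₀ (by norm_num) hq2 J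
    calc 4 * (Ub (kc + J) / Ub kc) * q ^ n ≤ 4 * q ^ J * q ^ n := by
          gcongr
          exact hrJ.trans a1
      _ = 4 * q ^ (n + J) := by rw [pow_add]; ring
      _ ≤ 4 ^ (n + J + 1) * (q ^ 2) ^ (n + J + 1) := by
          rw [← pow_mul]
          have b1 : (4 : ℝ) ≤ 4 ^ (n + J + 1) := by
            calc (4 : ℝ) = 4 ^ 1 := (pow_one _).symm
              _ ≤ _ := pow_le_pow_right₀ (by norm_num) (by omega)
          have b2 : q ^ (n + J) ≤ q ^ (2 * (n + J + 1)) := pow_le_pow_right₀ hq1 (by omega)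
          exact mul_le_mul b1 b2 (by positivity) (by positivity)
      _ = (4 * q ^ 2) ^ (n + J + 1) := by rw [mul_pow]

end PS

end HexObs
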