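import Pool.Agent.PS.Defs
import Pool.Agent.PS.FunG

/-!
PS, P5b: the mass of the bridges of the box with a leaf in a class of small norm, for all monotone decompositions; the
class may depend on the word in front of the leaf.
-/

set_option autoImplicit false

namespace HexObs

namespace PS

open Finset TS SDN SDN.CN NTm

open scoped ENNReal

/-- monotone chains behind the leaves pr; the class of the special leaf depends on the word in front of it -/
def DecP (W : ℕ → Set (List Bool)) (n M : ℕ) (S : List Bool → Set (List Bool)) : ℕ → List (List Bool) → List (List Bool) → Prop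
  | _, _, [] => False
  | i, pr, g :: gs => (g ∈ S (pre pr) ∧ pr ≠ [] ∧ gs.length ≤ M ∧ IncR W n 0 gs) ∨
      ∃ i', i' < i ∧ g ∈ W i' ∧ DecP W n M S (i' + 1) (pr ++ [g]) gs

section

variable {kc J n : ℕ} {W : ℕ → Set (List Bool)} {kp : ℕ → ℕ} {S : List Bool → Set (List Bool)}

/-- the base functional -/
noncomputable def GG (W : ℕ → Set (List Bool)) (kp : ℕ → ℕ) (kc n M : ℕ) (S : List Bool → Set (List Bool)) (t : List Bool) :
    ℝ≥0∞ := ⨆ p, vA (2 ^ (kc + 4)) (S p) (FR W kp n M 0) t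

lemma hered_GG (M : ℕ) : Hered (GG W kp kc n M S) := fun s hs t => iSup_mono fun _ => hered_vA _ _ _ s hs t

open Classical in
/-- left chains, the leaf in S (pre ls) and right chains behind the leaf g -/
lemma TLP_le (hW : Wnd kc J n W kp) (hS : ∀ p, S p ⊆ HB (2 ^ (kc + 4))) (M M' : ℕ) :
    ∀ (i : ℕ) (g : List Bool) (pr : List (List Bool)), i < n → g ∈ HB (2 ^ (kp i + 4)) →
    (∑' gs : List (List Bool), if gs.length ≤ M' + 1 ∧ (g :: gs).IsChain LFold ∧ DecP W n M S (i + 1) (pr ++ [g]) gs then SDN.wl gs else 0) ≤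
      FL W kp (GG W kp kc n M S) M' i g := by
  have hmono : ∀ (i i' : ℕ) (g : List Bool), i' ≤ i → g ∈ HB (2 ^ (kp i + 4)) → g ∈ HB (2 ^ (kp i' + 4)) := by
    rintro i i' g hi ⟨h, a1, a2⟩
    exact ⟨h, (Nat.pow_le_pow_right (by norm_num) (Nat.add_le_add_right (hW.mono i' i hi) 4)).trans a1, a2⟩
  have hR : ∀ p, ∀ g ∈ S p, (∑' gs : List (List Bool), if gs.length ≤ M ∧ (g :: gs).IsChain LFold ∧ IncR W n 0 gs then SDN.wl gs
      else 0) ≤ FR W kp n M 0 g := by
    intro p g hg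
    apply TR_le hW M 0 g
    rw [hW.zero]
    exact hS p hg
  have hbase : ∀ p g, Rec8.sw {g' | g' ∈ S p ∧ RT (2 ^ (kc + 4)) LFold g g'} (FR W kp n M 0) ≤ GG W kp kc n M S g :=
    fun p g => le_iSup (fun p => vA (2 ^ (kc + 4)) (S p) (FR W kp n M 0) g) p
  induction M' with
  | zero =>
    intro i g pr hi hg
    have hg0 : g ∈ HB (2 ^ (kc + 4)) := by
      have := hmono i 0 g (Nat.zero_le i) hg
      rwa [hW.zero] at this
    refine (CCh.tsum_list _ ?_).trans ?_
    · rw [if_neg]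
      rintro ⟨-, -, h⟩
      exact h
    · refine (sum_cons (range 1) (fun _ => {g' | g' ∈ S (pre (pr ++ [g])) ∧ RT (2 ^ (kc + 4)) LFold g g'}) (fun _ => FR W kp n M 0)
        (fun gs => gs.length ≤ 0 + 1 ∧ (g :: gs).IsChain LFold ∧ DecP W n M S (i + 1) (pr ++ [g]) gs)
        (fun _ g' gs => gs.length ≤ M ∧ (g' :: gs).IsChain LFold ∧ IncR W n 0 gs) ?_ ?_).trans ?_
      · rintro g' gs ⟨h1, h2, h3⟩
        rw [List.isChain_cons_cons] at h2
        rw [List.length_cons] at h1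
        have h0 : gs = [] := List.length_eq_zero_iff.1 (by omega)
        rcases h3 with ⟨h4, -, h5, h6⟩ | ⟨i', h4, h5, h6⟩
        · exact ⟨0, Finset.mem_range.2 (by omega), ⟨h4, RT_of hg0 h2.1⟩, h5, h2.2, h6⟩
        · rw [h0] at h6
          exact h6.elim
      · rintro _ _ g' ⟨h5, -⟩
        exact hR _ g' h5
      · rw [Finset.sum_range_one]
        exact hbase _ g
  | succ M' ih =>
    intro i g pr hi hg
    have hg0 : g ∈ HB (2 ^ (kc + 4)) := by
      have := hmono i 0 g (Nat.zero_le i) hg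
      rwa [hW.zero] at this
    refine (CCh.tsum_list _ ?_).trans ?_
    · rw [if_neg]
      rintro ⟨-, -, h⟩
      exact h
    · refine (sum_cons (range (i + 1 + 1)) (fun j => if j = 0 then {g' | g' ∈ S (pre (pr ++ [g])) ∧ RT (2 ^ (kc + 4)) LFold g g'} else
          {g' | g' ∈ W (j - 1) ∧ RT (2 ^ (kp (j - 1) + 4)) LFold g g'})
        (fun j => if j = 0 then FR W kp n M 0 else FL W kp (GG W kp kc n M S) M' (j - 1))
        (fun gs => gs.length ≤ M' + 1 + 1 ∧ (g :: gs).IsChain LFold ∧ DecP W n M S (i + 1) (pr ++ [g]) gs)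
        (fun j g' gs => if j = 0 then gs.length ≤ M ∧ (g' :: gs).IsChain LFold ∧ IncR W n 0 gs else
          gs.length ≤ M' + 1 ∧ (g' :: gs).IsChain LFold ∧ DecP W n M S (j - 1 + 1) (pr ++ [g] ++ [g']) gs) ?_ ?_).trans ?_
      · rintro g' gs ⟨h1, h2, h3⟩
        rw [List.isChain_cons_cons] at h2
        rw [List.length_cons] at h1
        rcases h3 with ⟨h4, -, h5, h6⟩ | ⟨i', h4, h5, h6⟩
        · refine ⟨0, Finset.mem_range.2 (by omega), ?_, ?_⟩
          · rw [if_pos rfl]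
            exact ⟨h4, RT_of hg0 h2.1⟩
          · rw [if_pos rfl]
            exact ⟨h5, h2.2, h6⟩
        · refine ⟨i' + 1, Finset.mem_range.2 (by omega), ?_, ?_⟩
          · rw [if_neg (by omega), Nat.add_sub_cancel]
            exact ⟨h5, RT_of (hmono i i' g (by omega) hg) h2.1⟩
          · rw [if_neg (by omega), Nat.add_sub_cancel]
            exact ⟨by omega, h2.2, h6⟩
      · rintro j hj g' h5
        rcases Nat.eq_zero_or_pos j with h0 | h0
        · rw [if_pos h0] at h5 ⊢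
          simp only [if_pos h0]
          exact hR _ g' h5.1
        · rw [if_neg (by omega)] at h5 ⊢
          simp only [if_neg (show j ≠ 0 by omega)]
          have hjn : j - 1 < n := by
            have := Finset.mem_range.1 hj
            omega
          obtain ⟨h, a1, a2, a3⟩ := hW.sub (j - 1) hjn h5.1
          exact ih (j - 1) g' (pr ++ [g]) hjn ⟨h, a1, a3⟩
      · rw [Finset.sum_range_succ', if_pos rfl, if_pos rfl, add_comm]
        refine add_le_add (hbase _ g) (le_of_eq (Finset.sum_congr rfl fun j _ => ?_))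
        rw [if_neg (Nat.succ_ne_zero j), if_neg (Nat.succ_ne_zero j), Nat.add_sub_cancel]
        rfl

lemma decP_mem {M : ℕ} : ∀ (gs : List (List Bool)) (i : ℕ) (pr : List (List Bool)), i ≤ n →
    DecP W n M S i pr gs → ∀ g ∈ gs, (∃ p, g ∈ S p) ∨ ∃ i', i' < n ∧ g ∈ W i' := by
  intro gs
  induction gs with
  | nil => intro i _ _ _ g hg; simp at hg
  | cons a gs ih =>
    rintro i pr hi (⟨h1, -, h2, h3⟩ | ⟨i', h1, h2, h3⟩) g hg
    · rw [List.mem_cons] at hg
      rcases hg with rfl | hg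
      · exact Or.inl ⟨_, h1⟩
      · exact Or.inr (incR_mem gs 0 h3 g hg)
    · rw [List.mem_cons] at hg
      rcases hg with rfl | hg
      · exact Or.inr ⟨i', by omega, h2⟩
      · exact ih (i' + 1) (pr ++ [a]) (by omega) h3 g hg

/-- the mass of the words with a special leaf behind at least one leaf -/
theorem chain_massP (hW : Wnd kc J n W kp) (hS : ∀ p, S p ⊆ HB (2 ^ (kc + 4))) (M : ℕ) :
    gf {t | ∃ us : List (List Bool), us.length ≤ M ∧ unf us = t ∧ us.IsChain LFold ∧ DecP W n M S n [] us} ≤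
      ∑ i ∈ range n, Rec8.sw (W i) (FL W kp (GG W kp kc n M S) M i) := by
  classical
  have h1 : gf {t | ∃ us : List (List Bool), us.length ≤ M ∧ unf us = t ∧ us.IsChain LFold ∧ DecP W n M S n [] us} ≤
      ∑' gs : List (List Bool), (if gs.length ≤ M ∧ gs.IsChain LFold ∧ DecP W n M S n [] gs then SDN.wl gs else 0) := by
    rw [← Rec8.sw_one]
    refine Rec8.sw_cover _ _ _ (fun gs : List (List Bool) => unf gs) ?_
    rintro t ⟨gs, a1, a2, a3, a4⟩
    refine ⟨gs, a2, ?_⟩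
    rw [if_pos ⟨a1, a3, a4⟩, mul_one, ← a2]
    refine NTm.wE_unf (fun g hg => ?_) ?_
    · rcases decP_mem gs n [] le_rfl a4 g hg with ⟨p, h⟩ | ⟨i', h2, h3⟩
      · obtain ⟨h, b1, b2⟩ := hS p h
        exact Brd_ne_nil b2 (by have := Nat.one_le_two_pow (n := kc + 4); omega)
      · obtain ⟨h, b1, b2, b3⟩ := hW.sub i' h2 h3
        exact Brd_ne_nil b3 (by have := Nat.one_le_two_pow (n := kp i' + 4); omega)
    · rintro rfl
      exact a4
  refine h1.trans ((CCh.tsum_list _ ?_).trans ?_)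
  · rw [if_neg]
    rintro ⟨-, -, h⟩
    exact h
  · refine sum_cons (range n) (fun j => W j) (fun j => FL W kp (GG W kp kc n M S) M j)
      (fun gs => gs.length ≤ M ∧ gs.IsChain LFold ∧ DecP W n M S n [] gs)
      (fun j g' gs => gs.length ≤ M + 1 ∧ (g' :: gs).IsChain LFold ∧ DecP W n M S (j + 1) ([] ++ [g']) gs) ?_ ?_
    · rintro g' gs ⟨h1, h2, h3⟩
      rw [List.length_cons] at h1
      rcases h3 with ⟨h4, h5, -⟩ | ⟨i', h4, h5, h6⟩
      · exact absurd rfl h5
      · exact ⟨i', Finset.mem_range.2 h4, h5, by omega, h2, h6⟩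
    · rintro j hj g' h5
      have hjn : j < n := Finset.mem_range.1 hj
      obtain ⟨h, a1, a2, a3⟩ := hW.sub j hjn h5
      exact TLP_le hW hS M M j g' [] hjn ⟨h, a1, a3⟩

lemma decP_of {M : ℕ} {idx : ℕ → ℕ} (hidx : ∀ h h' : ℕ, h ≤ h' → idx h ≤ idx h')
    (hmem : ∀ (g : List Bool) (h : ℕ), g ∈ Brd h → 2 ^ (kc + 4) ≤ h → h ≤ 2 ^ (kc + J) → idx h < n ∧ g ∈ W (idx h))
    {g : List Bool} {rs : List (List Bool)} (hM : rs.length ≤ M) (hrs : IncR W n 0 rs) :
    ∀ (ls : List (List Bool)) (i : ℕ) (pr : List (List Bool)), pr ++ ls ≠ [] → g ∈ S (pre (pr ++ ls)) →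
      (∀ x ∈ ls, x ∈ BrR (2 ^ (kc + 4)) (2 ^ (kc + J))) → (ls.map hgt).Pairwise (· ≥ ·) →
      (∀ x ∈ ls, idx (hgt x) < i) → DecP W n M S i pr (ls ++ g :: rs) := by
  intro ls
  induction ls with
  | nil =>
    intro i pr hne hg _ _ _
    rw [List.append_nil] at hne hg
    exact Or.inl ⟨hg, hne, hM, hrs⟩
  | cons x ls ih =>
    intro i pr hne hg h1 h2 h3
    rw [List.map_cons, List.pairwise_cons] at h2
    obtain ⟨h, a1, a2, a3⟩ := h1 x List.mem_cons_self
    obtain ⟨b1, b2⟩ := hmem x h a3 a1 a2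
    rw [← hgt_eq a3] at b1 b2
    right
    refine ⟨idx (hgt x), h3 x List.mem_cons_self, b2, ih _ (pr ++ [x]) (by simp) ?_
      (fun y hy => h1 y (List.mem_cons_of_mem _ hy)) h2.2 ?_⟩
    · rw [List.append_assoc]
      exact hg
    · intro y hy
      exact Nat.lt_succ_of_le (hidx _ _ (h2.1 (hgt y) (List.mem_map_of_mem hy)))

end

/-- the number of the pieces -/
lemma dec_len {kc J : ℕ} {t : List Bool} {ls : List (List Bool)} {g : List Bool} {rs : List (List Bool)} (ht : t ∈ BL (kc + J))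
    (h : Dec kc J t ls g rs) : (ls ++ g :: rs).length ≤ 100 * 4 ^ (kc + J) := by
  have h1 : (ls ++ g :: rs).length ≤ (unf (ls ++ g :: rs)).length := by
    apply len_unf
    · intro x hx
      obtain ⟨k, a1, a2, a3⟩ := h.mem x hx
      exact Brd_ne_nil a3 (by have := Nat.one_le_two_pow (n := kc + 4); omega)
    · simp
  rw [h.eq] at h1
  exact h1.trans (WL_length ht.2)

/-- **the event with a class that depends on the past** -/
theorem ev_f : ∃ (C : ℝ) (k0 : ℕ), 1 ≤ C ∧ ∀ (kc J : ℕ) (S : List Bool → Set (List Bool)) (δ : ℝ), k0 ≤ kc → 6 ≤ J → 0 ≤ δ →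
    (∀ Φ : List Bool → ℝ≥0∞, HerD (2 ^ (kc + 4)) Φ → xT (2 ^ (kc + 4)) kc (fun t => ⨆ p, vA (2 ^ (kc + 4)) (S p) Φ t) ≤
      ENNReal.ofReal δ * xT (2 ^ (kc + 4)) kc Φ) → gf (EvF kc J S) ≤ ENNReal.ofReal (C ^ J * δ * Ub (kc + J)) := by
  obtain ⟨V, k0, hV, hwin⟩ := win_family
  obtain ⟨Q, hQ, hfun⟩ := fun_left
  obtain ⟨Q', hQ', hfr⟩ := fun_right
  refine ⟨(Q * Q') ^ (V + 2), k0, one_le_pow₀ (one_le_mul_of_one_le_of_one_le hQ hQ'), ?_⟩
  intro kc J S δ hkc hJ hδ hS
  obtain ⟨W, kp, idx, hW, hidx, hmem⟩ := hwin kc J hkc hJ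
  obtain ⟨S', hS'⟩ : ∃ S' : List Bool → Set (List Bool), S' = fun p => S p ∩ HB (2 ^ (kc + 4)) := ⟨_, rfl⟩
  obtain ⟨M, hM⟩ : ∃ M, M = 100 * 4 ^ (kc + J) := ⟨_, rfl⟩
  have hsub : EvF kc J S ⊆ {t | ∃ us : List (List Bool), us.length ≤ M ∧ unf us = t ∧ us.IsChain LFold ∧
      DecP W (V * J) M S' (V * J) [] us} := by
    rintro t ⟨ht, ls, g, rs, hd, hne, hgS⟩
    have hlen : (ls ++ g :: rs).length ≤ M := by
      rw [hM]
      exact dec_len ht hd
    refine ⟨ls ++ g :: rs, hlen, hd.eq, hd.chain, ?_⟩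
    have hls : ∀ x ∈ ls, x ∈ BrR (2 ^ (kc + 4)) (2 ^ (kc + J)) := fun x hx => hd.mem x (List.mem_append_left _ hx)
    have hrs : ∀ x ∈ rs, x ∈ BrR (2 ^ (kc + 4)) (2 ^ (kc + J)) := fun x hx =>
      hd.mem x (List.mem_append_right _ (List.mem_cons_of_mem _ hx))
    have hg := hd.mem g (List.mem_append_right _ List.mem_cons_self)
    refine decP_of hidx hmem ?_ (inc_of hidx hmem rs 0 hrs hd.right fun _ _ => Nat.zero_le _) ls (V * J) [] hne ?_ hls
      hd.left ?_
    · rw [List.length_append, List.length_cons] at hlen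
      omega
    · rw [hS', List.nil_append]
      obtain ⟨k, a1, a2, a3⟩ := hg
      exact ⟨hgS, k, a1, a3⟩
    · intro x hx
      obtain ⟨k, a1, a2, a3⟩ := hls x hx
      have := (hmem x k a3 a1 a2).1
      rw [hgt_eq a3]
      exact this
  obtain ⟨hFh, hFx⟩ := hfr kc J (V * J) W kp hW M
  obtain ⟨g, hg⟩ : ∃ g : ℝ, g = δ * Q' ^ (V * J + J + 1) := ⟨_, rfl⟩
  have hQ0 : 0 ≤ Q' := by linarith
  have hg0 : 0 ≤ g := by
    rw [hg]
    positivity
  have hG : xT (2 ^ (kc + 4)) kc (GG W kp kc (V * J) M S') ≤ ENNReal.ofReal g := by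
    refine (xT_mono (Ψ := fun t => ⨆ p, vA (2 ^ (kc + 4)) (S p) (FR W kp (V * J) M 0) t) fun t => ?_).trans ((hS _ hFh).trans
      ((mul_le_mul_right hFx _).trans ?_))
    · refine iSup_mono fun p => ?_
      rw [hS']
      exact Rec8.sw_mono (fun x hx => ⟨hx.1.1, hx.2⟩) fun _ _ => le_rfl
    · rw [← ENNReal.ofReal_mul hδ, hg]
  refine (gf_mono hsub).trans ((chain_massP hW (fun p => by rw [hS']; exact Set.inter_subset_right) M).trans ?_)
  refine (hfun kc J (V * J) W kp _ g hW hg0 (hered_GG M) hG M).trans ?_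
  apply ENNReal.ofReal_le_ofReal
  have hU := Ub_pos (kc + J)
  have h1 : (Q * Q') ^ (V * J + J + 1) ≤ ((Q * Q') ^ (V + 2)) ^ J := by
    rw [← pow_mul]
    apply pow_le_pow_right₀ (one_le_mul_of_one_le_of_one_le hQ hQ')
    have : (V + 2) * J = V * J + 2 * J := by ring
    omega
  calc Q ^ (V * J + J + 1) * g * Ub (kc + J) = (Q * Q') ^ (V * J + J + 1) * δ * Ub (kc + J) := by
        rw [hg, mul_pow]
        ring
    _ ≤ _ := by gcongr

/-- the event for a fixed class, all monotone decompositions -/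
theorem ev_q : ∃ (C : ℝ) (k0 : ℕ), 1 ≤ C ∧ ∀ (kc J : ℕ) (S : Set (List Bool)) (δ : ℝ), k0 ≤ kc → 6 ≤ J → 0 ≤ δ →
    Sm kc S δ → gf (EvQ kc J S) ≤ ENNReal.ofReal (C ^ J * δ * Ub (kc + J)) := by
  obtain ⟨V, k0, hV, hwin⟩ := win_family
  obtain ⟨Q, hQ, hfun⟩ := fun_bound
  refine ⟨Q ^ (V + 2), k0, one_le_pow₀ hQ, ?_⟩
  intro kc J S δ hkc hJ hδ hS
  obtain ⟨W, kp, idx, hW, hidx, hmem⟩ := hwin kc J hkc hJ
  obtain ⟨S', hS'⟩ : ∃ S', S' = S ∩ HB (2 ^ (kc + 4)) := ⟨_, rfl⟩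
  obtain ⟨M, hM⟩ : ∃ M, M = 100 * 4 ^ (kc + J) := ⟨_, rfl⟩
  have hsub : EvQ kc J S ⊆ {t | ∃ us : List (List Bool), us.length ≤ M ∧ unf us = t ∧ us.IsChain LFold ∧
      DecL W (V * J) M S' (V * J) us} := by
    rintro t ⟨ht, ls, g, rs, hd, hgS1⟩
    have hlen : (ls ++ g :: rs).length ≤ M := by
      rw [hM]
      exact dec_len ht hd
    refine ⟨ls ++ g :: rs, hlen, hd.eq, hd.chain, ?_⟩
    have hls : ∀ x ∈ ls, x ∈ BrR (2 ^ (kc + 4)) (2 ^ (kc + J)) := fun x hx => hd.mem x (List.mem_append_left _ hx)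
    have hrs : ∀ x ∈ rs, x ∈ BrR (2 ^ (kc + 4)) (2 ^ (kc + J)) := fun x hx =>
      hd.mem x (List.mem_append_right _ (List.mem_cons_of_mem _ hx))
    have hg := hd.mem g (List.mem_append_right _ List.mem_cons_self)
    have hgS : g ∈ S' := by
      rw [hS']
      refine ⟨hgS1, ?_⟩
      obtain ⟨k, a1, a2, a3⟩ := hg
      exact ⟨k, a1, a3⟩
    refine dec_of hidx hmem hgS ?_ (inc_of hidx hmem rs 0 hrs hd.right fun _ _ => Nat.zero_le _) ls (V * J) hls hd.left ?_
    · rw [List.length_append, List.length_cons] at hlen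
      omega
    · intro x hx
      obtain ⟨k, a1, a2, a3⟩ := hls x hx
      have := (hmem x k a3 a1 a2).1
      rw [hgt_eq a3]
      exact this
  refine (gf_mono hsub).trans ((chain_mass hW (by rw [hS']; exact Set.inter_subset_right) M).trans ?_)
  refine (hfun kc J (V * J) W kp S' δ hW hδ (Sm_mono (by rw [hS']; exact Set.inter_subset_left) hS) M).trans ?_
  apply ENNReal.ofReal_le_ofReal
  have hU := Ub_pos (kc + J)
  have h1 : Q ^ (V * J + J + 1) ≤ (Q ^ (V + 2)) ^ J := by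
    rw [← pow_mul]
    apply pow_le_pow_right₀ hQ
    have : (V + 2) * J = V * J + 2 * J := by ring
    omega
  gcongr

end PS

end HexObs
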