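import Pool.Agent.SDN.FillN
import Pool.Agent.SDN.Dim1Defs
import Pool.Agent.SDN.XT

/-!
PS, P5a: the norm of a supremum over a family of classes of leaves (SDN.x_fillE for a class that depends on the tail).
-/

set_option autoImplicit false

namespace HexObs

open Finset TS SDN

open scoped ENNReal

open Rec8 (mb)

namespace PS

variable {C δ : ℝ}

/-- the norm of a functional that is at most the supremum of tF over the classes W with EZ (SDN.x_fillE, pointwise in the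
tail of the leaf in front) -/
theorem fam_gen (h : Inp C δ) : ∃ K c : ℝ, 1 ≤ K ∧ 0 < c ∧ ∀ (D N k e j1 : ℕ)
    (R : List Bool → List Bool → Prop) (ρ ε : ℝ) (Φ Ψ : List Bool → ℝ≥0∞), Hered Φ → RNb R → 2 ^ (k + 4) ≤ D →
    j1 + 3 ≤ e → e ≤ k → 1 ≤ ρ → UU N ≤ ρ * Ub k → 0 ≤ ε →
    (∀ t, Ψ t ≤ ⨆ (W : Set (List Bool)) (_ : EZ D N e W (ε * Ub k)), tF D N W R Φ t) →
    xT D k Ψ ≤ ENNReal.ofReal (K * ρ * ((2 : ℝ) ^ (k - e) * (2 : ℝ) ^ (-(c * ((e : ℝ) - j1))) +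
      4 ^ (k - j1) * ε)) * xT D k Φ := by
  classical
  obtain ⟨K1, c1, hK1, hc1, hg1⟩ := g1 h
  obtain ⟨K2, c2, hK2, hc2, hg2⟩ := g2o h
  obtain ⟨K3, hK3, hg3⟩ := g3 h
  obtain ⟨K4, c4, hK4, hc4, hg1o⟩ := g1o h
  obtain ⟨K5, c5, hK5, hc5, hg4⟩ := (g4_of h (g2o h))
  obtain ⟨K6, hK6, hk1⟩ := k1 h
  obtain ⟨K7, hK7, hrest⟩ := restH h
  obtain ⟨c, hc⟩ : ∃ c, c = min (min c1 c2) (min c4 c5) := ⟨_, rfl⟩
  have hc0 : 0 < c := by
    rw [hc]
    exact lt_min (lt_min hc1 hc2) (lt_min hc4 hc5)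
  have hcc1 : c ≤ c1 := by rw [hc]; exact (min_le_left _ _).trans (min_le_left _ _)
  have hcc2 : c ≤ c2 := by rw [hc]; exact (min_le_left _ _).trans (min_le_right _ _)
  have hcc4 : c ≤ c4 := by rw [hc]; exact (min_le_right _ _).trans (min_le_left _ _)
  have hcc5 : c ≤ c5 := by rw [hc]; exact (min_le_right _ _).trans (min_le_right _ _)
  refine ⟨16 * (K4 + K7 * K1 + K5 + K2 * K6 + K6 * K3), c, ?_, hc0, ?_⟩
  · nlinarith [mul_nonneg (by linarith : (0 : ℝ) ≤ K7) (by linarith : (0 : ℝ) ≤ K1),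
      mul_nonneg (by linarith : (0 : ℝ) ≤ K2) (by linarith : (0 : ℝ) ≤ K6),
      mul_nonneg (by linarith : (0 : ℝ) ≤ K6) (by linarith : (0 : ℝ) ≤ K3)]
  intro D N k e j1 R ρ ε Φ Ψ hΦ hR hD he hek hρ hN hε hΨ
  obtain ⟨x, hx⟩ : ∃ x, x = xT D k Φ := ⟨_, rfl⟩
  rw [← hx]
  refine xT_le fun b I hb hI => ?_
  obtain ⟨i, hIi⟩ := hI
  obtain ⟨S, hS⟩ : ∃ S, S = Sw D k b I := ⟨_, rfl⟩
  rw [← hS]
  obtain ⟨U, hU⟩ : ∃ U, U = UU N := ⟨_, rfl⟩
  have hU0 : 0 ≤ U := by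
    rw [hU]
    exact (Num2Aux.UU_pos N).le
  have hUk := Ub_pos k
  have hUe := Ub_pos e
  have hUj := Ub_pos j1
  obtain ⟨Θ, hΘd⟩ : ∃ Θ : ℕ → List Bool → ℝ≥0∞, Θ = fun r P =>
    x * (∑ b2 ∈ range (k + 1), mb k b2 r * Sw D k b2 P + ENNReal.ofReal (K7 * U)) := ⟨_, rfl⟩
  have hΘ : ∀ n r P, n ≤ 2 ^ (k + 1) → P ∈ Irr r →
      Rec8.sw {Z | Z ∈ BU ∧ ∃ Y ∈ Brd n, Y ++ (P ++ Z) ∈ BrR D N} (fun Z => Φ (P ++ Z)) ≤ Θ r P := by
    intro n r P hn hP
    rw [hΘd, hx, hU]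
    exact hrest D N k n r Φ P hΦ hD hn hP
  obtain ⟨θ, hθd⟩ : ∃ θ : List Bool → ℝ≥0∞, θ = fun P => ∑ b2 ∈ range (j1 + 1), x * Sw D k b2 P := ⟨_, rfl⟩
  have hθ : ∀ r P, P ∈ Irr r → Rec8.sw (Fl.QQ j1) (fun Q => Φ (P ++ Q)) ≤ θ P := by
    intro r P hP
    rw [hθd, hx]
    exact Fl.QQ_le (by omega) hP Φ
  -- the numbers
  obtain ⟨β, hβ⟩ : ∃ β : ℝ, β = (2 : ℝ) ^ (k - e) * (2 : ℝ) ^ (-(c * ((e : ℝ) - j1))) := ⟨_, rfl⟩
  have hej : (0 : ℝ) ≤ (e : ℝ) - j1 := by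
    have : (j1 : ℝ) ≤ e := by exact_mod_cast (by omega : j1 ≤ e)
    linarith
  have hβ0 : 0 ≤ β := by
    rw [hβ]
    positivity
  have hpw : ∀ c', c ≤ c' → (2 : ℝ) ^ (-(c' * ((e : ℝ) - j1))) ≤ (2 : ℝ) ^ (-(c * ((e : ℝ) - j1))) := by
    intro c' hc'
    refine Real.rpow_le_rpow_of_exponent_le (by norm_num) ?_
    have := mul_le_mul_of_nonneg_right hc' hej
    linarith
  -- B2
  obtain ⟨B2, hB2⟩ : ∃ B2, B2 = ∑' r : ℕ, (if 2 ^ (e - 1) < r then Rec8.sw (Irr r) (fun P =>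
          Rec8.sw (Fl.QQ j1) (fun Q => Φ (P ++ Q))) else 0) := ⟨_, rfl⟩
  have hB2le : B2 ≤ x * ENNReal.ofReal (K2 * β) := by
    have h1 : B2 ≤ x * ∑ b ∈ range (j1 + 1), ∑' r : ℕ, (if 2 ^ (e - 1) < r then
        Rec8.sw (Irr r) (fun P => Sw D k b P) else 0) := by
      rw [hB2, ← Summable.tsum_finsetSum (fun _ _ => ENNReal.summable), ← ENNReal.tsum_mul_left]
      refine ENNReal.tsum_le_tsum fun r => ?_
      by_cases hr : 2 ^ (e - 1) < r
      · simp only [if_pos hr]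
        refine (Rec8.sw_mono' fun P hP => hθ r P hP).trans (le_of_eq ?_)
        rw [hθd, Rec8.sw_sum, Finset.mul_sum]
        exact Finset.sum_congr rfl fun b2 _ => Rec8.sw_mul_left _ _ _
      · simp only [if_neg hr]
        exact zero_le
    refine h1.trans (mul_le_mul_right ((hg2 D k e j1 hD he hek).trans (ENNReal.ofReal_le_ofReal ?_)) _)
    rw [hβ, mul_assoc]
    refine mul_le_mul_of_nonneg_left ?_ (by linarith)
    exact mul_le_mul_of_nonneg_left (hpw c2 hcc2) (by positivity)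
  -- E
  obtain ⟨E, hE⟩ : ∃ E, E = ∑' m : ℕ, ∑' r : ℕ, mu j1 m r * Rec8.sw (Irr r) (fun P => Rec8.sw (Brd m) (fun Q =>
        Φ (P ++ Q))) := ⟨_, rfl⟩
  have hEle : E ≤ x * ENNReal.ofReal (K3 * 2 ^ (k - j1)) := by
    rw [hE, hx]
    exact (endsH_gen (D := D) (k := k) (j := j1) (by omega) Φ).trans (mul_le_mul_right (hg3 D k j1 hD (by omega)) _)
  -- the sum over M
  have hmain : Rec8.sw (Fld.BrB b) (fun M => Ψ (I ++ M)) ≤
      Rec8.sw (Fld.BrB b) (fun M => ((∑' n : ℕ, ∑' r : ℕ, (if 2 ^ (e - 1) < r ∧ n < 2 ^ (j1 + 1) then 1 else 0) *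
          Rec8.sw (Brd n) (fun X => Rec8.sw (Fl.KP1 D I M X r) (fun P => Θ r P))) +
        (∑' n : ℕ, ∑' r : ℕ, (if 2 ^ (k - 1) < r then mu k n r else 0) *
          Rec8.sw (Brd n) (fun X => Rec8.sw (Fl.KP1 D I M X r) θ)) +
        ENNReal.ofReal U * Fl.ck D k I M * B2) +
      Fl.ck D j1 I M * (ENNReal.ofReal (ε * Ub k) * E)) := by
    refine Rec8.sw_mono' fun M hM => ?_
    obtain ⟨m0, -, hM0⟩ := hM
    refine (hΨ (I ++ M)).trans (iSup₂_le fun W hW => ?_)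
    rw [Fl.tF_sw, hU, hB2, hE]
    exact Fl.leaf_bound he hek hD hR hIi.1 hM0 hΦ hW Θ hΘ θ hθ
  refine hmain.trans ?_
  rw [Rec8.sw_add, Rec8.sw_add, Rec8.sw_add]
  -- first term
  have ht1 : Rec8.sw (Fld.BrB b) (fun M => ∑' n : ℕ, ∑' r : ℕ, (if 2 ^ (e - 1) < r ∧ n < 2 ^ (j1 + 1) then 1 else 0) *
          Rec8.sw (Brd n) (fun X => Rec8.sw (Fl.KP1 D I M X r) (fun P => Θ r P))) ≤
      ENNReal.ofReal (16 * (K4 + K7 * K1) * ρ * β) * x * S := by
    have h1 := fold_sum D b j1 I (fun n r => if 2 ^ (e - 1) < r ∧ n < 2 ^ (j1 + 1) then 1 else 0)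
      (fun a r => if 2 ^ (e - 1) < r then 1 else 0)
      (fun a n r _ => by
        by_cases hh : 2 ^ (e - 1) < r
        · rw [if_pos hh]
          split_ifs
          · exact le_rfl
          · exact zero_le
        · rw [if_neg hh, if_neg (fun h => hh h.1)])
      (fun n r hn => if_neg (fun h => by omega)) (fun a r => le_rfl) Θ
    refine h1.trans ?_
    rw [hΘd]
    rw [Fl.sum_gen D k b (j1 + 2) (k + 1) I (fun _ r => if 2 ^ (e - 1) < r then 1 else 0) (mb k) x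
      (ENNReal.ofReal (K7 * U))]
    have h2 : ∑ a ∈ range (j1 + 2), ∑ b2 ∈ range (k + 1), ∑' r : ℕ, (if 2 ^ (e - 1) < r then 1 else 0) * mb k b2 r *
        Rec8.sw (Irr r) (fun P => KT D b I a P * Sw D k b2 P) ≤ ENNReal.ofReal (K4 * β) * S := by
      refine le_trans (le_of_eq ?_) ((hg1o D k e j1 b I hD he hek hb).trans ?_)
      · refine Finset.sum_congr rfl fun a _ => Finset.sum_congr rfl fun b2 _ => tsum_congr fun r => ?_
        split_ifs <;> simp
      · rw [hS]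
        refine mul_le_mul_left (ENNReal.ofReal_le_ofReal ?_) _
        rw [hβ, mul_assoc]
        refine mul_le_mul_of_nonneg_left ?_ (by linarith)
        exact mul_le_mul_of_nonneg_left (hpw c4 hcc4) (by positivity)
    have h3 : ∑ a ∈ range (j1 + 2), ∑' r : ℕ, (if 2 ^ (e - 1) < r then 1 else 0) *
        Rec8.sw (Irr r) (fun P => KT D b I a P) ≤ ENNReal.ofReal (K1 / Ub e * (2 : ℝ) ^ (-(c * ((e : ℝ) - j1)))) * S := by
      refine le_trans (le_of_eq ?_) ((hg1 D k e j1 b I hD he hek hb).trans ?_)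
      · refine Finset.sum_congr rfl fun a _ => tsum_congr fun r => ?_
        split_ifs <;> simp
      · rw [hS]
        refine mul_le_mul_left (ENNReal.ofReal_le_ofReal ?_) _
        exact mul_le_mul_of_nonneg_left (hpw c1 hcc1) (by positivity)
    calc 16 * (x * (∑ a ∈ range (j1 + 2), ∑ b2 ∈ range (k + 1), ∑' r : ℕ, (if 2 ^ (e - 1) < r then 1 else 0) *
          mb k b2 r * Rec8.sw (Irr r) (fun P => KT D b I a P * Sw D k b2 P) + ENNReal.ofReal (K7 * U) *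
          ∑ a ∈ range (j1 + 2), ∑' r : ℕ, (if 2 ^ (e - 1) < r then 1 else 0) * Rec8.sw (Irr r) (fun P => KT D b I a P)))
        ≤ 16 * (x * (ENNReal.ofReal (K4 * β) * S + ENNReal.ofReal (K7 * U) *
          (ENNReal.ofReal (K1 / Ub e * (2 : ℝ) ^ (-(c * ((e : ℝ) - j1)))) * S))) := by gcongr
      _ = (16 * (ENNReal.ofReal (K4 * β) + ENNReal.ofReal (K7 * U) *
          ENNReal.ofReal (K1 / Ub e * (2 : ℝ) ^ (-(c * ((e : ℝ) - j1)))))) * x * S := by ring
      _ ≤ _ := by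
        gcongr
        have e16 : (16 : ℝ≥0∞) = ENNReal.ofReal 16 := by norm_num
        have p1 : (0 : ℝ) ≤ K7 * U := by positivity
        have p2 : (0 : ℝ) ≤ K1 / Ub e * (2 : ℝ) ^ (-(c * ((e : ℝ) - j1))) := by positivity
        have p3 : (0 : ℝ) ≤ K4 * β := by positivity
        rw [e16, ← ENNReal.ofReal_mul p1, ← ENNReal.ofReal_add p3 (mul_nonneg p1 p2),
          ← ENNReal.ofReal_mul (by norm_num)]
        apply ENNReal.ofReal_le_ofReal
        have q1 : K7 * U * (K1 / Ub e * (2 : ℝ) ^ (-(c * ((e : ℝ) - j1)))) ≤ K7 * K1 * ρ * β := by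
          have q2 : U ≤ ρ * (2 ^ (k - e) * Ub e) := by
            rw [hU]
            refine hN.trans (mul_le_mul_of_nonneg_left (Fl.Ub_ratio hek) (by linarith))
          have q3 : U / Ub e ≤ ρ * 2 ^ (k - e) := by
            rw [div_le_iff₀ hUe]
            linarith
          calc K7 * U * (K1 / Ub e * (2 : ℝ) ^ (-(c * ((e : ℝ) - j1)))) =
              K7 * K1 * (U / Ub e) * (2 : ℝ) ^ (-(c * ((e : ℝ) - j1))) := by ring
            _ ≤ K7 * K1 * (ρ * 2 ^ (k - e)) * (2 : ℝ) ^ (-(c * ((e : ℝ) - j1))) := by gcongr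
            _ = _ := by rw [hβ]; ring
        have q4 : K4 * β ≤ K4 * ρ * β := by
          have : 0 ≤ K4 * β := p3
          nlinarith
        nlinarith
  -- second term
  have ht2 : Rec8.sw (Fld.BrB b) (fun M => ∑' n : ℕ, ∑' r : ℕ, (if 2 ^ (k - 1) < r then mu k n r else 0) *
          Rec8.sw (Brd n) (fun X => Rec8.sw (Fl.KP1 D I M X r) θ)) ≤ ENNReal.ofReal (16 * K5 * ρ * β) * x * S := by
    have h1 := fold_sum D b k I (fun n r => if 2 ^ (k - 1) < r then mu k n r else 0)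
      (fun a r => if 2 ^ (k - 1) < r then 1 else 0)
      (fun a n r _ => by
        split_ifs
        · exact (mu_le_min k n r).trans (min_le_left _ _)
        · exact le_rfl)
      (fun n r hn => by
        split_ifs
        · exact mu_eq_zero hn
        · rfl) (fun a r => le_rfl) (fun _ => θ)
    refine h1.trans ?_
    have h2 : ∑ a ∈ range (k + 2), ∑' r : ℕ, (if 2 ^ (k - 1) < r then 1 else 0) * Rec8.sw (Irr r) (fun P =>
        KT D b I a P * θ P) ≤ x * (ENNReal.ofReal (K5 * (2 : ℝ) ^ (-(c5 * ((k : ℝ) - j1)))) * S) := by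
      rw [hS]
      refine le_trans (le_of_eq ?_) (mul_le_mul_right (hg4 D k j1 b I hD (by omega) hb) x)
      rw [Finset.mul_sum]
      refine Finset.sum_congr rfl fun a _ => ?_
      rw [← Summable.tsum_finsetSum (fun _ _ => ENNReal.summable), ← ENNReal.tsum_mul_left]
      refine tsum_congr fun r => ?_
      by_cases hr : 2 ^ (k - 1) < r
      · simp only [if_pos hr, one_mul]
        rw [hθd, Finset.mul_sum]
        have e1 : ∀ P, KT D b I a P * ∑ b2 ∈ range (j1 + 1), x * Sw D k b2 P =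
            ∑ b2 ∈ range (j1 + 1), x * (KT D b I a P * Sw D k b2 P) := by
          intro P
          rw [Finset.mul_sum]
          exact Finset.sum_congr rfl fun b2 _ => by ring
        rw [Rec8.sw_congr (fun P _ => e1 P), Rec8.sw_sum]
        exact Finset.sum_congr rfl fun b2 _ => Rec8.sw_mul_left _ _ _
      · simp [if_neg hr]
    calc 16 * ∑ a ∈ range (k + 2), ∑' r : ℕ, (if 2 ^ (k - 1) < r then 1 else 0) * Rec8.sw (Irr r) (fun P =>
          KT D b I a P * θ P)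
        ≤ 16 * (x * (ENNReal.ofReal (K5 * (2 : ℝ) ^ (-(c5 * ((k : ℝ) - j1)))) * S)) := mul_le_mul_right h2 _
      _ = (16 * ENNReal.ofReal (K5 * (2 : ℝ) ^ (-(c5 * ((k : ℝ) - j1))))) * x * S := by ring
      _ ≤ _ := by
        gcongr
        have e16 : (16 : ℝ≥0∞) = ENNReal.ofReal 16 := by norm_num
        rw [e16, ← ENNReal.ofReal_mul (by norm_num)]
        apply ENNReal.ofReal_le_ofReal
        have q1 : (2 : ℝ) ^ (-(c5 * ((k : ℝ) - j1))) ≤ β := by
          rw [hβ]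
          have q2 : (1 : ℝ) ≤ 2 ^ (k - e) := one_le_pow₀ (by norm_num)
          have q3 : (2 : ℝ) ^ (-(c5 * ((k : ℝ) - j1))) ≤ (2 : ℝ) ^ (-(c * ((e : ℝ) - j1))) := by
            refine Real.rpow_le_rpow_of_exponent_le (by norm_num) ?_
            have h5 : (e : ℝ) ≤ k := by exact_mod_cast hek
            have h6 : c * ((e : ℝ) - j1) ≤ c5 * ((k : ℝ) - j1) :=
              mul_le_mul hcc5 (by linarith) hej (by linarith)
            linarith
          have q4 : (0 : ℝ) ≤ (2 : ℝ) ^ (-(c * ((e : ℝ) - j1))) := by positivity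
          nlinarith
        have q5 : K5 * (2 : ℝ) ^ (-(c5 * ((k : ℝ) - j1))) ≤ K5 * β := mul_le_mul_of_nonneg_left q1 (by linarith)
        have q6 : K5 * β ≤ K5 * ρ * β := by
          have : 0 ≤ K5 * β := by positivity
          nlinarith
        linarith
  -- third term
  have ht3 : Rec8.sw (Fld.BrB b) (fun M => ENNReal.ofReal U * Fl.ck D k I M * B2) ≤
      ENNReal.ofReal (16 * (K2 * K6) * ρ * β) * x * S := by
    rw [Rec8.sw_mul_right, Rec8.sw_mul_left]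
    have h1 := Fl.ck_sum D k k b I
    have h2 := hk1 D k k b I hD le_rfl hb
    rw [← hS] at h2
    calc ENNReal.ofReal U * Rec8.sw (Fld.BrB b) (fun M => Fl.ck D k I M) * B2
        ≤ ENNReal.ofReal U * (16 * (ENNReal.ofReal (K6 / Ub k) * S)) * (x * ENNReal.ofReal (K2 * β)) := by
          gcongr
          exact h1.trans (mul_le_mul_right h2 _)
      _ = (16 * (ENNReal.ofReal U * ENNReal.ofReal (K6 / Ub k) * ENNReal.ofReal (K2 * β))) * x * S := by ring
      _ ≤ _ := by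
        gcongr
        have e16 : (16 : ℝ≥0∞) = ENNReal.ofReal 16 := by norm_num
        rw [e16, ← ENNReal.ofReal_mul hU0, ← ENNReal.ofReal_mul (by positivity), ← ENNReal.ofReal_mul (by norm_num)]
        apply ENNReal.ofReal_le_ofReal
        have q1 : U / Ub k ≤ ρ := by
          rw [div_le_iff₀ hUk, hU]
          exact hN
        calc 16 * (U * (K6 / Ub k) * (K2 * β)) = 16 * (K2 * K6) * (U / Ub k) * β := by ring
          _ ≤ _ := by gcongr
  -- fourth term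
  have ht4 : Rec8.sw (Fld.BrB b) (fun M => Fl.ck D j1 I M * (ENNReal.ofReal (ε * Ub k) * E)) ≤
      ENNReal.ofReal (16 * (K6 * K3) * ρ * (4 ^ (k - j1) * ε)) * x * S := by
    rw [Rec8.sw_mul_right]
    have h1 := Fl.ck_sum D k j1 b I
    have h2 := hk1 D k j1 b I hD (by omega) hb
    rw [← hS] at h2
    calc Rec8.sw (Fld.BrB b) (fun M => Fl.ck D j1 I M) * (ENNReal.ofReal (ε * Ub k) * E)
        ≤ (16 * (ENNReal.ofReal (K6 / Ub j1) * S)) * (ENNReal.ofReal (ε * Ub k) *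
          (x * ENNReal.ofReal (K3 * 2 ^ (k - j1)))) := by
          gcongr
          exact h1.trans (mul_le_mul_right h2 _)
      _ = (16 * (ENNReal.ofReal (K6 / Ub j1) * ENNReal.ofReal (ε * Ub k) *
          ENNReal.ofReal (K3 * 2 ^ (k - j1)))) * x * S := by ring
      _ ≤ _ := by
        gcongr
        have e16 : (16 : ℝ≥0∞) = ENNReal.ofReal 16 := by norm_num
        rw [e16, ← ENNReal.ofReal_mul (by positivity), ← ENNReal.ofReal_mul (by positivity),
          ← ENNReal.ofReal_mul (by norm_num)]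
        apply ENNReal.ofReal_le_ofReal
        have q1 : Ub k / Ub j1 ≤ 2 ^ (k - j1) := by
          rw [div_le_iff₀ hUj]
          exact Fl.Ub_ratio (by omega)
        have q2 : (4 : ℝ) ^ (k - j1) = 2 ^ (k - j1) * 2 ^ (k - j1) := by
          rw [← mul_pow]
          norm_num
        calc 16 * (K6 / Ub j1 * (ε * Ub k) * (K3 * 2 ^ (k - j1))) =
            16 * (K6 * K3) * 1 * ((Ub k / Ub j1) * 2 ^ (k - j1) * ε) := by ring
          _ ≤ 16 * (K6 * K3) * ρ * ((2 ^ (k - j1)) * 2 ^ (k - j1) * ε) := by gcongr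
          _ = _ := by rw [q2]
  calc _ ≤ ENNReal.ofReal (16 * (K4 + K7 * K1) * ρ * β) * x * S + ENNReal.ofReal (16 * K5 * ρ * β) * x * S +
        ENNReal.ofReal (16 * (K2 * K6) * ρ * β) * x * S +
        ENNReal.ofReal (16 * (K6 * K3) * ρ * (4 ^ (k - j1) * ε)) * x * S :=
        add_le_add (add_le_add (add_le_add ht1 ht2) ht3) ht4
    _ = (ENNReal.ofReal (16 * (K4 + K7 * K1) * ρ * β) + ENNReal.ofReal (16 * K5 * ρ * β) +
        ENNReal.ofReal (16 * (K2 * K6) * ρ * β) + ENNReal.ofReal (16 * (K6 * K3) * ρ * (4 ^ (k - j1) * ε))) * x * S := by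
        ring
    _ ≤ _ := by
        rw [← hβ]
        gcongr
        have p1 : 0 ≤ 16 * (K4 + K7 * K1) * ρ * β := by positivity
        have p2 : 0 ≤ 16 * K5 * ρ * β := by positivity
        have p3 : 0 ≤ 16 * (K2 * K6) * ρ * β := by positivity
        have p4 : 0 ≤ 16 * (K6 * K3) * ρ * (4 ^ (k - j1) * ε) := by positivity
        rw [← ENNReal.ofReal_add p1 p2, ← ENNReal.ofReal_add (add_nonneg p1 p2) p3,
          ← ENNReal.ofReal_add (add_nonneg (add_nonneg p1 p2) p3) p4]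
        apply ENNReal.ofReal_le_ofReal
        have r1 : 0 ≤ ρ * β := by positivity
        have r2 : 0 ≤ ρ * (4 ^ (k - j1) * ε) := by positivity
        have r3 : 0 ≤ K7 * K1 := by positivity
        have r4 : 0 ≤ K2 * K6 := by positivity
        have r5 : 0 ≤ K6 * K3 := by positivity
        have s1 : 0 ≤ K6 * K3 * (ρ * β) := mul_nonneg r5 r1
        have s2 : 0 ≤ (K4 + K7 * K1 + K5 + K2 * K6) * (ρ * (4 ^ (k - j1) * ε)) := by positivity
        nlinarith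

/-- the form for the operators vA -/
theorem fam_norm (h : Inp C δ) : ∃ K c : ℝ, 1 ≤ K ∧ 0 < c ∧ ∀ (D N k e j1 : ℕ) (ρ ε : ℝ) (ι : Type) (S : ι → Set (List Bool))
    (Φ : List Bool → ℝ≥0∞), Hered Φ → 2 ^ (k + 4) ≤ D → j1 + 3 ≤ e → e ≤ k → 1 ≤ ρ → UU N ≤ ρ * Ub k → 0 ≤ ε →
    (∀ i, S i ⊆ BrR D N) → (∀ i, EZ D N e (S i) (ε * Ub k)) →
    xT D k (fun t => ⨆ i, vA D (S i) Φ t) ≤
      ENNReal.ofReal (K * ρ * ((2 : ℝ) ^ (k - e) * (2 : ℝ) ^ (-(c * ((e : ℝ) - j1))) + 4 ^ (k - j1) * ε)) * xT D k Φ := by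
  obtain ⟨K, c, hK, hc, hg⟩ := fam_gen h
  refine ⟨K, c, hK, hc, ?_⟩
  intro D N k e j1 ρ ε ι S Φ hΦ hD he hek hρ hN hε hS hW
  refine hg D N k e j1 LFold ρ ε Φ _ hΦ RNb_LFold hD he hek hρ hN hε fun t => iSup_le fun i => ?_
  refine le_trans ?_ (le_iSup₂ (f := fun (W : Set (List Bool)) (_ : EZ D N e W (ε * Ub k)) => tF D N W LFold Φ t)
    (S i) (hW i))
  exact Rec8.sw_mono (B := {g' | g' ∈ BrR D N ∧ g' ∈ S i ∧ RT D LFold t g'}) (fun g hg => ⟨hS i hg.1, hg.1, hg.2⟩)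
    fun _ _ => le_rfl

end PS

end HexObs
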