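import Pool.Agent.PS.ClDefs
import Pool.Agent.PS.FamN
import Pool.Agent.PS.EvF

/-!
PS, P5 (final): the bridges of the box with a leaf that has many cuts close to the word in front of it.
-/

set_option autoImplicit false

namespace HexObs

namespace PS

open Finset TS SDN NTm

open scoped ENNReal

lemma EZ_mono' {D N e : ℕ} {W W' : Set (List Bool)} {x y : ℝ} (hW : W' ⊆ W) (hxy : x ≤ y) (h : EZ D N e W x) :
    EZ D N e W' y := by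
  intro M hM P1 hP1 P2 hP2 Q hQ h1 h2
  refine (ENNReal.tsum_le_tsum fun z => gf_mono ?_).trans ((h M hM P1 hP1 P2 hP2 Q hQ h1 h2).trans
    (ENNReal.ofReal_le_ofReal hxy))
  rintro Z ⟨g1, g2, g3⟩
  exact ⟨g1, hW g2, g3⟩

/-- **No parallel strands.** -/
theorem close_event : ∃ (C c : ℝ) (k0 : ℕ), 1 ≤ C ∧ 0 < c ∧ ∀ (kc J e j1 : ℕ) (r : ℤ) (s h0 K a : ℕ), k0 ≤ kc → 6 ≤ J →
    j1 + 3 ≤ e → e ≤ kc → 1 ≤ h0 → 1 ≤ K → 2 ^ e + h0 ≤ s →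
    gf (EvF kc J (ClQ r s K a)) ≤ ENNReal.ofReal (C ^ J * ((2 : ℝ) ^ (kc - e) * (2 : ℝ) ^ (-(c * ((e : ℝ) - j1))) +
      4 ^ (kc - j1) * (a * (uu h0 / h0) / K)) * Ub (kc + J)) := by
  classical
  obtain ⟨C0, δ0, hI⟩ := inp_exists
  obtain ⟨K1, c, hK1, hc, hfam⟩ := fam_norm hI
  obtain ⟨C2, hC2, hclz⟩ := clz
  obtain ⟨C3, k0, hC3, hev⟩ := ev_f
  obtain ⟨B, hB⟩ : ∃ B : ℝ, B = K1 * (1 + C2) := ⟨_, rfl⟩
  have hB1 : 1 ≤ B := by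
    rw [hB]
    nlinarith
  refine ⟨C3 * (4 * B), c, k0, by nlinarith, hc, ?_⟩
  intro kc J e j1 r s h0 K a hkc hJ he hek hh0 hK hs
  have hKR : (0 : ℝ) < K := by exact_mod_cast hK
  have hhR : (0 : ℝ) < h0 := by exact_mod_cast hh0
  have hu := (uu_pos h0).le
  have hUk := Ub_pos kc
  obtain ⟨x, hx⟩ : ∃ x : ℝ, x = a * (uu h0 / h0) / K := ⟨_, rfl⟩
  have hx0 : 0 ≤ x := by rw [hx]; positivity
  obtain ⟨y, hy⟩ : ∃ y : ℝ, y = (2 : ℝ) ^ (kc - e) * (2 : ℝ) ^ (-(c * ((e : ℝ) - j1))) := ⟨_, rfl⟩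
  have hy0 : 0 ≤ y := by rw [hy]; positivity
  rw [← hx, ← hy]
  obtain ⟨ε, hε⟩ : ∃ ε : ℝ, ε = C2 * x * 2 ^ J := ⟨_, rfl⟩
  have hε0 : 0 ≤ ε := by rw [hε]; positivity
  obtain ⟨S, hS⟩ : ∃ S : List Bool → Set (List Bool), S = fun p => ClQ r s K a p ∩ BrR (2 ^ (kc + 4)) (2 ^ (kc + J)) :=
    ⟨_, rfl⟩
  have hsub : EvF kc J (ClQ r s K a) ⊆ EvF kc J S := by
    rintro t ⟨h1, ls, g, rs, h2, h3, h4⟩
    refine ⟨h1, ls, g, rs, h2, h3, ?_⟩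
    rw [hS]
    exact ⟨h4, h2.mem g (by simp)⟩
  have hEZ : ∀ p, EZ (2 ^ (kc + 4)) (2 ^ (kc + J)) e (S p) (ε * Ub kc) := by
    intro p
    refine EZ_mono' (W := ClQ r s K a p) (by rw [hS]; exact Set.inter_subset_left) ?_
      (hclz (2 ^ (kc + 4)) (2 ^ (kc + J)) e r s h0 K a p hh0 hK hs)
    calc C2 * a * (uu h0 / h0) * UU (2 ^ (kc + J)) / K = C2 * x * UU (2 ^ (kc + J)) := by
          rw [hx]
          ring
      _ ≤ C2 * x * (2 ^ J * Ub kc) := mul_le_mul_of_nonneg_left (UU_ratio_up kc J) (by positivity)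
      _ = ε * Ub kc := by
          rw [hε]
          ring
  have h2J : (1 : ℝ) ≤ 2 ^ J := one_le_pow₀ (by norm_num)
  obtain ⟨δ, hδ⟩ : ∃ δ : ℝ, δ = K1 * 2 ^ J * (y + 4 ^ (kc - j1) * ε) := ⟨_, rfl⟩
  have hδ0 : 0 ≤ δ := by rw [hδ]; positivity
  have hn : ∀ Φ : List Bool → ℝ≥0∞, HerD (2 ^ (kc + 4)) Φ →
      xT (2 ^ (kc + 4)) kc (fun t => ⨆ p, vA (2 ^ (kc + 4)) (S p) Φ t) ≤ ENNReal.ofReal δ * xT (2 ^ (kc + 4)) kc Φ := by
    intro Φ hΦ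
    have h1 := hfam (2 ^ (kc + 4)) (2 ^ (kc + J)) kc e j1 (2 ^ J) ε (List Bool) S Φ hΦ.her le_rfl he hek h2J
      (UU_ratio_up kc J) hε0 (fun p => by rw [hS]; exact Set.inter_subset_right) hEZ
    rw [← hy, ← hδ] at h1
    exact h1
  refine (gf_mono hsub).trans ((hev kc J S δ hkc hJ hδ0 hn).trans (ENNReal.ofReal_le_ofReal ?_))
  have hUJ := (Ub_pos (kc + J)).le
  refine mul_le_mul_of_nonneg_right ?_ hUJ
  have hBJ : B ≤ B ^ J := by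
    calc B = B ^ 1 := (pow_one B).symm
      _ ≤ B ^ J := pow_le_pow_right₀ hB1 (by omega)
  have e1 : δ ≤ (4 * B) ^ J * (y + 4 ^ (kc - j1) * x) := by
    rw [hδ, hε]
    have e2 : (4 : ℝ) ^ J = 2 ^ J * 2 ^ J := by
      rw [← mul_pow]
      norm_num
    have e3 : y + 4 ^ (kc - j1) * (C2 * x * 2 ^ J) ≤ (1 + C2) * 2 ^ J * (y + 4 ^ (kc - j1) * x) := by
      have p1 : 0 ≤ 4 ^ (kc - j1) * x := by positivity
      have p2 : y ≤ (1 + C2) * 2 ^ J * y := by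
        have : 1 ≤ (1 + C2) * 2 ^ J := by nlinarith
        nlinarith
      have p3 : 4 ^ (kc - j1) * (C2 * x * 2 ^ J) ≤ (1 + C2) * 2 ^ J * (4 ^ (kc - j1) * x) := by
        have : 0 ≤ 2 ^ J * (4 ^ (kc - j1) * x) := by positivity
        nlinarith
      nlinarith
    calc K1 * 2 ^ J * (y + 4 ^ (kc - j1) * (C2 * x * 2 ^ J)) ≤
        K1 * 2 ^ J * ((1 + C2) * 2 ^ J * (y + 4 ^ (kc - j1) * x)) := by gcongr
      _ = B * 4 ^ J * (y + 4 ^ (kc - j1) * x) := by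
          rw [hB, e2]
          ring
      _ ≤ B ^ J * 4 ^ J * (y + 4 ^ (kc - j1) * x) := by gcongr
      _ = (4 * B) ^ J * (y + 4 ^ (kc - j1) * x) := by
          rw [mul_pow]
          ring
  calc C3 ^ J * δ ≤ C3 ^ J * ((4 * B) ^ J * (y + 4 ^ (kc - j1) * x)) := by gcongr
    _ = (C3 * (4 * B)) ^ J * (y + 4 ^ (kc - j1) * x) := by
        rw [mul_pow]
        ring

end PS

end HexObs
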