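import Pool.Agent.HexObs.Gf

/-!
PS, double counting: every word of G has at least K positions at which it splits into a word of P and a word of S.
-/

set_option autoImplicit false

namespace HexObs

namespace PS

open Finset

open scoped ENNReal

/-- **double counting of the split positions** -/
theorem count_split {G P S : Set (List Bool)} {K : ℕ}
    (h : ∀ t ∈ G, ∃ X : Finset ℕ, K ≤ X.card ∧ ∀ x ∈ X, x ≤ t.length ∧ t.take x ∈ P ∧ t.drop x ∈ S) :
    (K : ℝ≥0∞) * gf G ≤ gf P * gf S := by
  classical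
  choose! X hK hX using h
  unfold gf
  rw [← ENNReal.tsum_mul_left, ← ENNReal.tsum_mul_right]
  simp_rw [← ENNReal.tsum_mul_left]
  rw [← ENNReal.tsum_prod (f := fun (a : P) (b : S) => wE a * wE b)]
  let ψ : (Σ t : G, {x : ℕ // x ∈ X t}) → P × S := fun q =>
    (⟨(q.1 : List Bool).take q.2, (hX q.1 q.1.2 q.2 q.2.2).2.1⟩, ⟨(q.1 : List Bool).drop q.2, (hX q.1 q.1.2 q.2 q.2.2).2.2⟩)
  have hψ : Function.Injective ψ := by
    rintro ⟨⟨t, ht⟩, ⟨x, hx⟩⟩ ⟨⟨t', ht'⟩, ⟨x', hx'⟩⟩ hab
    have h1 : t.take x = t'.take x' := congrArg (fun p => (p.1 : List Bool)) hab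
    have h2 : t.drop x = t'.drop x' := congrArg (fun p => (p.2 : List Bool)) hab
    have h3 : t = t' := by
      rw [← List.take_append_drop x t, ← List.take_append_drop x' t', h1, h2]
    have h4 : x = x' := by
      have h5 := congrArg List.length h1
      rw [List.length_take, List.length_take] at h5
      have h6 := (hX t ht x hx).1
      have h7 := (hX t' ht' x' hx').1
      omega
    subst h3
    subst h4
    rfl
  calc ∑' t : G, (K : ℝ≥0∞) * wE t ≤ ∑' t : G, ∑' _ : {x : ℕ // x ∈ X t}, wE t := by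
        refine ENNReal.tsum_le_tsum fun t => ?_
        rw [tsum_fintype, Finset.sum_const, nsmul_eq_mul, Finset.card_univ, Fintype.card_coe]
        gcongr
        exact hK t t.2
    _ = ∑' q : (Σ t : G, {x : ℕ // x ∈ X t}), wE q.1 :=
        (ENNReal.tsum_sigma' fun q : (Σ t : G, {x : ℕ // x ∈ X t}) => wE q.1).symm
    _ = ∑' q : (Σ t : G, {x : ℕ // x ∈ X t}), wE (ψ q).1 * wE (ψ q).2 := by
        refine tsum_congr fun q => ?_
        rw [← wE_append]
        show wE q.1 = wE ((q.1 : List Bool).take q.2 ++ (q.1 : List Bool).drop q.2)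
        rw [List.take_append_drop]
    _ ≤ ∑' p : P × S, wE p.1 * wE p.2 :=
        ENNReal.tsum_comp_le_tsum_of_injective hψ (fun p : P × S => wE p.1 * wE p.2)

end PS

end HexObs
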