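import Pool.Agent.NTQ.EventQ

/-!
PS (pointwise lower bound, short route): definitions. Text: docs PW/SHORT31, PW/47.
-/

set_option autoImplicit false

namespace HexObs

namespace PS

open Finset TS SDN NTm

open scoped ENNReal

/-- the word in front of the leaf that follows the leaves ls -/
def pre : List (List Bool) → List Bool
  | [] => []
  | g :: gs => g.dropLast ++ (!lst g) :: (!lst g) :: pre gs

/-- the monotone decomposition of t around the piece g (NTQ.geo_mono) -/
structure Dec (kc J : ℕ) (t : List Bool) (ls : List (List Bool)) (g : List Bool) (rs : List (List Bool)) : Prop where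
  eq : unf (ls ++ g :: rs) = t
  chain : (ls ++ g :: rs).IsChain LFold
  mem : ∀ x ∈ ls ++ g :: rs, x ∈ BrR (2 ^ (kc + 4)) (2 ^ (kc + J))
  left : (ls.map hgt).Pairwise (· ≥ ·)
  right : (rs.map hgt).Pairwise (· ≤ ·)

/-- the words behind a cut of the leaf g = g1 ++ g2 of a monotone decomposition, g2 of height at least 2 ^ (k1 + 4) -/
def Suf (kc J k1 : ℕ) : Set (List Bool) :=
  {c | ∃ (g1 g2 : List Bool) (rs : List (List Bool)), g1 ∈ BU ∧ g1 ++ g2 ∈ BrR (2 ^ (kc + 4)) (2 ^ (kc + J)) ∧
    g2 ∈ BrR (2 ^ (k1 + 4)) (2 ^ (kc + J)) ∧ ((g1 ++ g2) :: rs).IsChain LFold ∧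
    (∀ x ∈ rs, x ∈ BrR (2 ^ (kc + 4)) (2 ^ (kc + J))) ∧ (rs.map hgt).Pairwise (· ≤ ·) ∧
    rs.length ≤ 100 * 4 ^ (kc + J) ∧ c = unf (g2 :: rs)}

/-- p and q are close: distance at most r rows in both height directions -/
def Close (r : ℤ) (p q : Pt) : Prop := ∀ dir, |lvl dir (p - q)| ≤ 3 * r

/-- the points close to one of the vertices 0, ..., n of t -/
def nbh (r : ℤ) (t : List Bool) (n : ℕ) : Set Pt := {p | ∃ i, i ≤ n ∧ Close r p (vx oo up t i)}

/-- the bridges g with at least K cuts in the rows ≥ s whose vertex is in A (frame of g) -/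
def ClA (s K : ℕ) (A : Set Pt) : Set (List Bool) :=
  {g | ∃ F : Finset ℕ, K ≤ F.card ∧ ∀ j ∈ F, s ≤ j ∧ ∃ V ∈ Brd j, ∃ W ∈ BU, g = V ++ W ∧ vx oo up V V.length ∈ A}

/-- bridges of the box with a leaf in S (all monotone decompositions) -/
def EvQ (kc J : ℕ) (S : Set (List Bool)) : Set (List Bool) :=
  {t | t ∈ BL (kc + J) ∧ ∃ ls g rs, Dec kc J t ls g rs ∧ g ∈ S}

/-- bridges of the box with a leaf, not the first one, in a class that depends on the word in front of it -/
def EvF (kc J : ℕ) (S : List Bool → Set (List Bool)) : Set (List Bool) :=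
  {t | t ∈ BL (kc + J) ∧ ∃ ls g rs, Dec kc J t ls g rs ∧ ls ≠ [] ∧ g ∈ S (pre ls)}

/-- at least K cuts (rows ≥ s) of the leaf behind the word p are r-close to the vertices of p, and the neighbourhood of p
has at most a points -/
def ClP (r : ℤ) (s K a : ℕ) (p : List Bool) : Set (List Bool) :=
  {g | (nbh r p p.length).ncard ≤ a ∧ ∃ F : Finset ℕ, K ≤ F.card ∧ ∀ j ∈ F, s ≤ j ∧ ∃ V ∈ Brd j, ∃ W ∈ BU, g = V ++ W ∧
    vx oo up (p ++ V) (p.length + V.length) ∈ nbh r p p.length}

lemma unf_pre : ∀ (ls : List (List Bool)) (g : List Bool) (rs : List (List Bool)), unf (ls ++ g :: rs) = pre ls ++ unf (g :: rs)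
  | [], _, _ => rfl
  | [x], g, rs => by simp [unf, pre]
  | x :: y :: ls, g, rs => by
    have h := unf_pre (y :: ls) g rs
    rw [List.cons_append] at h
    simp only [List.cons_append, unf, pre]
    rw [h]
    simp [pre, List.append_assoc]

lemma unf_app {V W : List Bool} (hW : W ≠ []) : ∀ rs : List (List Bool), unf ((V ++ W) :: rs) = V ++ unf (W :: rs)
  | [] => rfl
  | r :: rs => by
    have h1 : lst (V ++ W) = lst W := by
      unfold lst
      obtain ⟨W', w, rfl⟩ : ∃ W' w, W = W' ++ [w] := by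
        rcases List.eq_nil_or_concat W with h | ⟨W', w, h⟩
        · exact absurd h hW
        · exact ⟨W', w, by rw [h, List.concat_eq_append]⟩
      rw [← List.append_assoc]
      simp [List.getLastD_eq_getLast?]
    simp only [unf]
    rw [h1, List.dropLast_append_of_ne_nil hW, List.append_assoc]

end PS

end HexObs
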