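import Pool.Agent.PS.Defs

/-!
PS, Geo1: the monotone decomposition around a leaf, with the length of the word in front of the leaf
(the proof of NTQ.geo_mono with one more conclusion).
-/

set_option autoImplicit false

namespace HexObs

namespace PS

open Finset TS SDN SDN.CN SDN.ZZ NTm

open scoped ENNReal

lemma pre_append : ∀ l1 l2 : List (List Bool), pre (l1 ++ l2) = pre l1 ++ pre l2
  | [], _ => rfl
  | x :: l1, l2 => by
    simp only [List.cons_append, pre, pre_append l1 l2, List.append_assoc]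

lemma pre_single_length {g : List Bool} (hg : g ≠ []) : (pre [g]).length = g.length + 1 := by
  have := List.length_pos_iff.2 hg
  simp only [pre, List.length_append, List.length_dropLast, List.length_cons, List.length_nil]
  omega

/-- the length of the word in front of the piece number p -/
lemma pre_len {t : List Bool} {E : ℕ → ℕ} (hE : E 0 = 0) {gs : List (List Bool)} (hne : ∀ g ∈ gs, g ≠ [])
    (hI : ∀ (q : ℕ) (hq : q < gs.length), IsH t E q gs[q]) : ∀ p, p ≤ gs.length → (pre (gs.take p)).length = st E p := by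
  intro p
  induction p with
  | zero =>
    intro _
    simp [pre, st]
  | succ p ih =>
    intro hp
    have h1 := ih (by omega)
    have h2 := (hI p (by omega)).len
    rw [List.take_succ_eq_append_getElem (by omega : p < gs.length), pre_append, List.length_append, h1,
      pre_single_length (hne _ (List.getElem_mem _))]
    have h3 : st E (p + 1) = E (p + 1) + 1 := if_neg (by omega)
    rw [h3]
    omega

/-- the monotone decomposition around the leaf number l -/
theorem geo_dec {kc J : ℕ} {t : List Bool} {m u : ℕ} {e : ℕ → ℕ} (ht : t ∈ BL (kc + J)) (h : Lf false (kc + 5) t m u e)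
    {l : ℕ} (hl : l < m) : ∃ (ls : List (List Bool)) (g : List Bool) (rs : List (List Bool)), Dec kc J t ls g rs ∧ IsLf t m e l g ∧
      (pre ls).length = st e l := by
  obtain ⟨hBU, hWL⟩ := ht
  obtain ⟨T, hT⟩ : ∃ T, t ∈ Brd T := by
    simpa [BU] using hBU
  obtain ⟨hu, hm2, h'⟩ := bridge_lf hT (by omega) h (by omega)
  obtain ⟨E, hE⟩ : ∃ E, E = ee m t.length e := ⟨_, rfl⟩
  rw [← hE] at h'
  have hR := RR_ge (b := kc + 5) (by omega)
  have hpow : (2 : ℤ) ^ (kc + 5) = 2 * 2 ^ (kc + 4) := by ring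
  have hpow1 : (1 : ℤ) ≤ 2 ^ (kc + 4) := by
    have : (1 : ℕ) ≤ 2 ^ (kc + 4) := Nat.one_le_two_pow
    exact_mod_cast this
  have E0 : E 0 = 0 := by
    rw [hE]
    exact if_pos rfl
  have Em : E m = t.length := by
    rw [hE]
    unfold ee
    rw [if_neg (by omega), if_pos rfl]
  have hlt : ∀ j, j < m → E j < E (j + 1) := h'.lt
  have hEle : ∀ j, j ≤ m → E j ≤ t.length := fun j hj => by
    rw [← Em]
    exact mono_E hlt hj le_rfl
  have hpar : ∀ j, Even (u + j) ↔ Even (j + 1) := by
    intro j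
    rw [Nat.even_add, Nat.even_add_one]
    tauto
  obtain ⟨y, hy⟩ : ∃ y : ℕ → ℤ, y = fun j => lev t (E j) := ⟨_, rfl⟩
  have hy' : ∀ j, y j = lev t (E j) := fun j => by rw [hy]
  have hA : Alt y m := by
    intro j hj
    have := h'.big j hj
    rw [NTm.sg_par (hpar j), NTm.sg_par (hpar j)] at this
    simp only [lvl_false] at this
    rw [hy', hy']
    have : (0 : ℤ) < RR (kc + 5) := by
      unfold RR
      omega
    omega
  have hpos : ∀ j, 0 < j → j ≤ m → y 0 < y j := by
    intro j j1 j2
    rw [hy', hy', E0, lev_zero]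
    have h1 : E 0 < E j := by
      have h2 := hlt 0 (by omega)
      have h3 := mono_E hlt (a := 0 + 1) (b := j) (by omega) j2
      omega
    rw [E0] at h1
    exact (lev_range hT (hEle j j2)).2.2 (by omega)
  have htop : ∀ j, j ≤ m → Tight.sg m (y j) ≤ Tight.sg m (y m) := by
    intro j j1
    rw [Tight.sg_odd hm2, Tight.sg_odd hm2, hy', hy', Em, (mem_Brd.1 hT).2.2.2]
    exact (lev_range hT (hEle j j1)).2.1
  obtain ⟨p, r, i, hpr, hw, ip, ip1, mL, mR⟩ := hw_all hA hl hpos htop
  have hipar : ∀ q, q ≤ r → (Even (i q) ↔ Even q) := by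
    intro q hq
    have := hw_par hw q hq
    rw [zero_add] at this
    exact this
  have hir : ∀ q, q ≤ r → i q ≤ m := by
    intro q hq
    rw [← hw.last]
    exact hw_mono hw hq le_rfl
  have hsg : ∀ q, q ≤ r → ∀ x, Tight.sg (i q + 1) x = Tight.sg (q + 1) x := by
    intro q hq x
    exact NTm.sg_par (by rw [Nat.even_add_one, Nat.even_add_one, hipar q hq]) x
  -- the segments
  have hseg : ∀ q, q < r → (∀ x, E (i q) < x → x ≤ E (i (q + 1)) →
      Tight.sg (q + 1) (lev t (E (i q))) < Tight.sg (q + 1) (lev t x)) ∧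
      (∀ x, E (i q) ≤ x → x ≤ E (i (q + 1)) → Tight.sg (q + 1) (lev t x) ≤ Tight.sg (q + 1) (lev t (E (i (q + 1))))) ∧
      RR (kc + 5) ≤ Tight.sg (q + 1) (lev t (E (i (q + 1)))) - Tight.sg (q + 1) (lev t (E (i q))) := by
    intro q hq
    have h1 := hw.seg q hq
    rw [hy] at h1
    have h2 := seg_times h' hu h1 (hir (q + 1) (by omega))
    simp only [hsg q (by omega)] at h2
    exact h2
  have hHH : HH t r (fun q => E (i q)) := by
    refine ⟨?_, ?_, ?_, ?_, ?_, ?_⟩
    · show E (i 0) = 0
      rw [hw.zero, E0]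
    · show E (i r) = t.length
      rw [hw.last, Em]
    · intro q hq
      have h1 := (hw.seg q hq).lt
      have h2 := hlt (i q) (by have := hir (q + 1) (by omega); omega)
      have h3 := mono_E hlt (a := i q + 1) (b := i (q + 1)) (by omega) (hir (q + 1) (by omega))
      show E (i q) < E (i (q + 1))
      omega
    · intro q hq x x1 x2
      exact (hseg q hq).1 x x1 x2
    · intro q hq x x1 x2
      exact (hseg q hq).2.1 x x1 x2
    · intro q hq
      have h1 := (hseg q hq).2.2
      unfold RR at h1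
      show 4 ≤ Tight.sg (q + 1) (lev t (E (i (q + 1)))) - Tight.sg (q + 1) (lev t (E (i q)))
      have : (2 : ℤ) ^ (kc + 4) ≥ 1 := hpow1
      omega
  obtain ⟨gs, g1, g2, g3, g4, g5⟩ := rep_gen hT hHH (by omega)
  -- the heights
  have hh : ∀ (q : ℕ) (hq : q < gs.length), ∃ k : ℕ, gs[q] ∈ Brd k ∧ hgt gs[q] = k ∧
      3 * (k : ℤ) ≤ Tight.sg (q + 1) (lev t (E (i (q + 1)))) - Tight.sg (q + 1) (lev t (E (i q))) ∧
      Tight.sg (q + 1) (lev t (E (i (q + 1)))) - Tight.sg (q + 1) (lev t (E (i q))) ≤ 3 * (k : ℤ) + 2 := by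
    intro q hq
    obtain ⟨k, -, hk⟩ := g4 gs[q] (List.getElem_mem hq)
    exact ⟨k, hk, hgt_eq hk, h_hgt hHH (by omega) hk (g5 q hq)⟩
  have hrg : ∀ q, q < r → rg y (i q) (i (q + 1)) =
      Tight.sg (q + 1) (lev t (E (i (q + 1)))) - Tight.sg (q + 1) (lev t (E (i q))) := by
    intro q hq
    unfold rg
    rw [hsg q (by omega), hsg q (by omega), hy', hy']
  have hpg : p < gs.length := by omega
  have hsplit : gs = gs.take p ++ gs[p] :: gs.drop (p + 1) := by
    rw [← List.drop_eq_getElem_cons hpg, List.take_append_drop]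
  have e1 : st (fun q => E (i q)) p = st e l := by
    unfold st
    rcases Nat.eq_zero_or_pos p with hp0 | hp0
    · have hl0 : l = 0 := by rw [← ip, hp0, hw.zero]
      rw [if_pos hp0, if_pos hl0]
    · have hl0 : 0 < l := by
        have h1 := (hw.seg 0 (by omega)).lt
        have h2 := hw_mono hw (q := 0 + 1) (q' := p) (by omega) (by omega)
        omega
      rw [if_neg (by omega), if_neg (by omega)]
      show E (i p) + 1 = e l + 1
      rw [ip, hE]
      unfold ee
      rw [if_neg (by omega), if_neg (by omega)]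
  refine ⟨gs.take p, gs[p], gs.drop (p + 1), ⟨?_, ?_, ?_, ?_, ?_⟩, ?_, ?_⟩
  · rw [← hsplit]
    exact g2
  · rw [← hsplit]
    exact g3
  · intro x hx
    rw [← hsplit] at hx
    obtain ⟨q, hq, rfl⟩ := List.getElem_of_mem hx
    obtain ⟨k, k1, k2, k3, k4⟩ := hh q hq
    have h1 := (hseg q (by omega)).2.2
    have h2 := row_top hT hWL
    have h3 := (lev_range hT (hEle (i q) (hir q (by omega))))
    have h4 := (lev_range hT (hEle (i (q + 1)) (hir (q + 1) (by omega))))
    have h5 : Tight.sg (q + 1) (lev t (E (i (q + 1)))) - Tight.sg (q + 1) (lev t (E (i q))) ≤ 3 * (T : ℤ) := by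
      unfold Tight.sg
      split_ifs <;> omega
    refine ⟨k, ?_, by omega, k1⟩
    have h6 : ((2 ^ (kc + 4) : ℕ) : ℤ) ≤ (k : ℤ) := by
      push_cast
      unfold RR at h1
      omega
    exact_mod_cast h6
  · rw [List.pairwise_map, List.pairwise_iff_getElem]
    intro q q' hq hq' hqq
    rw [List.length_take] at hq hq'
    rw [List.getElem_take, List.getElem_take]
    obtain ⟨k, k1, k2, k3, k4⟩ := hh q (by omega)
    obtain ⟨k', k1', k2', k3', k4'⟩ := hh q' (by omega)
    rw [k2, k2']
    have h1 := seq_anti (f := fun q => rg y (i q) (i (q + 1))) (a := 0) (b := p) (fun q _ hq => mL q hq) (Nat.zero_le q)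
      hqq.le (by omega)
    rw [hrg q (by omega), hrg q' (by omega)] at h1
    show k' ≤ k
    omega
  · rw [List.pairwise_map, List.pairwise_iff_getElem]
    intro q q' hq hq' hqq
    rw [List.length_drop] at hq hq'
    rw [List.getElem_drop, List.getElem_drop]
    obtain ⟨k, k1, k2, k3, k4⟩ := hh (p + 1 + q) (by omega)
    obtain ⟨k', k1', k2', k3', k4'⟩ := hh (p + 1 + q') (by omega)
    rw [k2, k2']
    have h1 := seq_anti (f := fun q => -rg y (i q) (i (q + 1))) (a := p + 1) (b := r) (fun q h1 h2 => by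
      exact neg_le_neg (mR q (by omega) h2)) (q := p + 1 + q) (q' := p + 1 + q') (by omega) (by omega) (by omega)
    rw [hrg _ (by omega), hrg _ (by omega)] at h1
    show k ≤ k'
    omega
  · -- the leaf
    have hI := g5 p hpg
    refine ⟨?_, ?_⟩
    · have h1 := hI.len
      rw [e1] at h1
      rw [h1]
      show E (i (p + 1)) = _
      rw [ip1, hE]
    · intro x hx
      have h1 := hI.lv x hx
      rw [e1] at h1
      rw [h1]
      exact NTm.sg_par (by rw [Nat.even_add_one, Nat.even_add_one, ← ip, hipar p (by omega)]) _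
  · rw [← e1]
    exact pre_len (by show E (i 0) = 0; rw [hw.zero, E0]) (fun g hg => by
      obtain ⟨k, k1, hk⟩ := g4 g hg
      exact Brd_ne_nil hk (by omega)) g5 p (by omega)

/-- a high bridge has a leaf -/
theorem lf_ex {kc h : ℕ} {t : List Bool} (ht : t ∈ Brd h) (hh : 2 ^ (kc + 6) ≤ h) :
    ∃ (m u : ℕ) (e : ℕ → ℕ), 1 ≤ m ∧ Lf false (kc + 5) t m u e := by
  obtain ⟨m, u, e, h1⟩ := lf_exists false (kc + 5) t
  refine ⟨m, u, e, ?_, h1⟩
  by_contra hm
  have hm0 : m = 0 := by omega
  subst hm0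
  have h2 := h1.start (e 0) 0 le_rfl (Nat.zero_le _)
  have h3 := h1.fin t.length (e 0) h1.le le_rfl le_rfl h1.le
  simp only [lvl_false] at h2 h3
  have h4 : lev t t.length = 3 * h := (mem_Brd.1 ht).2.2.2
  rw [lev_zero] at h2
  unfold RR at h2 h3
  have h5 : ((2 ^ (kc + 6) : ℕ) : ℤ) ≤ h := by exact_mod_cast hh
  have h6 : ((2 ^ (kc + 6) : ℕ) : ℤ) = 2 * 2 ^ (kc + 5) := by
    push_cast
    ring
  omega

end PS

end HexObs
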