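import Pool.Agent.PS.Pre
import Pool.Agent.PS.Geo1
import Pool.Agent.HexLim.Few

/-!
PS, the deterministic part: a bridge of the box whose leaves are not too tall, have many cuts and few cuts close to the
past has many split positions in every time window with a large vertical range.
-/

set_option autoImplicit false

namespace HexObs

namespace PS

open Finset TS SDN NTm

open scoped ENNReal

/-- a time window with a large vertical range contains a full leaf, if the leaves have heights less than H0 -/
theorem leaf_in' {T b m u : ℕ} {t : List Bool} {e : ℕ → ℕ} (ht : t ∈ Brd T) (hb : 1 ≤ b) (h : Lf false b t m u e) (hm : 1 ≤ m)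
    {H0 : ℕ} (hH : ∀ l, l < m → ∃ g H, IsLf t m e l g ∧ g ∈ Brd H ∧ H < H0) {i s j j' : ℕ} (his : i + s ≤ t.length)
    (hj : i ≤ j ∧ j ≤ i + s) (hj' : i ≤ j' ∧ j' ≤ i + s) (hr : 6 * (H0 : ℤ) + 8 ≤ |lev t j - lev t j'|) :
    ∃ l, l < m ∧ i ≤ st e l ∧ ee m t.length e (l + 1) ≤ i + s := by
  obtain ⟨_, _, h'⟩ := bridge_lf ht hb h (by omega)
  have key : ∀ p q, i ≤ p → p ≤ q → q ≤ i + s → 2 * (3 * (H0 : ℤ) + 4) ≤ |lev t q - lev t p| →
      ∃ l, l < m ∧ i ≤ st e l ∧ ee m t.length e (l + 1) ≤ i + s := by
    intro p q hp hpq hq hd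
    rcases split_disp h' hm hpq (by omega) hd with ⟨l, l1, l2, l3⟩ | ⟨p', q', a1, a2, a3, a4, l, l1, l2, l3⟩
    · exact ⟨l, l1, by have := (st_ge e m t.length l l1).1; omega, by omega⟩
    · exfalso
      obtain ⟨g, H, g1, g2, g3⟩ := hH l l1
      have hst := st_ge e m t.length l l1
      have hlen := g1.len
      -- a vertex of the leaf
      have hin : ∀ x, st e l ≤ x → x ≤ ee m t.length e (l + 1) →
          |lev t x - lev t (st e l)| ≤ 3 * H ∧ 0 ≤ Tight.sg (l + 1) (lev t x - lev t (st e l)) := by
        intro x h1 h2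
        obtain ⟨y, rfl⟩ : ∃ y, x = st e l + y := ⟨x - st e l, by omega⟩
        have h3 := g1.lv y (by omega)
        have h4 := lev_range g2 (i := y) (by omega)
        rw [← h3]
        refine ⟨?_, h4.1⟩
        unfold Tight.sg at h3
        rw [abs_le]
        split_ifs at h3 <;> constructor <;> omega
      have hstep : |lev t (st e l) - lev t (ee m t.length e l)| ≤ 2 := by
        rcases Nat.lt_or_ge (ee m t.length e l) (st e l) with h1 | h1
        · have h2 : st e l = ee m t.length e l + 1 := by omega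
          rw [h2, lev_succ]
          have h3 : |ip (dx up t (ee m t.length e l)) up| ≤ 2 := by
            have hd := dx_mem upd t (ee m t.length e l)
            have : ∀ d ∈ dirs, |ip d up| ≤ 2 := by decide
            exact this _ hd
          have h4 : lev t (ee m t.length e l) + ip (dx up t (ee m t.length e l)) up - lev t (ee m t.length e l) =
              ip (dx up t (ee m t.length e l)) up := by ring
          rw [h4]
          exact h3
        · have h2 : st e l = ee m t.length e l := by omega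
          rw [h2, sub_self, abs_zero]
          norm_num
      -- the displacement between two vertices of the leaf with its first fold
      have hge : ∀ x, ee m t.length e l ≤ x → x ≤ ee m t.length e (l + 1) →
          x = ee m t.length e l ∨ st e l ≤ x := by
        intro x h1 h2
        omega
      have e1 := hge p' l2 (by omega)
      have e2 := hge q' (by omega) l3
      have hH3 : (3 * H : ℤ) ≤ 3 * H0 - 3 := by omega
      have two : ∀ x y, st e l ≤ x → x ≤ ee m t.length e (l + 1) → st e l ≤ y → y ≤ ee m t.length e (l + 1) →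
          |lev t x - lev t y| ≤ 3 * H := by
        intro x y x1 x2 y1 y2
        obtain ⟨b1, b2⟩ := hin x x1 x2
        obtain ⟨c1, c2⟩ := hin y y1 y2
        unfold Tight.sg at b2 c2
        rw [abs_le] at b1 c1 ⊢
        split_ifs at b2 c2 <;> constructor <;> omega
      have a5 : |lev t q' - lev t p'| ≤ 3 * H + 2 := by
        rcases e1 with e1 | e1 <;> rcases e2 with e2 | e2
        · rw [e1, e2, sub_self, abs_zero]
          positivity
        · rw [e1]
          have b1 := hin q' e2 l3
          have b2 : lev t q' - lev t (ee m t.length e l) =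
              (lev t q' - lev t (st e l)) + (lev t (st e l) - lev t (ee m t.length e l)) := by ring
          rw [b2]
          refine (abs_add_le _ _).trans ?_
          omega
        · rw [e2]
          have b0 : q' = p' := by omega
          rw [← e2, b0, sub_self, abs_zero]
          positivity
        · have b1 := two q' p' e2 l3 e1 (by omega)
          omega
      omega
  rcases Nat.le_total j j' with h1 | h1
  · exact key j j' hj.1 h1 hj'.2 (by rw [abs_sub_comm]; linarith)
  · exact key j' j hj'.1 h1 hj.2 (by linarith)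

/-- **The split positions in a time window.** The hypothesis hpre is the statement on one cut. -/
theorem det {kc J k1 r0 K K' H0 i s T : ℕ} {r : ℤ} {t : List Bool} (ht : t ∈ BL (kc + J)) (htT : t ∈ Brd T)
    (hT : 2 ^ (kc + 6) ≤ T) (hi : 1 ≤ i) (his : i + s ≤ t.length)
    (hfew : ∀ ls g rs H, Dec kc J t ls g rs → g ∈ Brd H → K ≤ (Ex.cutsIn g r0 (H - r0)).card)
    (htall : ∀ ls g rs H, Dec kc J t ls g rs → g ∈ CL (kc + 5) → g ∈ Brd H → H < H0)
    (hclose : ∀ ls g rs, Dec kc J t ls g rs → ls ≠ [] → ∀ F : Finset ℕ, (∀ j ∈ F, r0 ≤ j ∧ ∃ V ∈ Brd j, ∃ c, r0 ≤ c ∧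
      ∃ W ∈ Brd c, g = V ++ W ∧ vx oo up (pre ls ++ V) ((pre ls).length + V.length) ∈ nbh r (pre ls) (pre ls).length) →
      F.card ≤ K')
    (hpre : ∀ (m u : ℕ) (e : ℕ → ℕ) (l : ℕ) (ls : List (List Bool)) (g : List Bool) (rs : List (List Bool))
      (V W : List Bool) (a c : ℕ), Lf false (kc + 5) t m u e → l < m → Dec kc J t ls g rs → IsLf t m e l g →
      (pre ls).length = st e l → g = V ++ W → V ∈ Brd a → W ∈ Brd c → r0 ≤ a → r0 ≤ c →
      vx oo up (pre ls ++ V) ((pre ls).length + V.length) ∉ nbh r (pre ls) (pre ls).length →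
      (∃ σ, PreC r (pre ls ++ V) σ) ∧ unf (W :: rs) ∈ Suf kc J k1)
    (hW : ∀ W : List Bool, ∀ c, W ∈ Brd c → r0 ≤ c → W ≠ [])
    (hr : ∃ j j', (i ≤ j ∧ j ≤ i + s) ∧ (i ≤ j' ∧ j' ≤ i + s) ∧ 6 * (H0 : ℤ) + 8 ≤ |lev t j - lev t j'|) :
    ∃ X : Finset ℕ, K ≤ X.card + K' ∧ ∀ x ∈ X, i ≤ x ∧ x ≤ i + s ∧ (∃ σ, PreC r (t.take x) σ) ∧
      t.drop x ∈ Suf kc J k1 := by
  classical
  obtain ⟨m, u, e, hm, hLf⟩ := lf_ex htT hT
  obtain ⟨j, j', hj, hj', hjj⟩ := hr
  obtain ⟨l, hl, hl1, hl2⟩ := leaf_in' htT (by omega) hLf hm (H0 := H0) (fun l hl => by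
    obtain ⟨ls, g, rs, h1, h2, _⟩ := geo_dec ht hLf hl
    obtain ⟨H, _, _, h3⟩ := h1.mem g (by simp)
    exact ⟨g, H, h2, h3, htall ls g rs H h1 (isLf_cl htT (by omega) hLf hl h2) h3⟩) his hj hj' hjj
  obtain ⟨ls, g, rs, hD, hg, hlen⟩ := geo_dec ht hLf hl
  obtain ⟨H, hH1, hH2, hgH⟩ := hD.mem g (by simp)
  have hls : ls ≠ [] := by
    rintro rfl
    have h1 : (pre []).length = 0 := rfl
    rw [h1] at hlen
    omega
  have hcard := hfew ls g rs H hD hgH
  -- the words of a cut
  have hcut : ∀ j ∈ Ex.cutsIn g r0 (H - r0), ∃ V W : List Bool, V ∈ Brd j ∧ W ∈ Brd (H - j) ∧ r0 ≤ j ∧ r0 ≤ H - j ∧ g = V ++ W := by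
    intro j hj
    obtain ⟨⟨h1, h2⟩, V, W, b, hV, hW', hVW⟩ := Ex.mem_cutsIn.1 hj
    have h3 : j + b = H := by
      have h4 := Brd_append hV hW'
      rw [← hVW] at h4
      exact Brd_height h4 hgH
    have h5 : b = H - j := by omega
    rcases Nat.lt_or_ge H r0 with h6 | h6
    · have h7 : j = 0 := by omega
      have h8 : r0 = 0 := by omega
      omega
    · exact ⟨V, W, hV, by rw [← h5]; exact hW', h1, by omega, hVW⟩
  choose! V W hV hW' hj1 hj2 hVW using hcut
  obtain ⟨F, hF⟩ : ∃ F : Finset ℕ, F = (Ex.cutsIn g r0 (H - r0)).filter fun j =>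
      vx oo up (pre ls ++ V j) ((pre ls).length + (V j).length) ∈ nbh r (pre ls) (pre ls).length := ⟨_, rfl⟩
  have hFc : F.card ≤ K' := by
    refine hclose ls g rs hD hls F fun j hj => ?_
    rw [hF, Finset.mem_filter] at hj
    exact ⟨hj1 j hj.1, V j, hV j hj.1, H - j, hj2 j hj.1, W j, hW' j hj.1, hVW j hj.1, hj.2⟩
  obtain ⟨Y, hY⟩ : ∃ Y : Finset ℕ, Y = (Ex.cutsIn g r0 (H - r0)).filter fun j =>
      ¬ vx oo up (pre ls ++ V j) ((pre ls).length + (V j).length) ∈ nbh r (pre ls) (pre ls).length := ⟨_, rfl⟩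
  have hYF : F.card + Y.card = (Ex.cutsIn g r0 (H - r0)).card := by
    rw [hF, hY]
    exact Finset.card_filter_add_card_filter_not _
  refine ⟨Y.image fun j => (pre ls).length + (V j).length, ?_, ?_⟩
  · rw [Finset.card_image_of_injOn]
    · omega
    · intro j hj j'' hj'' heq
      rw [hY, Finset.mem_coe, Finset.mem_filter] at hj hj''
      have h1 : (V j).length = (V j'').length := by
        have : (pre ls).length + (V j).length = (pre ls).length + (V j'').length := heq
        omega
      have h2 : V j = V j'' := by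
        have h3 : V j ++ W j = V j'' ++ W j'' := by rw [← hVW j hj.1, ← hVW j'' hj''.1]
        exact (List.append_inj h3 h1).1
      have h4 := hV j hj.1
      rw [h2] at h4
      exact Brd_height h4 (hV j'' hj''.1)
  · intro x hx
    obtain ⟨j, hj, rfl⟩ := Finset.mem_image.1 hx
    rw [hY, Finset.mem_filter] at hj
    have ht' : t = (pre ls ++ V j) ++ unf (W j :: rs) := by
      rw [← hD.eq, unf_pre, List.append_assoc]
      congr 1
      conv_lhs => rw [hVW j hj.1]
      exact unf_app (hW _ _ (hW' j hj.1) (hj2 j hj.1)) rs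
    have hl3 : (pre ls ++ V j).length = (pre ls).length + (V j).length := List.length_append
    have hgl : g.length = (V j).length + (W j).length := by
      conv_lhs => rw [hVW j hj.1]
      exact List.length_append
    have h1 : t.take ((pre ls).length + (V j).length) = pre ls ++ V j := by
      rw [← hl3]
      conv_lhs => rw [ht']
      exact List.take_left
    have h2 : t.drop ((pre ls).length + (V j).length) = unf (W j :: rs) := by
      rw [← hl3]
      conv_lhs => rw [ht']
      exact List.drop_left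
    have h3 := hpre m u e l ls g rs (V j) (W j) j (H - j) hLf hl hD hg hlen (hVW j hj.1) (hV j hj.1) (hW' j hj.1)
      (hj1 j hj.1) (hj2 j hj.1) hj.2
    have h4 := hg.len
    refine ⟨by omega, by omega, ?_, ?_⟩
    · rw [h1]
      exact h3.1
    · rw [h2]
      exact h3.2

end PS

end HexObs
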