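import Pool.Agent.PS.Pre
import Pool.Agent.BAR.PwLowG
import Pool.Agent.BAR.TypA
import Pool.Agent.NT.Exps
import Pool.Agent.NT.MassD
import Pool.Agent.T2.AllN

/-!
PS, the half plane words with about k letters: from the mass of the prefixes at whose end a free tip can be glued.
-/

set_option autoImplicit false

namespace HexObs

open Complex Finset ENNReal SDN

namespace PS

open BAR

/-- **the mass of the prefixes with about k letters and with a free half disc of radius k ^ (3 / 4 - e) at the end.** -/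
def MuW : Prop := ∀ e : ℝ, 0 < e → ∃ d : ℝ, 0 < d ∧ d ≤ e ∧ ∃ (c : ℝ) (k0 : ℕ), 0 < c ∧ ∀ k : ℕ, k0 ≤ k →
  ENNReal.ofReal (c * (k : ℝ) ^ (9 / 16 - e)) ≤
    gf {t | (∃ σ, PreC ⌈(k : ℝ) ^ (3 / 4 - e)⌉ t σ) ∧ (k : ℝ) - (k : ℝ) ^ (1 - d) ≤ t.length ∧ t.length ≤ k}

/-- **the half plane words with about k letters.** -/
def EVh : Prop := ∀ e : ℝ, 0 < e → ∃ d : ℝ, 0 < d ∧ d ≤ e ∧ ∃ (c : ℝ) (n0 : ℕ), 0 < c ∧ ∀ n : ℕ, n0 ≤ n →
  ∀ k : ℕ, n / 4 ≤ k → k ≤ n → c * (n : ℝ) ^ (1 - d - e - 3 / 64) ≤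
    ∑ j ∈ Icc (k - ⌊(n : ℝ) ^ (1 - d)⌋₊) k, (cH j : ℝ) * xc ^ j

/-! ### 1. Masses by lengths -/

lemma gf_by_len {S : Set (List Bool)} {a b : ℕ} (h : ∀ t ∈ S, a ≤ t.length ∧ t.length ≤ b) :
    gf S = ENNReal.ofReal (∑ j ∈ Icc a b, ({t | t ∈ S ∧ t.length = j}.ncard : ℝ) * xc ^ j) := by
  have hx := xc_pos
  rw [NTF.gf_lengths, tsum_eq_sum (s := Icc a b), ENNReal.ofReal_sum_of_nonneg (fun j _ => by positivity)]
  · refine Finset.sum_congr rfl fun j _ => ?_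
    rw [T2.AllN.gf_len (n := j) (fun t ht => ht.2), ENNReal.ofReal_mul (Nat.cast_nonneg _), ENNReal.ofReal_natCast]
  · intro j hj
    have : {t | t ∈ S ∧ t.length = j} = (∅ : Set (List Bool)) := by
      ext t
      simp only [Set.mem_ofPred_eq, Set.mem_empty_iff_false, iff_false, not_and]
      intro ht he
      apply hj
      rw [mem_Icc, ← he]
      exact h t ht
    rw [this]
    unfold gf
    simp

lemma gf_HpN (a b : ℕ) : gf {w | w ∈ HpN w.length ∧ a ≤ w.length ∧ w.length ≤ b} =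
    ENNReal.ofReal (∑ j ∈ Icc a b, (cH j : ℝ) * xc ^ j) := by
  rw [gf_by_len (a := a) (b := b) (fun t ht => ht.2)]
  congr 1
  refine Finset.sum_congr rfl fun j hj => ?_
  have : {t | t ∈ {w | w ∈ HpN w.length ∧ a ≤ w.length ∧ w.length ≤ b} ∧ t.length = j} = HpN j := by
    ext t
    rw [mem_Icc] at hj
    constructor
    · rintro ⟨h1, h2⟩
      rw [← h2]
      exact h1.1
    · intro h1
      have h2 : t.length = j := h1.1
      exact ⟨⟨by rw [h2]; exact h1, by omega, by omega⟩, h2⟩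
  rw [this]
  rfl

lemma gf_HiN (n : ℕ) : gf {v | v ∈ HiN v.length ∧ v.length ≤ n} = ENNReal.ofReal (sI n) := by
  rw [gf_by_len (a := 0) (b := n) (fun t ht => ⟨Nat.zero_le _, ht.2⟩)]
  congr 1
  unfold sI
  rw [← Nat.range_succ_eq_Icc_zero]
  refine Finset.sum_congr rfl fun j hj => ?_
  have : {t | t ∈ {w | w ∈ HiN w.length ∧ w.length ≤ n} ∧ t.length = j} = HiN j := by
    ext t
    rw [Finset.mem_range] at hj
    constructor
    · rintro ⟨h1, h2⟩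
      rw [← h2]
      exact h1.1
    · intro h1
      have h2 : t.length = j := h1.1.1
      exact ⟨⟨by rw [h2]; exact h1, by omega⟩, h2⟩
  rw [this]
  rfl

/-- **the mass of the free tips**: half of the words without a cut and with at most n letters stay in the box -/
lemma tips {β : ℝ} (hβ : β < 4 / 3) : ∃ L0 : ℕ, ∀ L : ℕ, L0 ≤ L → ∀ n : ℕ, (n : ℝ) ≤ (2 : ℝ) ^ (β * L) →
    ENNReal.ofReal (sI n / 2) ≤ gf {v | v ∈ Tip (2 ^ L + 1) ∧ v.length ≤ n} := by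
  obtain ⟨c, L0, hc, h⟩ := NTm.ExpsA.expUp hβ
  refine ⟨L0, fun L hL n hn => ?_⟩
  have h1 := h L hL
  have hsub : {v | v ∈ HiN v.length ∧ v.length ≤ n} ⊆ {v | v ∈ Tip (2 ^ L + 1) ∧ v.length ≤ n} ∪
      {t | t ∈ SA ∧ T2.Ext L t ∧ (t.length : ℝ) ≤ (2 : ℝ) ^ (β * L)} := by
    rintro v ⟨h2, h3⟩
    by_cases hE : T2.Ext L v
    · right
      refine ⟨⟨fun _ _ _ => Set.mem_univ _, (HpN_iff.1 h2.1).2.2⟩, hE, ?_⟩
      exact (by exact_mod_cast h3 : (v.length : ℝ) ≤ n).trans hn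
    · left
      refine ⟨⟨h2, fun i h4 h5 dir => ?_⟩, h3⟩
      have h6 : |row dir (vx oo up v i)| < 2 ^ L := by
        by_contra hcon
        push Not at hcon
        exact hE ⟨i, h5, dir, hcon⟩
      unfold row at h6
      rw [abs_lt] at h6
      rw [abs_le]
      constructor <;> omega
  have h2 : ENNReal.ofReal (Real.exp (-(2 : ℝ) ^ (c * L))) ≤ ENNReal.ofReal (1 / 2) := by
    apply ENNReal.ofReal_le_ofReal
    have h3 : (1 : ℝ) ≤ (2 : ℝ) ^ (c * L) := Real.one_le_rpow (by norm_num) (by positivity)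
    have h4 : Real.exp (-(2 : ℝ) ^ (c * L)) ≤ Real.exp (-1) := Real.exp_le_exp.2 (by linarith)
    have h5 : Real.exp (-1) ≤ 1 / 2 := by
      rw [Real.exp_neg, one_div]
      apply inv_anti₀ (by norm_num)
      have := Real.add_one_le_exp (1 : ℝ)
      linarith
    exact h4.trans h5
  have h3 : ENNReal.ofReal (sI n) ≤ gf {v | v ∈ Tip (2 ^ L + 1) ∧ v.length ≤ n} + ENNReal.ofReal (1 / 2) := by
    rw [← gf_HiN]
    exact (gf_mono hsub).trans ((gf_union_le _ _).trans (add_le_add le_rfl (h1.trans h2)))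
  have h4 := one_le_sI n
  have h5 : ENNReal.ofReal (sI n / 2) + ENNReal.ofReal (1 / 2) ≤ ENNReal.ofReal (sI n) := by
    rw [← ENNReal.ofReal_add (by linarith) (by norm_num)]
    exact ENNReal.ofReal_le_ofReal (by linarith)
  exact (ENNReal.add_le_add_iff_right ENNReal.ofReal_ne_top).1 (h5.trans h3)

/-! ### 2. The main step -/

/-- a power of k on a range of comparable numbers -/
lemma pow_low {n k : ℕ} (hk : (n : ℝ) ≤ 16 * k) {a : ℝ} (ha : 0 ≤ a) (ha1 : a ≤ 1) :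
    (1 / 16 : ℝ) * (n : ℝ) ^ a ≤ (k : ℝ) ^ a := by
  have h1 : (n : ℝ) / 16 ≤ k := by linarith
  have h2 : ((n : ℝ) / 16) ^ a ≤ (k : ℝ) ^ a := Real.rpow_le_rpow (by positivity) h1 ha
  refine le_trans ?_ h2
  rw [Real.div_rpow (by positivity) (by norm_num)]
  have h3 : (16 : ℝ) ^ a ≤ 16 := by
    calc (16 : ℝ) ^ a ≤ (16 : ℝ) ^ (1 : ℝ) := Real.rpow_le_rpow_of_exponent_le (by norm_num) ha1
      _ = 16 := Real.rpow_one _
  have h4 : 0 < (16 : ℝ) ^ a := by positivity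
  rw [le_div_iff₀ h4]
  have h5 : 0 ≤ (n : ℝ) ^ a := by positivity
  nlinarith

theorem EVh_of (hL : HLow (61 / 48)) (h : MuW) : EVh := by
  intro e he
  obtain ⟨x, hx⟩ : ∃ x : ℝ, x = min (e / 16) (1 / 16) := ⟨_, rfl⟩
  have hx0 : 0 < x := by rw [hx]; exact lt_min (by linarith) (by norm_num)
  have hxe : 16 * x ≤ e := by
    have : x ≤ e / 16 := by rw [hx]; exact min_le_left _ _
    linarith
  have hx1 : x ≤ 1 / 16 := by rw [hx]; exact min_le_right _ _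
  obtain ⟨d1, hd0, hdx, c1, k0, hc1, hmu⟩ := h x hx0
  obtain ⟨c2, hc2, hsI⟩ := sI_lowG (NUI.numUp_of_target NUCR.target) (h := 61 / 48) (by norm_num) (by norm_num) hL hx0
  obtain ⟨L0, htips⟩ := tips (β := 4 / 3 - x) (by linarith)
  obtain ⟨d, hd⟩ : ∃ d : ℝ, d = d1 / 2 := ⟨_, rfl⟩
  -- eventual inequalities
  obtain ⟨M1, hM1, h1⟩ := Typ.ev_pow (a := 1 - 4 * x) (b := 1) (by linarith) 16 (c := 1) one_pos
  obtain ⟨M2, hM2, h2⟩ := Typ.ev_pow (a := 1 - d1) (b := 1 - d) (by rw [hd]; linarith) 4 (c := 1) one_pos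
  obtain ⟨M3, hM3, h3⟩ := Typ.ev_pow (a := 0) (b := 3 / 4 - x) (by linarith) (16 * 2 * 2 ^ (L0 + 1)) (c := 1) one_pos
  obtain ⟨M4, hM4, h4⟩ := Typ.ev_pow (a := 1 - 4 * x) (b := (3 / 4 - x) * (4 / 3 - x)) (by nlinarith) (64 ^ 2) (c := 1) one_pos
  refine ⟨d, by rw [hd]; linarith, by rw [hd]; linarith, c1 * c2 / 512, max (max (max M1 M2) (max M3 M4)) (16 * (k0 + 1)),
    by positivity, fun n hn k hk hkn => ?_⟩
  have hnM : M1 ≤ n ∧ M2 ≤ n ∧ M3 ≤ n ∧ M4 ≤ n ∧ 16 * (k0 + 1) ≤ n := by omega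
  obtain ⟨n1, n2, n3, n4, n5⟩ := hnM
  have hnR : (1 : ℝ) ≤ n := by exact_mod_cast (by omega : 1 ≤ n)
  have hn0 : (0 : ℝ) < n := by linarith
  have q1 := h1 n n1
  have q2 := h2 n n2
  have q3 := h3 n n3
  have q4 := h4 n n4
  rw [Real.rpow_one] at q1
  rw [Real.rpow_zero] at q3
  rw [one_mul] at q1 q2 q3 q4
  -- the number of letters of the tip
  obtain ⟨y, hy⟩ : ∃ y : ℝ, y = (n : ℝ) ^ (1 - 4 * x) := ⟨_, rfl⟩
  rw [← hy] at q1 q4
  have hy1 : 1 ≤ y := by rw [hy]; exact Real.one_le_rpow hnR (by linarith)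
  obtain ⟨L, hLd⟩ : ∃ L : ℕ, L = ⌊y⌋₊ := ⟨_, rfl⟩
  have hLy : (L : ℝ) ≤ y := by rw [hLd]; exact Nat.floor_le (by linarith)
  have hLy2 : y / 2 ≤ L := by
    have h5 := Nat.lt_floor_add_one y
    rw [← hLd] at h5
    have h6 : (1 : ℝ) ≤ L := by
      rw [hLd]
      exact_mod_cast Nat.floor_pos.2 hy1
    linarith
  have hL1 : 1 ≤ L := by rw [hLd]; exact Nat.floor_pos.2 hy1
  have hkn4 : (n : ℝ) ≤ 8 * k := by exact_mod_cast (by omega : n ≤ 8 * k)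
  have hLk : L ≤ k := by
    have : (L : ℝ) ≤ k := by linarith
    exact_mod_cast this
  obtain ⟨k', hk'⟩ : ∃ k' : ℕ, k' = k - L := ⟨_, rfl⟩
  have hk'R : (k' : ℝ) = k - L := by
    rw [hk', Nat.cast_sub hLk]
  have hk'n : (n : ℝ) ≤ 16 * k' := by
    rw [hk'R]
    linarith
  have hk'0 : k0 ≤ k' := by
    have h5 : ((16 * (k0 + 1) : ℕ) : ℝ) ≤ n := by exact_mod_cast n5
    push_cast at h5
    have h6 : (k0 : ℝ) ≤ k' := by linarith
    exact_mod_cast h6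
  have hk'le : (k' : ℝ) ≤ n := by
    have h5 : (k : ℝ) ≤ n := by exact_mod_cast hkn
    have h6 : (0 : ℝ) ≤ L := Nat.cast_nonneg _
    linarith
  -- the radius
  obtain ⟨z, hz⟩ : ∃ z : ℝ, z = (k' : ℝ) ^ (3 / 4 - x) := ⟨_, rfl⟩
  have hzlow : (1 / 16 : ℝ) * (n : ℝ) ^ (3 / 4 - x) ≤ z := by
    rw [hz]
    exact pow_low hk'n (by linarith) (by linarith)
  have hz2 : 2 * 2 ^ (L0 + 1) ≤ z := by
    have : (2 : ℝ) * 2 ^ (L0 + 1) ≤ 1 / 16 * (n : ℝ) ^ (3 / 4 - x) := by linarith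
    exact this.trans hzlow
  have hp2 : (1 : ℝ) ≤ 2 ^ (L0 + 1) := one_le_pow₀ (by norm_num)
  have hz1 : 1 ≤ z / 2 := by linarith
  obtain ⟨Λ, hΛ1, hΛ2⟩ := exists_nat_pow_near hz1 (by norm_num : (1 : ℝ) < 2)
  have hΛ0 : L0 ≤ Λ := by
    by_contra hcon
    push Not at hcon
    have h5 : (2 : ℝ) ^ (Λ + 1) ≤ 2 ^ (L0 + 1) := pow_le_pow_right₀ (by norm_num) (by omega)
    linarith
  have hn_le : (L : ℝ) ≤ (2 : ℝ) ^ ((4 / 3 - x) * Λ) := by
    have h5 : z / 4 ≤ (2 : ℝ) ^ Λ := by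
      rw [pow_succ] at hΛ2
      linarith
    have h6 : 1 / 64 * (n : ℝ) ^ (3 / 4 - x) ≤ (2 : ℝ) ^ Λ := by linarith
    have h7 : (1 / 64 * (n : ℝ) ^ (3 / 4 - x)) ^ (4 / 3 - x) ≤ ((2 : ℝ) ^ Λ) ^ (4 / 3 - x) :=
      Real.rpow_le_rpow (by positivity) h6 (by linarith)
    have h8 : ((2 : ℝ) ^ Λ) ^ (4 / 3 - x) = (2 : ℝ) ^ ((4 / 3 - x) * Λ) := by
      rw [← Real.rpow_natCast, ← Real.rpow_mul (by norm_num)]
      congr 1
      ring
    have h9 : (1 / 64 * (n : ℝ) ^ (3 / 4 - x)) ^ (4 / 3 - x) =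
        (1 / 64) ^ (4 / 3 - x) * (n : ℝ) ^ ((3 / 4 - x) * (4 / 3 - x)) := by
      rw [Real.mul_rpow (by norm_num) (by positivity), ← Real.rpow_mul hn0.le]
    have h10 : (1 / 64 : ℝ) ^ 2 ≤ (1 / 64 : ℝ) ^ (4 / 3 - x) := by
      rw [← Real.rpow_natCast]
      apply Real.rpow_le_rpow_of_exponent_ge (by norm_num) (by norm_num)
      push_cast
      linarith
    rw [← h8]
    refine le_trans ?_ h7
    rw [h9]
    have h11 : 0 ≤ (n : ℝ) ^ ((3 / 4 - x) * (4 / 3 - x)) := by positivity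
    have h12 : (L : ℝ) ≤ (1 / 64 : ℝ) ^ 2 * (n : ℝ) ^ ((3 / 4 - x) * (4 / 3 - x)) := by
      have h13 : (64 : ℝ) ^ 2 * (L : ℝ) ≤ (n : ℝ) ^ ((3 / 4 - x) * (4 / 3 - x)) :=
        (mul_le_mul_of_nonneg_left hLy (by norm_num)).trans q4
      have h14 : (1 / 64 : ℝ) ^ 2 * ((64 : ℝ) ^ 2 * (L : ℝ)) = L := by ring
      rw [← h14]
      exact mul_le_mul_of_nonneg_left h13 (by norm_num)
    exact h12.trans (mul_le_mul_of_nonneg_right h10 h11)
  -- the classes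
  obtain ⟨A, hA⟩ : ∃ A : Set (List Bool), A = {t | (∃ σ, PreC ⌈(k' : ℝ) ^ (3 / 4 - x)⌉ t σ) ∧
      (k' : ℝ) - (k' : ℝ) ^ (1 - d1) ≤ t.length ∧ t.length ≤ k'} := ⟨_, rfl⟩
  obtain ⟨B, hB⟩ : ∃ B : Set (List Bool), B = {v | v ∈ Tip (2 ^ Λ + 1) ∧ v.length ≤ L} := ⟨_, rfl⟩
  have hAm : ENNReal.ofReal (c1 * (k' : ℝ) ^ (9 / 16 - x)) ≤ gf A := by
    rw [hA]
    exact hmu k' hk'0
  have hBm : ENNReal.ofReal (sI L / 2) ≤ gf B := by
    rw [hB]
    exact htips Λ hΛ0 L hn_le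
  have hr : (2 : ℤ) ^ Λ + 1 ≤ ⌈z⌉ := by
    have h5 : ((2 : ℤ) ^ Λ : ℝ) + 1 ≤ z := by
      push_cast
      linarith
    have h6 : (((2 : ℤ) ^ Λ + 1 : ℤ) : ℝ) ≤ ⌈z⌉ := by
      push_cast at h5 ⊢
      exact h5.trans (Int.le_ceil z)
    exact_mod_cast h6
  have hprod : gf A * gf B ≤ ENNReal.ofReal (∑ j ∈ Icc (k - ⌊(n : ℝ) ^ (1 - d)⌋₊) k, (cH j : ℝ) * xc ^ j) := by
    rw [← gf_HpN]
    apply gf_glue (r := 2 ^ Λ + 1)
    · intro t ht
      rw [hA] at ht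
      obtain ⟨⟨σ, h5⟩, _⟩ := ht
      rw [← hz] at h5
      exact ⟨σ, h5.mono hr⟩
    · intro v hv
      rw [hB] at hv
      exact hv.1
    · intro t ht v hv htv
      rw [hA] at ht
      rw [hB] at hv
      obtain ⟨_, h5, h6⟩ := ht
      obtain ⟨_, h7⟩ := hv
      have hlen : (t ++ v).length = t.length + v.length := List.length_append
      refine ⟨by rw [hlen]; exact htv, ?_, by rw [hlen]; omega⟩
      rw [hlen]
      have h8 : (k' : ℝ) ^ (1 - d1) ≤ (n : ℝ) ^ (1 - d1) := Real.rpow_le_rpow (by positivity) hk'le (by linarith)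
      have h9 : y ≤ (n : ℝ) ^ (1 - d1) := by
        rw [hy]
        exact Real.rpow_le_rpow_of_exponent_le hnR (by linarith)
      have h10 : 1 ≤ (n : ℝ) ^ (1 - d1) := Real.one_le_rpow hnR (by linarith)
      have h11 := Nat.lt_floor_add_one ((n : ℝ) ^ (1 - d))
      have h12 : (k : ℝ) - (⌊(n : ℝ) ^ (1 - d)⌋₊ : ℝ) ≤ ((t.length + v.length : ℕ) : ℝ) := by
        push_cast
        have h13 : (0 : ℝ) ≤ v.length := Nat.cast_nonneg _
        linarith [hk'R]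
      have h13 : (k : ℝ) ≤ ((t.length + v.length + ⌊(n : ℝ) ^ (1 - d)⌋₊ : ℕ) : ℝ) := by
        push_cast at h12 ⊢
        linarith
      have h14 : k ≤ t.length + v.length + ⌊(n : ℝ) ^ (1 - d)⌋₊ := by exact_mod_cast h13
      omega
  have hsum : 0 ≤ ∑ j ∈ Icc (k - ⌊(n : ℝ) ^ (1 - d)⌋₊) k, (cH j : ℝ) * xc ^ j := by
    have := xc_pos
    exact Finset.sum_nonneg fun j _ => by positivity
  have hk'p : 0 ≤ (k' : ℝ) ^ (9 / 16 - x) := by positivity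
  have h20 : c1 * (k' : ℝ) ^ (9 / 16 - x) * (sI L / 2) ≤
      ∑ j ∈ Icc (k - ⌊(n : ℝ) ^ (1 - d)⌋₊) k, (cH j : ℝ) * xc ^ j := by
    rw [← ENNReal.ofReal_le_ofReal_iff hsum]
    rw [ENNReal.ofReal_mul (by positivity)]
    exact (mul_le_mul' hAm hBm).trans hprod
  refine le_trans ?_ h20
  -- the exponents
  have e1 : (1 / 16 : ℝ) * (n : ℝ) ^ (9 / 16 - x) ≤ (k' : ℝ) ^ (9 / 16 - x) :=
    pow_low hk'n (by linarith) (by linarith)
  have e2 : c2 * (L : ℝ) ^ (25 / 64 - x) ≤ sI L := by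
    have h5 := hsI L hL1
    rwa [show ((61 : ℝ) / 48 - 3 / 4) * (3 / 4) - x = 25 / 64 - x by ring] at h5
  have e3 : (1 / 16 : ℝ) * y ^ (25 / 64 - x) ≤ (L : ℝ) ^ (25 / 64 - x) := by
    have h5 : (y / 2) ^ (25 / 64 - x) ≤ (L : ℝ) ^ (25 / 64 - x) :=
      Real.rpow_le_rpow (by linarith) hLy2 (by linarith)
    refine le_trans ?_ h5
    rw [Real.div_rpow (by linarith) (by norm_num)]
    have h6 : (2 : ℝ) ^ (25 / 64 - x) ≤ 16 := by
      calc (2 : ℝ) ^ (25 / 64 - x) ≤ (2 : ℝ) ^ (1 : ℝ) := Real.rpow_le_rpow_of_exponent_le (by norm_num) (by linarith)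
        _ ≤ 16 := by rw [Real.rpow_one]; norm_num
    have h7 : 0 < (2 : ℝ) ^ (25 / 64 - x) := by positivity
    rw [le_div_iff₀ h7]
    have h8 : 0 ≤ y ^ (25 / 64 - x) := by positivity
    nlinarith
  have e4 : y ^ (25 / 64 - x) = (n : ℝ) ^ ((1 - 4 * x) * (25 / 64 - x)) := by
    rw [hy, ← Real.rpow_mul hn0.le]
  have e5 : (n : ℝ) ^ (1 - d - e - 3 / 64) ≤ (n : ℝ) ^ (9 / 16 - x) * (n : ℝ) ^ ((1 - 4 * x) * (25 / 64 - x)) := by
    rw [← Real.rpow_add hn0]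
    apply Real.rpow_le_rpow_of_exponent_le hnR
    nlinarith
  have f1 : 0 ≤ (n : ℝ) ^ (9 / 16 - x) := by positivity
  have f2 : 0 ≤ (n : ℝ) ^ ((1 - 4 * x) * (25 / 64 - x)) := by positivity
  have f3 : c2 * (1 / 16 * (n : ℝ) ^ ((1 - 4 * x) * (25 / 64 - x))) ≤ sI L := by
    rw [← e4]
    exact (mul_le_mul_of_nonneg_left e3 hc2.le).trans e2
  have f4 : c1 * (1 / 16 * (n : ℝ) ^ (9 / 16 - x)) ≤ c1 * (k' : ℝ) ^ (9 / 16 - x) :=
    mul_le_mul_of_nonneg_left e1 hc1.le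
  calc c1 * c2 / 512 * (n : ℝ) ^ (1 - d - e - 3 / 64) ≤
      c1 * c2 / 512 * ((n : ℝ) ^ (9 / 16 - x) * (n : ℝ) ^ ((1 - 4 * x) * (25 / 64 - x))) :=
        mul_le_mul_of_nonneg_left e5 (by positivity)
    _ = c1 * (1 / 16 * (n : ℝ) ^ (9 / 16 - x)) * (c2 * (1 / 16 * (n : ℝ) ^ ((1 - 4 * x) * (25 / 64 - x))) / 2) := by
        ring
    _ ≤ c1 * (k' : ℝ) ^ (9 / 16 - x) * (sI L / 2) := by
        apply mul_le_mul f4 (by linarith) (by positivity) (by positivity)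

end PS

end HexObs
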