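import Pool.Agent.PS.FewM
import Pool.Agent.NTQ.EventQ
import Pool.Agent.NTQ.Short
import Pool.Agent.BAR.Power
import Pool.Agent.SDN.CleanFin

/-!
PS, P2: the class of the leaves with few cuts has a small norm.
-/

set_option autoImplicit false

namespace HexObs

namespace PS

open Finset TS SDN SDN.CN NTm

open scoped ENNReal

/-- leaves of the box with few cuts -/
def FewB (kc J r0 K : ℕ) : Set (List Bool) := {g | g ∈ BrR (2 ^ (kc + 4)) (2 ^ (kc + J)) ∧ g ∈ FewC r0 K}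

/-- tall leaves -/
def TallC (kc H0 : ℕ) : Set (List Bool) := {g | g ∈ CL (kc + 5) ∧ ∃ H, H0 ≤ H ∧ g ∈ Brd H}

/-- the middle part of a leaf with few cuts has few cuts -/
lemma FewC_mid {r0 K m h q : ℕ} {M Z Q : List Bool} (hM : M ∈ Brd m) (hZ : Z ∈ Brd h) (hQ : Q ∈ Brd q) (hr : r0 ≤ h)
    (hF : M ++ (Z ++ Q) ∈ FewC r0 K) : Z ∈ FewC r0 K := by
  classical
  obtain ⟨H, h1, h2⟩ := hF
  have hH : H = m + (h + q) := Brd_height h1 (Brd_append hM (Brd_append hZ hQ))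
  refine ⟨h, hZ, lt_of_le_of_lt ?_ h2⟩
  have hsub : (Ex.cutsIn Z r0 (h - r0)).image (fun c => m + c) ⊆ Ex.cutsIn (M ++ (Z ++ Q)) r0 (H - r0) := by
    intro c hcm
    rw [Finset.mem_image] at hcm
    obtain ⟨c', hc', rfl⟩ := hcm
    rw [Ex.mem_cutsIn] at hc' ⊢
    obtain ⟨⟨a1, a2⟩, s, v, b, hs, hv, e⟩ := hc'
    refine ⟨⟨by omega, by omega⟩, M ++ s, v ++ Q, b + q, Brd_append hM hs, Brd_append hv hQ, ?_⟩
    rw [e]
    simp only [List.append_assoc]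
  have := Finset.card_le_card hsub
  rwa [Finset.card_image_of_injective _ (add_right_injective m)] at this

/-- the ratio of the partial sums -/
lemma ratio : ∃ C : ℝ, 1 ≤ C ∧ ∀ (kc a r0 K : ℕ), a ≤ kc → 1 ≤ r0 → r0 ≤ 2 ^ (kc - a) →
    (K : ℝ) ≤ (((2 ^ (kc - a) : ℕ) : ℝ)) ^ (3 / 4 : ℝ) → ((K : ℝ) + UU r0) / UU (2 ^ kc) ≤ C * (2 : ℝ) ^ (-(3 / 4 * (a : ℝ))) := by
  obtain ⟨c0, C0, hc0, hC0, hU⟩ := BAR.UU_two
  refine ⟨max 1 ((1 + C0) / c0), le_max_left _ _, fun kc a r0 K ha hr hr0 hK => ?_⟩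
  have h1 := (hU (2 ^ kc) Nat.one_le_two_pow).1
  have h2 := (hU (2 ^ (kc - a)) Nat.one_le_two_pow).2
  have h3 : UU r0 ≤ UU (2 ^ (kc - a)) := UU_mono hr0
  have hp : ∀ n : ℕ, (((2 ^ n : ℕ) : ℝ)) ^ (3 / 4 : ℝ) = (2 : ℝ) ^ (3 / 4 * (n : ℝ)) := by
    intro n
    push_cast
    rw [← Real.rpow_natCast, ← Real.rpow_mul (by norm_num), mul_comm]
  rw [hp] at h1 h2 hK
  have hUk : 0 < UU (2 ^ kc) := Num2Aux.UU_pos _
  have e1 : (2 : ℝ) ^ (3 / 4 * ((kc - a : ℕ) : ℝ)) = (2 : ℝ) ^ (3 / 4 * (kc : ℝ)) * (2 : ℝ) ^ (-(3 / 4 * (a : ℝ))) := by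
    rw [← Real.rpow_add (by norm_num), Nat.cast_sub ha]
    congr 1
    ring
  have hA : 0 < (2 : ℝ) ^ (3 / 4 * (kc : ℝ)) := by positivity
  have hB : 0 < (2 : ℝ) ^ (-(3 / 4 * (a : ℝ))) := by positivity
  have h4 : (K : ℝ) + UU r0 ≤ (1 + C0) * ((2 : ℝ) ^ (3 / 4 * (kc : ℝ)) * (2 : ℝ) ^ (-(3 / 4 * (a : ℝ)))) := by
    rw [← e1]
    linarith
  have h5 : ((K : ℝ) + UU r0) / UU (2 ^ kc) ≤ (1 + C0) / c0 * (2 : ℝ) ^ (-(3 / 4 * (a : ℝ))) := by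
    rw [div_le_iff₀ hUk]
    refine h4.trans ?_
    calc (1 + C0) * ((2 : ℝ) ^ (3 / 4 * (kc : ℝ)) * (2 : ℝ) ^ (-(3 / 4 * (a : ℝ))))
        = (1 + C0) / c0 * (2 : ℝ) ^ (-(3 / 4 * (a : ℝ))) * (c0 * (2 : ℝ) ^ (3 / 4 * (kc : ℝ))) := by field_simp
      _ ≤ _ := mul_le_mul_of_nonneg_left h1 (by positivity)
  exact h5.trans (mul_le_mul_of_nonneg_right (le_max_right _ _) hB.le)

/-- **the leaves with few cuts** -/
theorem few_norm : ∃ C c : ℝ, 1 ≤ C ∧ 0 < c ∧ ∀ (kc J r0 K a : ℕ), 3 ≤ kc → a ≤ kc → 1 ≤ r0 → r0 ≤ 2 ^ (kc - a) →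
    (K : ℝ) ≤ (((2 ^ (kc - a) : ℕ) : ℝ)) ^ (3 / 4 : ℝ) →
    Sm kc (FewB kc J r0 K) (C * 4 ^ J * (2 : ℝ) ^ (-(c * (a : ℝ)))) := by
  classical
  obtain ⟨C0, δ0, hI⟩ := inp_exists
  obtain ⟨K1, c1, hK1, hc1, hx⟩ := x_fillE hI
  obtain ⟨K2, c2, hK2, hc2, hg2⟩ := g2o hI
  obtain ⟨K3, hK3, hg3⟩ := g3 hI
  obtain ⟨C4, hC4, hrat⟩ := ratio
  have hCW := Num2Aux.CW_pos
  obtain ⟨C5, hC5⟩ : ∃ C5 : ℝ, C5 = 2 * (6 + CW) * (9 + CW) := ⟨_, rfl⟩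
  have hC51 : 1 ≤ C5 := by rw [hC5]; nlinarith
  obtain ⟨c, hc⟩ : ∃ c, c = min (min (c1 / 4) (c2 / 4)) (1 / 4 : ℝ) := ⟨_, rfl⟩
  have hc0 : 0 < c := by rw [hc]; exact lt_min (lt_min (by positivity) (by positivity)) (by norm_num)
  have hcc1 : c ≤ c1 / 4 := by rw [hc]; exact (min_le_left _ _).trans (min_le_left _ _)
  have hcc2 : c ≤ c2 / 4 := by rw [hc]; exact (min_le_left _ _).trans (min_le_right _ _)
  have hcc3 : c ≤ 1 / 4 := by rw [hc]; exact min_le_right _ _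
  obtain ⟨B1, hB1⟩ : ∃ B1 : ℝ, B1 = (2 : ℝ) ^ c1 := ⟨_, rfl⟩
  obtain ⟨B2, hB2⟩ : ∃ B2 : ℝ, B2 = (2 : ℝ) ^ c2 := ⟨_, rfl⟩
  have hB11 : 1 ≤ B1 := by rw [hB1]; exact Real.one_le_rpow (by norm_num) hc1.le
  have hB21 : 1 ≤ B2 := by rw [hB2]; exact Real.one_le_rpow (by norm_num) hc2.le
  obtain ⟨CC, hCC⟩ : ∃ CC : ℝ, CC = K1 * (B1 + 64 * (C5 * C4)) + (K2 * B2 + 8 * (K3 * (C5 * C4))) := ⟨_, rfl⟩
  refine ⟨CC, c, ?_, hc0, ?_⟩
  · rw [hCC]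
    have t1 : 1 ≤ K1 * (B1 + 64 * (C5 * C4)) := by
      have : 1 ≤ B1 + 64 * (C5 * C4) := by nlinarith [mul_nonneg (by linarith : (0:ℝ) ≤ C5) (by linarith : (0:ℝ) ≤ C4)]
      nlinarith
    have t2 : 0 ≤ K2 * B2 + 8 * (K3 * (C5 * C4)) := by
      have : (0 : ℝ) ≤ K3 := by linarith
      positivity
    linarith
  intro kc J r0 K a hkc ha hr1 hr hK
  obtain ⟨R, hR⟩ : ∃ R : ℕ, R = max 3 (a / 4) := ⟨_, rfl⟩
  have hR3 : 3 ≤ R := by rw [hR]; exact le_max_left _ _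
  have hRkc : R ≤ kc := by rw [hR]; exact max_le hkc (by omega)
  have hRa : a < 4 * (R + 1) := by
    have : a / 4 ≤ R := by rw [hR]; exact le_max_right _ _
    omega
  have hRle : R ≤ 3 + a / 4 := by rw [hR]; exact max_le (by omega) (by omega)
  have hU := Ub_pos kc
  have h2J : (1 : ℝ) ≤ 2 ^ J := one_le_pow₀ (by norm_num)
  have h4J : (2 : ℝ) ^ J * 2 ^ J = 4 ^ J := by rw [← mul_pow]; norm_num
  have h4J1 : (2 : ℝ) ^ J ≤ 4 ^ J := pow_le_pow_left₀ (by norm_num) (by norm_num) J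
  have hUN : UU (2 ^ (kc + J)) ≤ 2 ^ J * Ub kc := UU_ratio_up kc J
  have hUN0 : 0 < UU (2 ^ (kc + J)) := Num2Aux.UU_pos _
  have hp := hrat kc a r0 K ha hr1 hr hK
  obtain ⟨p, hpdef⟩ : ∃ p : ℝ, p = ((K : ℝ) + UU r0) / UU (2 ^ kc) := ⟨_, rfl⟩
  rw [← hpdef] at hp
  have hUr : 0 < UU r0 := Num2Aux.UU_pos r0
  have hUk : 0 < UU (2 ^ kc) := Num2Aux.UU_pos _
  have hp0 : 0 ≤ p := by rw [hpdef]; positivity
  have hD16 : (2 : ℕ) ^ (kc + 4) = 16 * 2 ^ kc := by ring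
  have hk1 : 1 ≤ 2 ^ kc := Nat.one_le_two_pow
  have hr0k : r0 ≤ 2 ^ kc := hr.trans (Nat.pow_le_pow_right (by norm_num) (by omega))
  have hea : 0 < (2 : ℝ) ^ (-(c * (a : ℝ))) := by positivity
  -- the exponents
  have hpow : ∀ c' B : ℝ, c ≤ c' / 4 → B = (2 : ℝ) ^ c' →
      (2 : ℝ) ^ (-(c' * ((kc : ℝ) - ((kc - R : ℕ) : ℝ)))) ≤ B * (2 : ℝ) ^ (-(c * (a : ℝ))) := by
    intro c' B hc' hB
    have e1 : (kc : ℝ) - ((kc - R : ℕ) : ℝ) = R := by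
      rw [Nat.cast_sub hRkc]
      ring
    rw [e1, hB, ← Real.rpow_add (by norm_num)]
    refine Real.rpow_le_rpow_of_exponent_le (by norm_num) ?_
    have e2 : (a : ℝ) ≤ 4 * (R + 1) := by exact_mod_cast hRa.le
    have e3 : (0 : ℝ) ≤ a := Nat.cast_nonneg a
    have e4 : c * a ≤ c' / 4 * a := mul_le_mul_of_nonneg_right hc' e3
    have e5 : 0 ≤ c' := by linarith
    have e6 : c' / 4 * a ≤ c' / 4 * (4 * (R + 1)) := mul_le_mul_of_nonneg_left e2 (by linarith)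
    nlinarith
  have h4R : (4 : ℝ) ^ R * p ≤ 64 * C4 * (2 : ℝ) ^ (-(c * (a : ℝ))) := by
    have e1 : (4 : ℝ) ^ R ≤ 64 * (2 : ℝ) ^ ((a : ℝ) / 2) := by
      have e2 : (4 : ℝ) ^ R ≤ 4 ^ (3 + a / 4) := pow_le_pow_right₀ (by norm_num) hRle
      have e3 : (4 : ℝ) ^ (3 + a / 4) = 64 * (2 : ℝ) ^ (((2 * (a / 4) : ℕ) : ℝ)) := by
        rw [pow_add, Real.rpow_natCast, pow_mul]
        norm_num
      rw [e3] at e2
      refine e2.trans (mul_le_mul_of_nonneg_left ?_ (by norm_num))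
      refine Real.rpow_le_rpow_of_exponent_le (by norm_num) ?_
      have e4 : 4 * (a / 4) ≤ a := Nat.mul_div_le a 4
      have e5 : (4 : ℝ) * ((a / 4 : ℕ) : ℝ) ≤ a := by exact_mod_cast e4
      push_cast
      linarith
    calc (4 : ℝ) ^ R * p ≤ (64 * (2 : ℝ) ^ ((a : ℝ) / 2)) * (C4 * (2 : ℝ) ^ (-(3 / 4 * (a : ℝ)))) :=
          mul_le_mul e1 hp hp0 (by positivity)
      _ = 64 * C4 * (2 : ℝ) ^ ((a : ℝ) / 2 + -(3 / 4 * (a : ℝ))) := by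
          rw [Real.rpow_add (by norm_num)]
          ring
      _ ≤ 64 * C4 * (2 : ℝ) ^ (-(c * (a : ℝ))) := by
          apply mul_le_mul_of_nonneg_left _ (by linarith)
          refine Real.rpow_le_rpow_of_exponent_le (by norm_num) ?_
          have e3 : (0 : ℝ) ≤ a := Nat.cast_nonneg a
          nlinarith
  have h2R : (2 : ℝ) ^ R * p ≤ 8 * C4 * (2 : ℝ) ^ (-(c * (a : ℝ))) := by
    have e1 : (2 : ℝ) ^ R ≤ 8 * (2 : ℝ) ^ ((a : ℝ) / 4) := by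
      have e2 : (2 : ℝ) ^ R ≤ 2 ^ (3 + a / 4) := pow_le_pow_right₀ (by norm_num) hRle
      have e3 : (2 : ℝ) ^ (3 + a / 4) = 8 * (2 : ℝ) ^ (((a / 4 : ℕ) : ℝ)) := by
        rw [pow_add, Real.rpow_natCast]
        norm_num
      rw [e3] at e2
      refine e2.trans (mul_le_mul_of_nonneg_left ?_ (by norm_num))
      refine Real.rpow_le_rpow_of_exponent_le (by norm_num) ?_
      have e4 : 4 * (a / 4) ≤ a := Nat.mul_div_le a 4
      have e5 : (4 : ℝ) * ((a / 4 : ℕ) : ℝ) ≤ a := by exact_mod_cast e4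
      linarith
    calc (2 : ℝ) ^ R * p ≤ (8 * (2 : ℝ) ^ ((a : ℝ) / 4)) * (C4 * (2 : ℝ) ^ (-(3 / 4 * (a : ℝ)))) :=
          mul_le_mul e1 hp hp0 (by positivity)
      _ = 8 * C4 * (2 : ℝ) ^ ((a : ℝ) / 4 + -(3 / 4 * (a : ℝ))) := by
          rw [Real.rpow_add (by norm_num)]
          ring
      _ ≤ 8 * C4 * (2 : ℝ) ^ (-(c * (a : ℝ))) := by
          apply mul_le_mul_of_nonneg_left _ (by linarith)
          refine Real.rpow_le_rpow_of_exponent_le (by norm_num) ?_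
          have e3 : (0 : ℝ) ≤ a := Nat.cast_nonneg a
          nlinarith
  -- the mass of the middle part
  have hmass : ∀ M ∈ BU, ∀ Q ∈ BU, hgt M ≤ 2 ^ kc → hgt Q ≤ 2 ^ kc →
      gf {Z | Z ∈ BU ∧ M ++ (Z ++ Q) ∈ FewC r0 K ∧ M ++ (Z ++ Q) ∈ BrR (2 ^ (kc + 4)) (2 ^ (kc + J))} ≤
        ENNReal.ofReal (C5 * p * (2 ^ J * Ub kc)) := by
    rintro M ⟨m, hM⟩ Q ⟨q, hQ⟩ e1 e2
    rw [hgt_eq hM] at e1
    rw [hgt_eq hQ] at e2
    refine le_trans (gf_mono ?_) ((few_mass hr1 hr0k K (2 ^ (kc + J))).trans (ENNReal.ofReal_le_ofReal ?_))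
    · rintro Z ⟨⟨z, hz⟩, hW, h, e3, e4, e5⟩
      have e6 := Brd_height e5 (Brd_append hM (Brd_append hz hQ))
      exact ⟨FewC_mid hM hz hQ (by omega) hW, z, by omega, by omega, hz⟩
    · rw [← hC5, ← hpdef]
      exact mul_le_mul_of_nonneg_left hUN (by positivity)
  constructor
  · intro Φ hΦ
    have hEZ : EZ (2 ^ (kc + 4)) (2 ^ (kc + J)) kc (FewC r0 K) ((C5 * p * 2 ^ J) * Ub kc) := by
      rintro M ⟨m, hM⟩ P1 hP1 P2 hP2 Q ⟨q', hQ⟩ e1 e2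
      obtain ⟨i, hi⟩ := IU_BU hP1
      obtain ⟨j, hj⟩ := IU_BU hP2
      refine (tsum_gf_le _).trans ?_
      have h1 := hmass (M ++ P1) ⟨_, Brd_append hM hi⟩ (P2 ++ Q) ⟨_, Brd_append hj hQ⟩
        (by rw [hgt_eq (Brd_append hM hi)]; rw [hgt_eq hM, hgt_eq hi] at e1; exact e1)
        (by rw [hgt_eq (Brd_append hj hQ)]; rw [hgt_eq hj, hgt_eq hQ] at e2; exact e2)
      refine (gf_mono ?_).trans (h1.trans (le_of_eq (by ring_nf)))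
      rintro Z ⟨hZ, hW, hB⟩
      simp only [List.append_assoc] at hW hB ⊢
      exact ⟨hZ, hW, hB⟩
    have h3 := hx (2 ^ (kc + 4)) (2 ^ (kc + J)) kc kc (kc - R) (FewC r0 K) LFold (2 ^ J) (C5 * p * 2 ^ J) Φ
      hΦ.her RNb_LFold le_rfl (by omega) le_rfl h2J hUN (by positivity) hEZ
    have h4 : ∀ t, vA (2 ^ (kc + 4)) (FewB kc J r0 K) Φ t ≤ tF (2 ^ (kc + 4)) (2 ^ (kc + J)) (FewC r0 K) LFold Φ t := by
      intro t
      unfold vA tF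
      exact Rec8.sw_mono (B := {g' | g' ∈ BrR (2 ^ (kc + 4)) (2 ^ (kc + J)) ∧ g' ∈ FewC r0 K ∧
        RT (2 ^ (kc + 4)) LFold t g'}) (fun g hg => ⟨hg.1.1, hg.1.2, hg.2⟩) fun _ _ => le_rfl
    refine (xT_mono h4).trans (h3.trans (mul_le_mul_left (ENNReal.ofReal_le_ofReal ?_) _))
    have e1 : kc - kc = 0 := Nat.sub_self kc
    have e2 : kc - (kc - R) = R := by omega
    rw [e1, e2, pow_zero, one_mul]
    have e3 := hpow c1 B1 hcc1 hB1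
    have e4 : (4 : ℝ) ^ R * (C5 * p * 2 ^ J) ≤ 2 ^ J * (64 * (C5 * C4) * (2 : ℝ) ^ (-(c * (a : ℝ)))) := by
      calc (4 : ℝ) ^ R * (C5 * p * 2 ^ J) = 2 ^ J * (C5 * (4 ^ R * p)) := by ring
        _ ≤ 2 ^ J * (C5 * (64 * C4 * (2 : ℝ) ^ (-(c * (a : ℝ))))) := by gcongr
        _ = _ := by ring
    have e5 : B1 * (2 : ℝ) ^ (-(c * (a : ℝ))) ≤ 2 ^ J * (B1 * (2 : ℝ) ^ (-(c * (a : ℝ)))) := by
      have : 0 ≤ B1 * (2 : ℝ) ^ (-(c * (a : ℝ))) := by positivity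
      nlinarith
    calc K1 * 2 ^ J * ((2 : ℝ) ^ (-(c1 * ((kc : ℝ) - ((kc - R : ℕ) : ℝ)))) + 4 ^ R * (C5 * p * 2 ^ J)) ≤
        K1 * 2 ^ J * (2 ^ J * (B1 * (2 : ℝ) ^ (-(c * (a : ℝ)))) +
          2 ^ J * (64 * (C5 * C4) * (2 : ℝ) ^ (-(c * (a : ℝ))))) := by
          apply mul_le_mul_of_nonneg_left _ (by positivity)
          linarith
      _ = (K1 * (B1 + 64 * (C5 * C4))) * (2 ^ J * 2 ^ J) * (2 : ℝ) ^ (-(c * (a : ℝ))) := by ring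
      _ ≤ CC * 4 ^ J * (2 : ℝ) ^ (-(c * (a : ℝ))) := by
          rw [h4J]
          have e6 : K1 * (B1 + 64 * (C5 * C4)) ≤ CC := by
            rw [hCC]
            have : 0 ≤ K2 * B2 + 8 * (K3 * (C5 * C4)) := by
              have : (0 : ℝ) ≤ K3 := by linarith
              positivity
            linarith
          gcongr
  · intro Φ hΦ
    obtain ⟨x, hxx⟩ : ∃ x, x = xT (2 ^ (kc + 4)) kc Φ := ⟨_, rfl⟩
    have h3 := free_dec (D := 2 ^ (kc + 4)) (N := 2 ^ (kc + J)) (k := kc) (e := kc) (j1 := kc - R) (by omega) le_rfl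
      le_rfl (W := FewC r0 K) hΦ.her (x := C5 * p * (2 ^ J * Ub kc)) ?_
    · refine (le_of_eq ?_).trans (h3.trans ?_)
      · rfl
      have e1 := giant_sum (D := 2 ^ (kc + 4)) (k := kc) (e := kc) (j1 := kc - R) (by omega) Φ
        (hg2 (2 ^ (kc + 4)) kc kc (kc - R) le_rfl (by omega) le_rfl)
      have e2 := (endsH_gen (D := 2 ^ (kc + 4)) (k := kc) (j := kc - R) (by omega) Φ).trans
        (mul_le_mul_right (hg3 (2 ^ (kc + 4)) kc (kc - R) le_rfl (by omega)) _)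
      rw [← hxx] at e1 e2 ⊢
      have e3 : kc - (kc - R) = R := by omega
      rw [e3] at e2
      rw [Nat.sub_self, pow_zero, mul_one] at e1
      refine (add_le_add (mul_le_mul_right e1 _) (mul_le_mul_right e2 _)).trans ?_
      have e4 := hpow c2 B2 hcc2 hB2
      calc ENNReal.ofReal (UU (2 ^ (kc + J))) * (ENNReal.ofReal (K2 * (2 : ℝ) ^ (-(c2 * ((kc : ℝ) - ((kc - R : ℕ) : ℝ))))) * x) +
          ENNReal.ofReal (C5 * p * (2 ^ J * Ub kc)) * (x * ENNReal.ofReal (K3 * 2 ^ R)) =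
          (ENNReal.ofReal (UU (2 ^ (kc + J))) * ENNReal.ofReal (K2 * (2 : ℝ) ^ (-(c2 * ((kc : ℝ) - ((kc - R : ℕ) : ℝ))))) +
            ENNReal.ofReal (C5 * p * (2 ^ J * Ub kc)) * ENNReal.ofReal (K3 * 2 ^ R)) * x := by ring
        _ ≤ ENNReal.ofReal (CC * 4 ^ J * (2 : ℝ) ^ (-(c * (a : ℝ))) * Ub kc) * x := by
          refine mul_le_mul_left ?_ _
          have hK30 : (0 : ℝ) ≤ K3 := by linarith
          have hK20 : (0 : ℝ) ≤ K2 := by linarith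
          rw [← ENNReal.ofReal_mul hUN0.le, ← ENNReal.ofReal_mul (by positivity),
            ← ENNReal.ofReal_add (by positivity) (by positivity)]
          apply ENNReal.ofReal_le_ofReal
          have e5 : UU (2 ^ (kc + J)) * (K2 * (2 : ℝ) ^ (-(c2 * ((kc : ℝ) - ((kc - R : ℕ) : ℝ))))) ≤
              (4 ^ J * Ub kc) * (K2 * (B2 * (2 : ℝ) ^ (-(c * (a : ℝ))))) := by
            apply mul_le_mul _ _ (by positivity) (by positivity)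
            · exact hUN.trans (mul_le_mul_of_nonneg_right h4J1 hU.le)
            · exact mul_le_mul_of_nonneg_left e4 hK20
          have e6 : C5 * p * (2 ^ J * Ub kc) * (K3 * 2 ^ R) ≤
              (4 ^ J * Ub kc) * (8 * (K3 * (C5 * C4)) * (2 : ℝ) ^ (-(c * (a : ℝ)))) := by
            calc C5 * p * (2 ^ J * Ub kc) * (K3 * 2 ^ R) = (2 ^ J * Ub kc) * (K3 * (C5 * (2 ^ R * p))) := by ring
              _ ≤ (4 ^ J * Ub kc) * (K3 * (C5 * (8 * C4 * (2 : ℝ) ^ (-(c * (a : ℝ)))))) := by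
                gcongr
              _ = _ := by ring
          have e8 : K2 * B2 + 8 * (K3 * (C5 * C4)) ≤ CC := by
            rw [hCC]
            have : 0 ≤ K1 * (B1 + 64 * (C5 * C4)) := by
              have : (0 : ℝ) ≤ K1 := by linarith
              positivity
            linarith
          calc UU (2 ^ (kc + J)) * (K2 * (2 : ℝ) ^ (-(c2 * ((kc : ℝ) - ((kc - R : ℕ) : ℝ))))) +
              C5 * p * (2 ^ J * Ub kc) * (K3 * 2 ^ R) ≤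
              (4 ^ J * Ub kc) * (K2 * (B2 * (2 : ℝ) ^ (-(c * (a : ℝ))))) +
                (4 ^ J * Ub kc) * (8 * (K3 * (C5 * C4)) * (2 : ℝ) ^ (-(c * (a : ℝ)))) := add_le_add e5 e6
            _ = (K2 * B2 + 8 * (K3 * (C5 * C4))) * 4 ^ J * (2 : ℝ) ^ (-(c * (a : ℝ))) * Ub kc := by ring
            _ ≤ CC * 4 ^ J * (2 : ℝ) ^ (-(c * (a : ℝ))) * Ub kc := by gcongr
    · rintro P hP Q ⟨m, hQ⟩ e1
      obtain ⟨i, hi⟩ := IU_BU hP
      have h1 := hmass [] ⟨0, nil_mem_Brd⟩ (P ++ Q) ⟨_, Brd_append hi hQ⟩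
        (by rw [hgt_eq nil_mem_Brd]; omega)
        (by rw [hgt_eq (Brd_append hi hQ)]; rw [hgt_eq hi, hgt_eq hQ] at e1; exact e1)
      refine (gf_mono ?_).trans h1
      rintro Z ⟨hZ, hW, hB⟩
      exact ⟨hZ, hW, hB⟩

/-- union of two classes -/
lemma Sm_union {kc : ℕ} {S S' : Set (List Bool)} {δ δ' : ℝ} (hδ : 0 ≤ δ) (hδ' : 0 ≤ δ') (h : Sm kc S δ)
    (h' : Sm kc S' δ') : Sm kc (S ∪ S') (δ + δ') := by
  have hU := (Ub_pos kc).le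
  constructor
  · intro Φ hΦ
    have h1 : ∀ t, vA (2 ^ (kc + 4)) (S ∪ S') Φ t ≤ vA (2 ^ (kc + 4)) S Φ t + vA (2 ^ (kc + 4)) S' Φ t := by
      intro t
      unfold vA
      refine TN5b_sw_union ?_ Φ
      rintro g ⟨hg | hg, hr⟩
      · exact Or.inl ⟨hg, hr⟩
      · exact Or.inr ⟨hg, hr⟩
    refine (xT_mono h1).trans ((xT_add _ _ _ _).trans ?_)
    refine (add_le_add (h.near Φ hΦ) (h'.near Φ hΦ)).trans (le_of_eq ?_)
    rw [ENNReal.ofReal_add hδ hδ', add_mul]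
  · intro Φ hΦ
    refine (TN5b_sw_union (le_refl (S ∪ S')) Φ).trans ((add_le_add (h.free Φ hΦ) (h'.free Φ hΦ)).trans (le_of_eq ?_))
    rw [← add_mul, ← ENNReal.ofReal_add (by positivity) (by positivity), ← add_mul]

lemma sw_tall {k s n0 : ℕ} (hs : 6 ≤ s) (hn : 1 ≤ n0) (R : List Bool → Prop) (Φ : List Bool → ℝ≥0∞) :
    Rec8.sw {g | g ∈ TallC k (n0 * 2 ^ (k + s)) ∧ R g} Φ ≤
      ∑' i : ℕ, Rec8.sw {g | g ∈ CK (k + 5) (k + s) (n0 + i) ∩ HB (2 ^ (k + 4)) ∧ R g} Φ := by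
  classical
  simp only [Rec8.sw_ind]
  rw [ENNReal.tsum_comm]
  refine ENNReal.tsum_le_tsum fun g => ?_
  by_cases hg : g ∈ {g | g ∈ TallC k (n0 * 2 ^ (k + s)) ∧ R g}
  · rw [if_pos hg]
    obtain ⟨⟨h1, H, h2, h3⟩, h4⟩ := hg
    obtain ⟨n, hn2⟩ : ∃ n, n = H / 2 ^ (k + s) := ⟨_, rfl⟩
    have hp : 0 < 2 ^ (k + s) := by positivity
    have h5 : n0 ≤ n := by
      rw [hn2, Nat.le_div_iff_mul_le hp]
      exact h2
    have h6 : n * 2 ^ (k + s) ≤ H := by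
      rw [hn2]
      exact Nat.div_mul_le_self _ _
    have h7 : H < (n + 1) * 2 ^ (k + s) := by
      rw [hn2]
      exact (Nat.div_lt_iff_lt_mul hp).1 (Nat.lt_succ_self _)
    refine le_trans (le_of_eq ?_) (ENNReal.le_tsum (n - n0))
    have e : n0 + (n - n0) = n := by omega
    rw [e, if_pos]
    refine ⟨⟨⟨h1, H, h6, h7, h3⟩, H, ?_, h3⟩, h4⟩
    have h8 : 2 ^ (k + 4) ≤ 2 ^ (k + s) := Nat.pow_le_pow_right (by norm_num) (by omega)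
    have h9 : 1 * 2 ^ (k + s) ≤ n0 * 2 ^ (k + s) := Nat.mul_le_mul_right _ hn
    omega
  · rw [if_neg hg]
    exact zero_le

lemma geo4 {K : ℝ} (hK : 0 ≤ K) (n : ℕ) : ∑' i : ℕ, ENNReal.ofReal (K / 4 ^ (n + i)) ≤ ENNReal.ofReal (2 * K / 4 ^ n) := by
  have h1 : ∀ i : ℕ, K / 4 ^ (n + i) = K / 4 ^ n * (1 / 4) ^ i := by
    intro i
    rw [pow_add, one_div, inv_pow]
    field_simp
  simp only [h1]
  rw [← ENNReal.ofReal_tsum_of_nonneg (fun i => by positivity)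
    ((summable_geometric_of_lt_one (by norm_num) (by norm_num)).mul_left _), tsum_mul_left,
    tsum_geometric_of_lt_one (by norm_num) (by norm_num)]
  apply ENNReal.ofReal_le_ofReal
  have h2 : 0 ≤ K / 4 ^ n := by positivity
  have h3 : 2 * K / 4 ^ n = K / 4 ^ n * 2 := by ring
  rw [h3]
  apply mul_le_mul_of_nonneg_left _ h2
  norm_num

/-- **the tall leaves** -/
theorem tall_norm : ∃ (K : ℝ) (s : ℕ), 1 ≤ K ∧ 6 ≤ s ∧ ∀ kc n : ℕ, 1 ≤ n → Sm kc (TallC kc (n * 2 ^ (kc + s))) (K / 4 ^ n) := by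
  obtain ⟨K, s, hK, hs, h⟩ := clean_norm
  refine ⟨2 * K, s, by linarith, hs, fun kc n hn => ?_⟩
  have hU := (Ub_pos kc).le
  constructor
  · intro Φ hΦ
    have h1 : ∀ t, vA (2 ^ (kc + 4)) (TallC kc (n * 2 ^ (kc + s))) Φ t ≤
        ∑' i : ℕ, vA (2 ^ (kc + 4)) (CK (kc + 5) (kc + s) (n + i) ∩ HB (2 ^ (kc + 4))) Φ t := fun t =>
      sw_tall hs hn (fun g' => RT (2 ^ (kc + 4)) LFold t g') Φ
    refine (xT_mono h1).trans ((xT_tsum _ _ _).trans ?_)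
    refine (ENNReal.tsum_le_tsum fun i => (h kc (n + i) Φ hΦ).1).trans ?_
    rw [ENNReal.tsum_mul_right]
    exact mul_le_mul_left (geo4 (by linarith) n) _
  · intro Φ hΦ
    have h1 : Rec8.sw (TallC kc (n * 2 ^ (kc + s))) Φ ≤
        ∑' i : ℕ, Rec8.sw (CK (kc + 5) (kc + s) (n + i) ∩ HB (2 ^ (kc + 4))) Φ := by
      have h2 := sw_tall (k := kc) hs hn (fun _ => True) Φ
      simpa only [and_true, Set.ofPred_mem_eq] using h2
    refine h1.trans ?_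
    refine (ENNReal.tsum_le_tsum fun i => (h kc (n + i) Φ hΦ).2).trans ?_
    rw [ENNReal.tsum_mul_right]
    refine mul_le_mul_left ?_ _
    have h3 : ∀ i : ℕ, K * Ub kc / 4 ^ (n + i) = (K * Ub kc) / 4 ^ (n + i) := fun i => rfl
    refine (geo4 (K := K * Ub kc) (by positivity) n).trans (ENNReal.ofReal_le_ofReal (le_of_eq ?_))
    ring

/-- **few cuts or tall** -/
theorem few_tall_norm : ∃ (C c : ℝ) (s : ℕ), 1 ≤ C ∧ 0 < c ∧ 6 ≤ s ∧ ∀ (kc J r0 K a n : ℕ), 3 ≤ kc → a ≤ kc → 1 ≤ r0 →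
    r0 ≤ 2 ^ (kc - a) → (K : ℝ) ≤ (((2 ^ (kc - a) : ℕ) : ℝ)) ^ (3 / 4 : ℝ) → 1 ≤ n →
    Sm kc (FewB kc J r0 K ∪ TallC kc (n * 2 ^ (kc + s))) (C * 4 ^ J * ((2 : ℝ) ^ (-(c * (a : ℝ))) + 1 / 4 ^ n)) := by
  obtain ⟨C, c, hC, hc, h1⟩ := few_norm
  obtain ⟨K', s, hK', hs, h2⟩ := tall_norm
  refine ⟨C + K', c, s, by linarith, hc, hs, fun kc J r0 K a n hkc ha hr1 hr hK hn => ?_⟩
  have h4 : (1 : ℝ) ≤ 4 ^ J := one_le_pow₀ (by norm_num)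
  refine Sm_le ?_ (Sm_union (by positivity) (by positivity) (h1 kc J r0 K a hkc ha hr1 hr hK) (h2 kc n hn))
  have h5 : 0 ≤ (2 : ℝ) ^ (-(c * (a : ℝ))) := by positivity
  have h6 : (0 : ℝ) ≤ 1 / 4 ^ n := by positivity
  have h7 : K' / 4 ^ n = K' * (1 / 4 ^ n) := by ring
  rw [h7]
  have h8 : K' * (1 / 4 ^ n) ≤ K' * 4 ^ J * (1 / 4 ^ n) := by
    have : K' * 1 ≤ K' * 4 ^ J := mul_le_mul_of_nonneg_left h4 (by linarith)
    rw [mul_one] at this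
    exact mul_le_mul_of_nonneg_right this h6
  have h9 : 0 ≤ C * 4 ^ J * (1 / 4 ^ n) := by positivity
  have h10 : 0 ≤ K' * 4 ^ J * (2 : ℝ) ^ (-(c * (a : ℝ))) := by positivity
  calc C * 4 ^ J * (2 : ℝ) ^ (-(c * (a : ℝ))) + K' * (1 / 4 ^ n) ≤
      C * 4 ^ J * (2 : ℝ) ^ (-(c * (a : ℝ))) + K' * 4 ^ J * (1 / 4 ^ n) + C * 4 ^ J * (1 / 4 ^ n) +
        K' * 4 ^ J * (2 : ℝ) ^ (-(c * (a : ℝ))) := by linarith
    _ = _ := by ring

end PS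

end HexObs
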