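import Pool.Agent.HexLim.Few
import Pool.Agent.TightS.DefsS
import Pool.Agent.PHW.ViaE

/-!
PS, P2: the weight of the bridges with few cuts at distance at least r0 from both ends.
-/

set_option autoImplicit false

namespace HexObs

namespace PS

open Finset TS

open scoped ENNReal

/-- bridges with less than K cuts at distance at least r0 from both ends -/
def FewC (r0 K : ℕ) : Set (List Bool) := {g | ∃ H, g ∈ Brd H ∧ (Ex.cutsIn g r0 (H - r0)).card < K}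

lemma gf_UN_le {ι : Type} (s : Finset ι) (S : ι → Set (List Bool)) : gf (⋃ i ∈ s, S i) ≤ ∑ i ∈ s, gf (S i) :=
  ENNReal.tsum_biUnion_le wE _ _

/-- all bridges up to the height N -/
lemma gf_BN_le (N : ℕ) : gf {t | ∃ h, h ≤ N ∧ t ∈ Brd h} ≤ ENNReal.ofReal (UU N) := by
  have h1 : {t : List Bool | ∃ h, h ≤ N ∧ t ∈ Brd h} ⊆ ⋃ h ∈ range (N + 1), Brd h := by
    rintro t ⟨h, hh, ht⟩
    simp only [Set.mem_iUnion]
    exact ⟨h, mem_range.2 (by omega), ht⟩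
  refine (gf_mono h1).trans ((gf_UN_le _ _).trans (le_of_eq ?_))
  unfold UU
  rw [ENNReal.ofReal_sum_of_nonneg fun h _ => (uu_pos h).le]
  exact sum_congr rfl fun h _ => by rw [gf_Brd, BT_eq_uu]

/-- bridges with less than K cuts in [1, w], by the height -/
lemma gf_few_le {w : ℕ} (hw : 1 ≤ w) (K N : ℕ) :
    gf {t | ∃ h, 2 * w ≤ h ∧ h ≤ N ∧ t ∈ Ex.few K w h} ≤
      ENNReal.ofReal (2 * (6 + CW) * (9 + CW) * (K / UU w) * UU N) := by
  have hCW := Num2Aux.CW_pos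
  have hUw : 0 < UU w := Num2Aux.UU_pos w
  have h1 : {t : List Bool | ∃ h, 2 * w ≤ h ∧ h ≤ N ∧ t ∈ Ex.few K w h} ⊆
      ⋃ h ∈ Finset.Icc (2 * w) N, Ex.few K w h := by
    rintro t ⟨h, hh, hN, ht⟩
    simp only [Set.mem_iUnion]
    exact ⟨h, Finset.mem_Icc.2 ⟨hh, hN⟩, ht⟩
  refine (gf_mono h1).trans ((gf_UN_le _ _).trans ?_)
  have h2 : ∀ h ∈ Finset.Icc (2 * w) N, gf (Ex.few K w h) ≤
      ENNReal.ofReal (2 * (6 + CW) * (9 + CW) * (K / UU w) * uu h) := by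
    intro h hh
    have h3 := Ex.few_le hw (Finset.mem_Icc.1 hh).1 K
    rw [← ENNReal.ofReal_toReal (Ex.gfB_ne (T := h) fun _ h => h.1)]
    exact ENNReal.ofReal_le_ofReal h3
  refine (Finset.sum_le_sum h2).trans ?_
  rw [← ENNReal.ofReal_sum_of_nonneg fun h _ => by have := uu_pos h; positivity]
  apply ENNReal.ofReal_le_ofReal
  rw [← Finset.mul_sum]
  apply mul_le_mul_of_nonneg_left _ (by positivity)
  unfold UU
  apply Finset.sum_le_sum_of_subset_of_nonneg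
  · intro h hh
    rw [mem_range]
    have := (Finset.mem_Icc.1 hh).2
    omega
  · intro h _ _
    exact (uu_pos h).le

/-- the first cut at or above s -/
lemma gf_FCN_le (s N : ℕ) : gf {t | ∃ j, j ≤ N ∧ t ∈ FC s j} ≤ 1 := by
  have h1 : {t : List Bool | ∃ j, j ≤ N ∧ t ∈ FC s j} ⊆ ⋃ j ∈ range (N + 1), FC s j := by
    rintro t ⟨j, hj, ht⟩
    simp only [Set.mem_iUnion]
    exact ⟨j, mem_range.2 (by omega), ht⟩
  exact (gf_mono h1).trans ((gf_UN_le _ _).trans (sum_FC_le s (N + 1)))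

/-- the first cut at or above s is far above s -/
lemma gf_FCfar_le {s w : ℕ} (hs : 1 ≤ s) (N : ℕ) :
    gf {t | ∃ j, s + w < j ∧ j ≤ N ∧ t ∈ FC s j} ≤ ENNReal.ofReal (UU s * KK' (w + 1)) := by
  have hU : 0 < UU s := Num2Aux.UU_pos s
  have h1 : gf {t | ∃ j, s + w < j ∧ j ≤ N ∧ t ∈ FC s j} ≤
      gf {t | ∃ h, h ≤ s ∧ t ∈ Brd h} * gf {p | ∃ r, w < r ∧ r ≤ N ∧ p ∈ Irr r} := by
    refine gf_le_mul ?_
    rintro t ⟨j, hj, hjN, ht⟩
    obtain ⟨y, r, a, p, u, h2, h3, h4, ha, hp, hu, e⟩ := jump_dec (s := s - 1) (n := j) (by omega) ht.1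
    have h5 : y + r = j := by
      by_contra hne
      refine ht.2.2 (y + r) (by omega) (by omega) ⟨a ++ p, u, _, Brd_append ha hp.1, hu, e⟩
    have h6 : j - y - r = 0 := by omega
    rw [h6, Brd_zero] at hu
    have h7 : u = [] := hu
    subst h7
    rw [List.append_nil] at e
    exact ⟨a, ⟨y, by omega, ha⟩, p, ⟨r, by omega, by omega, hp⟩, e⟩
  refine h1.trans ?_
  rw [ENNReal.ofReal_mul hU.le]
  refine mul_le_mul' (gf_BN_le s) ?_
  have h2 : {p : List Bool | ∃ r, w < r ∧ r ≤ N ∧ p ∈ Irr r} ⊆ ⋃ r ∈ Finset.Ico (w + 1) (N + 1), Irr r := by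
    rintro p ⟨r, hr, hrN, hp⟩
    simp only [Set.mem_iUnion]
    exact ⟨r, Finset.mem_Ico.2 ⟨by omega, by omega⟩, hp⟩
  refine (gf_mono h2).trans ((gf_UN_le _ _).trans ?_)
  have h3 := sum_kap_gt w (N + 1)
  refine le_trans (le_of_eq (Finset.sum_congr rfl fun r _ => ?_)) h3
  rw [Ex.Irr_gf, kap'_eq]

/-- **the weight of the bridges with few cuts** -/
theorem few_mass {w r0 : ℕ} (hr0 : 1 ≤ r0) (hrw : r0 ≤ w) (K N : ℕ) :
    gf {Z | Z ∈ FewC r0 K ∧ ∃ h, 5 * w ≤ h ∧ h ≤ N ∧ Z ∈ Brd h} ≤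
      ENNReal.ofReal (2 * (6 + CW) * (9 + CW) * ((K + UU r0) / UU w) * UU N) := by
  classical
  have hw : 1 ≤ w := hr0.trans hrw
  have hCW := Num2Aux.CW_pos
  have hUw : 0 < UU w := Num2Aux.UU_pos w
  have hUr : 0 < UU r0 := Num2Aux.UU_pos r0
  have hUN : 0 < UU N := Num2Aux.UU_pos N
  have hsub : {Z | Z ∈ FewC r0 K ∧ ∃ h, 5 * w ≤ h ∧ h ≤ N ∧ Z ∈ Brd h} ⊆
      Ex.cat {t | ∃ j, j ≤ N ∧ t ∈ FC r0 j} {t | ∃ h, 2 * w ≤ h ∧ h ≤ N ∧ t ∈ Ex.few K w h} ∪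
      Ex.cat {t | ∃ j, r0 + w < j ∧ j ≤ N ∧ t ∈ FC r0 j} {t | ∃ h, h ≤ N ∧ t ∈ Brd h} := by
    rintro Z ⟨⟨H, hZH, hc⟩, h, h1, h2, hZ⟩
    have hHh : H = h := Brd_height hZH hZ
    subst hHh
    obtain ⟨j, a, u, h3, h4, ha, hu, e⟩ := FC_dec (s := r0) (by omega) hZ
    rcases Nat.lt_or_ge (r0 + w) j with hj | hj
    · exact Or.inr ⟨a, u, ⟨j, hj, by omega, ha⟩, ⟨_, by omega, hu⟩, e⟩
    · refine Or.inl ⟨a, u, ⟨j, by omega, ha⟩, ⟨H - j, by omega, by omega, hu, ?_⟩, e⟩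
      refine lt_of_le_of_lt ?_ hc
      have hsub : (Ex.cutsIn u 1 w).image (fun c => j + c) ⊆ Ex.cutsIn Z r0 (H - r0) := by
        intro c hcm
        rw [Finset.mem_image] at hcm
        obtain ⟨c', hc', rfl⟩ := hcm
        rw [Ex.mem_cutsIn] at hc' ⊢
        refine ⟨⟨by omega, by omega⟩, ?_⟩
        rw [e]
        exact Ex.cut_cat ha.1 hu hc'.2
      have := Finset.card_le_card hsub
      rwa [Finset.card_image_of_injective _ (add_right_injective j)] at this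
  refine (gf_mono hsub).trans ((gf_union_le _ _).trans ?_)
  have b1 : gf (Ex.cat {t | ∃ j, j ≤ N ∧ t ∈ FC r0 j} {t | ∃ h, 2 * w ≤ h ∧ h ≤ N ∧ t ∈ Ex.few K w h}) ≤
      ENNReal.ofReal (2 * (6 + CW) * (9 + CW) * (K / UU w) * UU N) := by
    refine (Ex.gf_cat_le _ _).trans ((mul_le_mul' (gf_FCN_le r0 N) (gf_few_le hw K N)).trans ?_)
    rw [one_mul]
  have b2 : gf (Ex.cat {t | ∃ j, r0 + w < j ∧ j ≤ N ∧ t ∈ FC r0 j} {t | ∃ h, h ≤ N ∧ t ∈ Brd h}) ≤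
      ENNReal.ofReal (UU r0 / UU w * UU N) := by
    refine (Ex.gf_cat_le _ _).trans ((mul_le_mul' (gf_FCfar_le hr0 N) (gf_BN_le N)).trans ?_)
    have hK := KK_nonneg (w + 1)
    rw [← ENNReal.ofReal_mul (by positivity)]
    apply ENNReal.ofReal_le_ofReal
    have h3 : KK' (w + 1) ≤ 1 / UU w := by
      rw [le_div_iff₀ hUw]
      have := UU_mul_KK w
      linarith
    calc UU r0 * KK' (w + 1) * UU N ≤ UU r0 * (1 / UU w) * UU N := by gcongr
      _ = _ := by ring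
  refine (add_le_add b1 b2).trans ?_
  rw [← ENNReal.ofReal_add (by positivity) (by positivity)]
  apply ENNReal.ofReal_le_ofReal
  have h4 : UU r0 / UU w * UU N ≤ 2 * (6 + CW) * (9 + CW) * (UU r0 / UU w) * UU N := by
    have h5 : (1 : ℝ) ≤ 2 * (6 + CW) * (9 + CW) := by nlinarith
    have h6 : 0 ≤ UU r0 / UU w * UU N := by positivity
    calc UU r0 / UU w * UU N = 1 * (UU r0 / UU w * UU N) := (one_mul _).symm
      _ ≤ (2 * (6 + CW) * (9 + CW)) * (UU r0 / UU w * UU N) := mul_le_mul_of_nonneg_right h5 h6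
      _ = _ := by ring
  have h7 : 2 * (6 + CW) * (9 + CW) * ((K + UU r0) / UU w) * UU N =
      2 * (6 + CW) * (9 + CW) * (K / UU w) * UU N + 2 * (6 + CW) * (9 + CW) * (UU r0 / UU w) * UU N := by
    ring
  rw [h7]
  linarith

end PS

end HexObs
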