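import Pool.Agent.NTQ.Geo

/-!
PS (pointwise lower bound, short route), P3: if all the leaves have a height below H0, then a window of times with a
displacement of at least 6 H0 + 8 levels contains a whole leaf.
-/

set_option autoImplicit false

namespace HexObs

namespace PS

open Finset TS SDN NTm

variable {b m u T : ℕ} {t : List Bool} {e : ℕ → ℕ}

/-- the displacement inside a leaf -/
lemma leaf_disp {l H : ℕ} {g : List Bool} (hI : IsLf t m e l g) (hg : g ∈ Brd H) (hl : l < m) {a c : ℕ}
    (ha : ee m t.length e l ≤ a) (hc : c ≤ ee m t.length e (l + 1)) (ha' : a ≤ ee m t.length e (l + 1))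
    (hc' : ee m t.length e l ≤ c) : |lev t a - lev t c| ≤ 3 * (H : ℤ) + 2 := by
  have hst := st_ge e m t.length l hl
  have hlen := hI.len
  -- a time of the leaf
  have key : ∀ x, ee m t.length e l ≤ x → x ≤ ee m t.length e (l + 1) →
      -2 ≤ Tight.sg (l + 1) (lev t x) - Tight.sg (l + 1) (lev t (st e l)) ∧
      Tight.sg (l + 1) (lev t x) - Tight.sg (l + 1) (lev t (st e l)) ≤ 3 * (H : ℤ) + 2 ∧
      (st e l ≤ x → 0 ≤ Tight.sg (l + 1) (lev t x) - Tight.sg (l + 1) (lev t (st e l)) ∧
        Tight.sg (l + 1) (lev t x) - Tight.sg (l + 1) (lev t (st e l)) ≤ 3 * (H : ℤ)) := by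
    intro x x1 x2
    rcases Nat.lt_or_ge x (st e l) with h1 | h1
    · have h2 : st e l = x + 1 := by omega
      have h3 := sg_step (l + 1) t x
      have h4 := NTm.lev_down t x
      rw [h2]
      refine ⟨by omega, ?_, fun h => by omega⟩
      have h5 : |lev t (x + 1) - lev t x| ≤ 2 := by
        have a1 := NTm.lev_down t x
        have a2 : lev t (x + 1) ≤ lev t x + 2 := by
          have := sg_step 1 t x
          unfold Tight.sg at this
          simpa using this
        rw [abs_le]
        constructor <;> omega
      have h6 : Tight.sg (l + 1) (lev t x) - Tight.sg (l + 1) (lev t (x + 1)) ≤ 2 := by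
        rw [abs_le] at h5
        unfold Tight.sg
        split_ifs <;> omega
      omega
    · obtain ⟨i, rfl⟩ := Nat.exists_eq_add_of_le h1
      have h2 := hI.lv i (by omega)
      rw [sg_sub] at h2
      have h3 := lev_range hg (i := i) (by omega)
      have h4 := h3.1
      have h5 := h3.2.1
      exact ⟨by omega, by omega, fun _ => ⟨by omega, by omega⟩⟩
  have ka := key a ha ha'
  have kc := key c hc' hc
  have h1 : |Tight.sg (l + 1) (lev t a) - Tight.sg (l + 1) (lev t c)| ≤ 3 * (H : ℤ) + 2 := by
    rw [abs_le]
    by_cases h2 : st e l ≤ a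
    · by_cases h3 : st e l ≤ c
      · have := ka.2.2 h2
        have := kc.2.2 h3
        constructor <;> omega
      · have e1 : c + 1 = st e l := by omega
        have := ka.2.2 h2
        have h5 : |lev t (c + 1) - lev t c| ≤ 2 := by
          have a1 := NTm.lev_down t c
          have a2 : lev t (c + 1) ≤ lev t c + 2 := by
            have := sg_step 1 t c
            unfold Tight.sg at this
            simpa using this
          rw [abs_le]
          constructor <;> omega
        rw [e1] at h5
        have h6 : |Tight.sg (l + 1) (lev t (st e l)) - Tight.sg (l + 1) (lev t c)| ≤ 2 := by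
          rw [← sg_sub]
          unfold Tight.sg
          split_ifs
          · rwa [abs_neg]
          · exact h5
        rw [abs_le] at h6
        constructor <;> omega
    · have e1 : a + 1 = st e l := by omega
      have h5 : |lev t (a + 1) - lev t a| ≤ 2 := by
        have a1 := NTm.lev_down t a
        have a2 : lev t (a + 1) ≤ lev t a + 2 := by
          have := sg_step 1 t a
          unfold Tight.sg at this
          simpa using this
        rw [abs_le]
        constructor <;> omega
      rw [e1] at h5
      have h6 : |Tight.sg (l + 1) (lev t (st e l)) - Tight.sg (l + 1) (lev t a)| ≤ 2 := by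
        rw [← sg_sub]
        unfold Tight.sg
        split_ifs
        · rwa [abs_neg]
        · exact h5
      rw [abs_le] at h6
      by_cases h3 : st e l ≤ c
      · have := kc.2.2 h3
        constructor <;> omega
      · have e2 : c = a := by omega
        rw [e2]
        constructor <;> omega
  rw [← sg_sub] at h1
  unfold Tight.sg at h1
  split_ifs at h1
  · rwa [abs_neg] at h1
  · exact h1

/-- a leaf has no large backtracks -/
lemma leaf_CL (ht : t ∈ Brd T) (hb : 1 ≤ b) (h : Lf false b t m u e) {l : ℕ} (hl : l < m) {g : List Bool}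
    (hI : IsLf t m e l g) : g ∈ CL b := by
  obtain ⟨hu, -, h'⟩ := bridge_lf ht hb h (by omega)
  have hst := st_ge e m t.length l hl
  have hlen := hI.len
  intro i i' hi hi'
  have h1 := hI.lv i (by omega)
  have h2 := hI.lv i' hi'
  rw [sg_sub] at h1 h2
  have h3 := h'.small l hl (st e l + i) (st e l + i') (by omega) (by omega) (by omega)
  simp only [lvl_false] at h3
  have hul : Even (u + l) ↔ Even (l + 1) := by
    rw [Nat.even_add, Nat.even_add_one]
    tauto
  rw [NTm.sg_par hul, NTm.sg_par hul] at h3
  omega

/-- **a window of times with a large displacement contains a leaf** -/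
theorem leaf_in (ht : t ∈ Brd T) (hb : 1 ≤ b) (h : Lf false b t m u e) {H0 : ℕ} (hH : 2 ^ b ≤ H0)
    (hlt : ∀ l, l < m → ∃ g H, IsLf t m e l g ∧ g ∈ Brd H ∧ H < H0) {i s j j' : ℕ} (hs : i + s ≤ t.length)
    (h1 : i ≤ j) (h2 : j ≤ i + s) (h3 : i ≤ j') (h4 : j' ≤ i + s) (hd : 6 * (H0 : ℤ) + 8 ≤ |lev t j - lev t j'|) :
    ∃ l, l < m ∧ i ≤ st e l ∧ i ≤ ee m t.length e l ∧ ee m t.length e (l + 1) ≤ i + s := by
  -- the order of the times
  wlog hjj : j' ≤ j generalizing j j'
  · exact this h3 h4 h1 h2 (by rwa [abs_sub_comm]) (by omega)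
  rcases Nat.eq_zero_or_pos m with hm | hm
  · exfalso
    subst hm
    have h5 := no_leaf h (i := j') (j := j) (by omega) (by omega)
    have h6 : |lev t j - lev t j'| ≤ 2 * RR b := h5
    have h7 : RR b = 3 * 2 ^ b - 2 := rfl
    have h8 : ((2 : ℤ) ^ b) ≤ H0 := by exact_mod_cast hH
    omega
  · obtain ⟨-, -, h'⟩ := bridge_lf ht hb h hm
    rcases split_disp h' hm hjj (by omega) (Y := 3 * (H0 : ℤ) + 4) (by omega) with ⟨l, l1, l2, l3⟩ | ⟨a, c, a1, a2, a3, a4, l, l1, l2, l3⟩
    · have := st_ge e m t.length l l1
      exact ⟨l, l1, by omega, by omega, by omega⟩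
    · exfalso
      obtain ⟨g, H, g1, g2, g3⟩ := hlt l l1
      have h5 := leaf_disp g1 g2 l1 (a := c) (c := a) (by omega) (by omega) l3 l2
      have h6 : (H : ℤ) < H0 := by exact_mod_cast g3
      omega

end PS

end HexObs
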