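import Pool.Agent.BAR.PwGlue
import Pool.Agent.SDN.TubeGeo

/-!
PS, gluing of a free tip: a prefix of a half plane walk that ends with a vertical step at a cut of a long leg, with a
free half disc beyond the end, is joined with a half plane walk without a cut and of small extent. The joined word is a
half plane word, and the joint can be recovered from it.
-/

set_option autoImplicit false

namespace HexObs

open Complex Finset ENNReal SDN

namespace PS

open BAR

/-! ### 1. Definitions -/

/-- the prefixes with room for a free tip of r rows: the next step is vertical (up for σ = 1, down for σ = -1), the last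
leg has a range of more than r rows and stays behind the end, no vertex of the prefix is beyond the end in the box of
radius r. -/
structure PreC (r : ℤ) (t : List Bool) (σ : ℤ) : Prop where
  sig : σ = 1 ∨ σ = -1
  dir : dx up t t.length = σ • up
  pos : ∀ i, 1 ≤ i → i ≤ t.length → 0 < lev t i
  inj : ∀ i l, i < l → l ≤ t.length → vx oo up t i ≠ vx oo up t l
  room : σ = -1 → 3 * r < lev t t.length
  leg : ∃ j, j ≤ t.length ∧ 3 * r < σ * (lev t t.length - lev t j) ∧
    ∀ i, j ≤ i → i ≤ t.length → σ * lev t i ≤ σ * lev t t.length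
  free : ∀ i, i ≤ t.length → 0 < σ * (lev t i - lev t t.length) →
    ∃ dir, 3 * r < |lvl dir (vx oo up t i - vx oo up t t.length)|

lemma PreC.mono {r r' : ℤ} (h : r' ≤ r) {t : List Bool} {σ : ℤ} (hp : PreC r t σ) : PreC r' t σ := by
  obtain ⟨h1, h2, h3, h4, h5, ⟨j, hj1, hj2, hj3⟩, h7⟩ := hp
  refine ⟨h1, h2, h3, h4, fun hs => ?_, ⟨j, hj1, by linarith, hj3⟩, fun i hi h0 => ?_⟩
  · have := h5 hs
    linarith
  · obtain ⟨dir, hd⟩ := h7 i hi h0
    exact ⟨dir, by linarith⟩

/-- a good cut position of a longer word gives a prefix of the class -/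
lemma PreC_take {r : ℤ} {t : List Bool} {σ : ℤ} {i : ℕ} (hi : i ≤ t.length) (sig : σ = 1 ∨ σ = -1)
    (dir : dx up t i = σ • up)
    (pos : ∀ l, 1 ≤ l → l ≤ i → 0 < lev t l)
    (inj : ∀ a b, a < b → b ≤ i → vx oo up t a ≠ vx oo up t b)
    (room : σ = -1 → 3 * r < lev t i)
    (leg : ∃ j, j ≤ i ∧ 3 * r < σ * (lev t i - lev t j) ∧ ∀ l, j ≤ l → l ≤ i → σ * lev t l ≤ σ * lev t i)
    (free : ∀ l, l ≤ i → 0 < σ * (lev t l - lev t i) →
      ∃ dir, 3 * r < |lvl dir (vx oo up t l - vx oo up t i)|) : PreC r (t.take i) σ := by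
  have hl : (t.take i).length = i := by
    rw [List.length_take]
    omega
  have hv : ∀ l, l ≤ i → vx oo up (t.take i) l = vx oo up t l := fun l h => vx_take hi (by omega)
  have hlv : ∀ l, l ≤ i → lev (t.take i) l = lev t l := fun l h => lev_take hi (by omega)
  refine ⟨sig, ?_, ?_, ?_, ?_, ?_, ?_⟩
  · rw [hl, dx_take hi le_rfl, dir]
  · intro l h1 h2
    rw [hl] at h2
    rw [hlv l h2]
    exact pos l h1 h2
  · intro a b hab hb
    rw [hl] at hb
    rw [hv a (by omega), hv b hb]
    exact inj a b hab hb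
  · intro hs
    rw [hl, hlv i le_rfl]
    exact room hs
  · obtain ⟨j, hj1, hj2, hj3⟩ := leg
    refine ⟨j, by omega, ?_, fun l h1 h2 => ?_⟩
    · rw [hl, hlv i le_rfl, hlv j hj1]
      exact hj2
    · rw [hl] at h2
      rw [hl, hlv i le_rfl, hlv l h2]
      exact hj3 l h1 h2
  · intro l h1 h2
    rw [hl] at h1
    rw [hl, hlv i le_rfl, hlv l h1] at h2
    rw [hl, hv i le_rfl, hv l h1]
    exact free l h1 h2

/-- the free tips: half plane words without a cut, of extent at most r rows -/
def Tip (r : ℤ) : Set (List Bool) := {v | v ∈ HiN v.length ∧ ∀ i, 1 ≤ i → i ≤ v.length → ∀ dir, |lvl dir (vx oo up v i)| ≤ 3 * r}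

lemma Tip.pos {r : ℤ} {v : List Bool} (hv : v ∈ Tip r) {i : ℕ} (h1 : 1 ≤ i) (h2 : i ≤ v.length) : 0 < lev v i :=
  (HpN_iff.1 hv.1.1).2.1 i h1 h2

lemma Tip.le {r : ℤ} {v : List Bool} (hv : v ∈ Tip r) {i : ℕ} (h1 : 1 ≤ i) (h2 : i ≤ v.length) : lev v i ≤ 3 * r :=
  (le_abs_self _).trans (hv.2 i h1 h2 false)

/-! ### 2. The joined word -/

lemma cat_vx {t v : List Bool} {σ : ℤ} (hσ : σ = 1 ∨ σ = -1) (hd : dx up t t.length = σ • up) (j : ℕ) :
    vx oo up (t ++ v) (t.length + j) = vx oo up t t.length + σ • vx oo up v j := by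
  have h1 : dx up (t ++ v) t.length = σ • up := by rw [dx_append le_rfl, hd]
  rw [vx_dropS hσ h1 j, vx_append (by omega), List.drop_left]

lemma cat_lev {t v : List Bool} {σ : ℤ} (hσ : σ = 1 ∨ σ = -1) (hd : dx up t t.length = σ • up) (j : ℕ) :
    lev (t ++ v) (t.length + j) = lev t t.length + σ * lev v j := by
  unfold lev
  rw [cat_vx hσ hd, ip_add_left, ip_smul]

lemma cat_lev0 {t : List Bool} (v : List Bool) {i : ℕ} (h : i ≤ t.length) : lev (t ++ v) i = lev t i := by
  unfold lev
  rw [vx_append (by omega)]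

lemma lvl_smul {σ : ℤ} (hσ : σ = 1 ∨ σ = -1) (dir : Bool) (p : Pt) : |lvl dir (σ • p)| = |lvl dir p| := by
  rcases hσ with rfl | rfl
  · rw [one_smul]
  · have e : ((-1 : ℤ) • p : Pt) = -p := by simp
    rw [e]
    unfold lvl
    rw [ip_neg_left, abs_neg]

/-- **the joined word is a half plane word** -/
theorem glue_hp {r : ℤ} {t v : List Bool} {σ : ℤ} (ht : PreC r t σ) (hv : v ∈ Tip r) :
    t ++ v ∈ HpN (t.length + v.length) := by
  have hσ := ht.sig
  have hss : σ * σ = 1 := by rcases hσ with rfl | rfl <;> norm_num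
  have hlen : (t ++ v).length = t.length + v.length := List.length_append
  have h0 : 0 ≤ lev t t.length := by
    rcases Nat.eq_zero_or_pos t.length with h | h
    · rw [h, lev_zero]
    · exact (ht.pos _ h le_rfl).le
  rw [HpN_iff]
  refine ⟨hlen, fun i h1 h2 => ?_, fun i m him hm heq => ?_⟩
  · rw [hlen] at h2
    rcases Nat.lt_or_ge t.length i with h | h
    · obtain ⟨j, rfl⟩ : ∃ j, i = t.length + j := ⟨i - t.length, by omega⟩
      rw [cat_lev hσ ht.dir]
      have h3 := Tip.pos hv (i := j) (by omega) (by omega)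
      have h4 := Tip.le hv (i := j) (by omega) (by omega)
      rcases hσ with rfl | rfl
      · linarith
      · have h5 := ht.room rfl
        linarith
    · rw [cat_lev0 v h]
      exact ht.pos i h1 h
  · rw [hlen] at hm
    rcases Nat.lt_or_ge t.length m with h | h
    · obtain ⟨j, rfl⟩ : ∃ j, m = t.length + j := ⟨m - t.length, by omega⟩
      rcases Nat.lt_or_ge i t.length with h' | h'
      · rw [vx_append (by omega), cat_vx hσ ht.dir] at heq
        have h3 : vx oo up t i - vx oo up t t.length = σ • vx oo up v j := by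
          rw [heq]
          abel
        have h4 : lev t i - lev t t.length = σ * lev v j := by
          have h5 : ip (vx oo up t i - vx oo up t t.length) up = σ * lev v j := by
            rw [h3, ip_smul]
            rfl
          rw [ip_sub_left] at h5
          exact h5
        have h6 : 0 < σ * (lev t i - lev t t.length) := by
          rw [h4, ← mul_assoc, hss, one_mul]
          exact Tip.pos hv (by omega) (by omega)
        obtain ⟨dir, hd⟩ := ht.free i h'.le h6
        rw [h3, lvl_smul hσ] at hd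
        have h7 := hv.2 j (by omega) (by omega) dir
        linarith
      · obtain ⟨l, rfl⟩ : ∃ l, i = t.length + l := ⟨i - t.length, by omega⟩
        rw [cat_vx hσ ht.dir, cat_vx hσ ht.dir] at heq
        exact (HpN_iff.1 hv.1.1).2.2 l j (by omega) (by omega) (smul_inj hσ (add_left_cancel heq))
    · rw [vx_append (by omega), vx_append (by omega)] at heq
      exact ht.inj i m him h heq

/-- the joint cannot be moved to a later position -/
lemma glue_lt {r : ℤ} {t v t' v' : List Bool} {σ σ' : ℤ} (ht : PreC r t σ) (hv : v ∈ Tip r) (ht' : PreC r t' σ')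
    (hv' : v' ∈ Tip r) (h : t ++ v = t' ++ v') (hl : t.length < t'.length) : False := by
  have hσ := ht.sig
  have hσ' := ht'.sig
  have hss : σ * σ = 1 := by rcases hσ with rfl | rfl <;> norm_num
  have hss' : σ' * σ' = 1 := by rcases hσ' with rfl | rfl <;> norm_num
  have hlen : t.length + v.length = t'.length + v'.length := by
    have := congrArg List.length h
    rwa [List.length_append, List.length_append] at this
  obtain ⟨q, hq⟩ : ∃ q, t'.length = t.length + q := ⟨t'.length - t.length, by omega⟩
  have hq1 : 1 ≤ q := by omega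
  have hq2 : q ≤ v.length := by omega
  have e1 : ∀ j, lev (t ++ v) (t.length + j) = lev t t.length + σ * lev v j := cat_lev hσ ht.dir
  have e2 : ∀ j, lev (t ++ v) (t'.length + j) = lev t' t'.length + σ' * lev v' j := by
    intro j
    rw [h]
    exact cat_lev hσ' ht'.dir j
  have e3 : ∀ i, i ≤ t'.length → lev (t ++ v) i = lev t' i := by
    intro i hi
    rw [h]
    exact cat_lev0 v' hi
  have hb : ∀ j, j ≤ v.length → 0 ≤ lev v j ∧ lev v j ≤ 3 * r := by
    intro j hj
    have hr : 0 ≤ 3 * r := (Tip.pos hv hq1 hq2).le.trans (Tip.le hv hq1 hq2)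
    rcases Nat.eq_zero_or_pos j with h0 | h0
    · rw [h0, lev_zero]
      exact ⟨le_rfl, hr⟩
    · exact ⟨(Tip.pos hv h0 hj).le, Tip.le hv h0 hj⟩
  have hend : lev t' t'.length = lev t t.length + σ * lev v q := by
    rw [← e3 _ le_rfl, hq, e1]
  obtain ⟨j0, hj1, hj2, hj3⟩ := ht'.leg
  -- the last leg of the longer prefix starts before the end of the shorter one
  have hj0 : j0 < t.length := by
    by_contra hcon
    push Not at hcon
    obtain ⟨p, rfl⟩ : ∃ p, j0 = t.length + p := ⟨j0 - t.length, by omega⟩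
    have h1 := hb p (by omega)
    have h2 := hb q hq2
    rw [← e3 _ hj1, e1, hend] at hj2
    rcases hσ with rfl | rfl <;> rcases hσ' with rfl | rfl <;> linarith [h1.1, h1.2, h2.1, h2.2]
  have hleg : ∀ l, l ≤ q → σ' * (lev t t.length + σ * lev v l) ≤ σ' * (lev t t.length + σ * lev v q) := by
    intro l hl
    have h1 := hj3 (t.length + l) (by omega) (by omega)
    rw [← e3 _ (by omega), e1, hend] at h1
    exact h1
  have hpq := Tip.pos hv hq1 hq2
  have hsig : σ' = σ := by
    have h1 := hleg 0 (Nat.zero_le _)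
    rw [lev_zero] at h1
    rcases hσ with rfl | rfl <;> rcases hσ' with rfl | rfl <;> first | rfl | (exfalso; linarith)
  -- a cut of the tip
  have hcut : CutP v q := by
    refine ⟨hq1, hq2, ?_, fun l hl => ?_, fun l hl1 hl2 => ?_⟩
    · have h1 : dx up (t ++ v) (t.length + q) = σ • dx up v q := by
        have h2 : dx up (t ++ v) t.length = σ • up := by rw [dx_append le_rfl, ht.dir]
        rw [dx_dropS hσ h2 q, List.drop_left]
      have h3 : dx up (t ++ v) (t.length + q) = σ' • up := by
        rw [← hq, h, dx_append le_rfl, ht'.dir]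
      rw [h1, hsig] at h3
      exact smul_inj hσ h3
    · have h1 := hleg l hl
      rw [hsig] at h1
      rcases hσ with rfl | rfl <;> linarith
    · have h1 := e1 l
      have h2 := e2 (l - q)
      rw [show t'.length + (l - q) = t.length + l by omega, h1, hend, hsig] at h2
      have h3 := Tip.pos hv' (i := l - q) (by omega) (by omega)
      rcases hσ with rfl | rfl <;> linarith
  have h1 := mem_cuts.2 hcut
  rw [hv.1.2] at h1
  exact absurd h1 (Finset.notMem_empty q)

/-- **the joint can be recovered** -/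
theorem glue_unique {r : ℤ} {t v t' v' : List Bool} {σ σ' : ℤ} (ht : PreC r t σ) (hv : v ∈ Tip r)
    (ht' : PreC r t' σ') (hv' : v' ∈ Tip r) (h : t ++ v = t' ++ v') : t = t' := by
  rcases lt_trichotomy t.length t'.length with hl | hl | hl
  · exact (glue_lt ht hv ht' hv' h hl).elim
  · exact (List.append_inj h hl).1
  · exact (glue_lt ht' hv' ht hv h.symm hl).elim

/-- **the product of the masses of the prefixes and of the tips** -/
theorem gf_glue {r : ℤ} {A B P : Set (List Bool)} (hA : ∀ t ∈ A, ∃ σ, PreC r t σ) (hB : ∀ v ∈ B, v ∈ Tip r)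
    (hP : ∀ t ∈ A, ∀ v ∈ B, t ++ v ∈ HpN (t.length + v.length) → t ++ v ∈ P) : gf A * gf B ≤ gf P := by
  refine mul_le_gf (fun t ht v hv => ?_) fun t ht v hv t' ht' v' hv' h => ?_
  · obtain ⟨σ, h1⟩ := hA t ht
    exact hP t ht v hv (glue_hp h1 (hB v hv))
  · obtain ⟨σ, h1⟩ := hA t ht
    obtain ⟨σ', h2⟩ := hA t' ht'
    exact glue_unique h1 (hB v hv) h2 (hB v' hv') h

end PS

end HexObs
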