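import Pool.Agent.PS.EvF
import Pool.Agent.PS.Pre
import Pool.Agent.PS.Geo1

/-!
PS, P3c: the word in front of a cut of a leaf of a monotone decomposition is a prefix with a free tip, if the cut is far
from the word in front of the leaf; the word behind the cut belongs to the class Suf.
-/

set_option autoImplicit false

namespace HexObs

namespace PS

open Finset TS SDN NTm

open scoped ENNReal

open BAR

/-- the direction after a word and a fold -/
lemma dx_unf_step {g r : List Bool} {h : ℕ} (hg : g ∈ Brd h) (hh : 1 ≤ h) (j : ℕ) :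
    dx up (g.dropLast ++ (!lst g) :: (!lst g) :: r) (g.length + 1 + j) = -dx up r j := by
  have h1 := (unf_step (r := r) hg hh).2.2
  have h2 : ∀ (w : List Bool) (i : ℕ), dx up w i = vx oo up w (i + 1) - vx oo up w i := by
    intro w i
    have : vx oo up w (i + 1) = vx oo up w i + dx up w i := rfl
    rw [this]
    abel
  rw [h2, h2, show g.length + 1 + j + 1 = g.length + 1 + (j + 1) by omega, h1, h1]
  abel

/-- the direction in front of the leaf behind the leaves ls -/
lemma pre_dir : ∀ ls : List (List Bool), (∀ x ∈ ls, ∃ h, 1 ≤ h ∧ x ∈ Brd h) →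
    ∃ σ : ℤ, (σ = 1 ∨ σ = -1) ∧ dx up (pre ls) (pre ls).length = σ • up
  | [], _ => ⟨1, Or.inl rfl, by rw [one_smul]; rfl⟩
  | g :: gs, hls => by
    obtain ⟨σ, h1, h2⟩ := pre_dir gs fun x hx => hls x (List.mem_cons_of_mem _ hx)
    obtain ⟨h, hh, hg⟩ := hls g List.mem_cons_self
    refine ⟨-σ, by rcases h1 with rfl | rfl <;> simp, ?_⟩
    have h3 := dx_unf_step (r := pre gs) hg hh (pre gs).length
    have h4 := (unf_step (r := pre gs) hg hh).1
    show dx up (g.dropLast ++ (!lst g) :: (!lst g) :: pre gs) (g.dropLast ++ (!lst g) :: (!lst g) :: pre gs).length = _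
    rw [h4, h3, h2, neg_smul]

section

variable {kc J : ℕ} {t g V W : List Bool} {ls rs : List (List Bool)} {a c : ℕ}

/-- the bridge is the word in front of the cut, followed by the word behind the cut -/
lemma dec_cut (h : Dec kc J t ls g rs) (hW : W ∈ Brd c) (hc : 1 ≤ c) (hg : g = V ++ W) :
    (pre ls ++ V) ++ unf (W :: rs) = t := by
  rw [← h.eq, unf_pre, hg, unf_app (Brd_ne_nil hW hc), List.append_assoc]

/-- the vertex number |W| of the word behind the cut is the last vertex of W -/
lemma unf_top (hW : W ∈ Brd c) (hc : 1 ≤ c) (rs : List (List Bool)) :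
    W.length ≤ (unf (W :: rs)).length ∧ vx oo up (unf (W :: rs)) W.length = vx oo up W W.length := by
  rcases rs with _ | ⟨y, ys⟩
  · exact ⟨le_rfl, rfl⟩
  · obtain ⟨h1, h2, -⟩ := unf_step (r := unf (y :: ys)) hW hc
    refine ⟨?_, h2 _ le_rfl⟩
    show W.length ≤ (W.dropLast ++ (!lst W) :: (!lst W) :: unf (y :: ys)).length
    rw [h1]
    omega

/-- **the word in front of a cut of a leaf, far from the word in front of the leaf, has room for a free tip** -/
theorem pre_c (ht : t ∈ BL (kc + J)) (h : Dec kc J t ls g rs) (hV : V ∈ Brd a) (hW : W ∈ Brd c) (hg : g = V ++ W)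
    {r : ℤ} (ha1 : 1 ≤ a) (hc1 : 1 ≤ c) (ha : r < a) (hc : r < c)
    (hfar : vx oo up (pre ls ++ V) ((pre ls).length + V.length) ∉ nbh r (pre ls) (pre ls).length) :
    ∃ σ, PreC r (pre ls ++ V) σ := by
  obtain ⟨⟨T, hT⟩, -⟩ := ht
  have hls : ∀ x ∈ ls, ∃ h, 1 ≤ h ∧ x ∈ Brd h := by
    intro x hx
    obtain ⟨k, a1, a2, a3⟩ := h.mem x (List.mem_append_left _ hx)
    exact ⟨k, by have := Nat.one_le_two_pow (n := kc + 4); omega, a3⟩
  obtain ⟨σ, hσ, hd⟩ := pre_dir ls hls
  obtain ⟨P, hP⟩ : ∃ P, P = pre ls := ⟨_, rfl⟩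
  rw [← hP] at hd hfar ⊢
  obtain ⟨X, hX⟩ : ∃ X, X = unf (W :: rs) := ⟨_, rfl⟩
  have hss : σ * σ = 1 := by rcases hσ with rfl | rfl <;> norm_num
  obtain ⟨v1, v2, v3, v4⟩ := mem_Brd.1 hV
  have hlen : (P ++ V).length = P.length + V.length := List.length_append
  have hcat : (P ++ V) ++ X = t := by
    rw [hP, hX]
    exact dec_cut h hW hc1 hg
  have htl : t.length = (P ++ V).length + X.length := by rw [← hcat, List.length_append]
  have hlv : ∀ i, i ≤ (P ++ V).length → lev (P ++ V) i = lev t i := by
    intro i hi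
    rw [← hcat]
    exact (cat_lev0 X hi).symm
  have hvx : ∀ i, i ≤ (P ++ V).length → vx oo up (P ++ V) i = vx oo up t i := by
    intro i hi
    rw [← hcat]
    exact (vx_append (t := P ++ V) (s := X) (i := i) (by omega)).symm
  have hd2 : dx up (P ++ V) (P ++ V).length = σ • up := by
    have h1 : dx up (P ++ V) P.length = σ • up := by rw [dx_append le_rfl, hd]
    rw [hlen, dx_dropS hσ h1, List.drop_left, v3]
  have hVlev : ∀ k, k ≤ V.length → 0 ≤ lev V k ∧ lev V k ≤ 3 * a := fun k hk =>
    ⟨(lev_range hV hk).1, (lev_range hV hk).2.1⟩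
  have hPk : ∀ k, lev (P ++ V) (P.length + k) = lev P P.length + σ * lev V k := cat_lev hσ hd
  have hend : lev (P ++ V) (P ++ V).length = lev P P.length + σ * (3 * a) := by
    rw [hlen, hPk, v4]
  have hpos : 1 ≤ P.length + V.length := by
    have h1 : V ≠ [] := Brd_ne_nil hV ha1
    have := List.length_pos_iff.2 h1
    omega
  refine ⟨σ, hσ, hd2, ?_, ?_, ?_, ?_, ?_⟩
  · intro i h1 h2
    rw [hlv i h2]
    exact (lev_range hT (by omega)).2.2 h1
  · intro i l hil hl
    rw [hvx i (by omega), hvx l hl]
    exact (mem_Brd.1 hT).2.1 i l hil (by omega)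
  · intro hs
    obtain ⟨x1, x2⟩ := unf_top hW hc1 rs
    rw [← hX] at x1 x2
    have h1 : lev t ((P ++ V).length + W.length) = lev (P ++ V) (P ++ V).length + σ * lev X W.length := by
      rw [← hcat]
      exact cat_lev hσ hd2 W.length
    have h2 : lev X W.length = 3 * c := by
      unfold lev
      rw [x2]
      exact (mem_Brd.1 hW).2.2.2
    have h3 := (lev_range hT (i := (P ++ V).length + W.length) (by omega)).1
    rw [h1, h2, hs] at h3
    linarith
  · refine ⟨P.length, by omega, ?_, ?_⟩
    · have h1 := hPk 0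
      rw [add_zero, lev_zero, mul_zero, add_zero] at h1
      rw [hend, h1]
      have h2 : σ * (lev P P.length + σ * (3 * a) - lev P P.length) = (σ * σ) * (3 * a) := by ring
      rw [h2, hss]
      linarith
    · intro i h1 h2
      obtain ⟨k, rfl⟩ : ∃ k, i = P.length + k := ⟨i - P.length, by omega⟩
      have h3 := hVlev k (by omega)
      rw [hend, hPk]
      have h4 : σ * (lev P P.length + σ * lev V k) = σ * lev P P.length + (σ * σ) * lev V k := by ring
      have h5 : σ * (lev P P.length + σ * (3 * a)) = σ * lev P P.length + (σ * σ) * (3 * a) := by ring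
      rw [h4, h5, hss]
      linarith [h3.2]
  · intro i h1 h2
    rcases Nat.lt_or_ge i P.length with h3 | h3
    · have h4 : ¬ Close r (vx oo up (P ++ V) (P.length + V.length)) (vx oo up P i) := by
        intro hcl
        exact hfar ⟨i, h3.le, hcl⟩
      unfold Close at h4
      push Not at h4
      obtain ⟨dir, h5⟩ := h4
      refine ⟨dir, ?_⟩
      have h6 : vx oo up P i = vx oo up (P ++ V) i := (vx_append (by omega)).symm
      rw [hlen]
      have h7 : vx oo up (P ++ V) i - vx oo up (P ++ V) (P.length + V.length) =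
          -(vx oo up (P ++ V) (P.length + V.length) - vx oo up P i) := by
        rw [h6]
        abel
      rw [h7]
      have h8 : ∀ p : Pt, |lvl dir (-p)| = |lvl dir p| := by
        intro p
        unfold lvl
        rw [ip_neg_left, abs_neg]
      rw [h8]
      exact h5
    · exfalso
      obtain ⟨k, rfl⟩ : ∃ k, i = P.length + k := ⟨i - P.length, by omega⟩
      have h4 := hVlev k (by omega)
      rw [hend, hPk] at h2
      have h5 : σ * (lev P P.length + σ * lev V k - (lev P P.length + σ * (3 * a))) = (σ * σ) * (lev V k - 3 * a) := by ring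
      rw [h5, hss] at h2
      linarith [h4.2]

/-- the word behind a cut of a leaf -/
theorem suf_c (ht : t ∈ BL (kc + J)) (h : Dec kc J t ls g rs) (hV : V ∈ Brd a) (hW : W ∈ Brd c) (hg : g = V ++ W)
    {k1 : ℕ} (hc : 2 ^ (k1 + 4) ≤ c) : unf (W :: rs) ∈ Suf kc J k1 := by
  have hgm := h.mem g (List.mem_append_right _ List.mem_cons_self)
  have hlen := dec_len ht h
  rw [List.length_append, List.length_cons] at hlen
  have hch : (g :: rs).IsChain LFold := (List.isChain_append.1 h.chain).2.1
  rw [hg] at hgm hch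
  refine ⟨V, W, rs, ⟨a, hV⟩, hgm, ?_, hch, fun x hx => ?_, h.right, by omega, rfl⟩
  · obtain ⟨k, a1, a2, a3⟩ := hgm
    have h1 : V ++ W ∈ Brd (a + c) := Brd_append hV hW
    have h2 : k = a + c := Brd_height a3 h1
    exact ⟨c, hc, by omega, hW⟩
  · exact h.mem x (List.mem_append_right _ (List.mem_cons_of_mem _ hx))

/-- the time of a cut of the leaf number l -/
lemma time_c {m l : ℕ} {e : ℕ → ℕ} (hI : IsLf t m e l g) (hl : (pre ls).length = st e l) (hg : g = V ++ W) :
    st e l ≤ (pre ls ++ V).length ∧ (pre ls ++ V).length + W.length = ee m t.length e (l + 1) := by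
  have h1 := hI.len
  rw [hg, List.length_append] at h1
  rw [List.length_append, hl]
  omega

end

end PS

end HexObs
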