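import Pool.Agent.PS.Boxes
import Pool.Agent.NTW.Deep2

/-!
PS, P6: almost all self-avoiding words are slow (NTW.deep2 in the form used with Nb_slow).
-/

set_option autoImplicit false

namespace HexObs

namespace PS

open Finset TS SDN

open scoped ENNReal

/-- the words that are not slow are rarer than every power -/
theorem slow_rare (b κ Q : ℝ) (hb : 0 < b) (hb1 : b < 4 / 3) (hκ : 0 < κ) : ∃ L0 : ℕ, ∀ L : ℕ, L0 ≤ L →
    gf {t | t ∈ SAL (2 ^ (2 * L)) ∧ ¬ Slo ((2 : ℝ) ^ (κ * L)) b t} ≤ ENNReal.ofReal ((2 : ℝ) ^ (-(Q * L))) := by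
  obtain ⟨L0, hL0⟩ := NTW.deep2 b κ Q hb hb1 hκ
  refine ⟨L0, fun L hL => (gf_mono ?_).trans (hL0 L hL)⟩
  rintro t ⟨h1, h2⟩
  refine ⟨h1, ?_⟩
  unfold Slo at h2
  push Not at h2
  obtain ⟨dir, i, j, h3, h4, h5, h6⟩ := h2
  exact ⟨dir, i, j, h3, h4, h5, h6⟩

end PS

end HexObs
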