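import Pool.Agent.PS.ThinA

/-!
PS (pointwise lower bound, short route), P3b: the words of the box of radius 2 ^ L with an infix of s ≥ m ^ b letters and
a vertical extent of less than m rows, m ≥ 2 ^ (κ L), b > 4 / 3, weigh less than any power of 2 ^ (- L).
-/

set_option autoImplicit false

namespace HexObs

namespace PS

open Finset SDN PLW BAR

open scoped ENNReal

/-- a polynomial times a stretched exponential -/
lemma num {K q s : ℝ} (hK : 0 < K) (hq : 0 < q) (hq1 : q < 1) (hs : 0 < s) (P Q : ℝ) :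
    ∃ L0 : ℕ, ∀ L : ℕ, L0 ≤ L → K * (2 : ℝ) ^ (P * L) * q ^ ((2 : ℝ) ^ (s * L)) ≤ (2 : ℝ) ^ (-(Q * L)) := by
  have hl2 : 0 < Real.log 2 := Real.log_pos (by norm_num)
  obtain ⟨ρ, hρ⟩ : ∃ ρ, ρ = -Real.log q := ⟨_, rfl⟩
  have hρ0 : 0 < ρ := by
    rw [hρ]
    linarith [Real.log_neg hq hq1]
  obtain ⟨A, hA⟩ : ∃ A, A = ρ * (s * Real.log 2 / 2) ^ 2 := ⟨_, rfl⟩
  have hA0 : 0 < A := by rw [hA]; positivity
  obtain ⟨B, hB⟩ : ∃ B, B = |Real.log K| + (|P| + |Q|) * Real.log 2 := ⟨_, rfl⟩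
  obtain ⟨L0, hL0⟩ := exists_nat_ge (B / A)
  refine ⟨L0 + 1, fun L hL => ?_⟩
  have hL1 : (1 : ℝ) ≤ L := by exact_mod_cast (by omega : 1 ≤ L)
  have hBL : B ≤ A * L := by
    have h1 : (L0 : ℝ) ≤ L := by exact_mod_cast (by omega : L0 ≤ L)
    have h2 := hL0.trans h1
    rw [div_le_iff₀ hA0] at h2
    linarith
  have h1 : A * (L : ℝ) ^ 2 ≤ ρ * (2 : ℝ) ^ (s * L) := by
    have h2 : (2 : ℝ) ^ (s * L) = Real.exp (s * Real.log 2 / 2 * L) ^ 2 := by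
      rw [Real.rpow_def_of_pos (by norm_num), ← Real.exp_nat_mul]
      congr 1
      push_cast
      ring
    have h3 : s * Real.log 2 / 2 * L ≤ Real.exp (s * Real.log 2 / 2 * L) := by
      linarith [Real.add_one_le_exp (s * Real.log 2 / 2 * L)]
    have h4 : (s * Real.log 2 / 2 * L) ^ 2 ≤ Real.exp (s * Real.log 2 / 2 * L) ^ 2 :=
      pow_le_pow_left₀ (by positivity) h3 2
    rw [h2, hA]
    calc ρ * (s * Real.log 2 / 2) ^ 2 * (L : ℝ) ^ 2 = ρ * (s * Real.log 2 / 2 * L) ^ 2 := by ring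
      _ ≤ _ := mul_le_mul_of_nonneg_left h4 hρ0.le
  have h2 : B * L ≤ A * (L : ℝ) ^ 2 := by nlinarith
  have h3 : Real.log K + P * L * Real.log 2 + Q * L * Real.log 2 ≤ B * L := by
    rw [hB]
    have a1 := le_abs_self (Real.log K)
    have a2 := le_abs_self P
    have a3 := le_abs_self Q
    have a4 : |Real.log K| ≤ |Real.log K| * L := le_mul_of_one_le_right (abs_nonneg _) hL1
    have a5 : P * (L * Real.log 2) ≤ |P| * (L * Real.log 2) := mul_le_mul_of_nonneg_right a2 (by positivity)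
    have a6 : Q * (L * Real.log 2) ≤ |Q| * (L * Real.log 2) := mul_le_mul_of_nonneg_right a3 (by positivity)
    nlinarith
  have e1 : K * (2 : ℝ) ^ (P * L) * q ^ ((2 : ℝ) ^ (s * L)) =
      Real.exp (Real.log K + P * L * Real.log 2 - ρ * (2 : ℝ) ^ (s * L)) := by
    rw [sub_eq_add_neg, Real.exp_add, Real.exp_add, Real.exp_log hK, Real.rpow_def_of_pos hq,
      Real.rpow_def_of_pos (show (0 : ℝ) < 2 by norm_num) (P * L), hρ]
    congr 1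
    · congr 2
      ring
    · congr 1
      ring
  rw [e1, Real.rpow_def_of_pos (show (0 : ℝ) < 2 by norm_num) (-(Q * L))]
  apply Real.exp_le_exp.2
  nlinarith

lemma rpow_mul_base {q y z : ℝ} (hq : 0 < q) (w : ℝ) (h : w * y ≤ z) (hq1 : q ≤ 1) : q ^ z ≤ (q ^ w) ^ y := by
  rw [← Real.rpow_mul hq.le]
  exact Real.rpow_le_rpow_of_exponent_ge hq hq1 h

lemma xc_lt' : xc < 1 := by
  have h : xc ^ 2 < 1 := by
    rw [xc_sq, div_lt_one (by positivity)]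
    linarith [Real.sqrt_nonneg (2 : ℝ)]
  nlinarith [xc_pos]

theorem thin_infix {a : ℝ} (ha : 1 ≤ a) (hexp : ∀ β : ℝ, a < β → ∃ (c : ℝ) (L0 : ℕ), 0 < c ∧ ∀ L : ℕ, L0 ≤ L →
    gf {t | t ∈ WL L ∧ (2 : ℝ) ^ (β * L) ≤ t.length} ≤ ENNReal.ofReal (Real.exp (-(2 : ℝ) ^ (c * L)))) {b κ : ℝ}
    (hb : a < b) (hκ : 0 < κ) (Q : ℝ) : ∃ L0 : ℕ, ∀ L : ℕ, L0 ≤ L → ∀ m s : ℕ, (2 : ℝ) ^ (κ * L) ≤ m → (m : ℝ) ^ b ≤ s →
      gf {t | t ∈ WL L ∧ ∃ i, FlatI m i s t} ≤ ENNReal.ofReal ((2 : ℝ) ^ (-(Q * L))) := by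
  obtain ⟨β, hβ⟩ : ∃ β, β = (a + b) / 2 := ⟨_, rfl⟩
  have hβ1 : a < β := by rw [hβ]; linarith
  have hβ2 : β < b := by rw [hβ]; linarith
  have hβ0 : 0 < β := by linarith
  have hβ3 : 1 ≤ β := by linarith
  obtain ⟨θ, hθ⟩ : ∃ θ, θ = b / β - 1 := ⟨_, rfl⟩
  have hθ0 : 0 < θ := by
    rw [hθ, sub_pos, one_lt_div hβ0]
    exact hβ2
  obtain ⟨c, L1, hc, hL1⟩ := hexp β hβ1
  obtain ⟨C, q, hC, hq, hq1, hdec⟩ := gf_FY_decay
  obtain ⟨C', hC', hpoly⟩ := SAL_poly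
  have hx0 := xc_pos
  have hx1 : xc < 1 := xc_lt'
  obtain ⟨K, hK⟩ : ∃ K : ℝ, K = (102 : ℝ) ^ C' * C' := ⟨_, rfl⟩
  have hK0 : 0 < K := by rw [hK]; positivity
  obtain ⟨N1, hN1⟩ := num (K := 3 * (K ^ 2 * 2)) (q := xc ^ ((1 : ℝ) / 3)) (s := κ) (by positivity) (by positivity)
    (Real.rpow_lt_one hx0.le hx1 (by norm_num)) hκ (4 * C') Q
  obtain ⟨N2, hN2⟩ := num (K := 3 * K ^ 2) (q := Real.exp (-1)) (s := c * κ) (by positivity) (Real.exp_pos _)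
    (by rw [Real.exp_lt_one_iff]; norm_num) (by positivity) (4 * C') Q
  obtain ⟨N3, hN3⟩ := num (K := 3 * (K ^ 4 * (C * q⁻¹))) (q := q ^ ((1 : ℝ) / 96)) (s := κ * θ) (by positivity)
    (by positivity) (Real.rpow_lt_one hq.le hq1 (by norm_num)) (by positivity) (8 * C') Q
  obtain ⟨N4, hN4⟩ := exists_nat_ge (((L1 : ℝ) + 2) / κ)
  obtain ⟨N5, hN5⟩ := exists_nat_ge (7 / (κ * θ))
  refine ⟨N1 + N2 + N3 + N4 + N5, fun L hL m s hm hs => ?_⟩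
  have hLR : (0 : ℝ) ≤ L := Nat.cast_nonneg L
  have h4 : ((L1 : ℝ) + 2) ≤ κ * L := by
    have h1 : (N4 : ℝ) ≤ L := by exact_mod_cast (by omega : N4 ≤ L)
    have h2 := hN4.trans h1
    rw [div_le_iff₀ hκ] at h2
    linarith
  have h5 : 7 ≤ κ * θ * L := by
    have h1 : (N5 : ℝ) ≤ L := by exact_mod_cast (by omega : N5 ≤ L)
    have h2 := hN5.trans h1
    rw [div_le_iff₀ (by positivity)] at h2
    linarith
  rcases Nat.lt_or_ge (100 * 4 ^ L) s with hbig | hbig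
  · have hemp : {t | t ∈ WL L ∧ ∃ i, FlatI m i s t} = ∅ := by
      rw [Set.eq_empty_iff_forall_notMem]
      rintro t ⟨h1, i, h2, -⟩
      have := WL_length h1
      omega
    rw [hemp]
    have : gf (∅ : Set (List Bool)) = 0 := by
      unfold gf
      simp
    rw [this]
    exact zero_le
  have hm1 : (1 : ℝ) ≤ m := by
    refine le_trans ?_ hm
    exact Real.one_le_rpow (by norm_num) (by positivity)
  have hm0 : (0 : ℝ) < m := by linarith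
  have hmb : (m : ℝ) ≤ (m : ℝ) ^ b := by
    calc (m : ℝ) = (m : ℝ) ^ (1 : ℝ) := (Real.rpow_one _).symm
      _ ≤ (m : ℝ) ^ b := Real.rpow_le_rpow_of_exponent_le hm1 (by linarith)
  have h2κ : (4 : ℝ) ≤ (2 : ℝ) ^ (κ * L) := by
    calc (4 : ℝ) = (2 : ℝ) ^ (2 : ℝ) := by norm_num
      _ ≤ _ := Real.rpow_le_rpow_of_exponent_le (by norm_num) (by have : (0 : ℝ) ≤ L1 := Nat.cast_nonneg _; linarith)
  have hs4 : (4 : ℝ) ≤ s := by linarith
  have hs4' : 4 ≤ s := by exact_mod_cast hs4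
  obtain ⟨k, hk⟩ : ∃ k, k = s / 2 := ⟨_, rfl⟩
  have hk1 : 2 * k ≤ s := by omega
  have hk2 : s ≤ 3 * k := by omega
  have hk2R : (s : ℝ) ≤ 3 * k := by exact_mod_cast hk2
  have hk3 : 1 ≤ k := by omega
  have hkR : (1 : ℝ) ≤ k := by exact_mod_cast hk3
  obtain ⟨x, hx⟩ : ∃ x, x = Real.logb 2 k := ⟨_, rfl⟩
  have hxk : (2 : ℝ) ^ x = k := by
    rw [hx]
    exact Real.rpow_logb (by norm_num) (by norm_num) (by linarith)
  have hx00 : 0 ≤ x := by rw [hx]; exact Real.logb_nonneg (by norm_num) hkR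
  obtain ⟨l, hl⟩ : ∃ l : ℕ, l = ⌊x / β⌋₊ := ⟨_, rfl⟩
  have hl1 : (l : ℝ) ≤ x / β := by rw [hl]; exact Nat.floor_le (by positivity)
  have hl2 : x / β < l + 1 := by rw [hl]; exact Nat.lt_floor_add_one _
  have hxl : (2 : ℝ) ^ (β * l) ≤ k := by
    rw [← hxk]
    apply Real.rpow_le_rpow_of_exponent_le (by norm_num)
    rw [le_div_iff₀ hβ0] at hl1
    linarith
  have hlow : (m : ℝ) * (m : ℝ) ^ θ / 6 ≤ (2 : ℝ) ^ l := by
    have a1 : (2 : ℝ) ^ (x / β) ≤ (2 : ℝ) ^ ((l : ℝ) + 1) := Real.rpow_le_rpow_of_exponent_le (by norm_num) hl2.le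
    have a2 : (2 : ℝ) ^ ((l : ℝ) + 1) = 2 * (2 : ℝ) ^ l := by
      rw [Real.rpow_add (by norm_num), Real.rpow_one, Real.rpow_natCast]
      ring
    have a3 : (2 : ℝ) ^ (x / β) = (k : ℝ) ^ (1 / β) := by
      rw [← hxk, ← Real.rpow_mul (by norm_num)]
      congr 1
      ring
    have a4 : ((m : ℝ) ^ b / 3) ^ (1 / β) ≤ (k : ℝ) ^ (1 / β) := by
      apply Real.rpow_le_rpow (by positivity) _ (by positivity)
      rw [div_le_iff₀ (by norm_num)]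
      linarith
    have a5 : ((m : ℝ) ^ b / 3) ^ (1 / β) = (m : ℝ) * (m : ℝ) ^ θ / (3 : ℝ) ^ (1 / β) := by
      rw [Real.div_rpow (by positivity) (by norm_num), ← Real.rpow_mul hm0.le]
      congr 1
      have : b * (1 / β) = 1 + θ := by rw [hθ]; ring
      rw [this, Real.rpow_add hm0, Real.rpow_one]
    have a6 : (3 : ℝ) ^ (1 / β) ≤ 3 := by
      calc (3 : ℝ) ^ (1 / β) ≤ (3 : ℝ) ^ (1 : ℝ) := by
            apply Real.rpow_le_rpow_of_exponent_le (by norm_num)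
            rw [div_le_one hβ0]
            exact hβ3
        _ = 3 := Real.rpow_one _
    have a7 : (m : ℝ) * (m : ℝ) ^ θ / 3 ≤ (m : ℝ) * (m : ℝ) ^ θ / (3 : ℝ) ^ (1 / β) :=
      div_le_div_of_nonneg_left (by positivity) (by positivity) a6
    have a8 : (m : ℝ) * (m : ℝ) ^ θ / 3 ≤ 2 * (2 : ℝ) ^ l := by
      calc _ ≤ _ := a7
        _ = ((m : ℝ) ^ b / 3) ^ (1 / β) := a5.symm
        _ ≤ (k : ℝ) ^ (1 / β) := a4
        _ = (2 : ℝ) ^ (x / β) := a3.symm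
        _ ≤ _ := a1
        _ = _ := a2
    linarith
  have hmθ : (2 : ℝ) ^ (κ * θ * L) ≤ (m : ℝ) ^ θ := by
    calc (2 : ℝ) ^ (κ * θ * L) = ((2 : ℝ) ^ (κ * L)) ^ θ := by
          rw [← Real.rpow_mul (by norm_num)]
          congr 1
          ring
      _ ≤ (m : ℝ) ^ θ := Real.rpow_le_rpow (by positivity) hm hθ0.le
  have hmθ2 : (128 : ℝ) ≤ (m : ℝ) ^ θ := by
    refine le_trans ?_ hmθ
    calc (128 : ℝ) = (2 : ℝ) ^ (7 : ℝ) := by norm_num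
      _ ≤ _ := Real.rpow_le_rpow_of_exponent_le (by norm_num) h5
  have hlm : 21 * (m : ℝ) ≤ (2 : ℝ) ^ l := by nlinarith
  have hlκ : κ * L ≤ l := by
    have h1 : (2 : ℝ) ^ (κ * L) ≤ (2 : ℝ) ^ (l : ℝ) := by
      rw [Real.rpow_natCast]
      linarith
    exact (Real.rpow_le_rpow_left_iff (by norm_num)).1 h1
  have hlL1 : L1 + 2 ≤ l := by
    have h1 : ((L1 + 2 : ℕ) : ℝ) ≤ l := by
      push_cast
      linarith
    exact_mod_cast h1
  have e2 : (2 : ℝ) ^ l = 4 * (2 : ℝ) ^ (l - 2) := by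
    rw [show l = (l - 2) + 2 by omega, pow_add, Nat.add_sub_cancel]
    ring
  have e3 : (2 : ℝ) ^ l = 2 * (2 : ℝ) ^ (l - 1) := by
    rw [show l = (l - 1) + 1 by omega, pow_succ, Nat.add_sub_cancel]
    ring
  have hm6 : m + 6 ≤ 2 ^ (l - 1) := by
    have h1 : (m : ℝ) + 6 ≤ (2 : ℝ) ^ (l - 1) := by linarith
    exact_mod_cast h1
  refine (flat_le L m s k l hk1 (by omega) hm6 hxl).trans ?_
  -- the polynomial factor
  obtain ⟨Z, hZ⟩ : ∃ Z : ℝ, Z = K * (2 : ℝ) ^ (2 * C' * L) := ⟨_, rfl⟩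
  have hZ0 : 0 < Z := by rw [hZ]; positivity
  have hSAL : ∀ n : ℕ, 1 ≤ n → n ≤ 102 * 4 ^ L → gf (SAL n) ≤ ENNReal.ofReal Z := by
    intro n hn hn2
    refine (hpoly n hn).trans (ENNReal.ofReal_le_ofReal ?_)
    have h1 : (n : ℝ) ≤ 102 * (2 : ℝ) ^ (2 * (L : ℝ)) := by
      have h2 : (n : ℝ) ≤ 102 * 4 ^ L := by exact_mod_cast hn2
      have h3 : (2 : ℝ) ^ (2 * (L : ℝ)) = 4 ^ L := by
        rw [Real.rpow_mul (by norm_num), Real.rpow_natCast]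
        norm_num
      rw [h3]
      exact h2
    have h2 : (n : ℝ) ^ C' ≤ (102 * (2 : ℝ) ^ (2 * (L : ℝ))) ^ C' := Real.rpow_le_rpow (by positivity) h1 hC'.le
    rw [Real.mul_rpow (by norm_num) (by positivity), ← Real.rpow_mul (by norm_num)] at h2
    rw [hZ, hK]
    calc (n : ℝ) ^ C' * C' ≤ ((102 : ℝ) ^ C' * (2 : ℝ) ^ (2 * (L : ℝ) * C')) * C' :=
          mul_le_mul_of_nonneg_right h2 hC'.le
      _ = _ := by
          rw [show 2 * (L : ℝ) * C' = 2 * C' * L by ring]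
          ring
  have h4L : 1 ≤ 4 ^ L := Nat.one_le_pow _ _ (by norm_num)
  have hG1 := hSAL (100 * 4 ^ L) (by omega) (by omega)
  have hG2 := hSAL (k + 2) (by omega) (by omega)
  -- term 1
  have t1 : gf (Alt k) ≤ ENNReal.ofReal (2 * (xc ^ ((1 : ℝ) / 3)) ^ ((2 : ℝ) ^ (κ * L))) := by
    refine (gf_Alt k).trans (ENNReal.ofReal_le_ofReal ?_)
    refine mul_le_mul_of_nonneg_left ?_ (by norm_num)
    rw [← Real.rpow_natCast]
    apply rpow_mul_base hx0 _ _ hx1.le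
    linarith
  -- term 2
  have t2 : gf {t | t ∈ WL l ∧ (2 : ℝ) ^ (β * l) ≤ t.length} ≤
      ENNReal.ofReal (Real.exp (-1) ^ ((2 : ℝ) ^ (c * κ * L))) := by
    refine (hL1 l (by omega)).trans (ENNReal.ofReal_le_ofReal ?_)
    rw [← Real.exp_mul]
    apply Real.exp_le_exp.2
    have h1 : (2 : ℝ) ^ (c * κ * L) ≤ (2 : ℝ) ^ (c * l) := by
      apply Real.rpow_le_rpow_of_exponent_le (by norm_num)
      nlinarith
    linarith
  -- term 3
  have t3 : gf (FY (3 * m) k (6 * ((2 ^ (l - 2) : ℕ) : ℤ) + 18)) ≤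
      ENNReal.ofReal (C * q⁻¹ * (q ^ ((1 : ℝ) / 96)) ^ ((2 : ℝ) ^ (κ * θ * L)) * Z ^ 2) := by
    refine (hdec (3 * m) (2 ^ (l - 2)) k Nat.one_le_two_pow).trans ?_
    have h1 : q ^ (2 ^ (l - 2) / (3 * m + 1)) ≤ q⁻¹ * (q ^ ((1 : ℝ) / 96)) ^ ((2 : ℝ) ^ (κ * θ * L)) := by
      have h2 : (m : ℝ) ^ θ / 96 - 1 ≤ ((2 ^ (l - 2) / (3 * m + 1) : ℕ) : ℝ) := by
        have h3 : ((2 : ℝ) ^ (l - 2)) / (3 * m + 1) < ((2 ^ (l - 2) / (3 * m + 1) : ℕ) : ℝ) + 1 := by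
          have h4 := Nat.lt_div_mul_add (a := 2 ^ (l - 2)) (b := 3 * m + 1) (by omega)
          rw [div_lt_iff₀ (by positivity)]
          have h5 : ((2 ^ (l - 2) : ℕ) : ℝ) < ((2 ^ (l - 2) / (3 * m + 1) * (3 * m + 1) + (3 * m + 1) : ℕ) : ℝ) := by
            exact_mod_cast h4
          push_cast at h5 ⊢
          linarith
        have h6 : (m : ℝ) ^ θ / 96 ≤ ((2 : ℝ) ^ (l - 2)) / (3 * m + 1) := by
          rw [div_le_div_iff₀ (by norm_num) (by positivity)]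
          have h7 : (m : ℝ) ^ θ * (3 * m + 1) ≤ (m : ℝ) ^ θ * (4 * m) :=
            mul_le_mul_of_nonneg_left (by linarith) (by positivity)
          nlinarith
        linarith
      calc q ^ (2 ^ (l - 2) / (3 * m + 1)) = q ^ (((2 ^ (l - 2) / (3 * m + 1) : ℕ) : ℝ)) := (Real.rpow_natCast _ _).symm
        _ ≤ q ^ ((m : ℝ) ^ θ / 96 - 1) := Real.rpow_le_rpow_of_exponent_ge hq hq1.le h2
        _ = q⁻¹ * q ^ ((m : ℝ) ^ θ / 96) := by
          rw [sub_eq_add_neg, Real.rpow_add hq, Real.rpow_neg_one]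
          ring
        _ ≤ q⁻¹ * (q ^ ((1 : ℝ) / 96)) ^ ((2 : ℝ) ^ (κ * θ * L)) := by
          refine mul_le_mul_of_nonneg_left ?_ (by positivity)
          apply rpow_mul_base hq _ _ hq1.le
          linarith
    calc ENNReal.ofReal (C * q ^ (2 ^ (l - 2) / (3 * m + 1))) * gf (SAL (k + 2)) ^ 2 ≤
        ENNReal.ofReal (C * (q⁻¹ * (q ^ ((1 : ℝ) / 96)) ^ ((2 : ℝ) ^ (κ * θ * L)))) * ENNReal.ofReal Z ^ 2 := by
          gcongr
      _ = _ := by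
          rw [← ENNReal.ofReal_pow hZ0.le, ← ENNReal.ofReal_mul (by positivity)]
          congr 1
          ring
  obtain ⟨T1, hT1⟩ : ∃ T1 : ℝ, T1 = (xc ^ ((1 : ℝ) / 3)) ^ ((2 : ℝ) ^ (κ * L)) := ⟨_, rfl⟩
  obtain ⟨T2, hT2⟩ : ∃ T2 : ℝ, T2 = Real.exp (-1) ^ ((2 : ℝ) ^ (c * κ * L)) := ⟨_, rfl⟩
  obtain ⟨T3, hT3⟩ : ∃ T3 : ℝ, T3 = (q ^ ((1 : ℝ) / 96)) ^ ((2 : ℝ) ^ (κ * θ * L)) := ⟨_, rfl⟩
  have hT10 : 0 ≤ T1 := by rw [hT1]; positivity
  have hT20 : 0 ≤ T2 := by rw [hT2]; positivity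
  have hT30 : 0 ≤ T3 := by rw [hT3]; positivity
  have n1 := hN1 L (by omega)
  have n2 := hN2 L (by omega)
  have n3 := hN3 L (by omega)
  rw [← hT1] at t1 n1
  rw [← hT2] at t2 n2
  rw [← hT3] at t3 n3
  have eZ2 : Z ^ 2 = K ^ 2 * (2 : ℝ) ^ (4 * C' * L) := by
    rw [hZ, mul_pow]
    congr 1
    rw [← Real.rpow_natCast, ← Real.rpow_mul (by norm_num)]
    congr 1
    push_cast
    ring
  have eZ4 : Z ^ 4 = K ^ 4 * (2 : ℝ) ^ (8 * C' * L) := by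
    rw [hZ, mul_pow]
    congr 1
    rw [← Real.rpow_natCast, ← Real.rpow_mul (by norm_num)]
    congr 1
    push_cast
    ring
  calc gf (SAL (100 * 4 ^ L)) ^ 2 * (gf (Alt k) + (gf {t | t ∈ WL l ∧ (2 : ℝ) ^ (β * l) ≤ t.length} +
        gf (FY (3 * m) k (6 * ((2 ^ (l - 2) : ℕ) : ℤ) + 18)))) ≤
      ENNReal.ofReal Z ^ 2 * (ENNReal.ofReal (2 * T1) + (ENNReal.ofReal T2 + ENNReal.ofReal (C * q⁻¹ * T3 * Z ^ 2))) := by
        gcongr
    _ = ENNReal.ofReal (Z ^ 2 * (2 * T1 + (T2 + C * q⁻¹ * T3 * Z ^ 2))) := by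
        rw [← ENNReal.ofReal_add hT20 (by positivity), ← ENNReal.ofReal_add (by positivity) (by positivity),
          ← ENNReal.ofReal_pow hZ0.le, ← ENNReal.ofReal_mul (by positivity)]
    _ ≤ ENNReal.ofReal ((2 : ℝ) ^ (-(Q * L))) := by
        apply ENNReal.ofReal_le_ofReal
        have e4 : Z ^ 2 * (2 * T1 + (T2 + C * q⁻¹ * T3 * Z ^ 2)) =
            Z ^ 2 * 2 * T1 + Z ^ 2 * T2 + Z ^ 4 * (C * q⁻¹) * T3 := by ring
        rw [e4, eZ2, eZ4]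
        nlinarith

end PS

end HexObs
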