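import Pool.Agent.PS.MuW
import Pool.Agent.PS.Prec
import Pool.Agent.PS.Close
import Pool.Agent.PS.ThinI
import Pool.Agent.PS.FewC
import Pool.Agent.PS.Slow

/-!
PS: the mass of the prefixes, without hypothesis.
-/

set_option autoImplicit false

namespace HexObs

namespace PS

open Finset TS SDN NTm

open scoped ENNReal

/-- **the mass of the prefixes with about k letters and with a free half disc at the end** -/
theorem muW : MuW := by
  refine MuW_of ?_ ?_ ?_ ?_ ?_ ?_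
  · obtain ⟨C, c, hC, hc, h⟩ := few_norm
    exact ⟨C, c, hC, hc, h⟩
  · obtain ⟨K, s, hK, hs, h⟩ := tall_norm
    exact ⟨K, s, hK, h⟩
  · obtain ⟨C, c, k0, hC, hc, h⟩ := close_event
    exact ⟨C, c, k0, hC, hc, fun kc J e j1 s h0 K a r h1 h2 h3 h4 h5 h6 h7 => h kc J e j1 r s h0 K a h1 h2 h3 h4 h5 h6 h7⟩
  · intro b kap Q hb hb1 hkap
    exact slow_rare b kap Q hb hb1 hkap
  · intro b kap Q hb hkap
    obtain ⟨L0, h⟩ := thin_infix (a := 4 / 3) (by norm_num)
      (fun β hβ => BAR.exp_low (a := 4 / 3) (by norm_num)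
        (fun _ ha => Pool.Agent.NUF.meanLen_of_ZZ (Pool.Agent.NUF.zzUp_of (NUI.numUp_of_target NUCR.target)) ha) hβ)
      hb hkap Q
    refine ⟨L0, fun L hL m s h1 h2 => (gf_mono ?_).trans (h L hL m s h1 h2)⟩
    rintro t ⟨h3, i, h4, h5⟩
    exact ⟨h3.2, i, h4, h5⟩
  · intro kc J k1 t ls g rs V W a c r ht hD hV hW hg ha1 hc1 ha hc hk hfar
    exact ⟨pre_c ht hD hV hW hg ha1 hc1 ha hc hfar, suf_c ht hD hV hW hg hk⟩

end PS

end HexObs
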