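import Mathlib

/-!
PS, P10, the numbers: the choice of the units of the assembly.
-/

set_option autoImplicit false

namespace HexObs

namespace PS

open Real

/-- the number of points of the neighbourhood of radius r rows of a slow word with at most 2 ^ (β' L) letters -/
noncomputable def aM (β' bs : ℝ) (L r : ℕ) : ℕ :=
  ⌈50 * ((2 : ℝ) ^ (β' * L) * (3 * r : ℝ) ^ (2 - bs) + (3 * r : ℝ) ^ 2)⌉₊

/-- the number of the cuts of a good leaf -/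
noncomputable def KM (kc a : ℕ) : ℕ := ⌊((2 : ℝ) ^ (kc - a)) ^ (3 / 4 : ℝ)⌋₊

namespace Num

/-- natural powers of two as real powers -/
lemma two_pow (n : ℕ) : (2 : ℝ) ^ n = (2 : ℝ) ^ ((n : ℕ) : ℝ) := (Real.rpow_natCast 2 n).symm

lemma four_pow (n : ℕ) : (4 : ℝ) ^ n = (2 : ℝ) ^ (2 * (n : ℝ)) := by
  rw [Real.rpow_mul (by norm_num), Real.rpow_natCast]
  norm_num

lemma C_pow {C l : ℝ} (hC : C = (2 : ℝ) ^ l) (n : ℕ) : C ^ n = (2 : ℝ) ^ (l * n) := by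
  rw [Real.rpow_mul (by norm_num), Real.rpow_natCast, hC]

lemma mono {x y : ℝ} (h : x ≤ y) : (2 : ℝ) ^ x ≤ (2 : ℝ) ^ y :=
  Real.rpow_le_rpow_of_exponent_le (by norm_num) h

lemma pos (x : ℝ) : 0 < (2 : ℝ) ^ x := Real.rpow_pos_of_pos (by norm_num) x

lemma add (x y : ℝ) : (2 : ℝ) ^ x * (2 : ℝ) ^ y = (2 : ℝ) ^ (x + y) := (Real.rpow_add (by norm_num) x y).symm

lemma pow_pow (x y : ℝ) : ((2 : ℝ) ^ x) ^ y = (2 : ℝ) ^ (x * y) := (Real.rpow_mul (by norm_num) x y).symm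

/-- the power beats the linear function -/
lemma lin_le (M : ℝ) : ∃ J0 : ℕ, ∀ J : ℕ, J0 ≤ J → M * (J + 1) ≤ (2 : ℝ) ^ ((J : ℝ) / 4) := by
  have h1 := tendsto_pow_const_div_const_pow_of_one_lt 1 (r := (2 : ℝ) ^ (1 / 4 : ℝ))
    (Real.one_lt_rpow (by norm_num) (by norm_num))
  have h2 : Filter.Tendsto (fun J : ℕ => (|M| + 1) * 2 * ((J : ℝ) ^ 1 / ((2 : ℝ) ^ (1 / 4 : ℝ)) ^ J)) Filter.atTop
      (nhds ((|M| + 1) * 2 * 0)) := h1.const_mul _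
  rw [mul_zero] at h2
  obtain ⟨J0, hJ0⟩ := Filter.eventually_atTop.1 (h2.eventually_lt_const (show (0 : ℝ) < 1 by norm_num))
  refine ⟨J0 + 1, fun J hJ => ?_⟩
  have h3 := hJ0 J (by omega)
  have h4 : ((2 : ℝ) ^ (1 / 4 : ℝ)) ^ J = (2 : ℝ) ^ ((J : ℝ) / 4) := by
    rw [← Real.rpow_natCast, ← Real.rpow_mul (by norm_num)]
    congr 1
    ring
  rw [h4, pow_one] at h3
  have h5 : (0 : ℝ) < (2 : ℝ) ^ ((J : ℝ) / 4) := pos _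
  have h6 : (|M| + 1) * 2 * (J : ℝ) < (2 : ℝ) ^ ((J : ℝ) / 4) := by
    have := (div_lt_iff₀ h5).1 (show (|M| + 1) * 2 * (J : ℝ) / (2 : ℝ) ^ ((J : ℝ) / 4) < 1 by
      rw [mul_div_assoc]; exact h3)
    linarith
  have h7 : (1 : ℝ) ≤ J := by exact_mod_cast (by omega : 1 ≤ J)
  have h8 := le_abs_self M
  nlinarith [abs_nonneg M]

/-- the units of the assembly -/
lemma consts {l c : ℝ} (hl : 0 ≤ l) (hc : 0 < c) : ∃ A A3 A4 A5 : ℕ, 1 ≤ A ∧ 1 ≤ A3 ∧ 1 ≤ A4 ∧ 1 ≤ A5 ∧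
    3 + l ≤ c * A ∧ 1 + l + A ≤ c * A3 ∧ 2 * (l + 4 + 4 * A + 2 * A3) ≤ A4 ∧ 1 + l ≤ 2 * A5 := by
  obtain ⟨A, hA⟩ := exists_nat_ge ((3 + l) / c)
  obtain ⟨A3, hA3⟩ := exists_nat_ge ((1 + l + (A + 1 : ℕ)) / c)
  obtain ⟨A4, hA4⟩ := exists_nat_ge (2 * (l + 4 + 4 * ((A + 1 : ℕ) : ℝ) + 2 * ((A3 + 1 : ℕ) : ℝ)))
  obtain ⟨A5, hA5⟩ := exists_nat_ge (1 + l)
  rw [div_le_iff₀ hc] at hA hA3
  refine ⟨A + 1, A3 + 1, A4 + 1, A5 + 1, by omega, by omega, by omega, by omega, ?_, ?_, ?_, ?_⟩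
  · push_cast
    nlinarith
  · push_cast at hA3 ⊢
    nlinarith
  · push_cast at hA4 ⊢
    linarith
  · push_cast
    have : (0 : ℝ) ≤ A5 := Nat.cast_nonneg _
    linarith

/-- few cuts -/
lemma few {C c c0 l : ℝ} {A J : ℕ} (hC : C = (2 : ℝ) ^ l) (hA : 3 + l ≤ c * A) (hJ : C * (2 : ℝ) ^ (-(J : ℝ)) ≤ c0 / 16) :
    C ^ J * (C * 4 ^ J * (2 : ℝ) ^ (-(c * ((A * J : ℕ) : ℝ)))) ≤ c0 / 16 := by
  refine le_trans ?_ hJ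
  have h1 : C ^ J * (C * 4 ^ J * (2 : ℝ) ^ (-(c * ((A * J : ℕ) : ℝ)))) =
      C * ((2 : ℝ) ^ (l * J) * (2 : ℝ) ^ (2 * (J : ℝ)) * (2 : ℝ) ^ (-(c * ((A * J : ℕ) : ℝ)))) := by
    rw [C_pow hC, four_pow]
    ring
  rw [h1, add, add]
  have h0 : 0 ≤ C := by rw [hC]; exact (pos l).le
  refine mul_le_mul_of_nonneg_left (mono ?_) h0
  have h2 : (0 : ℝ) ≤ J := Nat.cast_nonneg _
  push_cast
  nlinarith

/-- tall leaves -/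
lemma tall {C c0 l : ℝ} {A5 J : ℕ} (hC : C = (2 : ℝ) ^ l) (hA : 1 + l ≤ 2 * A5) (hJ : C * (2 : ℝ) ^ (-(J : ℝ)) ≤ c0 / 16) :
    C ^ J * (C / 4 ^ (A5 * J)) ≤ c0 / 16 := by
  refine le_trans ?_ hJ
  have h1 : C ^ J * (C / 4 ^ (A5 * J)) = C * ((2 : ℝ) ^ (l * J) * (2 : ℝ) ^ (-(2 * ((A5 * J : ℕ) : ℝ)))) := by
    rw [C_pow hC, four_pow, Real.rpow_neg (by norm_num)]
    ring
  rw [h1, add]
  have h0 : 0 ≤ C := by rw [hC]; exact (pos l).le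
  refine mul_le_mul_of_nonneg_left (mono ?_) h0
  have h2 : (0 : ℝ) ≤ J := Nat.cast_nonneg _
  push_cast
  nlinarith

/-- the first term of the close cuts -/
lemma close1 {C c c0 l : ℝ} {A A3 J : ℕ} (hC : C = (2 : ℝ) ^ l) (hA : 1 + l + A ≤ c * A3)
    (hJ : 2 * (2 : ℝ) ^ (-(J : ℝ)) ≤ c0 / 32) :
    C ^ J * ((2 : ℝ) ^ (A * J + 1) * (2 : ℝ) ^ (-(c * ((A3 * J : ℕ) : ℝ)))) ≤ c0 / 32 := by
  refine le_trans ?_ hJ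
  have h1 : C ^ J * ((2 : ℝ) ^ (A * J + 1) * (2 : ℝ) ^ (-(c * ((A3 * J : ℕ) : ℝ)))) =
      2 * ((2 : ℝ) ^ (l * J) * (2 : ℝ) ^ ((A * J : ℕ) : ℝ) * (2 : ℝ) ^ (-(c * ((A3 * J : ℕ) : ℝ)))) := by
    rw [C_pow hC, pow_succ, two_pow (A * J)]
    ring
  rw [h1, add, add]
  refine mul_le_mul_of_nonneg_left (mono ?_) (by norm_num)
  have h2 : (0 : ℝ) ≤ J := Nat.cast_nonneg _
  push_cast
  nlinarith

/-- the number of the points -/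
lemma aM_le {ζ : ℝ} {A A4 kc J : ℕ} (hζ : 0 ≤ ζ) (hζ1 : ζ ≤ 1) (hJ : ζ * ((kc + J : ℕ) : ℝ) ≤ J) (h : A * J + A4 * J ≤ kc) :
    (aM (4 / 3 + ζ / 8) (4 / 3 - ζ / 8) (kc + J) (2 ^ (kc - A * J - A4 * J)) : ℝ) ≤
      910 * (2 : ℝ) ^ (2 * ((kc - A * J : ℕ) : ℝ) + 4 / 3 * ((1 + A) * J) + J / 4 - 2 / 3 * (A4 * J)) := by
  have hk : ((kc - A * J : ℕ) : ℝ) = (kc : ℝ) - A * J := by
    rw [Nat.cast_sub (by omega)]
    push_cast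
    ring
  have hr : ((kc - A * J - A4 * J : ℕ) : ℝ) = (kc : ℝ) - A * J - A4 * J := by
    rw [Nat.cast_sub (by omega), hk]
    push_cast
    ring
  have hr0 : (0 : ℝ) ≤ ((kc - A * J - A4 * J : ℕ) : ℝ) := Nat.cast_nonneg _
  obtain ⟨ρ, hρ⟩ : ∃ ρ : ℝ, ρ = ((kc - A * J - A4 * J : ℕ) : ℝ) := ⟨_, rfl⟩
  have hJ0 : (0 : ℝ) ≤ J := Nat.cast_nonneg _
  have hkc0 : (0 : ℝ) ≤ kc := Nat.cast_nonneg _
  have hA0 : (0 : ℝ) ≤ A := Nat.cast_nonneg _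
  have hA40 : (0 : ℝ) ≤ A4 := Nat.cast_nonneg _
  have hAJ : (0 : ℝ) ≤ A * J := by positivity
  have hA4J : (0 : ℝ) ≤ A4 * J := by positivity
  push_cast at hJ
  have e1 : (3 * ((2 ^ (kc - A * J - A4 * J) : ℕ) : ℝ)) = 3 * (2 : ℝ) ^ ρ := by
    push_cast
    rw [two_pow, hρ]
  rw [← hρ] at hr hr0
  have e2 : (3 * (2 : ℝ) ^ ρ) ^ (2 - (4 / 3 - ζ / 8)) ≤ 9 * (2 : ℝ) ^ (2 / 3 * ρ + J / 8) := by
    rw [Real.mul_rpow (by norm_num) (pos _).le, pow_pow]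
    have h1 : (3 : ℝ) ^ (2 - (4 / 3 - ζ / 8)) ≤ 9 := by
      refine (Real.rpow_le_rpow_of_exponent_le (by norm_num) (show 2 - (4 / 3 - ζ / 8) ≤ 2 by linarith)).trans ?_
      norm_num
    have h2 : (2 : ℝ) ^ (ρ * (2 - (4 / 3 - ζ / 8))) ≤ (2 : ℝ) ^ (2 / 3 * ρ + J / 8) := by
      apply mono
      nlinarith
    exact mul_le_mul h1 h2 (pos _).le (by norm_num)
  have e3 : (3 * (2 : ℝ) ^ ρ) ^ 2 = 9 * (2 : ℝ) ^ (2 * ρ) := by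
    rw [mul_pow, two_mul, ← add]
    ring
  have e4 : (2 : ℝ) ^ ((4 / 3 + ζ / 8) * ((kc + J : ℕ) : ℝ)) ≤ (2 : ℝ) ^ (4 / 3 * ((kc : ℝ) + J) + J / 8) := by
    apply mono
    push_cast
    nlinarith
  obtain ⟨E, hE⟩ : ∃ E : ℝ, E = 2 * ((kc - A * J : ℕ) : ℝ) + 4 / 3 * ((1 + A) * J) + J / 4 - 2 / 3 * (A4 * J) := ⟨_, rfl⟩
  have e5 : (2 : ℝ) ^ ((4 / 3 + ζ / 8) * ((kc + J : ℕ) : ℝ)) * (3 * (2 : ℝ) ^ ρ) ^ (2 - (4 / 3 - ζ / 8)) ≤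
      9 * (2 : ℝ) ^ E := by
    refine (mul_le_mul e4 e2 (by positivity) (pos _).le).trans ?_
    rw [mul_left_comm, add]
    refine mul_le_mul_of_nonneg_left (mono ?_) (by norm_num)
    rw [hE, hk]
    nlinarith
  have e6 : (2 : ℝ) ^ (2 * ρ) ≤ (2 : ℝ) ^ E := by
    apply mono
    rw [hE, hk]
    nlinarith
  have e7 : (1 : ℝ) ≤ (2 : ℝ) ^ E := by
    refine le_trans ?_ e6
    exact Real.one_le_rpow (by norm_num) (by positivity)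
  rw [aM, e1, e3, ← hE]
  have h0 : 0 ≤ 50 * ((2 : ℝ) ^ ((4 / 3 + ζ / 8) * ((kc + J : ℕ) : ℝ)) * (3 * (2 : ℝ) ^ ρ) ^ (2 - (4 / 3 - ζ / 8)) +
      9 * (2 : ℝ) ^ (2 * ρ)) := by positivity
  refine (Nat.ceil_lt_add_one h0).le.trans ?_
  linarith

/-- the number of the cuts -/
lemma KM_ge {kc a : ℕ} (h : 3 ≤ kc - a) :
    (2 : ℝ) ^ (3 / 4 * ((kc - a : ℕ) : ℝ)) / 4 ≤ ((KM kc a / 2 : ℕ) : ℝ) ∧ 1 ≤ KM kc a / 2 ∧
    (2 : ℝ) ^ (3 / 4 * ((kc - a : ℕ) : ℝ)) / 4 ≤ ((KM kc a - KM kc a / 2 : ℕ) : ℝ) := by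
  have h1 : ((2 : ℝ) ^ (kc - a)) ^ (3 / 4 : ℝ) = (2 : ℝ) ^ (3 / 4 * ((kc - a : ℕ) : ℝ)) := by
    rw [two_pow, pow_pow, mul_comm]
  have h2 : (4 : ℝ) ≤ (2 : ℝ) ^ (3 / 4 * ((kc - a : ℕ) : ℝ)) := by
    have h3 : (4 : ℝ) = (2 : ℝ) ^ (2 : ℝ) := by
      rw [show (2 : ℝ) = ((2 : ℕ) : ℝ) by norm_num, Real.rpow_natCast]
      norm_num
    rw [h3]
    apply mono
    have : (3 : ℝ) ≤ ((kc - a : ℕ) : ℝ) := by exact_mod_cast h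
    linarith
  have h4 : (2 : ℝ) ^ (3 / 4 * ((kc - a : ℕ) : ℝ)) < KM kc a + 1 := by
    rw [KM, h1]
    exact Nat.lt_floor_add_one _
  have h5 : (KM kc a : ℝ) ≤ 2 * ((KM kc a / 2 : ℕ) : ℝ) + 1 := by
    exact_mod_cast (by omega : KM kc a ≤ 2 * (KM kc a / 2) + 1)
  have h6 : ((KM kc a / 2 : ℕ) : ℝ) ≤ ((KM kc a - KM kc a / 2 : ℕ) : ℝ) := by
    exact_mod_cast (by omega : KM kc a / 2 ≤ KM kc a - KM kc a / 2)
  have h7 : (2 : ℝ) ^ (3 / 4 * ((kc - a : ℕ) : ℝ)) / 4 ≤ ((KM kc a / 2 : ℕ) : ℝ) := by linarith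
  refine ⟨h7, ?_, h7.trans h6⟩
  have h8 : (1 : ℝ) ≤ ((KM kc a / 2 : ℕ) : ℝ) := by linarith
  exact_mod_cast h8

/-- the second term of the close cuts -/
lemma close2 {C c0 Cu l ζ x : ℝ} {A A3 A4 kc J : ℕ} (hC : C = (2 : ℝ) ^ l) (hCu : 0 < Cu)
    (hA4 : 2 * (l + 4 + 4 * A + 2 * A3) ≤ A4) (hζ : 0 ≤ ζ) (hζ1 : ζ ≤ 1) (hl : 0 ≤ l)
    (hJ : ζ * ((kc + J : ℕ) : ℝ) ≤ J) (h : A * J + A4 * J ≤ kc) (h3 : 3 ≤ kc - A * J)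
    (hJ' : 58240 * Cu * (2 : ℝ) ^ (-(J : ℝ)) ≤ c0 / 32) (hx0 : 0 ≤ x)
    (hx : x ≤ Cu * ((2 : ℝ) ^ (kc - A * J - 1)) ^ (-(1 / 4 : ℝ))) :
    C ^ J * (4 ^ (A * J + 1 + A3 * J) * ((aM (4 / 3 + ζ / 8) (4 / 3 - ζ / 8) (kc + J) (2 ^ (kc - A * J - A4 * J)) : ℝ) *
      (x / 2 ^ (kc - A * J - 1)) / ((KM kc (A * J) / 2 : ℕ) : ℝ))) ≤ c0 / 32 := by
  obtain ⟨ha1, ha2, -⟩ := KM_ge h3
  have hb := aM_le hζ hζ1 hJ h
  obtain ⟨κ, hκ⟩ : ∃ κ : ℝ, κ = ((kc - A * J : ℕ) : ℝ) := ⟨_, rfl⟩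
  obtain ⟨E, hE⟩ : ∃ E : ℝ, E = 4 / 3 * ((1 + A) * J) + J / 4 - 2 / 3 * (A4 * J) := ⟨_, rfl⟩
  have hb' : (aM (4 / 3 + ζ / 8) (4 / 3 - ζ / 8) (kc + J) (2 ^ (kc - A * J - A4 * J)) : ℝ) ≤
      910 * (2 : ℝ) ^ (2 * κ + E) := by
    refine hb.trans (le_of_eq ?_)
    rw [← hκ, hE]
    congr 2
    ring
  rw [← hκ] at ha1
  have hκ1 : ((kc - A * J - 1 : ℕ) : ℝ) = κ - 1 := by
    rw [hκ, Nat.cast_sub (by omega)]
    norm_num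
  have hx' : x / 2 ^ (kc - A * J - 1) ≤ Cu * (4 * (2 : ℝ) ^ (-(5 / 4 * κ))) := by
    rw [div_le_iff₀ (by positivity)]
    refine hx.trans ?_
    rw [two_pow, hκ1, pow_pow, mul_assoc]
    refine mul_le_mul_of_nonneg_left ?_ hCu.le
    have h4 : (4 : ℝ) = (2 : ℝ) ^ (2 : ℝ) := by
      rw [show (2 : ℝ) = ((2 : ℕ) : ℝ) by norm_num, Real.rpow_natCast]
      norm_num
    rw [h4, add, add]
    apply mono
    linarith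
  have hK0 : (0 : ℝ) < (2 : ℝ) ^ (3 / 4 * κ) / 4 := by
    have := pos (3 / 4 * κ)
    positivity
  have hm1 : (aM (4 / 3 + ζ / 8) (4 / 3 - ζ / 8) (kc + J) (2 ^ (kc - A * J - A4 * J)) : ℝ) *
      (x / 2 ^ (kc - A * J - 1)) / ((KM kc (A * J) / 2 : ℕ) : ℝ) ≤
      910 * (2 : ℝ) ^ (2 * κ + E) * (Cu * (4 * (2 : ℝ) ^ (-(5 / 4 * κ)))) / ((2 : ℝ) ^ (3 / 4 * κ) / 4) := by
    refine div_le_div₀ (by positivity) ?_ hK0 ha1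
    exact mul_le_mul hb' hx' (by positivity) (by positivity)
  have hm2 : 910 * (2 : ℝ) ^ (2 * κ + E) * (Cu * (4 * (2 : ℝ) ^ (-(5 / 4 * κ)))) / ((2 : ℝ) ^ (3 / 4 * κ) / 4) =
      14560 * Cu * (2 : ℝ) ^ E := by
    have h5 : (2 : ℝ) ^ (2 * κ + E) * (2 : ℝ) ^ (-(5 / 4 * κ)) = (2 : ℝ) ^ E * (2 : ℝ) ^ (3 / 4 * κ) := by
      rw [add, add]
      congr 1
      ring
    rw [div_eq_iff hK0.ne']
    linear_combination 3640 * Cu * h5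
  rw [hm2] at hm1
  have hC0 : 0 ≤ C := by rw [hC]; exact (pos l).le
  refine (mul_le_mul_of_nonneg_left (mul_le_mul_of_nonneg_left hm1 (by positivity)) (pow_nonneg hC0 J)).trans ?_
  refine le_trans ?_ hJ'
  have h6 : C ^ J * (4 ^ (A * J + 1 + A3 * J) * (14560 * Cu * (2 : ℝ) ^ E)) =
      58240 * Cu * ((2 : ℝ) ^ (l * J) * (2 : ℝ) ^ (2 * ((A * J + A3 * J : ℕ) : ℝ)) * (2 : ℝ) ^ E) := by
    rw [C_pow hC, ← four_pow, show A * J + 1 + A3 * J = (A * J + A3 * J) + 1 by ring, pow_succ]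
    ring
  rw [h6, add, add]
  refine mul_le_mul_of_nonneg_left (mono ?_) (by positivity)
  have h7 : (0 : ℝ) ≤ J := Nat.cast_nonneg _
  have h8 : (0 : ℝ) ≤ A := Nat.cast_nonneg _
  have h9 : (0 : ℝ) ≤ A3 := Nat.cast_nonneg _
  rw [hE]
  push_cast
  nlinarith [mul_nonneg h7 h8, mul_nonneg h7 h9, mul_nonneg h7 hl, mul_le_mul_of_nonneg_left hA4 h7]

/-- the thickness -/
lemma m_le {A5 s0 kc J : ℕ} (h : (2 * A5 * 2 ^ s0 + 3 : ℝ) * (J + 1) ≤ (2 : ℝ) ^ ((J : ℝ) / 4)) :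
    ((2 * (A5 * J * 2 ^ (kc + s0)) + 3 : ℕ) : ℝ) ≤ (2 : ℝ) ^ ((kc : ℝ) + J / 4) := by
  rw [← add, ← two_pow]
  have h1 : (1 : ℝ) ≤ 2 ^ kc := one_le_pow₀ (by norm_num)
  refine le_trans ?_ (mul_le_mul_of_nonneg_left h (by positivity))
  have h2 : (0 : ℝ) ≤ 2 * A5 * 2 ^ s0 := by positivity
  have h3 : (0 : ℝ) ≤ J := Nat.cast_nonneg _
  push_cast
  rw [pow_add]
  nlinarith [mul_nonneg (by positivity : (0 : ℝ) ≤ 2 ^ kc) h2, mul_nonneg (by positivity : (0 : ℝ) ≤ 2 ^ kc) h3]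

lemma thin2 {ζ : ℝ} {kc J k m : ℕ} (hζ : 0 ≤ ζ) (hζ1 : ζ ≤ 1) (hz : 4 ≤ ζ * ((kc + J : ℕ) : ℝ))
    (hJ : ζ * ((kc + J : ℕ) : ℝ) ≤ J) (hm : (m : ℝ) ≤ (2 : ℝ) ^ ((kc : ℝ) + J / 4))
    (hk : (2 : ℝ) ^ ((4 / 3 - ζ / 8) * (((kc + J : ℕ) : ℝ) - 1)) ≤ k) :
    (m : ℝ) ^ (4 / 3 + ζ / 8) ≤ ((⌊(k : ℝ) ^ (1 - ζ / 8)⌋₊ : ℕ) : ℝ) := by
  have hJ0 : (0 : ℝ) ≤ J := Nat.cast_nonneg _
  have hkc0 : (0 : ℝ) ≤ kc := Nat.cast_nonneg _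
  have h1 : (m : ℝ) ^ (4 / 3 + ζ / 8) ≤ (2 : ℝ) ^ (((kc : ℝ) + J / 4) * (4 / 3 + ζ / 8)) := by
    rw [← pow_pow]
    exact Real.rpow_le_rpow (Nat.cast_nonneg _) hm (by linarith)
  have h2 : (2 : ℝ) ^ ((4 / 3 - ζ / 8) * (((kc + J : ℕ) : ℝ) - 1) * (1 - ζ / 8)) ≤ (k : ℝ) ^ (1 - ζ / 8) := by
    rw [← pow_pow]
    exact Real.rpow_le_rpow (pos _).le hk (by linarith)
  have h3 : (2 : ℝ) ^ (((kc : ℝ) + J / 4) * (4 / 3 + ζ / 8) + 1) ≤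
      (2 : ℝ) ^ ((4 / 3 - ζ / 8) * (((kc + J : ℕ) : ℝ) - 1) * (1 - ζ / 8)) := by
    apply mono
    push_cast at hz hJ ⊢
    obtain ⟨L, hL⟩ : ∃ L : ℝ, L = (kc : ℝ) + J := ⟨_, rfl⟩
    have hkc : (kc : ℝ) = L - J := by rw [hL]; ring
    rw [← hL] at hz hJ ⊢
    rw [hkc]
    have hL1 : 1 ≤ L := by nlinarith
    have g1 : 0 ≤ ζ * J := mul_nonneg hζ hJ0
    have g2 : 0 ≤ ζ * ζ * (L - 1) := mul_nonneg (mul_nonneg hζ hζ) (by linarith)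
    nlinarith
  have h4 : (2 : ℝ) ^ (((kc : ℝ) + J / 4) * (4 / 3 + ζ / 8) + 1) =
      2 * (2 : ℝ) ^ (((kc : ℝ) + J / 4) * (4 / 3 + ζ / 8)) := by
    rw [← add, Real.rpow_one]
    ring
  have h5 : (1 : ℝ) ≤ (2 : ℝ) ^ (((kc : ℝ) + J / 4) * (4 / 3 + ζ / 8)) :=
    Real.one_le_rpow (by norm_num) (by positivity)
  have h6 := Nat.lt_floor_add_one ((k : ℝ) ^ (1 - ζ / 8))
  linarith

/-- the radius -/
lemma radius {e ζ : ℝ} {A A4 kc J k : ℕ} (he : 0 < e) (he4 : e ≤ 1 / 4) (hζ : 0 ≤ ζ)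
    (h : A * J + A4 * J ≤ kc) (hS : (1 + A + A4 : ℝ) * J ≤ e * ((kc + J : ℕ) : ℝ))
    (hk : (k : ℝ) ≤ (2 : ℝ) ^ ((4 / 3 - ζ / 8) * ((kc + J : ℕ) : ℝ))) :
    (k : ℝ) ^ (3 / 4 - e) ≤ ((2 ^ (kc - A * J - A4 * J) : ℕ) : ℝ) := by
  have hr : ((kc - A * J - A4 * J : ℕ) : ℝ) = (kc : ℝ) - A * J - A4 * J := by
    rw [Nat.cast_sub (by omega), Nat.cast_sub (by omega)]
    push_cast
    ring
  push_cast
  rw [two_pow, hr]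
  refine (Real.rpow_le_rpow (Nat.cast_nonneg _) hk (by linarith)).trans ?_
  rw [pow_pow]
  apply mono
  push_cast at hS ⊢
  obtain ⟨L, hL⟩ : ∃ L : ℝ, L = (kc : ℝ) + J := ⟨_, rfl⟩
  have hL0 : 0 ≤ L := by rw [hL]; positivity
  have hkc : (kc : ℝ) = L - J := by rw [hL]; ring
  rw [← hL] at hS ⊢
  rw [hkc]
  have g1 : 0 ≤ ζ * L * (3 / 4 - e) := mul_nonneg (mul_nonneg hζ hL0) (by linarith)
  have g2 : 0 ≤ e * L := mul_nonneg he.le hL0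
  nlinarith

/-- the last condition -/
lemma final {C e ζ l : ℝ} {A kc J k : ℕ} (hC : C = (2 : ℝ) ^ l) (hl : 0 ≤ l) (he : 0 < e) (he4 : e ≤ 1 / 4) (hζ : 0 ≤ ζ)
    (h : A * J ≤ kc) (h3 : 3 ≤ kc - A * J) (hJ : 4 ≤ J)
    (hS : (1 + l) * ((1 + A : ℝ) * J) ≤ e * ((kc + J : ℕ) : ℝ) / 8)
    (hk : (k : ℝ) ≤ (2 : ℝ) ^ ((4 / 3 - ζ / 8) * ((kc + J : ℕ) : ℝ))) :
    1 * (k : ℝ) ^ (9 / 16 - e) * C ^ (J + A * J + 4) ≤ ((KM kc (A * J) - KM kc (A * J) / 2 : ℕ) : ℝ) := by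
  refine le_trans ?_ (KM_ge h3).2.2
  have hr : ((kc - A * J : ℕ) : ℝ) = (kc : ℝ) - A * J := by
    rw [Nat.cast_sub h]
    push_cast
    ring
  have h1 : (k : ℝ) ^ (9 / 16 - e) ≤ (2 : ℝ) ^ ((4 / 3 - ζ / 8) * ((kc + J : ℕ) : ℝ) * (9 / 16 - e)) := by
    rw [← pow_pow]
    exact Real.rpow_le_rpow (Nat.cast_nonneg _) hk (by linarith)
  have h4 : (4 : ℝ) = (2 : ℝ) ^ (2 : ℝ) := by
    rw [show (2 : ℝ) = ((2 : ℕ) : ℝ) by norm_num, Real.rpow_natCast]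
    norm_num
  rw [le_div_iff₀ (by norm_num), C_pow hC, one_mul]
  refine (mul_le_mul_of_nonneg_right (mul_le_mul_of_nonneg_right h1 (pos _).le) (by norm_num)).trans ?_
  rw [h4, add, add]
  apply mono
  rw [hr]
  have hJ4 : (4 : ℝ) ≤ J := by exact_mod_cast hJ
  have hA0 : (0 : ℝ) ≤ A := Nat.cast_nonneg _
  have hkc0 : (0 : ℝ) ≤ kc := Nat.cast_nonneg _
  push_cast at hS ⊢
  obtain ⟨L, hL⟩ : ∃ L : ℝ, L = (kc : ℝ) + J := ⟨_, rfl⟩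
  have hL0 : 0 ≤ L := by rw [hL]; linarith
  have hkc : (kc : ℝ) = L - J := by rw [hL]; ring
  rw [← hL] at hS ⊢
  rw [hkc]
  have g1 : 0 ≤ ζ * L * (9 / 16 - e) := mul_nonneg (mul_nonneg hζ hL0) (by linarith)
  have g2 : 0 ≤ e * L := mul_nonneg he.le hL0
  have g3 : 0 ≤ (A : ℝ) * J := mul_nonneg hA0 (by linarith)
  have g4 : 0 ≤ l * (A * J) := mul_nonneg hl g3
  have g5 : l * 4 ≤ l * J := mul_le_mul_of_nonneg_left hJ4 hl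
  nlinarith

end Num

open Num in
/-- **The numbers of the assembly.** -/
theorem num10 {C c c0 Cu : ℝ} (hC : 1 ≤ C) (hc : 0 < c) (hc0 : 0 < c0) (hCu : 0 < Cu) (s0 q k00 : ℕ) {e : ℝ}
    (he : 0 < e) :
    ∃ d β β' bt bs kap c1 : ℝ, 0 < d ∧ d ≤ e ∧ 0 < β ∧ β < 4 / 3 ∧ 4 / 3 < β' ∧ β' ≤ 2 ∧ 4 / 3 < bt ∧ 0 < bs ∧
      bs < 4 / 3 ∧ 0 < kap ∧ 0 < c1 ∧ ∀ L0 : ℕ, ∃ k0 : ℕ, ∀ k : ℕ, k0 ≤ k → ∃ kc J a R n m r : ℕ,
        L0 ≤ kc + J ∧ q + 6 ≤ J ∧ k00 + a + R + 8 ≤ kc ∧ 3 ≤ R ∧ 1 ≤ n ∧ 1 ≤ m ∧ 1 ≤ r ∧ r < 2 ^ (kc - a) ∧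
        (k : ℝ) ≤ (2 : ℝ) ^ (β * ((kc + J : ℕ) : ℝ)) ∧
        C ^ J * (C * 4 ^ J * (2 : ℝ) ^ (-(c * (a : ℝ)))) ≤ c0 / 16 ∧
        C ^ J * (C / 4 ^ n) ≤ c0 / 16 ∧
        (∀ x : ℝ, 0 ≤ x → x ≤ Cu * ((2 : ℝ) ^ (kc - a - 1)) ^ (-(1 / 4 : ℝ)) →
          C ^ J * ((2 : ℝ) ^ (a + 1) * (2 : ℝ) ^ (-(c * (R : ℝ))) + 4 ^ (a + 1 + R) *
            ((aM β' bs (kc + J) r : ℝ) * (x / 2 ^ (kc - a - 1)) / ((KM kc a / 2 : ℕ) : ℝ))) ≤ c0 / 16) ∧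
        1 ≤ KM kc a / 2 ∧
        (2 : ℝ) ^ (kap * ((kc + J : ℕ) : ℝ)) ≤ m ∧ (m : ℝ) ^ bt ≤ (⌊(k : ℝ) ^ (1 - d)⌋₊ : ℕ) ∧
        6 * (n * 2 ^ (kc + s0)) + 8 ≤ 3 * m ∧
        ⌊(k : ℝ) ^ (1 - d)⌋₊ < k ∧
        (2 : ℝ) ^ (kap * ((kc + J : ℕ) : ℝ)) ≤ 3 * r ∧
        (k : ℝ) ^ (3 / 4 - e) ≤ r ∧
        c1 * (k : ℝ) ^ (9 / 16 - e) * C ^ (J + a + 4) ≤ ((KM kc a - KM kc a / 2 : ℕ) : ℝ) := by
  obtain ⟨l, hl⟩ : ∃ l : ℝ, l = Real.logb 2 C := ⟨_, rfl⟩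
  have hl0 : 0 ≤ l := by rw [hl]; exact Real.logb_nonneg (by norm_num) hC
  have hCl : C = (2 : ℝ) ^ l := by
    rw [hl, Real.rpow_logb (by norm_num) (by norm_num) (by linarith)]
  obtain ⟨A, A3, A4, A5, hA1, hA31, hA41, hA51, hA, hA3, hA4, hA5⟩ := consts hl0 hc
  obtain ⟨e', he'⟩ : ∃ e' : ℝ, e' = min e (1 / 4) := ⟨_, rfl⟩
  have he0 : 0 < e' := by rw [he']; exact lt_min he (by norm_num)
  have hee : e' ≤ e := by rw [he']; exact min_le_left _ _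
  have he4 : e' ≤ 1 / 4 := by rw [he']; exact min_le_right _ _
  obtain ⟨D, hD⟩ : ∃ D : ℝ, D = (1 + l) * (1 + A + A3 + A4 + A5) := ⟨_, rfl⟩
  have hAr : (1 : ℝ) ≤ A := by exact_mod_cast hA1
  have hA3r : (1 : ℝ) ≤ A3 := by exact_mod_cast hA31
  have hA4r : (1 : ℝ) ≤ A4 := by exact_mod_cast hA41
  have hA5r : (1 : ℝ) ≤ A5 := by exact_mod_cast hA51
  have hD1 : 1 ≤ D := by rw [hD]; nlinarith
  obtain ⟨ζ, hζ⟩ : ∃ ζ : ℝ, ζ = e' / (16 * D) := ⟨_, rfl⟩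
  have hζ0 : 0 < ζ := by rw [hζ]; positivity
  have hζD : ζ * (16 * D) = e' := by rw [hζ]; field_simp
  have hζ1 : ζ ≤ 1 / 64 := by nlinarith
  have hζe : ζ ≤ e' := by nlinarith
  obtain ⟨M, hM⟩ : ∃ M : ℝ, M = 16 * C / c0 + 64 / c0 + 1863680 * Cu / c0 + (2 * A5 * 2 ^ s0 + 3) := ⟨_, rfl⟩
  obtain ⟨J0, hJ0⟩ := lin_le M
  obtain ⟨J1, hJ1⟩ : ∃ J1 : ℕ, J1 = J0 + q + k00 + 14 := ⟨_, rfl⟩
  refine ⟨ζ / 8, 4 / 3 - ζ / 8, 4 / 3 + ζ / 8, 4 / 3 + ζ / 8, 4 / 3 - ζ / 8, 1 / 2, 1, by positivity, by linarith,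
    by linarith, by linarith, by linarith, by linarith, by linarith, by linarith, by linarith, by norm_num, by norm_num,
    fun L0 => ?_⟩
  obtain ⟨L1, hL1⟩ : ∃ L1 : ℕ, L1 = L0 + ⌈(J1 : ℝ) / ζ⌉₊ := ⟨_, rfl⟩
  refine ⟨4 ^ L1 + 2, fun k hk => ?_⟩
  have hk2 : 2 ≤ k := (Nat.le_add_left 2 _).trans hk
  have hkr : (2 : ℝ) ≤ k := by exact_mod_cast hk2
  have hk4 : (4 : ℝ) ^ L1 ≤ k := by exact_mod_cast ((Nat.le_add_right _ 2).trans hk : 4 ^ L1 ≤ k)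
  have hβ0 : 0 < 4 / 3 - ζ / 8 := by linarith
  obtain ⟨L, hL⟩ : ∃ L : ℕ, L = ⌈Real.logb 2 k / (4 / 3 - ζ / 8)⌉₊ := ⟨_, rfl⟩
  have hlog0 : 0 ≤ Real.logb 2 k := Real.logb_nonneg (by norm_num) (by linarith)
  have hLa : Real.logb 2 k ≤ (4 / 3 - ζ / 8) * L := by
    have := Nat.le_ceil (Real.logb 2 k / (4 / 3 - ζ / 8))
    rw [← hL, div_le_iff₀ hβ0] at this
    linarith
  have hLb : (4 / 3 - ζ / 8) * ((L : ℝ) - 1) ≤ Real.logb 2 k := by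
    have := (Nat.ceil_lt_add_one (div_nonneg hlog0 hβ0.le)).le
    rw [← hL] at this
    have h2 : (L : ℝ) - 1 ≤ Real.logb 2 k / (4 / 3 - ζ / 8) := by linarith
    rw [le_div_iff₀ hβ0] at h2
    linarith
  have hka : (k : ℝ) ≤ (2 : ℝ) ^ ((4 / 3 - ζ / 8) * (L : ℝ)) := by
    rw [← Real.logb_le_iff_le_rpow (by norm_num) (by linarith)]
    exact hLa
  have hkb : (2 : ℝ) ^ ((4 / 3 - ζ / 8) * ((L : ℝ) - 1)) ≤ k := by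
    rw [← Real.le_logb_iff_rpow_le (by norm_num) (by linarith)]
    exact hLb
  have hLL1 : L1 ≤ L := by
    have h1 : 2 * (L1 : ℝ) ≤ Real.logb 2 k := by
      rw [Real.le_logb_iff_rpow_le (by norm_num) (by linarith), ← four_pow]
      exact hk4
    have h2 : (L1 : ℝ) ≤ L := by nlinarith [Nat.cast_nonneg (α := ℝ) L]
    exact_mod_cast h2
  have hz : (J1 : ℝ) ≤ ζ * L := by
    have h1 := Nat.le_ceil ((J1 : ℝ) / ζ)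
    have h2 : ((⌈(J1 : ℝ) / ζ⌉₊ : ℕ) : ℝ) ≤ L := by exact_mod_cast (by omega : ⌈(J1 : ℝ) / ζ⌉₊ ≤ L)
    have h3 := h1.trans h2
    rw [div_le_iff₀ hζ0] at h3
    linarith
  obtain ⟨J, hJ⟩ : ∃ J : ℕ, J = ⌈ζ * L⌉₊ := ⟨_, rfl⟩
  have hJa : ζ * L ≤ J := by rw [hJ]; exact Nat.le_ceil _
  have hJJ1 : J1 ≤ J := by exact_mod_cast hz.trans hJa
  have hJ14 : 14 ≤ J := by omega
  have hJ14r : (14 : ℝ) ≤ J := by exact_mod_cast hJ14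
  have hL0r : (0 : ℝ) ≤ L := Nat.cast_nonneg _
  have hz1 : 1 ≤ ζ * L := by
    have : (14 : ℝ) ≤ J1 := by exact_mod_cast (by omega : 14 ≤ J1)
    linarith
  have hJb : (J : ℝ) ≤ 2 * (ζ * L) := by
    have := (Nat.ceil_lt_add_one (mul_nonneg hζ0.le hL0r)).le
    rw [← hJ] at this
    linarith
  -- the sum of all the units
  have hS : D * J ≤ e' * L / 8 := by
    have : D * J ≤ D * (2 * (ζ * L)) := mul_le_mul_of_nonneg_left hJb (by linarith)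
    rw [← hζD]
    linarith
  have hS1 : (1 + A + A3 + A4 + A5 : ℝ) * J ≤ L / 32 := by
    have h1 : (1 + A + A3 + A4 + A5 : ℝ) * J ≤ D * J := by
      apply mul_le_mul_of_nonneg_right _ (by linarith)
      rw [hD]
      nlinarith
    nlinarith
  have hSn : 32 * ((1 + A + A3 + A4 + A5) * J) ≤ L := by
    have : (32 * ((1 + A + A3 + A4 + A5) * J) : ℝ) ≤ L := by linarith
    exact_mod_cast this
  have hex : (1 + A + A3 + A4 + A5) * J = J + A * J + A3 * J + A4 * J + A5 * J := by ring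
  have hAJ : 1 ≤ A * J := Nat.mul_pos (by omega) (by omega)
  have hA3J : J ≤ A3 * J := Nat.le_mul_of_pos_left J (by omega)
  have hA4J : 1 ≤ A4 * J := Nat.mul_pos (by omega) (by omega)
  have hA5J : 1 ≤ A5 * J := Nat.mul_pos (by omega) (by omega)
  obtain ⟨kc, hkc⟩ : ∃ kc : ℕ, kc = L - J := ⟨_, rfl⟩
  have hkcJ : kc + J = L := by omega
  have hle : A * J + A4 * J ≤ kc := by omega
  have h3 : 3 ≤ kc - A * J := by omega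
  have hMJ := hJ0 J (by omega)
  have hMpos : 0 ≤ 2 * (A5 : ℝ) * 2 ^ s0 + 3 := by positivity
  have hc1 : 0 ≤ 16 * C / c0 := by positivity
  have hc2 : 0 ≤ 64 / c0 := by positivity
  have hc3 : 0 ≤ 1863680 * Cu / c0 := by positivity
  have hM0 : 0 ≤ M := by rw [hM]; positivity
  have hMle : M ≤ (2 : ℝ) ^ (J : ℝ) := by
    have h1 : M ≤ M * (J + 1) := by nlinarith
    refine (h1.trans hMJ).trans (mono ?_)
    linarith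
  have hpow : (2 : ℝ) ^ (-(J : ℝ)) * (2 : ℝ) ^ (J : ℝ) = 1 := by rw [add]; simp
  have hall : ∀ x : ℝ, 0 ≤ x → x / c0 ≤ M → x * (2 : ℝ) ^ (-(J : ℝ)) ≤ c0 := by
    intro x hx0 hx
    have h1 : x ≤ c0 * (2 : ℝ) ^ (J : ℝ) := by
      have := (div_le_iff₀ hc0).1 (hx.trans hMle)
      linarith
    calc x * (2 : ℝ) ^ (-(J : ℝ)) ≤ c0 * (2 : ℝ) ^ (J : ℝ) * (2 : ℝ) ^ (-(J : ℝ)) :=
          mul_le_mul_of_nonneg_right h1 (pos _).le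
      _ = c0 * ((2 : ℝ) ^ (-(J : ℝ)) * (2 : ℝ) ^ (J : ℝ)) := by ring
      _ = c0 := by rw [hpow, mul_one]
  have b1 : C * (2 : ℝ) ^ (-(J : ℝ)) ≤ c0 / 16 := by
    have := hall (16 * C) (by positivity) (by rw [hM]; linarith)
    linarith
  have b2 : 2 * (2 : ℝ) ^ (-(J : ℝ)) ≤ c0 / 32 := by
    have := hall 64 (by positivity) (by rw [hM]; linarith)
    linarith
  have b3 : 58240 * Cu * (2 : ℝ) ^ (-(J : ℝ)) ≤ c0 / 32 := by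
    have := hall (1863680 * Cu) (by positivity) (by rw [hM]; linarith)
    linarith
  have b4 : (2 * A5 * 2 ^ s0 + 3 : ℝ) * (J + 1) ≤ (2 : ℝ) ^ ((J : ℝ) / 4) := by
    refine le_trans ?_ hMJ
    apply mul_le_mul_of_nonneg_right _ (by linarith)
    rw [hM]
    linarith
  have hzz : ζ * ((kc + J : ℕ) : ℝ) ≤ J := by rw [hkcJ]; exact hJa
  have hk1 : (1 : ℝ) ≤ k := by linarith
  have hkcr : (kc : ℝ) = L - J := by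
    rw [← hkcJ]
    push_cast
    ring
  have hS2 : (1 + A : ℝ) * J ≤ (1 + A + A3 + A4 + A5 : ℝ) * J :=
    mul_le_mul_of_nonneg_right (by linarith) (by linarith)
  have hS3 : (1 + A + A4 : ℝ) * J ≤ (1 + A + A3 + A4 + A5 : ℝ) * J :=
    mul_le_mul_of_nonneg_right (by linarith) (by linarith)
  have hS4 : (1 + A + A3 + A4 + A5 : ℝ) * J ≤ e' * L / 8 := by
    refine le_trans ?_ hS
    apply mul_le_mul_of_nonneg_right _ (by linarith)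
    rw [hD]
    nlinarith
  have hS5 : (1 + l) * ((1 + A : ℝ) * J) ≤ e' * L / 8 := by
    refine le_trans ?_ hS
    rw [hD, mul_assoc]
    exact mul_le_mul_of_nonneg_left hS2 (by linarith)
  have heL : 0 ≤ e' * L := by positivity
  refine ⟨kc, J, A * J, A3 * J, A5 * J, 2 * (A5 * J * 2 ^ (kc + s0)) + 3, 2 ^ (kc - A * J - A4 * J), by omega, by omega,
    by omega, by omega, hA5J, by omega, Nat.one_le_two_pow, ?_, ?_, few hCl hA b1, tall hCl hA5 b1, ?_,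
    (KM_ge h3).2.1, ?_, ?_, by omega, ?_, ?_, ?_, ?_⟩
  · exact Nat.pow_lt_pow_right (by norm_num) (by omega)
  · rw [hkcJ]
    exact hka
  · intro x hx0 hx
    have h1 := close1 (c := c) (c0 := c0) hCl hA3 b2
    have h2 := close2 hCl hCu hA4 hζ0.le (by linarith) hl0 hzz hle h3 b3 hx0 hx
    rw [mul_add]
    linarith
  · rw [hkcJ]
    have h1 : (2 : ℝ) ^ (1 / 2 * (L : ℝ)) ≤ 2 ^ kc := by
      rw [two_pow]
      apply mono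
      rw [hkcr]
      nlinarith
    refine h1.trans ?_
    have h2 : 2 ^ kc ≤ 2 * (A5 * J * 2 ^ (kc + s0)) + 3 := by
      have h4 : 2 ^ kc ≤ 2 ^ (kc + s0) := Nat.pow_le_pow_right (by norm_num) (by omega)
      have h5 : 2 ^ (kc + s0) ≤ A5 * J * 2 ^ (kc + s0) := Nat.le_mul_of_pos_left _ (by omega)
      omega
    exact_mod_cast h2
  · apply thin2 hζ0.le (by linarith) _ hzz (m_le b4)
    · rw [hkcJ]
      exact hkb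
    · rw [hkcJ]
      have : (14 : ℝ) ≤ J1 := by exact_mod_cast (by omega : 14 ≤ J1)
      linarith
  · have h1 : (k : ℝ) ^ (1 - ζ / 8) < k := by
      conv_rhs => rw [← Real.rpow_one (k : ℝ)]
      exact Real.rpow_lt_rpow_of_exponent_lt (by linarith) (by linarith)
    exact (Nat.floor_lt (by positivity)).2 h1
  · rw [hkcJ]
    have hr : ((kc - A * J - A4 * J : ℕ) : ℝ) = (kc : ℝ) - A * J - A4 * J := by
      rw [Nat.cast_sub (by omega), Nat.cast_sub (by omega)]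
      push_cast
      ring
    have h1 : (2 : ℝ) ^ (1 / 2 * (L : ℝ)) ≤ ((2 ^ (kc - A * J - A4 * J) : ℕ) : ℝ) := by
      push_cast
      rw [two_pow, hr]
      apply mono
      rw [hkcr]
      nlinarith
    have h2 : (0 : ℝ) ≤ ((2 ^ (kc - A * J - A4 * J) : ℕ) : ℝ) := Nat.cast_nonneg _
    linarith
  · refine (Real.rpow_le_rpow_of_exponent_le hk1 (by linarith : 3 / 4 - e ≤ 3 / 4 - e')).trans ?_
    apply radius he0 he4 hζ0.le hle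
    · rw [hkcJ]
      linarith
    · rw [hkcJ]
      exact hka
  · have h1 : (k : ℝ) ^ (9 / 16 - e) ≤ (k : ℝ) ^ (9 / 16 - e') :=
      Real.rpow_le_rpow_of_exponent_le hk1 (by linarith)
    refine (mul_le_mul_of_nonneg_right (mul_le_mul_of_nonneg_left h1 zero_le_one) (by positivity)).trans ?_
    apply final hCl hl0 he0 he4 hζ0.le (by omega) h3 (by omega)
    · rw [hkcJ]
      exact hS5
    · rw [hkcJ]
      exact hka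

end PS

end HexObs
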