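import Pool.Agent.PS.EVh
import Pool.Agent.SDN.DimLaw
import Pool.Agent.BAR.SizeMain

/-!
PS, masses of sets of bridges of the box: the tall bridges have a positive proportion, the bridges with an untypical
number of letters are rarer than every power.
-/

set_option autoImplicit false

namespace HexObs

namespace PS

open Finset TS SDN NTm

open scoped ENNReal

/-- the bridges of the box of radius 2 ^ L with a height of at least 2 ^ (L - q) -/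
def TallB (q L : ℕ) : Set (List Bool) := {t | t ∈ BL L ∧ ∃ h, 2 ^ (L - q) ≤ h ∧ t ∈ Brd h}

/-- **the tall bridges of the box have a positive proportion of the mass** -/
theorem tall_low : ∃ (q L0 : ℕ) (c : ℝ), 0 < c ∧ ∀ L : ℕ, L0 ≤ L → ENNReal.ofReal (c * Ub L) ≤ gf (TallB q L) := by
  obtain ⟨m0, hm0⟩ := DL.BL_low
  have hCW := CW_pos
  obtain ⟨θ, hθ⟩ : ∃ θ : ℝ, θ = 1 / (6 + CW) := ⟨_, rfl⟩
  have hθ0 : 0 < θ := by rw [hθ]; positivity
  obtain ⟨q, hq⟩ := exists_nat_ge (((m0 : ℝ) + 3) / θ)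
  have hqθ : (m0 : ℝ) + 3 ≤ q * θ := by rwa [div_le_iff₀ hθ0] at hq
  refine ⟨q, m0 + q, 1 / 2 ^ (m0 + 2), by positivity, fun L hL => ?_⟩
  have h1 : (2 : ℕ) ^ (L - q) ≤ 2 ^ L := Nat.pow_le_pow_right (by norm_num) (by omega)
  have h2 := UU_growth (s := 2 ^ (L - q)) (T := 2 ^ L) Nat.one_le_two_pow h1
  rw [← hθ] at h2
  have h3 : (((2 : ℕ) ^ L : ℕ) : ℝ) / (((2 : ℕ) ^ (L - q) : ℕ) : ℝ) = 2 ^ q := by
    push_cast
    rw [div_eq_iff (by positivity), ← pow_add]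
    congr 1
    omega
  rw [h3] at h2
  have h4 : (2 : ℝ) ^ (m0 + 3) ≤ ((2 : ℝ) ^ q) ^ θ := by
    rw [← Real.rpow_natCast 2 q, ← Real.rpow_mul (by norm_num), ← Real.rpow_natCast]
    apply Real.rpow_le_rpow_of_exponent_le (by norm_num)
    push_cast
    exact hqθ
  have h5 : UU (2 ^ (L - q)) ≤ Ub L / 2 ^ (m0 + 2) := by
    rw [le_div_iff₀ (by positivity)]
    unfold Ub
    have h6 := mul_le_mul_of_nonneg_left h4 (Num2Aux.UU_pos (2 ^ (L - q))).le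
    have h7 : (2 : ℝ) ^ (m0 + 3) = 2 * 2 ^ (m0 + 2) := by ring
    rw [h7] at h6
    linarith
  have h6 : BL L ⊆ TallB q L ∪ ⋃ i ∈ Finset.range (2 ^ (L - q) + 1), Brd i := by
    rintro t ⟨⟨h, ht⟩, ht2⟩
    by_cases hh : 2 ^ (L - q) ≤ h
    · left
      exact ⟨⟨⟨h, ht⟩, ht2⟩, h, hh, ht⟩
    · right
      simp only [Set.mem_iUnion]
      exact ⟨h, Finset.mem_range.2 (by omega), ht⟩
  have h7 : gf (⋃ i ∈ Finset.range (2 ^ (L - q) + 1), Brd i) ≤ ENNReal.ofReal (UU (2 ^ (L - q))) := by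
    rw [T2.Amp.ofReal_UU]
    refine (BAR.gf_bi_le _ _).trans (le_of_eq (Finset.sum_congr rfl fun i _ => gf_Brd i))
  have h8 : ENNReal.ofReal (Ub L / 2 ^ (m0 + 1)) ≤ gf (TallB q L) + ENNReal.ofReal (Ub L / 2 ^ (m0 + 2)) :=
    (hm0 L (by omega)).trans ((gf_mono h6).trans ((gf_union_le _ _).trans
      (add_le_add le_rfl (h7.trans (ENNReal.ofReal_le_ofReal h5)))))
  have h9 : ENNReal.ofReal (1 / 2 ^ (m0 + 2) * Ub L) + ENNReal.ofReal (Ub L / 2 ^ (m0 + 2)) ≤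
      ENNReal.ofReal (Ub L / 2 ^ (m0 + 1)) := by
    have := DL.Ub_pos L
    rw [← ENNReal.ofReal_add (by positivity) (by positivity)]
    apply ENNReal.ofReal_le_ofReal
    apply le_of_eq
    rw [show m0 + 2 = (m0 + 1) + 1 by ring, pow_succ (2 : ℝ) (m0 + 1)]
    field_simp
    ring
  exact (ENNReal.add_le_add_iff_right ENNReal.ofReal_ne_top).1 (h9.trans h8)

/-- a double exponential beats every exponential -/
lemma exp_beats {c : ℝ} (hc : 0 < c) (Q : ℝ) : ∃ L0 : ℕ, ∀ L : ℕ, L0 ≤ L →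
    Real.exp (-(2 : ℝ) ^ (c * L)) ≤ (2 : ℝ) ^ (-(Q * L)) := by
  have h1 : Filter.Tendsto (fun L : ℕ => (2 : ℝ) ^ (c * (L : ℝ)) / L) Filter.atTop Filter.atTop := by
    have h2 : Filter.Tendsto (fun x : ℝ => Real.exp (Real.log 2 * c * x) / x) Filter.atTop Filter.atTop := by
      have h3 := tendsto_exp_mul_div_rpow_atTop 1 (Real.log 2 * c) (mul_pos (Real.log_pos (by norm_num)) hc)
      simpa using h3
    refine (h2.comp tendsto_natCast_atTop_atTop).congr fun L => ?_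
    simp only [Function.comp]
    rw [Real.rpow_def_of_pos (by norm_num)]
    ring_nf
  obtain ⟨L1, hL1⟩ := Filter.eventually_atTop.1 (h1.eventually_ge_atTop (Real.log 2 * Q))
  refine ⟨L1 + 1, fun L hL => ?_⟩
  have h2 := hL1 L (by omega)
  have hL0 : (0 : ℝ) < L := by exact_mod_cast (by omega : 0 < L)
  rw [le_div_iff₀ hL0] at h2
  rw [Real.rpow_def_of_pos (by norm_num : (0 : ℝ) < 2) (-(Q * L)), Real.exp_le_exp]
  nlinarith

/-- **few letters for the displacement** -/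
theorem fast_rare {β : ℝ} (hβ : β < 4 / 3) (q : ℕ) (Q : ℝ) : ∃ L0 : ℕ, ∀ L : ℕ, L0 ≤ L →
    gf {t | t ∈ SA ∧ T2.Ext (L - q) t ∧ (t.length : ℝ) ≤ (2 : ℝ) ^ (β * L)} ≤ ENNReal.ofReal ((2 : ℝ) ^ (-(Q * L))) := by
  obtain ⟨b, hb⟩ : ∃ b : ℝ, b = (β + 4 / 3) / 2 := ⟨_, rfl⟩
  obtain ⟨c, L0, hc, hE⟩ := ExpsA.expUp (β := b) (by rw [hb]; linarith)
  obtain ⟨L1, hL1⟩ := exp_beats hc (2 * |Q|)
  obtain ⟨L2, hL2⟩ := exists_nat_ge ((|b| * q) / (b - β))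
  refine ⟨L0 + L1 + L2 + 2 * q, fun L hL => ?_⟩
  have hbβ : 0 < b - β := by rw [hb]; linarith
  have hLq : ((L - q : ℕ) : ℝ) = L - q := by
    rw [Nat.cast_sub (by omega)]
  have h1 : β * L ≤ b * ((L - q : ℕ) : ℝ) := by
    rw [hLq]
    have h2 : (L2 : ℝ) ≤ L := by exact_mod_cast (by omega : L2 ≤ L)
    have h3 : (|b| * q) / (b - β) ≤ L := hL2.trans h2
    rw [div_le_iff₀ hbβ] at h3
    have h4 : b * q ≤ |b| * q := mul_le_mul_of_nonneg_right (le_abs_self b) (Nat.cast_nonneg _)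
    nlinarith
  have h2 : {t | t ∈ SA ∧ T2.Ext (L - q) t ∧ (t.length : ℝ) ≤ (2 : ℝ) ^ (β * L)} ⊆
      {t | t ∈ SA ∧ T2.Ext (L - q) t ∧ (t.length : ℝ) ≤ (2 : ℝ) ^ (b * ((L - q : ℕ) : ℝ))} := by
    rintro t ⟨h3, h4, h5⟩
    exact ⟨h3, h4, h5.trans (Real.rpow_le_rpow_of_exponent_le (by norm_num) h1)⟩
  refine (gf_mono h2).trans ((hE (L - q) (by omega)).trans (ENNReal.ofReal_le_ofReal ?_))
  refine (hL1 (L - q) (by omega)).trans (Real.rpow_le_rpow_of_exponent_le (by norm_num) ?_)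
  rw [hLq]
  have h3 : (2 : ℝ) * q ≤ L := by exact_mod_cast (by omega : 2 * q ≤ L)
  have h4 := abs_nonneg Q
  have h5 := le_abs_self Q
  have h6 : (0 : ℝ) ≤ L := Nat.cast_nonneg _
  nlinarith

/-- **many letters in the box** -/
theorem long_rare {β : ℝ} (hβ : 4 / 3 < β) (Q : ℝ) : ∃ L0 : ℕ, ∀ L : ℕ, L0 ≤ L →
    gf {t | t ∈ WL L ∧ (2 : ℝ) ^ (β * L) ≤ t.length} ≤ ENNReal.ofReal ((2 : ℝ) ^ (-(Q * L))) := by
  obtain ⟨c, L0, hc, h⟩ := BAR.exp_low (a := 4 / 3) (by norm_num)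
    (fun _ ha => Pool.Agent.NUF.meanLen_of_ZZ (Pool.Agent.NUF.zzUp_of (NUI.numUp_of_target NUCR.target)) ha) hβ
  obtain ⟨L1, hL1⟩ := exp_beats hc Q
  exact ⟨L0 + L1, fun L hL => (h L (by omega)).trans (ENNReal.ofReal_le_ofReal (hL1 L (by omega)))⟩

/-- a bridge with a height of at least 2 ^ q leaves the smaller box -/
lemma brd_ext {h q : ℕ} {t : List Bool} (ht : t ∈ Brd h) (hq : 2 ^ q ≤ h) : T2.Ext q t := ExpsA.brd_ext ht hq

/-- **the tall bridges with a typical number of letters** -/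
theorem tall_typ : ∃ (q : ℕ) (c : ℝ), 0 < c ∧ ∀ β β' : ℝ, β < 4 / 3 → 4 / 3 < β' → ∃ L0 : ℕ, ∀ L : ℕ, L0 ≤ L →
    ENNReal.ofReal (c * Ub L) ≤ gf {t | t ∈ TallB q L ∧ (2 : ℝ) ^ (β * L) < t.length ∧
      (t.length : ℝ) < (2 : ℝ) ^ (β' * L)} := by
  obtain ⟨q, L1, c, hc, h1⟩ := tall_low
  refine ⟨q, c / 2, by linarith, fun β β' hβ hβ' => ?_⟩
  obtain ⟨L2, h2⟩ := fast_rare hβ q 1
  obtain ⟨L3, h3⟩ := long_rare hβ' 1
  obtain ⟨L4, hL4⟩ := exists_nat_ge (4 / c)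
  refine ⟨L1 + L2 + L3 + L4 + 1, fun L hL => ?_⟩
  have hsub : TallB q L ⊆ {t | t ∈ TallB q L ∧ (2 : ℝ) ^ (β * L) < t.length ∧ (t.length : ℝ) < (2 : ℝ) ^ (β' * L)} ∪
      ({t | t ∈ SA ∧ T2.Ext (L - q) t ∧ (t.length : ℝ) ≤ (2 : ℝ) ^ (β * L)} ∪
        {t | t ∈ WL L ∧ (2 : ℝ) ^ (β' * L) ≤ t.length}) := by
    intro t ht
    by_cases ha : (2 : ℝ) ^ (β * L) < t.length
    · by_cases hb : (t.length : ℝ) < (2 : ℝ) ^ (β' * L)
      · exact Or.inl ⟨ht, ha, hb⟩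
      · exact Or.inr (Or.inr ⟨ht.1.2, not_lt.1 hb⟩)
    · obtain ⟨h, hh, hB⟩ := ht.2
      exact Or.inr (Or.inl ⟨ht.1.2.1, brd_ext hB hh, not_lt.1 ha⟩)
  have hpow : (2 : ℝ) ^ (-(1 * (L : ℝ))) ≤ c * Ub L / 4 := by
    have h4 : (4 / c : ℝ) ≤ L := hL4.trans (by exact_mod_cast (by omega : L4 ≤ L))
    have h5 : (L : ℝ) < 2 ^ L := by exact_mod_cast Nat.lt_two_pow_self
    have h6 : 1 ≤ Ub L := by
      unfold Ub
      rw [Num2Aux.UU_eq]
      have : 0 ≤ ∑ t ∈ Finset.Icc 1 (2 ^ L), bT t := Finset.sum_nonneg fun t _ => bT_nonneg t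
      linarith
    rw [one_mul, Real.rpow_neg (by norm_num), Real.rpow_natCast]
    have h7 : (0 : ℝ) < 2 ^ L := by positivity
    have h8 : ((2 : ℝ) ^ L)⁻¹ ≤ c / 4 := by
      rw [inv_le_comm₀ h7 (by positivity), inv_div]
      exact h4.trans h5.le
    nlinarith
  have h4 : ENNReal.ofReal (c * Ub L) ≤ gf {t | t ∈ TallB q L ∧ (2 : ℝ) ^ (β * L) < t.length ∧
      (t.length : ℝ) < (2 : ℝ) ^ (β' * L)} + ENNReal.ofReal (c * Ub L / 2) := by
    refine (h1 L (by omega)).trans ((gf_mono hsub).trans ((gf_union_le _ _).trans (add_le_add le_rfl ?_)))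
    refine (gf_union_le _ _).trans ((add_le_add (h2 L (by omega)) (h3 L (by omega))).trans ?_)
    rw [← ENNReal.ofReal_add (by positivity) (by positivity)]
    exact ENNReal.ofReal_le_ofReal (by linarith)
  have h5 : ENNReal.ofReal (c / 2 * Ub L) + ENNReal.ofReal (c * Ub L / 2) ≤ ENNReal.ofReal (c * Ub L) := by
    have := DL.Ub_pos L
    rw [← ENNReal.ofReal_add (by positivity) (by positivity)]
    exact ENNReal.ofReal_le_ofReal (by linarith)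
  exact (ENNReal.add_le_add_iff_right ENNReal.ofReal_ne_top).1 (h5.trans h4)

end PS

end HexObs
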