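import Pool.Agent.PS.Defs
import Pool.Agent.NTQ.EventQ

/-!
PS, P1: the mass of the words behind a cut of a leaf of a monotone decomposition.
-/

set_option autoImplicit false

namespace HexObs

namespace PS

open Finset TS SDN SDN.CN NTm

open scoped ENNReal

section

variable {kc J n k1 M : ℕ} {W : ℕ → Set (List Bool)} {kp : ℕ → ℕ}

/-- the functional of the end of the cut leaf: right chains behind it -/
noncomputable def FS (k1 : ℕ) (W : ℕ → Set (List Bool)) (kp : ℕ → ℕ) (n M : ℕ) (t : List Bool) : ℝ≥0∞ :=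
  1 + ∑ i ∈ range n, vA (2 ^ (k1 + 4)) (W i) (FR W kp n M i) t

lemma hered_FS : Hered (FS k1 W kp n M) := fun s hs t =>
  add_le_add le_rfl (Finset.sum_le_sum fun _ _ => hered_vA _ _ _ s hs t)

open NTm.FB in
/-- the norm of the functional -/
lemma xT_FS {K q : ℝ} (hK1 : 1 ≤ K) (hq : 128 * K + 1 ≤ q)
    (hK : ∀ (D0 k0 D1 k1 E N : ℕ) (Φ : List Bool → ℝ≥0∞), Hered Φ → 2 ^ (k0 + 4) ≤ D0 →
      2 ^ (k1 + 4) ≤ D1 → D0 ≤ E → D1 ≤ E → E ≤ N →
      xT D0 k0 (vA D0 (BrR E N) Φ) ≤ ENNReal.ofReal (K * (UU N / Ub k0)) * xT D1 k1 Φ) (hW : Wnd kc J n W kp)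
    (hk : k1 ≤ kc) : xT (2 ^ (k1 + 4)) k1 (FS k1 W kp n M) ≤
      ENNReal.ofReal (2 + Ub (kc + J) / Ub k1 * q ^ (n + 1)) := by
  have hU1 := Ub_pos k1
  have hUL := Ub_pos (kc + J)
  have hq1 : 1 ≤ q := by linarith
  have hkp : ∀ i, kc ≤ kp i := fun i => by
    rw [← hW.zero]
    exact hW.mono 0 i (Nat.zero_le i)
  have h2 : ∀ i ∈ range n, xT (2 ^ (k1 + 4)) k1 (vA (2 ^ (k1 + 4)) (W i) (FR W kp n M i)) ≤
      ENNReal.ofReal (128 * K * (Ub (kc + J) / Ub k1) * q ^ (n - i)) := by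
    intro i hi
    rw [Finset.mem_range] at hi
    have hUi := Ub_pos (kp i)
    have h3 := right (Q := q) hK1 hq hK hW M i (hW.top i hi)
    refine (step hK1 hK hW hi (hk.trans (hkp i)) le_rfl (hered_FR _ _)).trans ((mul_le_mul_right h3 _).trans ?_)
    rw [← ENNReal.ofReal_mul (by positivity)]
    apply ENNReal.ofReal_le_ofReal
    apply le_of_eq
    field_simp
    ring
  have h3 : xT (2 ^ (k1 + 4)) k1 (FS k1 W kp n M) ≤ xT (2 ^ (k1 + 4)) k1 (fun _ => 1) +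
      ∑ i ∈ range n, xT (2 ^ (k1 + 4)) k1 (vA (2 ^ (k1 + 4)) (W i) (FR W kp n M i)) := by
    refine (Ch.xT_add _ _ _ _).trans (add_le_add le_rfl ?_)
    exact xT_sum _ _ _ (fun i => vA (2 ^ (k1 + 4)) (W i) (FR W kp n M i))
  have h4 : xT (2 ^ (k1 + 4)) k1 (fun _ => 1) ≤ ENNReal.ofReal 2 := by
    refine (xT_one _ _).trans (le_of_eq ?_)
    rw [ENNReal.ofReal_ofNat]
  refine h3.trans ((add_le_add h4 (Finset.sum_le_sum h2)).trans ?_)
  rw [← ENNReal.ofReal_sum_of_nonneg (fun i _ => by positivity), ← ENNReal.ofReal_add (by norm_num) (by positivity)]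
  apply ENNReal.ofReal_le_ofReal
  rw [← Finset.mul_sum]
  have h5 := geoR (Q := q) n n hq1 le_rfl
  rw [Nat.sub_self, ← Finset.range_eq_Ico] at h5
  have h6 : 0 ≤ ∑ i ∈ range n, q ^ (n - i) := Finset.sum_nonneg fun _ _ => by positivity
  have h7 : 128 * K * ∑ i ∈ range n, q ^ (n - i) ≤ q ^ (n + 1) :=
    le_trans (mul_le_mul_of_nonneg_right (by linarith) h6) h5
  have h8 : 0 ≤ Ub (kc + J) / Ub k1 := by positivity
  have h9 : 128 * K * (Ub (kc + J) / Ub k1) * ∑ i ∈ range n, q ^ (n - i) ≤ Ub (kc + J) / Ub k1 * q ^ (n + 1) := by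
    calc 128 * K * (Ub (kc + J) / Ub k1) * ∑ i ∈ range n, q ^ (n - i) =
          Ub (kc + J) / Ub k1 * (128 * K * ∑ i ∈ range n, q ^ (n - i)) := by ring
      _ ≤ _ := mul_le_mul_of_nonneg_left h7 h8
  linarith

/-- the chains behind the end g of the cut leaf -/
def CS (k1 : ℕ) (W : ℕ → Set (List Bool)) (n M : ℕ) (g : List Bool) (rs : List (List Bool)) : Prop :=
  rs.length ≤ M ∧ rs.IsChain LFold ∧ (∀ r ∈ rs.head?, RT (2 ^ (k1 + 4)) LFold g r) ∧ IncR W n 0 rs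

/-- all the pieces -/
def CU (k1 : ℕ) (W : ℕ → Set (List Bool)) (n M N : ℕ) : List (List Bool) → Prop
  | [] => False
  | g :: rs => g ∈ BrR (2 ^ (k1 + 4)) N ∧ CS k1 W n M g rs

open Classical in
lemma CS_le (hW : Wnd kc J n W kp) (g : List Bool) :
    (∑' rs : List (List Bool), if CS k1 W n M g rs then SDN.wl rs else 0) ≤ FS k1 W kp n M g := by
  refine (tsum_list1 _).trans (add_le_add ?_ ?_)
  · split_ifs
    · rw [wl_nil]
    · exact zero_le
  · refine sum_cons (range n) (fun i => {g' | g' ∈ W i ∧ RT (2 ^ (k1 + 4)) LFold g g'}) (fun i => FR W kp n M i)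
      (fun gs => CS k1 W n M g gs)
      (fun i g' gs => gs.length ≤ M ∧ (g' :: gs).IsChain LFold ∧ IncR W n i gs) ?_ ?_
    · rintro g' gs ⟨h1, h2, h3, i, -, h4, h5, h6⟩
      rw [List.length_cons] at h1
      exact ⟨i, Finset.mem_range.2 h4, ⟨h5, h3 g' (by simp)⟩, by omega, h2, h6⟩
    · rintro i hi g' ⟨h5, -⟩
      obtain ⟨h, a1, a2, a3⟩ := hW.sub i (Finset.mem_range.1 hi) h5
      exact TR_le hW M i g' ⟨h, a1, a3⟩

/-- the mass of the words of the chains -/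
lemma CU_mass (hW : Wnd kc J n W kp) (N : ℕ) : gf {c | ∃ us, CU k1 W n M N us ∧ unf us = c} ≤
    Rec8.sw (BrR (2 ^ (k1 + 4)) N) (FS k1 W kp n M) := by
  classical
  have h1 : gf {c | ∃ us, CU k1 W n M N us ∧ unf us = c} ≤
      ∑' gs : List (List Bool), (if CU k1 W n M N gs then SDN.wl gs else 0) := by
    rw [← Rec8.sw_one]
    refine Rec8.sw_cover _ _ _ (fun gs : List (List Bool) => unf gs) ?_
    rintro t ⟨gs, a1, a2⟩
    refine ⟨gs, a2, ?_⟩
    rw [if_pos a1, mul_one, ← a2]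
    cases gs with
    | nil => exact a1.elim
    | cons g rs =>
      obtain ⟨⟨h, b1, b2, b3⟩, b4⟩ := a1
      refine NTm.wE_unf (fun x hx => ?_) (by simp)
      rw [List.mem_cons] at hx
      rcases hx with rfl | hx
      · exact Brd_ne_nil b3 (by have := Nat.one_le_two_pow (n := k1 + 4); omega)
      · obtain ⟨i, h2, h3⟩ := incR_mem rs 0 b4.2.2.2 x hx
        obtain ⟨h, c1, c2, c3⟩ := hW.sub i h2 h3
        exact Brd_ne_nil c3 (by have := Nat.one_le_two_pow (n := kp i + 4); omega)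
  refine h1.trans ((CCh.tsum_list _ ?_).trans ?_)
  · rw [if_neg]
    exact fun h => h
  · refine (sum_cons (range 1) (fun _ => BrR (2 ^ (k1 + 4)) N) (fun _ => FS k1 W kp n M)
      (fun gs => CU k1 W n M N gs) (fun _ g gs => CS k1 W n M g gs) ?_ ?_).trans ?_
    · rintro g gs ⟨h2, h3⟩
      exact ⟨0, by simp, h2, h3⟩
    · intro i _ g _
      exact CS_le hW g
    · rw [Finset.sum_range_one]

end

/-- **P1: the mass of the words behind a cut** -/
theorem suf_mass : ∃ (C : ℝ) (k0 : ℕ), 1 ≤ C ∧ ∀ kc J k1 : ℕ, k0 ≤ k1 → k1 ≤ kc → 6 ≤ J →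
    gf (Suf kc J k1) ≤ ENNReal.ofReal (C ^ (kc + J - k1) * Ub (kc + J)) := by
  obtain ⟨V, k0, hV, hwin⟩ := win_family
  obtain ⟨K, hK1, hK⟩ := two_scale
  obtain ⟨C, δ0, hInp⟩ := inp_exists
  obtain ⟨K0, hK0, htot⟩ := totH hInp
  obtain ⟨q, hq⟩ : ∃ q : ℝ, q = 128 * K + 1 := ⟨_, rfl⟩
  have hq1 : 1 ≤ q := by linarith
  have hqV : 1 ≤ q ^ (V + 1) := one_le_pow₀ hq1
  refine ⟨3 * K0 * (2 * q ^ (V + 1)), k0, by nlinarith, ?_⟩
  intro kc J k1 hk0 hk1 hJ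
  obtain ⟨W, kp, idx, hW, hidx, hmem⟩ := hwin kc J (hk0.trans hk1) hJ
  obtain ⟨M, hM⟩ : ∃ M, M = 100 * 4 ^ (kc + J) := ⟨_, rfl⟩
  have hsub : Suf kc J k1 ⊆ {c | ∃ us, CU k1 W (V * J) M (2 ^ (kc + J)) us ∧ unf us = c} := by
    rintro c ⟨g1, g2, rs, h1, h2, h3, h4, h5, h6, h7, rfl⟩
    refine ⟨g2 :: rs, ⟨h3, by rw [hM]; exact h7, h4.tail, ?_, inc_of hidx hmem rs 0 h5 h6 fun _ _ => Nat.zero_le _⟩, rfl⟩
    intro r hr
    obtain ⟨h, a1, a2, a3⟩ := h2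
    refine ⟨g1, h1, ⟨h, (Nat.pow_le_pow_right (by norm_num) (by omega)).trans a1, a3⟩, ?_⟩
    cases rs with
    | nil => simp at hr
    | cons r' rs =>
      rw [List.head?_cons, Option.mem_some_iff] at hr
      subst hr
      rw [List.isChain_cons_cons] at h4
      exact h4.1
  have hUL := Ub_pos (kc + J)
  refine (gf_mono hsub).trans ((CU_mass hW _).trans ((htot _ _ k1 _ hered_FS le_rfl).trans
    ((mul_le_mul_right (xT_FS (q := q) hK1 (by linarith) hK hW hk1) _).trans ?_)))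
  rw [← ENNReal.ofReal_mul (by have : 0 < UU (2 ^ (kc + J)) := hUL; positivity)]
  apply ENNReal.ofReal_le_ofReal
  obtain ⟨m, hm⟩ : ∃ m, m = kc + J - k1 := ⟨_, rfl⟩
  have hmJ : J ≤ m := by omega
  have hL : kc + J = k1 + m := by omega
  rw [← hm]
  have hr : Ub (kc + J) / Ub k1 ≤ 2 ^ m := by
    rw [div_le_iff₀ (Ub_pos k1), hL]
    exact UU_ratio_up k1 m
  have h1 : q ^ (V * J + 1) ≤ (q ^ (V + 1)) ^ m := by
    rw [← pow_mul]
    apply pow_le_pow_right₀ hq1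
    have : V * J ≤ V * m := Nat.mul_le_mul_left V hmJ
    have : (V + 1) * m = V * m + m := by ring
    omega
  have h2 : 2 + Ub (kc + J) / Ub k1 * q ^ (V * J + 1) ≤ 3 * (2 * q ^ (V + 1)) ^ m := by
    have h3 : Ub (kc + J) / Ub k1 * q ^ (V * J + 1) ≤ 2 ^ m * (q ^ (V + 1)) ^ m :=
      mul_le_mul hr h1 (by positivity) (by positivity)
    have h4 : (1 : ℝ) ≤ 2 ^ m * (q ^ (V + 1)) ^ m := by
      rw [← mul_pow]
      exact one_le_pow₀ (by linarith)
    rw [mul_pow]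
    linarith
  have h5 : 3 * K0 ≤ (3 * K0) ^ m := by
    calc 3 * K0 = (3 * K0) ^ 1 := (pow_one _).symm
      _ ≤ _ := pow_le_pow_right₀ (by linarith) (by omega)
  show K0 * Ub (kc + J) * (2 + Ub (kc + J) / Ub k1 * q ^ (V * J + 1)) ≤ _
  calc K0 * Ub (kc + J) * (2 + Ub (kc + J) / Ub k1 * q ^ (V * J + 1)) ≤
        K0 * Ub (kc + J) * (3 * (2 * q ^ (V + 1)) ^ m) := by gcongr
    _ = 3 * K0 * (2 * q ^ (V + 1)) ^ m * Ub (kc + J) := by ring
    _ ≤ (3 * K0) ^ m * (2 * q ^ (V + 1)) ^ m * Ub (kc + J) := by gcongr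
    _ = (3 * K0 * (2 * q ^ (V + 1))) ^ m * Ub (kc + J) := by rw [← mul_pow]

end PS

end HexObs
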