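import Pool.Agent.PS.Det
import Pool.Agent.PS.Cnt
import Pool.Agent.PS.Rare
import Pool.Agent.PS.EvF
import Pool.Agent.PS.Suf
import Pool.Agent.PS.ClDefs
import Pool.Agent.PS.Num10

/-!
PS, P10: the mass of the prefixes with about k letters and with a free half disc at the end.
-/

set_option autoImplicit false

namespace HexObs

namespace PS

open Finset TS SDN NTm

open scoped ENNReal

/-- the union of five rare sets -/
lemma gf_bad {G B1 B2 B3 B4 B5 : Set (List Bool)} {x y : ℝ} (hy : 0 ≤ y) (hx : 5 * y ≤ x) (hG : ENNReal.ofReal x ≤ gf G)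
    (h1 : gf B1 ≤ ENNReal.ofReal y) (h2 : gf B2 ≤ ENNReal.ofReal y) (h3 : gf B3 ≤ ENNReal.ofReal y)
    (h4 : gf B4 ≤ ENNReal.ofReal y) (h5 : gf B5 ≤ ENNReal.ofReal y) :
    ENNReal.ofReal (x - 5 * y) ≤ gf {t | t ∈ G ∧ t ∉ B1 ∧ t ∉ B2 ∧ t ∉ B3 ∧ t ∉ B4 ∧ t ∉ B5} := by
  have hsub : G ⊆ {t | t ∈ G ∧ t ∉ B1 ∧ t ∉ B2 ∧ t ∉ B3 ∧ t ∉ B4 ∧ t ∉ B5} ∪ (B1 ∪ (B2 ∪ (B3 ∪ (B4 ∪ B5)))) := by
    intro t ht
    by_cases a1 : t ∈ B1
    · exact Or.inr (Or.inl a1)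
    by_cases a2 : t ∈ B2
    · exact Or.inr (Or.inr (Or.inl a2))
    by_cases a3 : t ∈ B3
    · exact Or.inr (Or.inr (Or.inr (Or.inl a3)))
    by_cases a4 : t ∈ B4
    · exact Or.inr (Or.inr (Or.inr (Or.inr (Or.inl a4))))
    by_cases a5 : t ∈ B5
    · exact Or.inr (Or.inr (Or.inr (Or.inr (Or.inr a5))))
    · exact Or.inl ⟨ht, a1, a2, a3, a4, a5⟩
  have h6 : gf (B1 ∪ (B2 ∪ (B3 ∪ (B4 ∪ B5)))) ≤ ENNReal.ofReal (5 * y) := by
    have e : ENNReal.ofReal (5 * y) = ENNReal.ofReal y + (ENNReal.ofReal y + (ENNReal.ofReal y +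
        (ENNReal.ofReal y + ENNReal.ofReal y))) := by
      rw [← ENNReal.ofReal_add hy hy, ← ENNReal.ofReal_add hy (by linarith), ← ENNReal.ofReal_add hy (by linarith),
        ← ENNReal.ofReal_add hy (by linarith)]
      congr 1
      ring
    rw [e]
    refine (gf_union_le _ _).trans (add_le_add h1 ?_)
    refine (gf_union_le _ _).trans (add_le_add h2 ?_)
    refine (gf_union_le _ _).trans (add_le_add h3 ?_)
    exact (gf_union_le _ _).trans (add_le_add h4 h5)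
  have h7 : ENNReal.ofReal (x - 5 * y) + ENNReal.ofReal (5 * y) ≤
      gf {t | t ∈ G ∧ t ∉ B1 ∧ t ∉ B2 ∧ t ∉ B3 ∧ t ∉ B4 ∧ t ∉ B5} + ENNReal.ofReal (5 * y) := by
    rw [← ENNReal.ofReal_add (by linarith) (by linarith), show x - 5 * y + 5 * y = x by ring]
    exact hG.trans ((gf_mono hsub).trans ((gf_union_le _ _).trans (add_le_add le_rfl h6)))
  exact (ENNReal.add_le_add_iff_right ENNReal.ofReal_ne_top).1 h7

/-- **P10: the mass of the prefixes.** -/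
theorem MuW_of
    (hfew : ∃ C c : ℝ, 1 ≤ C ∧ 0 < c ∧ ∀ kc J r0 K a : ℕ, 3 ≤ kc → a ≤ kc → 1 ≤ r0 → r0 ≤ 2 ^ (kc - a) →
      (K : ℝ) ≤ (((2 ^ (kc - a) : ℕ) : ℝ)) ^ (3 / 4 : ℝ) →
      Sm kc {g | g ∈ BrR (2 ^ (kc + 4)) (2 ^ (kc + J)) ∧ ∃ H, g ∈ Brd H ∧ (Ex.cutsIn g r0 (H - r0)).card < K}
        (C * 4 ^ J * (2 : ℝ) ^ (-(c * (a : ℝ)))))
    (htall : ∃ (K : ℝ) (s : ℕ), 1 ≤ K ∧ ∀ kc n : ℕ, 1 ≤ n →
      Sm kc {g | g ∈ CL (kc + 5) ∧ ∃ H, n * 2 ^ (kc + s) ≤ H ∧ g ∈ Brd H} (K / 4 ^ n))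
    (hclose : ∃ (C c : ℝ) (k0 : ℕ), 1 ≤ C ∧ 0 < c ∧ ∀ (kc J e j1 s h0 K a : ℕ) (r : ℤ), k0 ≤ kc → 6 ≤ J → j1 + 3 ≤ e →
      e ≤ kc → 1 ≤ h0 → 1 ≤ K → 2 ^ e + h0 ≤ s → gf (EvF kc J (ClQ r s K a)) ≤
        ENNReal.ofReal (C ^ J * ((2 : ℝ) ^ (kc - e) * (2 : ℝ) ^ (-(c * ((e : ℝ) - j1))) +
          4 ^ (kc - j1) * ((a : ℝ) * (uu h0 / h0) / K)) * Ub (kc + J)))
    (hslow : ∀ b kap Q : ℝ, 0 < b → b < 4 / 3 → 0 < kap → ∃ L0 : ℕ, ∀ L : ℕ, L0 ≤ L →
      gf {t | t ∈ SAL (2 ^ (2 * L)) ∧ ¬ Slo ((2 : ℝ) ^ (kap * L)) b t} ≤ ENNReal.ofReal ((2 : ℝ) ^ (-(Q * L))))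
    (hthin : ∀ b kap Q : ℝ, 4 / 3 < b → 0 < kap → ∃ L0 : ℕ, ∀ L : ℕ, L0 ≤ L → ∀ m s : ℕ, (2 : ℝ) ^ (kap * L) ≤ m →
      (m : ℝ) ^ b ≤ s → gf {t | t ∈ BL L ∧ ∃ i, i + s ≤ t.length ∧ ∀ j j', i ≤ j → j ≤ i + s → i ≤ j' → j' ≤ i + s →
        |lev t j - lev t j'| < 3 * m} ≤ ENNReal.ofReal ((2 : ℝ) ^ (-(Q * L))))
    (hpre : ∀ (kc J k1 : ℕ) (t : List Bool) (ls : List (List Bool)) (g : List Bool) (rs : List (List Bool))
      (V W : List Bool) (a c : ℕ) (r : ℤ), t ∈ BL (kc + J) → Dec kc J t ls g rs → V ∈ Brd a → W ∈ Brd c → g = V ++ W →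
      1 ≤ a → 1 ≤ c → r < a → r < c → 2 ^ (k1 + 4) ≤ c →
      vx oo up (pre ls ++ V) ((pre ls).length + V.length) ∉ nbh r (pre ls) (pre ls).length →
      (∃ σ, PreC r (pre ls ++ V) σ) ∧ unf (W :: rs) ∈ Suf kc J k1) : MuW := by
  intro e he
  obtain ⟨q0, c0, hc0, htyp⟩ := tall_typ
  obtain ⟨CQ, k0Q, hCQ, hev⟩ := ev_q
  obtain ⟨CS, k0S, hCS, hsuf⟩ := suf_mass
  obtain ⟨CF, cF, hCF, hcF, hfewn⟩ := hfew
  obtain ⟨KT, sT, hKT, htalln⟩ := htall
  obtain ⟨CC, cC, k0C, hCC, hcC, hcl⟩ := hclose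
  obtain ⟨Cu, hCu, huu⟩ := T2.uu_le_quarter
  obtain ⟨C, hCd⟩ : ∃ C : ℝ, C = CQ + CS + CF + KT + CC := ⟨_, rfl⟩
  have hC1 : 1 ≤ C := by rw [hCd]; linarith
  have hC0 : 0 < C := by linarith
  obtain ⟨c, hcd⟩ : ∃ c : ℝ, c = min cF cC := ⟨_, rfl⟩
  have hc : 0 < c := by rw [hcd]; exact lt_min hcF hcC
  have hccF : c ≤ cF := by rw [hcd]; exact min_le_left _ _
  have hccC : c ≤ cC := by rw [hcd]; exact min_le_right _ _
  obtain ⟨d, β, β', bt, bs, kap, c1, hd0, hde, hβ0, hβ, hβ', hβ2, hbt, hbs0, hbs, hkap, hc1, hN⟩ :=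
    num10 hC1 hc hc0 hCu sT q0 (k0Q + k0S + k0C + 3) he
  obtain ⟨L1, h1⟩ := htyp β β' hβ hβ'
  obtain ⟨L2, h2⟩ := hslow bs kap 1 hbs0 hbs hkap
  obtain ⟨L3, h3⟩ := hthin bt kap 1 hbt hkap
  obtain ⟨L4, hL4⟩ := exists_nat_ge (16 / c0)
  obtain ⟨k0, hk0⟩ := hN (L1 + L2 + L3 + L4)
  refine ⟨d, hd0, hde, c1 * c0 / 2, k0, by positivity, fun k hk => ?_⟩
  obtain ⟨kc, J, a, R, n, m, r, p1, p2, p3, p4, p5, p6, p7, p8, p9, p10, p11, p12, p13, p14, p15, p16, p17, p18, p19,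
    p20⟩ := hk0 k hk
  obtain ⟨s, hs⟩ : ∃ s : ℕ, s = ⌊(k : ℝ) ^ (1 - d)⌋₊ := ⟨_, rfl⟩
  obtain ⟨K, hK⟩ : ∃ K : ℕ, K = KM kc a := ⟨_, rfl⟩
  obtain ⟨K1, hK1⟩ : ∃ K1 : ℕ, K1 = KM kc a / 2 := ⟨_, rfl⟩
  obtain ⟨r0, hr0⟩ : ∃ r0 : ℕ, r0 = 2 ^ (kc - a) := ⟨_, rfl⟩
  obtain ⟨H0, hH0⟩ : ∃ H0 : ℕ, H0 = n * 2 ^ (kc + sT) := ⟨_, rfl⟩
  obtain ⟨k1, hk1⟩ : ∃ k1 : ℕ, k1 = kc - a - 4 := ⟨_, rfl⟩
  rw [← hs] at p15 p17
  rw [← hK1] at p13
  have hUb := DL.Ub_pos (kc + J)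
  have hUb1 : 1 ≤ Ub (kc + J) := by
    unfold Ub
    rw [Num2Aux.UU_eq]
    have : 0 ≤ ∑ t ∈ Finset.Icc 1 (2 ^ (kc + J)), bT t := Finset.sum_nonneg fun t _ => bT_nonneg t
    linarith
  have hCQC : CQ ^ J ≤ C ^ J := pow_le_pow_left₀ (by linarith) (by rw [hCd]; linarith) J
  have hCCC : CC ^ J ≤ C ^ J := pow_le_pow_left₀ (by linarith) (by rw [hCd]; linarith) J
  -- the rare events
  have hL : (16 / c0 : ℝ) ≤ ((kc + J : ℕ) : ℝ) := hL4.trans (by exact_mod_cast (by omega : L4 ≤ kc + J))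
  have hrare : (2 : ℝ) ^ (-(1 * ((kc + J : ℕ) : ℝ))) ≤ c0 / 16 * Ub (kc + J) := by
    have h5 : ((kc + J : ℕ) : ℝ) < 2 ^ (kc + J) := by exact_mod_cast Nat.lt_two_pow_self
    rw [one_mul, Real.rpow_neg (by norm_num), Real.rpow_natCast]
    have h7 : (0 : ℝ) < 2 ^ (kc + J) := by positivity
    have h8 : ((2 : ℝ) ^ (kc + J))⁻¹ ≤ c0 / 16 := by
      rw [inv_le_comm₀ h7 (by positivity), inv_div]
      exact hL.trans h5.le
    have h9 : 0 ≤ c0 / 16 := by positivity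
    nlinarith
  have b1 : gf (EvQ kc J {g | g ∈ BrR (2 ^ (kc + 4)) (2 ^ (kc + J)) ∧ ∃ H, g ∈ Brd H ∧
      (Ex.cutsIn g r0 (H - r0)).card < K}) ≤ ENNReal.ofReal (c0 / 16 * Ub (kc + J)) := by
    have hKr : (K : ℝ) ≤ (((2 ^ (kc - a) : ℕ) : ℝ)) ^ (3 / 4 : ℝ) := by
      rw [hK]
      unfold KM
      push_cast
      exact Nat.floor_le (by positivity)
    refine (hev kc J _ _ (by omega) (by omega) (by positivity) (hfewn kc J r0 K a (by omega) (by omega)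
      (by rw [hr0]; exact Nat.one_le_two_pow) (by rw [hr0]) hKr)).trans (ENNReal.ofReal_le_ofReal ?_)
    refine mul_le_mul_of_nonneg_right ?_ hUb.le
    refine le_trans ?_ p10
    apply mul_le_mul hCQC _ (by positivity) (by positivity)
    apply mul_le_mul _ _ (by positivity) (by positivity)
    · exact mul_le_mul_of_nonneg_right (by rw [hCd]; linarith) (by positivity)
    · apply Real.rpow_le_rpow_of_exponent_le (by norm_num)
      have h5 : (0 : ℝ) ≤ a := Nat.cast_nonneg _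
      nlinarith
  have b2 : gf (EvQ kc J {g | g ∈ CL (kc + 5) ∧ ∃ H, H0 ≤ H ∧ g ∈ Brd H}) ≤
      ENNReal.ofReal (c0 / 16 * Ub (kc + J)) := by
    rw [hH0]
    refine (hev kc J _ _ (by omega) (by omega) (by positivity) (htalln kc n p5)).trans (ENNReal.ofReal_le_ofReal ?_)
    refine mul_le_mul_of_nonneg_right ?_ hUb.le
    refine le_trans ?_ p11
    apply mul_le_mul hCQC _ (by positivity) (by positivity)
    exact div_le_div_of_nonneg_right (by rw [hCd]; linarith) (by positivity)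
  have b3 : gf (EvF kc J (ClQ r r0 K1 (aM β' bs (kc + J) r))) ≤ ENNReal.ofReal (c0 / 16 * Ub (kc + J)) := by
    have hr0e : 2 ^ (kc - a - 1) + 2 ^ (kc - a - 1) ≤ r0 := by
      rw [hr0, ← two_mul, ← pow_succ']
      exact Nat.pow_le_pow_right (by norm_num) (by omega)
    refine (hcl kc J (kc - a - 1) (kc - a - 1 - R) r0 (2 ^ (kc - a - 1)) K1 (aM β' bs (kc + J) r) r (by omega) (by omega)
      (by omega) (by omega) Nat.one_le_two_pow p13 hr0e).trans (ENNReal.ofReal_le_ofReal ?_)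
    refine mul_le_mul_of_nonneg_right ?_ hUb.le
    have hx := huu (2 ^ (kc - a - 1)) Nat.one_le_two_pow
    push_cast at hx
    have hx0 : 0 ≤ uu (2 ^ (kc - a - 1)) := TH7.uu_nonneg _
    refine le_trans ?_ (p12 _ hx0 hx)
    apply mul_le_mul hCCC _ (by positivity) (by positivity)
    have e1 : kc - (kc - a - 1) = a + 1 := by omega
    have e2 : kc - (kc - a - 1 - R) = a + 1 + R := by omega
    have e3 : (((kc - a - 1 : ℕ) : ℝ)) - ((kc - a - 1 - R : ℕ) : ℝ) = R := by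
      rw [Nat.cast_sub (by omega : R ≤ kc - a - 1)]
      ring
    rw [e1, e2, e3, hK1]
    push_cast
    apply add_le_add _ le_rfl
    apply mul_le_mul_of_nonneg_left _ (by positivity)
    apply Real.rpow_le_rpow_of_exponent_le (by norm_num)
    have h5 : (0 : ℝ) ≤ R := Nat.cast_nonneg _
    nlinarith
  have b4 : gf {t | t ∈ SAL (2 ^ (2 * (kc + J))) ∧ ¬ Slo ((2 : ℝ) ^ (kap * ((kc + J : ℕ) : ℝ))) bs t} ≤
      ENNReal.ofReal (c0 / 16 * Ub (kc + J)) := (h2 (kc + J) (by omega)).trans (ENNReal.ofReal_le_ofReal hrare)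
  have b5 := (h3 (kc + J) (by omega) m s p14 p15).trans (ENNReal.ofReal_le_ofReal hrare)
  have hG := gf_bad (x := c0 * Ub (kc + J)) (y := c0 / 16 * Ub (kc + J)) (by positivity) (by nlinarith)
    (h1 (kc + J) (by omega)) b1 b2 b3 b4 b5
  -- the split positions
  have hcnt := count_split (K := K - K1)
    (P := {t | (∃ σ, PreC ⌈(k : ℝ) ^ (3 / 4 - e)⌉ t σ) ∧ (k : ℝ) - (k : ℝ) ^ (1 - d) ≤ t.length ∧ t.length ≤ k})
    (S := Suf kc J k1) (G := {t | t ∈ {t | t ∈ TallB q0 (kc + J) ∧ (2 : ℝ) ^ (β * ((kc + J : ℕ) : ℝ)) < t.length ∧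
      (t.length : ℝ) < (2 : ℝ) ^ (β' * ((kc + J : ℕ) : ℝ))} ∧
      t ∉ EvQ kc J {g | g ∈ BrR (2 ^ (kc + 4)) (2 ^ (kc + J)) ∧ ∃ H, g ∈ Brd H ∧ (Ex.cutsIn g r0 (H - r0)).card < K} ∧
      t ∉ EvQ kc J {g | g ∈ CL (kc + 5) ∧ ∃ H, H0 ≤ H ∧ g ∈ Brd H} ∧
      t ∉ EvF kc J (ClQ r r0 K1 (aM β' bs (kc + J) r)) ∧
      t ∉ {t | t ∈ SAL (2 ^ (2 * (kc + J))) ∧ ¬ Slo ((2 : ℝ) ^ (kap * ((kc + J : ℕ) : ℝ))) bs t} ∧
      t ∉ {t | t ∈ BL (kc + J) ∧ ∃ i, i + s ≤ t.length ∧ ∀ j j', i ≤ j → j ≤ i + s → i ≤ j' → j' ≤ i + s →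
        |lev t j - lev t j'| < 3 * m}}) ?_
  · -- the conclusion
    have hS := hsuf kc J k1 (by omega) (by omega) (by omega)
    have e1 : kc + J - k1 = J + a + 4 := by omega
    rw [e1] at hS
    have hCS' : CS ^ (J + a + 4) ≤ C ^ (J + a + 4) := pow_le_pow_left₀ (by linarith) (by rw [hCd]; linarith) _
    obtain ⟨Z, hZ⟩ : ∃ Z : ℝ, Z = C ^ (J + a + 4) * Ub (kc + J) := ⟨_, rfl⟩
    have hZ0 : 0 < Z := by rw [hZ]; positivity
    have hS' : gf (Suf kc J k1) ≤ ENNReal.ofReal Z := by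
      refine hS.trans (ENNReal.ofReal_le_ofReal ?_)
      rw [hZ]
      exact mul_le_mul_of_nonneg_right hCS' hUb.le
    have h5 : ENNReal.ofReal (c1 * c0 / 2 * (k : ℝ) ^ (9 / 16 - e)) * ENNReal.ofReal Z ≤
        ((K - K1 : ℕ) : ℝ≥0∞) * ENNReal.ofReal (c0 * Ub (kc + J) - 5 * (c0 / 16 * Ub (kc + J))) := by
      rw [← ENNReal.ofReal_natCast, ← ENNReal.ofReal_mul (by positivity), ← ENNReal.ofReal_mul (by positivity)]
      apply ENNReal.ofReal_le_ofReal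
      rw [← hK1, ← hK] at p20
      rw [hZ]
      have h6 : c1 * c0 / 2 * (k : ℝ) ^ (9 / 16 - e) * (C ^ (J + a + 4) * Ub (kc + J)) =
          (c1 * (k : ℝ) ^ (9 / 16 - e) * C ^ (J + a + 4)) * (c0 / 2 * Ub (kc + J)) := by ring
      rw [h6]
      apply mul_le_mul p20 _ (by positivity) (Nat.cast_nonneg _)
      nlinarith
    have h6 : ENNReal.ofReal (c1 * c0 / 2 * (k : ℝ) ^ (9 / 16 - e)) * ENNReal.ofReal Z ≤
        gf {t | (∃ σ, PreC ⌈(k : ℝ) ^ (3 / 4 - e)⌉ t σ) ∧ (k : ℝ) - (k : ℝ) ^ (1 - d) ≤ t.length ∧ t.length ≤ k} *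
          ENNReal.ofReal Z :=
      h5.trans ((mul_le_mul_right hG _).trans (hcnt.trans (mul_le_mul_right hS' _)))
    have h7 : ENNReal.ofReal Z ≠ 0 := by
      rw [Ne, ENNReal.ofReal_eq_zero, not_le]
      exact hZ0
    exact (ENNReal.mul_le_mul_iff_left h7 ENNReal.ofReal_ne_top).1 h6
  · rintro t ⟨⟨⟨hBL, T, hT, htT⟩, ht1, ht2⟩, n1, n2, n3, n4, n5⟩
    have hkt : k ≤ t.length := by
      have : (k : ℝ) < t.length := lt_of_le_of_lt p9 ht1
      exact_mod_cast this.le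
    have hslo : Slo ((2 : ℝ) ^ (kap * ((kc + J : ℕ) : ℝ))) bs t := by
      by_contra hcon
      apply n4
      refine ⟨⟨hBL.2.1, ?_⟩, hcon⟩
      have h5 : (t.length : ℝ) ≤ ((2 ^ (2 * (kc + J)) : ℕ) : ℝ) := by
        refine ht2.le.trans ?_
        push_cast
        rw [← Real.rpow_natCast 2 (2 * (kc + J))]
        apply Real.rpow_le_rpow_of_exponent_le (by norm_num)
        push_cast
        have h6 : (0 : ℝ) ≤ (kc : ℝ) + J := by positivity
        nlinarith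
      exact_mod_cast h5
    have hT' : 2 ^ (kc + 6) ≤ T := (Nat.pow_le_pow_right (by norm_num) (by omega)).trans hT
    obtain ⟨X, hX1, hX2⟩ := det (kc := kc) (J := J) (k1 := k1) (r0 := r0) (K := K) (K' := K1) (H0 := H0) (i := k - s)
      (s := s) (r := r) hBL htT hT' (by omega) (by omega)
      (by
        intro ls g rs H hD hg
        by_contra hcon
        push Not at hcon
        exact n1 ⟨hBL, ls, g, rs, hD, hD.mem g (by simp), H, hg, hcon⟩)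
      (by
        intro ls g rs H hD hg1 hg2
        by_contra hcon
        push Not at hcon
        exact n2 ⟨hBL, ls, g, rs, hD, hg1, H, hcon, hg2⟩)
      (by
        intro ls g rs hD hls F hF
        by_contra hcon
        push Not at hcon
        apply n3
        refine ⟨hBL, ls, g, rs, hD, hls, ?_, F, hcon.le, hF⟩
        have hpt : t = pre ls ++ unf (g :: rs) := by
          rw [← hD.eq, unf_pre]
        have hpl : (pre ls).length ≤ t.length := by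
          rw [hpt, List.length_append]
          omega
        have heq : nbh r (pre ls) (pre ls).length = Nb ((3 * r : ℕ) : ℤ) t (pre ls).length := by
          rw [nbh_eq]
          ext x
          constructor
          · rintro ⟨i, hi, h⟩
            refine ⟨i, hi, fun dir => ?_⟩
            have h5 := h dir
            rw [hpt, vx_append (by omega)]
            push_cast
            exact h5
          · rintro ⟨i, hi, h⟩
            refine ⟨i, hi, fun dir => ?_⟩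
            have h5 := h dir
            rw [hpt, vx_append (by omega)] at h5
            push_cast at h5
            exact h5
        rw [heq]
        have h5 := (Nb_slow hbs0.le hslo (R := 3 * r) (by omega) (by have h5 := p18; push_cast at h5 ⊢; exact h5) hpl).2
        have h6 : ((Nb ((3 * r : ℕ) : ℤ) t (pre ls).length).ncard : ℝ) ≤ (aM β' bs (kc + J) r : ℝ) := by
          refine h5.trans ?_
          unfold aM
          refine le_trans ?_ (Nat.le_ceil _)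
          push_cast
          apply mul_le_mul_of_nonneg_left _ (by norm_num)
          apply add_le_add _ le_rfl
          apply mul_le_mul_of_nonneg_right _ (by positivity)
          have h7 : ((pre ls).length : ℝ) ≤ t.length := by exact_mod_cast hpl
          have h8 := ht2.le
          push_cast at h8
          exact h7.trans h8
        exact_mod_cast h6)
      (by
        intro m' u' e' l ls g rs V W a' c' _ _ hD _ _ hg hV hW ha' hc' hfar
        have h5 : (r : ℤ) < r0 := by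
          rw [hr0]
          exact_mod_cast p8
        have h6 : 1 ≤ r0 := by rw [hr0]; exact Nat.one_le_two_pow
        refine hpre kc J k1 t ls g rs V W a' c' r hBL hD hV hW hg (by omega) (by omega) ?_ ?_ ?_ hfar
        · have : (r0 : ℤ) ≤ a' := by exact_mod_cast ha'
          omega
        · have : (r0 : ℤ) ≤ c' := by exact_mod_cast hc'
          omega
        · refine le_trans (le_of_eq ?_) hc'
          rw [hr0]
          congr 1
          omega)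
      (by
        rintro W c' hW hc' rfl
        have h5 : c' = 0 := Brd_height hW (by rw [Brd_zero]; rfl)
        have h6 : 1 ≤ r0 := by rw [hr0]; exact Nat.one_le_two_pow
        omega)
      (by
        by_contra hcon
        push Not at hcon
        apply n5
        refine ⟨hBL, k - s, by omega, fun j j' a1 a2 a3 a4 => ?_⟩
        have h5 := hcon j j' ⟨a1, a2⟩ ⟨a3, a4⟩
        have h6 : (6 * (H0 : ℤ) + 8) ≤ 3 * m := by
          rw [hH0]
          exact_mod_cast p16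
        omega)
    refine ⟨X, by omega, fun x hx => ?_⟩
    obtain ⟨x1, x2, ⟨σ, x3⟩, x4⟩ := hX2 x hx
    have hxk : x ≤ k := by omega
    have hlen : (t.take x).length = x := by
      rw [List.length_take]
      omega
    refine ⟨by omega, ⟨⟨σ, x3.mono ?_⟩, ?_, ?_⟩, x4⟩
    · rw [Int.ceil_le]
      exact_mod_cast p19
    · rw [hlen]
      have h5 : (s : ℝ) ≤ (k : ℝ) ^ (1 - d) := by
        rw [hs]
        exact Nat.floor_le (by positivity)
      have h6 : ((k - s : ℕ) : ℝ) ≤ x := by exact_mod_cast x1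
      rw [Nat.cast_sub (by omega)] at h6
      linarith
    · rw [hlen]
      exact hxk

end PS

end HexObs
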