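import Pool.Agent.PHW.AntiC
import Pool.Agent.PHW.JumpV
import Pool.Agent.TightS.SBasic

/-!
PS, P4: the last vertex of a free bridge of height at least h0 lies in a finite set A with a weight of at most
C |A| u(h0) / h0.
-/

set_option autoImplicit false

namespace HexObs

namespace PS

open Finset TS

open scoped ENNReal

/-- **The end of a free bridge.** -/
theorem spread : ∃ C : ℝ, 0 < C ∧ ∀ h0 : ℕ, 1 ≤ h0 → ∀ A : Set Pt, A.Finite →
    gf {t | t ∈ BU ∧ h0 ≤ hgt t ∧ vx oo up t t.length ∈ A} ≤ ENNReal.ofReal (C * (uu h0 / h0) * A.ncard) := by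
  classical
  obtain ⟨C, hC, hend⟩ := anti_end
  refine ⟨C, hC, fun h0 hh0 A hA => ?_⟩
  have hh0R : (0 : ℝ) < h0 := by exact_mod_cast hh0
  obtain ⟨I, hI⟩ : ∃ I : Finset Pt, I = hA.toFinset := ⟨_, rfl⟩
  have hIA : ∀ p, p ∈ I ↔ p ∈ A := fun p => by rw [hI, Set.Finite.mem_toFinset]
  have hcard : A.ncard = I.card := by rw [hI]; exact Set.ncard_eq_toFinset_card _ hA
  have hsub : {t | t ∈ BU ∧ h0 ≤ hgt t ∧ vx oo up t t.length ∈ A} ⊆
      ⋃ p ∈ I, {t | t ∈ BU ∧ h0 ≤ hgt t ∧ vx oo up t t.length = p} := by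
    rintro t ⟨h1, h2, h3⟩
    rw [Set.mem_iUnion₂]
    exact ⟨_, (hIA _).2 h3, h1, h2, rfl⟩
  have hone : ∀ p ∈ I, gf {t | t ∈ BU ∧ h0 ≤ hgt t ∧ vx oo up t t.length = p} ≤
      ENNReal.ofReal (C * (uu h0 / h0)) := by
    intro p _
    by_cases hne : ∃ t0, t0 ∈ BU ∧ h0 ≤ hgt t0 ∧ vx oo up t0 t0.length = p
    · obtain ⟨t0, ⟨n, hn⟩, h2, h3⟩ := hne
      rw [hgt_eq hn] at h2
      have hsub2 : {t | t ∈ BU ∧ h0 ≤ hgt t ∧ vx oo up t t.length = p} ⊆ {t | t ∈ Brd n ∧ latE t = latE t0} := by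
        rintro t ⟨⟨m, hm⟩, h4, h5⟩
        have e1 : lev t t.length = lev t0 t0.length := by
          unfold lev
          rw [h5, h3]
        rw [(mem_Brd.1 hm).2.2.2, (mem_Brd.1 hn).2.2.2] at e1
        obtain rfl : m = n := by omega
        refine ⟨hm, ?_⟩
        unfold latE lat
        rw [h5, h3]
      refine (gf_mono hsub2).trans ((hend n (hh0.trans h2) _).trans (ENNReal.ofReal_le_ofReal ?_))
      apply mul_le_mul_of_nonneg_left _ hC.le
      have hnR : (h0 : ℝ) ≤ n := by exact_mod_cast h2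
      exact div_le_div₀ (uu_pos _).le (uu_anti h2) hh0R hnR
    · have : {t | t ∈ BU ∧ h0 ≤ hgt t ∧ vx oo up t t.length = p} = ∅ := by
        rw [Set.eq_empty_iff_forall_notMem]
        exact fun t ht => hne ⟨t, ht⟩
      rw [this]
      unfold gf
      simp
  refine (gf_mono hsub).trans ((JumpVaux.gf_biUnion_le I _).trans ((Finset.sum_le_sum hone).trans ?_))
  rw [Finset.sum_const, nsmul_eq_mul, hcard, ← ENNReal.ofReal_natCast, ← ENNReal.ofReal_mul (Nat.cast_nonneg _)]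
  apply ENNReal.ofReal_le_ofReal
  rw [mul_comm]

end PS

end HexObs
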