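import Pool.Agent.BAR.Lat
import Pool.Agent.BAR1.Join

/-!
PS (pointwise lower bound, short route), P3b, part A: an infix with small vertical extent is flat, or it contains an
infix that starts in the direction ± up.
-/

set_option autoImplicit false

namespace HexObs

namespace PS

open Finset SDN PLW BAR

open scoped ENNReal

/-- the infix with s letters from the position i has a vertical extent of less than m rows -/
def FlatI (m i s : ℕ) (t : List Bool) : Prop :=
  i + s ≤ t.length ∧ ∀ j j', i ≤ j → j ≤ i + s → i ≤ j' → j' ≤ i + s → |lev t j - lev t j'| < 3 * m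

/-- words whose turns alternate -/
def Alt (k : ℕ) : Set (List Bool) := {w | w.length = k ∧ ∀ j, j + 1 < k → tf w (j + 1) = !(tf w j)}

lemma turn_axis : ∀ d ∈ dirs, ∀ b : Bool, (d = up ∨ d = -up) ∨ (turn b d = up ∨ turn b d = -up) ∨
    (turn b (turn b d) = up ∨ turn b (turn b d) = -up) := by
  decide

/-- two equal turns in succession give a vertical step -/
lemma vert {t : List Bool} {j : ℕ} (h : tf t (j + 1) = tf t j) : ∃ p, j ≤ p ∧ p ≤ j + 2 ∧
    ∃ σ : ℤ, (σ = 1 ∨ σ = -1) ∧ dx up t p = σ • up := by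
  have h1 : dx up t (j + 1) = turn (tf t j) (dx up t j) := dx_succ up t j
  have h2 : dx up t (j + 2) = turn (tf t j) (turn (tf t j) (dx up t j)) := by
    rw [← h1]
    have := dx_succ up t (j + 1)
    rw [h] at this
    exact this
  have key : ∀ p, (dx up t p = up ∨ dx up t p = -up) → ∃ σ : ℤ, (σ = 1 ∨ σ = -1) ∧ dx up t p = σ • up := by
    intro p hp
    rcases hp with hp | hp
    · exact ⟨1, Or.inl rfl, by rw [hp, one_smul]⟩
    · exact ⟨-1, Or.inr rfl, by rw [hp, neg_smul, one_smul]⟩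
  rcases turn_axis (dx up t j) (dx_mem up_dirs t j) (tf t j) with h3 | h3 | h3
  · exact ⟨j, le_rfl, by omega, key j h3⟩
  · exact ⟨j + 1, by omega, by omega, key (j + 1) (by rw [h1]; exact h3)⟩
  · exact ⟨j + 2, by omega, by omega, key (j + 2) (by rw [h2]; exact h3)⟩

lemma tf_drop_take (t : List Bool) {i k j : ℕ} (hj : j < k) (hk : i + k ≤ t.length) :
    tf ((t.drop i).take k) j = tf t (i + j) := by
  unfold tf
  rw [List.getD_eq_getElem _ _ (by rw [List.length_take, List.length_drop]; omega),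
    List.getD_eq_getElem _ _ (by omega)]
  simp

/-- **the two cases** -/
lemma flat_cases {m i s k : ℕ} {t : List Bool} (ht : t ∈ SA) (h : FlatI m i s t) (hk : 2 * k ≤ s) :
    (∃ i', (t.drop i').take k ∈ Alt k) ∨
    ∃ p, (t.drop p).take k ∈ {w | w ∈ YS (3 * m) ∧ w.length = k} := by
  obtain ⟨h1, h2⟩ := h
  by_cases hc : ∀ j, j + 1 < k → tf t (i + j + 1) = !(tf t (i + j))
  · left
    refine ⟨i, by rw [List.length_take, List.length_drop]; omega, fun j hj => ?_⟩
    rw [tf_drop_take t hj (by omega), tf_drop_take t (by omega : j < k) (by omega)]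
    exact hc j hj
  · right
    push Not at hc
    obtain ⟨j, j1, j2⟩ := hc
    have j3 : tf t (i + j + 1) = tf t (i + j) := by
      cases h3 : tf t (i + j) <;> cases h4 : tf t (i + j + 1) <;> simp_all
    obtain ⟨p, p1, p2, σ, p3, p4⟩ := vert j3
    refine ⟨p, ?_, by rw [List.length_take, List.length_drop]; omega⟩
    have hp : p + k ≤ i + s := by omega
    refine ⟨?_, fun l hl => ?_⟩
    · exact SA_take (SA_drop ht p) k
    · rw [List.length_take, List.length_drop] at hl
      have hlk : l ≤ k := hl.trans (min_le_left _ _)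
      have e1 : lev ((t.drop p).take k) l = lev (t.drop p) l := by
        unfold lev
        congr 1
        have h5 := vx_append (v0 := oo) (d0 := up) (t := (t.drop p).take k) (s := (t.drop p).drop k) (i := l)
          (by rw [List.length_take, List.length_drop]; omega)
        rw [List.take_append_drop] at h5
        exact h5.symm
      have e2 := lev_dropS p3 p4 l
      have e3 := h2 (p + l) p (by omega) (by omega) (by omega) (by omega)
      rw [e1]
      rw [e2] at e3
      have e4 : |lev (t.drop p) l| = |lev t p + σ * lev (t.drop p) l - lev t p| := by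
        rw [add_sub_cancel_left, abs_mul]
        rcases p3 with rfl | rfl <;> simp
      rw [e4]
      push_cast
      exact e3.le

/-- weight of the alternating words -/
lemma gf_Alt (k : ℕ) : gf (Alt k) ≤ ENNReal.ofReal (2 * xc ^ k) := by
  classical
  have hx := xc_pos
  have hfin : (Alt k).Finite := (List.finite_length_eq Bool k).subset fun _ h => h.1
  have hcard : hfin.toFinset.card ≤ 2 := by
    have h1 : Set.InjOn (fun w : List Bool => tf w 0) (hfin.toFinset : Set (List Bool)) := by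
      intro w hw w' hw' h
      rw [Set.Finite.coe_toFinset] at hw hw'
      obtain ⟨a1, a2⟩ := hw
      obtain ⟨b1, b2⟩ := hw'
      have key : ∀ j, j < k → tf w j = tf w' j := by
        intro j
        induction j with
        | zero => intro _; exact h
        | succ j ih =>
          intro hj
          rw [a2 j hj, b2 j hj, ih (by omega)]
      refine List.ext_getElem (by rw [a1, b1]) fun j c1 c2 => ?_
      have := key j (by omega)
      unfold tf at this
      rwa [List.getD_eq_getElem _ _ c1, List.getD_eq_getElem _ _ c2] at this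
    calc hfin.toFinset.card ≤ (Finset.univ : Finset Bool).card :=
          Finset.card_le_card_of_injOn (fun w : List Bool => tf w 0) (fun _ _ => Finset.mem_univ _) h1
      _ = 2 := rfl
  have h2 : gf (Alt k) = ENNReal.ofReal (∑ t ∈ hfin.toFinset, xc ^ t.length) := by
    have := gf_finset hfin.toFinset
    rwa [Set.Finite.coe_toFinset] at this
  rw [h2]
  apply ENNReal.ofReal_le_ofReal
  have h3 : ∀ w ∈ hfin.toFinset, xc ^ w.length = xc ^ k := by
    intro w hw
    rw [Set.Finite.mem_toFinset] at hw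
    rw [hw.1]
  rw [Finset.sum_congr rfl h3, Finset.sum_const, nsmul_eq_mul]
  refine mul_le_mul_of_nonneg_right ?_ (by positivity)
  exact_mod_cast hcard

/-- weight of the words that contain an infix of the set A -/
lemma gf_inf (Λ : ℕ) (A : Set (List Bool)) :
    gf {t | t ∈ SAL Λ ∧ ∃ i k, (t.drop i).take k ∈ A} ≤ gf (SAL Λ) ^ 2 * gf A := by
  have h1 : gf {t | t ∈ SAL Λ ∧ ∃ i k, (t.drop i).take k ∈ A} ≤
      gf (SAL Λ) * gf {s | ∃ w ∈ A, ∃ v ∈ SAL Λ, s = w ++ v} := by
    refine gf_le_mul ?_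
    rintro t ⟨ht, i, k, hw⟩
    have hl : t.length ≤ Λ := ht.2
    refine ⟨t.take i, ⟨SA_take ht.1 i, by rw [List.length_take]; omega⟩, t.drop i, ⟨_, hw, (t.drop i).drop k, ⟨?_, ?_⟩,
      (List.take_append_drop k _).symm⟩, (List.take_append_drop i t).symm⟩
    · exact SA_drop (SA_drop ht.1 i) k
    · rw [List.length_drop, List.length_drop]
      omega
  have h2 : gf {s | ∃ w ∈ A, ∃ v ∈ SAL Λ, s = w ++ v} ≤ gf A * gf (SAL Λ) := gf_le_mul fun t ht => ht
  calc gf {t | t ∈ SAL Λ ∧ ∃ i k, (t.drop i).take k ∈ A} ≤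
      gf (SAL Λ) * gf {s | ∃ w ∈ A, ∃ v ∈ SAL Λ, s = w ++ v} := h1
    _ ≤ gf (SAL Λ) * (gf A * gf (SAL Λ)) := mul_le_mul_right h2 _
    _ = gf (SAL Λ) ^ 2 * gf A := by ring

/-- the three pieces of the bound -/
theorem flat_le (L m s k l : ℕ) (hk : 2 * k ≤ s) (hl : 2 ≤ l) (hml : m + 6 ≤ 2 ^ (l - 1)) {x : ℝ} (hx : x ≤ k) :
    gf {t | t ∈ WL L ∧ ∃ i, FlatI m i s t} ≤ gf (SAL (100 * 4 ^ L)) ^ 2 *
      (gf (Alt k) + (gf {t | t ∈ WL l ∧ x ≤ t.length} + gf (FY (3 * m) k (6 * ((2 ^ (l - 2) : ℕ) : ℤ) + 18)))) := by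
  obtain ⟨A, hA⟩ : ∃ A : Set (List Bool), A = Alt k ∪ {w | w ∈ YS (3 * m) ∧ w.length = k} := ⟨_, rfl⟩
  have hsub : {t | t ∈ WL L ∧ ∃ i, FlatI m i s t} ⊆ {t | t ∈ SAL (100 * 4 ^ L) ∧ ∃ i k, (t.drop i).take k ∈ A} := by
    rintro t ⟨ht, i, hi⟩
    refine ⟨⟨ht.1, WL_length ht⟩, ?_⟩
    rw [hA]
    rcases flat_cases ht.1 hi hk with ⟨i', h⟩ | ⟨p, h⟩
    · exact ⟨i', k, Or.inl h⟩
    · exact ⟨p, k, Or.inr h⟩
  refine (gf_mono hsub).trans ((gf_inf _ _).trans (mul_le_mul_right ?_ _))
  rw [hA]
  refine (gf_union_le _ _).trans (add_le_add le_rfl ?_)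
  have hsub2 : {w | w ∈ YS (3 * m) ∧ w.length = k} ⊆ {t | t ∈ WL l ∧ x ≤ t.length} ∪
      FY (3 * m) k (6 * ((2 ^ (l - 2) : ℕ) : ℤ) + 18) := by
    rintro w ⟨h1, h2⟩
    by_cases h3 : w ∈ WL l
    · left
      exact ⟨h3, by rw [h2]; exact hx⟩
    · right
      exact ⟨h1, h2.le, far_of h1 hl hml h3⟩
  exact (gf_mono hsub2).trans (gf_union_le _ _)

end PS

end HexObs
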