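import Pool.Agent.PS.LeafIn
import Pool.Agent.PS.ThinA
import Pool.Agent.PS.Geo1

/-!
PS (pointwise lower bound, short route), P3: a window of s letters of a bridge of the box contains a whole leaf, if no leaf
is tall and the window is not flat.
-/

set_option autoImplicit false

namespace HexObs

namespace PS

open Finset TS SDN NTm

variable {kc J m u : ℕ} {t : List Bool} {e : ℕ → ℕ}

/-- all the leaves have a height below H0 -/
theorem leaf_short (ht : t ∈ BL (kc + J)) (h : Lf false (kc + 5) t m u e) {H0 : ℕ}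
    (hT : t ∉ EvQ kc J {g | g ∈ CL (kc + 5) ∧ ∃ H, H0 ≤ H ∧ g ∈ Brd H}) :
    ∀ l, l < m → ∃ g H, IsLf t m e l g ∧ g ∈ Brd H ∧ H < H0 := by
  intro l hl
  obtain ⟨ls, g, rs, h1, h2, -⟩ := geo_dec ht h hl
  obtain ⟨T, hT'⟩ : ∃ T, t ∈ Brd T := by
    simpa [BU] using ht.1
  obtain ⟨H, -, -, h5⟩ := h1.mem g (by simp)
  refine ⟨g, H, h2, h5, ?_⟩
  by_contra hcon
  exact hT ⟨ht, ls, g, rs, h1, leaf_CL hT' (by omega) h hl h2, H, not_lt.1 hcon, h5⟩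

/-- **a window that is not flat contains a whole leaf** -/
theorem win_leaf (ht : t ∈ BL (kc + J)) (h : Lf false (kc + 5) t m u e) {H0 : ℕ} (hH : 2 ^ (kc + 5) ≤ H0)
    (hT : t ∉ EvQ kc J {g | g ∈ CL (kc + 5) ∧ ∃ H, H0 ≤ H ∧ g ∈ Brd H}) {i s : ℕ} (hs : i + s ≤ t.length)
    (hF : ¬ FlatI (2 * H0 + 3) i s t) :
    ∃ l, l < m ∧ i ≤ st e l ∧ i ≤ ee m t.length e l ∧ ee m t.length e (l + 1) ≤ i + s := by
  obtain ⟨T, hT'⟩ : ∃ T, t ∈ Brd T := by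
    simpa [BU] using ht.1
  have h1 : ∃ j j', i ≤ j ∧ j ≤ i + s ∧ i ≤ j' ∧ j' ≤ i + s ∧ 3 * ((2 * H0 + 3 : ℕ) : ℤ) ≤ |lev t j - lev t j'| := by
    by_contra hcon
    push Not at hcon
    exact hF ⟨hs, fun j j' a1 a2 a3 a4 => hcon j j' a1 a2 a3 a4⟩
  obtain ⟨j, j', a1, a2, a3, a4, a5⟩ := h1
  exact leaf_in hT' (by omega) h hH (leaf_short ht h hT) hs a1 a2 a3 a4 (by push_cast at a5; omega)

end PS

end HexObs
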